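import Mathlib

/-!
Module Avg (0.4h; Mathlib only). Choice by averaging.
PROOF. ∑_a ∑_b (1[¬P a] + 1[P a ∧ ¬Q a b] + ∑_i w i a b) ≤ (1/8 + 1/8 + 4/8) |A| |B| < |A| |B|, so for some (a, b) the sum is < 1.
-/

open scoped BigOperators

namespace Pool.Agent.Lib.P47j

theorem avg4 {A B : Type} [Fintype A] [Fintype B] [Nonempty A] [Nonempty B] (P : A → Prop)
    (Q : A → B → Prop) (w : Fin 4 → A → B → ℝ)
    (hP : 8 * (Nat.card {a // ¬ P a} : ℝ) ≤ Fintype.card A)
    (hQ : ∀ a, P a → 8 * (Nat.card {b // ¬ Q a b} : ℝ) ≤ Fintype.card B)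
    (hw0 : ∀ i a b, 0 ≤ w i a b)
    (hw : ∀ i, 8 * ∑ a, ∑ b, w i a b ≤ (Fintype.card A : ℝ) * Fintype.card B) :
    ∃ a b, P a ∧ Q a b ∧ ∀ i, w i a b < 1 := by
  classical
  by_contra hcon
  push Not at hcon
  have hkey : ∀ a b, (1 : ℝ) ≤ (if ¬ P a then 1 else 0) + (if P a ∧ ¬ Q a b then 1 else 0)
      + ∑ i, w i a b := by
    intro a b
    have hs : 0 ≤ ∑ i, w i a b := Finset.sum_nonneg (fun i _ => hw0 i a b)
    by_cases h1 : P a
    · by_cases h2 : Q a b
      · obtain ⟨i, hi⟩ := hcon a b h1 h2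
        have h3 : w i a b ≤ ∑ i, w i a b :=
          Finset.single_le_sum (fun i _ => hw0 i a b) (Finset.mem_univ i)
        rw [if_neg (not_not.2 h1), if_neg (fun h => h.2 h2)]
        linarith
      · rw [if_neg (not_not.2 h1), if_pos ⟨h1, h2⟩]
        linarith
    · rw [if_pos h1, if_neg (fun h => h1 h.1)]
      linarith
  have hsum : (Fintype.card A : ℝ) * Fintype.card B ≤
      ∑ a, ∑ b, ((if ¬ P a then 1 else 0) + (if P a ∧ ¬ Q a b then 1 else 0)
        + ∑ i, w i a b) := by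
    have h1 : (Fintype.card A : ℝ) * Fintype.card B = ∑ _a : A, ∑ _b : B, (1 : ℝ) := by
      simp
    rw [h1]
    exact Finset.sum_le_sum (fun a _ => Finset.sum_le_sum (fun b _ => hkey a b))
  have hsplit : ∑ a, ∑ b, (((if ¬ P a then 1 else 0) : ℝ) + (if P a ∧ ¬ Q a b then 1 else 0)
        + ∑ i, w i a b) = (∑ a, ∑ _b : B, ((if ¬ P a then 1 else 0) : ℝ))
        + (∑ a, ∑ b, ((if P a ∧ ¬ Q a b then 1 else 0) : ℝ)) + ∑ i, ∑ a, ∑ b, w i a b := by
    simp only [Finset.sum_add_distrib]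
    congr 1
    calc ∑ a, ∑ b, ∑ i, w i a b = ∑ a, ∑ i, ∑ b, w i a b :=
          Finset.sum_congr rfl (fun a _ => Finset.sum_comm)
      _ = ∑ i, ∑ a, ∑ b, w i a b := Finset.sum_comm
  have hA : 8 * (∑ a, ∑ _b : B, ((if ¬ P a then 1 else 0) : ℝ)) ≤
      (Fintype.card A : ℝ) * Fintype.card B := by
    have h1 : (∑ a, ∑ _b : B, ((if ¬ P a then 1 else 0) : ℝ)) =
        (Nat.card {a // ¬ P a} : ℝ) * Fintype.card B := by
      simp only [Finset.sum_const, Finset.card_univ, nsmul_eq_mul]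
      rw [← Finset.mul_sum, Finset.sum_boole, Nat.card_eq_fintype_card, Fintype.card_subtype,
        mul_comm]
    rw [h1, ← mul_assoc]
    exact mul_le_mul_of_nonneg_right hP (by positivity)
  have hB : 8 * (∑ a, ∑ b, ((if P a ∧ ¬ Q a b then 1 else 0) : ℝ)) ≤
      (Fintype.card A : ℝ) * Fintype.card B := by
    rw [Finset.mul_sum]
    have h1 : ∀ a ∈ (Finset.univ : Finset A),
        8 * (∑ b, ((if P a ∧ ¬ Q a b then 1 else 0) : ℝ)) ≤ (Fintype.card B : ℝ) := by
      intro a _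
      by_cases h : P a
      · have h2 : (∑ b, ((if P a ∧ ¬ Q a b then 1 else 0) : ℝ)) =
            (Nat.card {b // ¬ Q a b} : ℝ) := by
          rw [Finset.sum_boole, Nat.card_eq_fintype_card, Fintype.card_subtype]
          simp [h]
        rw [h2]
        exact hQ a h
      · have h2 : (∑ b, ((if P a ∧ ¬ Q a b then 1 else 0) : ℝ)) = 0 := by
          apply Finset.sum_eq_zero
          intro b _
          rw [if_neg (fun h' => h h'.1)]
        rw [h2, mul_zero]
        positivity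
    refine (Finset.sum_le_sum h1).trans ?_
    rw [Finset.sum_const, Finset.card_univ, nsmul_eq_mul]
  have hC : 8 * ∑ i, ∑ a, ∑ b, w i a b ≤ 4 * ((Fintype.card A : ℝ) * Fintype.card B) := by
    rw [Finset.mul_sum]
    refine (Finset.sum_le_sum (fun i _ => hw i)).trans ?_
    rw [Finset.sum_const, Finset.card_univ, nsmul_eq_mul, Fintype.card_fin]
    norm_num
  have hpos : 0 < (Fintype.card A : ℝ) * Fintype.card B := by
    have h1 : 0 < Fintype.card A := Fintype.card_pos
    have h2 : 0 < Fintype.card B := Fintype.card_pos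
    positivity
  rw [hsplit] at hsum
  linarith

end Pool.Agent.Lib.P47j
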