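import Pool.Agent.Lib.P47j.Defs

/-!
Module Bas. Basic facts on points and lines.
-/

open scoped BigOperators

namespace Pool.Agent.Lib.P47j

variable {z N K R : ℕ} [NeZero N] [NeZero K]

theorem card_Pt : Fintype.card (Pt z N) = N ^ z := by
  simp [Pt]

theorem ln_eq_iff (j : Fin z) (u v : Pt z N) : ln j u = ln j v ↔ ∀ i, i ≠ j → u i = v i := by
  unfold ln
  constructor
  · intro h i hi
    have h1 := congrFun (Prod.ext_iff.1 h).2 i
    simpa [Function.update_of_ne hi] using h1
  · intro h
    refine Prod.ext rfl ?_
    funext i
    by_cases hi : i = j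
    · subst hi; simp
    · simp [Function.update_of_ne hi, h i hi]

theorem ln_dir {i j : Fin z} {u v : Pt z N} (h : ln i u = ln j v) : i = j :=
  (Prod.ext_iff.1 h).1

theorem ln_update (j : Fin z) (u : Pt z N) (c : Fin N) :
    ln j (Function.update u j c) = ln j u := by
  unfold ln
  rw [Function.update_idem]

theorem mem_act (f : Ln z N → Fin K) (u : Pt z N) (j : Fin z) : j ∈ act f u ↔ f (ln j u) = 0 := by
  simp [act]

theorem mem_good (f : Ln z N → Fin K) (u : Pt z N) : u ∈ good R f ↔ (act f u).card = R := by
  simp [good]

theorem mem_lns (f : Ln z N → Fin K) (l : Ln z N) : l ∈ lns f ↔ l.2 l.1 = 0 ∧ f l = 0 := by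
  simp [lns]

theorem ln_mem_lns (f : Ln z N → Fin K) (j : Fin z) (u : Pt z N) :
    ln j u ∈ lns f ↔ f (ln j u) = 0 := by
  rw [mem_lns]
  simp [ln]

/-- Two different points on a line differ in the direction of the line. -/
theorem ne_of_ln {j : Fin z} {u v : Pt z N} (h : ln j u = ln j v) (huv : u ≠ v) : u j ≠ v j := by
  intro h1
  apply huv
  funext i
  by_cases hi : i = j
  · rw [hi, h1]
  · exact (ln_eq_iff j u v).1 h i hi

/-- Two different points lie on at most one common line. -/
theorem ln_unique {i j : Fin z} {u v : Pt z N} (huv : u ≠ v) (hi : ln i u = ln i v)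
    (hj : ln j u = ln j v) : i = j := by
  by_contra hne
  exact ne_of_ln hi huv ((ln_eq_iff j u v).1 hj i hne)

theorem card_slice (j : Fin z) :
    (Finset.univ.filter (fun v : Pt z N => v j = 0)).card = N ^ (z - 1) := by
  classical
  have h1 : (Finset.univ.filter (fun v : Pt z N => v j = 0)) =
      Fintype.piFinset (fun i => if i = j then ({0} : Finset (Fin N)) else Finset.univ) := by
    ext v
    simp only [Finset.mem_filter, Finset.mem_univ, true_and, Fintype.mem_piFinset]
    constructor
    · intro h i
      by_cases hi : i = j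
      · subst hi; simp [h]
      · simp [hi]
    · intro h
      simpa using h j
  rw [h1, Fintype.card_piFinset]
  rw [← Finset.mul_prod_erase Finset.univ _ (Finset.mem_univ j)]
  have h2 : ∏ i ∈ Finset.univ.erase j,
      (if i = j then ({0} : Finset (Fin N)) else Finset.univ).card = N ^ (z - 1) := by
    rw [Finset.prod_congr rfl (g := fun _ => N)]
    · rw [Finset.prod_const, Finset.card_erase_of_mem (Finset.mem_univ j), Finset.card_univ,
        Fintype.card_fin]
    · intro i hi
      rw [if_neg (Finset.ne_of_mem_erase hi), Finset.card_univ, Fintype.card_fin]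
  rw [h2]
  simp

/-- Every line contains `N` points. -/
theorem card_line (j : Fin z) (v : Pt z N) (hv : v j = 0) :
    (Finset.univ.filter (fun u : Pt z N => ln j u = (j, v))).card = N := by
  classical
  have h1 : (Finset.univ.filter (fun u : Pt z N => ln j u = (j, v))) =
      Finset.univ.image (fun c : Fin N => Function.update v j c) := by
    ext u
    simp only [Finset.mem_filter, Finset.mem_univ, true_and, Finset.mem_image]
    constructor
    · intro h
      refine ⟨u j, ?_⟩
      have h2 : Function.update u j 0 = v := (Prod.ext_iff.1 h).2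
      rw [← h2, Function.update_idem, Function.update_eq_self]
    · rintro ⟨c, rfl⟩
      rw [ln_update]
      unfold ln
      rw [← hv, Function.update_eq_self]
  rw [h1, Finset.card_image_of_injective]
  · simp
  · intro c c' h
    have h2 := congrFun h j
    simpa using h2

/-- Sums over the points of functions of the line with direction `j`. -/
theorem sum_ln (j : Fin z) (F : Ln z N → ℝ) :
    ∑ u : Pt z N, F (ln j u) =
      (N : ℝ) * ∑ v ∈ Finset.univ.filter (fun v : Pt z N => v j = 0), F (j, v) := by
  classical
  have hmap : ∀ u ∈ (Finset.univ : Finset (Pt z N)),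
      Function.update u j 0 ∈ Finset.univ.filter (fun v : Pt z N => v j = 0) := by
    intro u _
    simp
  rw [← Finset.sum_fiberwise_of_maps_to hmap, Finset.mul_sum]
  refine Finset.sum_congr rfl fun v hv => ?_
  have hv' : v j = 0 := (Finset.mem_filter.1 hv).2
  have h1 : ∀ u ∈ Finset.univ.filter (fun u : Pt z N => Function.update u j 0 = v),
      F (ln j u) = F (j, v) := by
    intro u hu
    have := (Finset.mem_filter.1 hu).2
    unfold ln
    rw [this]
  rw [Finset.sum_congr rfl h1, Finset.sum_const, nsmul_eq_mul]
  congr 1
  have h2 : (Finset.univ.filter (fun u : Pt z N => Function.update u j 0 = v)) =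
      Finset.univ.filter (fun u : Pt z N => ln j u = (j, v)) := by
    ext u
    simp [ln]
  rw [h2, card_line j v hv']

/-- Incidences between points and lines. -/
theorem sum_inc (f : Ln z N → Fin K) (G : Finset (Ln z N)) (hG : G ⊆ lns f) :
    ∑ j : Fin z, (Finset.univ.filter (fun u : Pt z N => ln j u ∈ G)).card = N * G.card := by
  classical
  have h1 : ∀ j : Fin z, (Finset.univ.filter (fun u : Pt z N => ln j u ∈ G)).card =
      N * (G.filter (fun l => l.1 = j)).card := by
    intro j
    have h2 := sum_ln j (fun l => if l ∈ G then (1 : ℝ) else 0)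
    have h3 : ∑ v ∈ Finset.univ.filter (fun v : Pt z N => v j = 0),
        (if (j, v) ∈ G then (1 : ℝ) else 0) = ((G.filter (fun l => l.1 = j)).card : ℝ) := by
      rw [← Finset.sum_filter, Finset.sum_const, nsmul_eq_mul, mul_one]
      congr 1
      refine Finset.card_bij (fun v _ => (j, v)) ?_ ?_ ?_
      · intro v hv
        rw [Finset.mem_filter] at hv ⊢
        exact ⟨hv.2, rfl⟩
      · intro v _ v' _ h
        exact (Prod.ext_iff.1 h).2
      · rintro ⟨i, v⟩ hl
        rw [Finset.mem_filter] at hl
        obtain ⟨hl, rfl⟩ := hl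
        refine ⟨v, ?_, rfl⟩
        have h4 := (mem_lns f _).1 (hG hl)
        simp only [Finset.mem_filter, Finset.mem_univ, true_and]
        exact ⟨h4.1, hl⟩
    rw [h3, ← Finset.sum_filter, Finset.sum_const, nsmul_eq_mul, mul_one] at h2
    exact_mod_cast h2
  rw [Finset.sum_congr rfl fun j _ => h1 j, ← Finset.mul_sum]
  congr 1
  rw [← Finset.card_eq_sum_card_fiberwise]
  intro l _
  simp

theorem card_lns_le (f : Ln z N → Fin K) : (lns f).card ≤ z * N ^ (z - 1) := by
  classical
  have h1 : lns f ⊆ (Finset.univ : Finset (Fin z)).biUnion (fun j =>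
      (Finset.univ.filter (fun v : Pt z N => v j = 0)).image (fun v => (j, v))) := by
    rintro ⟨j, v⟩ hl
    have h2 := (mem_lns f _).1 hl
    simp only [Finset.mem_biUnion, Finset.mem_univ, true_and, Finset.mem_image,
      Finset.mem_filter]
    exact ⟨j, v, h2.1, rfl⟩
  refine (Finset.card_le_card h1).trans (Finset.card_biUnion_le.trans ?_)
  refine (Finset.sum_le_sum fun j _ => Finset.card_image_le).trans ?_
  simp only [card_slice]
  simp

end Pool.Agent.Lib.P47j
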