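import Pool.Agent.Lib.P47c.TDefs

/-!
Points and lines of the grid `[N] ^ z`, random colourings of the lines, chains of points, and
systems of sets near which the points of a k-means instance lie.
-/

open scoped BigOperators

namespace Pool.Agent.Lib.P47j

/-! ### Points and lines -/

/-- The points of the grid. -/
abbrev Pt (z N : ℕ) : Type := Fin z → Fin N

/-- Names for lines: the pair `(j, v)` with `v j = 0` is the line with direction `j` through `v`. -/
abbrev Ln (z N : ℕ) : Type := Fin z × Pt z N

section Lines

variable {z N K : ℕ} [NeZero N]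

/-- The line with direction `j` through `u`. -/
def ln (j : Fin z) (u : Pt z N) : Ln z N := (j, Function.update u j 0)

/-- The directions of the active lines (the lines of colour `0`) through `u`. -/
def act [NeZero K] (f : Ln z N → Fin K) (u : Pt z N) : Finset (Fin z) :=
  Finset.univ.filter (fun j => f (ln j u) = 0)

/-- The active lines. -/
def lns [NeZero K] (f : Ln z N → Fin K) : Finset (Ln z N) :=
  Finset.univ.filter (fun l => l.2 l.1 = 0 ∧ f l = 0)

/-- The points on exactly `R` active lines. -/
def good [NeZero K] (R : ℕ) (f : Ln z N → Fin K) : Finset (Pt z N) :=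
  Finset.univ.filter (fun u => (act f u).card = R)

end Lines

/-- The expected fraction of the points on exactly `R` active lines. -/
noncomputable def mu (z K R : ℕ) : ℝ := (z.choose R : ℝ) / (K : ℝ) ^ R

/-- The expected number of the active lines. -/
noncomputable def lam (z N K : ℕ) : ℝ := (z : ℝ) * (N : ℝ) ^ (z - 1) / (K : ℝ)

/-! ### Tests and cells -/

/-- The set `S` is invariant under changes of the coordinate `j`. -/
def Inv {z N : ℕ} (j : Fin z) (S : Finset (Pt z N)) : Prop :=
  ∀ u c, Function.update u j c ∈ S ↔ u ∈ S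

/-- The tests for the direction `j`: intersections of sets `s i`, `i ≠ j`, that are invariant under
changes of the coordinates `i` and `j`. -/
def Tst {z N : ℕ} (j : Fin z) : Set (Finset (Pt z N)) :=
  {T | ∃ s : Fin z → Finset (Pt z N), (∀ i, i ≠ j → Inv i (s i) ∧ Inv j (s i)) ∧
    T = Finset.univ.filter (fun u => ∀ i, i ≠ j → u ∈ s i)}

section Cells

variable {X : Type} [Fintype X] [DecidableEq X] {M : ℕ}

/-- The cell of `x` in the partition generated by the sets `φ i`. -/
def cell (φ : Fin M → Finset X) (x : X) : Finset X :=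
  Finset.univ.filter (fun y => ∀ i, y ∈ φ i ↔ x ∈ φ i)

/-- The averages over the cells. -/
noncomputable def cavg (φ : Fin M → Finset X) (h : X → ℝ) (x : X) : ℝ :=
  (∑ y ∈ cell φ x, h y) / ((cell φ x).card : ℝ)

end Cells

/-- Quasirandom colourings: all cells of partitions generated by `M` tests contain the expected
number of points on active lines. -/
def QR {z N K : ℕ} [NeZero N] [NeZero K] (M : ℕ) (κ : ℝ) (f : Ln z N → Fin K) : Prop :=
  ∀ (j : Fin z) (φ : Fin M → Finset (Pt z N)), (∀ i, φ i ∈ Tst j) → ∀ u,
    |(((cell φ u).filter (fun v => f (ln j v) = 0)).card : ℝ) -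
      ((cell φ u).card : ℝ) / (K : ℝ)| ≤ κ * (N : ℝ) ^ z

/-- The names of the positions (copy, point) on exactly `R` active lines none of which belongs to
`W` in this copy. -/
def unW {z N K R : ℕ} [NeZero N] [NeZero K] [NeZero R] (f : Ln z N → Fin K)
    (W : Finset (Ln z N × ZMod R)) : Finset (ZMod R × Pt z N) :=
  Finset.univ.filter (fun p => p.2 ∈ good R f ∧ ∀ j ∈ act f p.2, (ln j p.2, p.1) ∉ W)

/-! ### Chains -/

/-- A chain of `k` slots `τ 0, …, τ (k - 1)` for the positions `u`: every slot except the first one
lies on a common line with its parent `par i < i`, the direction is `dir i`, and the `x` slots with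
`o i = some (q, d)` lie on a further common line with an earlier slot `q`. -/
structure ChOK {z N m : ℕ} [NeZero N] (u : Fin m → Pt z N) (k x : ℕ) (τ : Fin k → Fin m)
    (par : Fin k → Fin k) (dir : Fin k → Fin z) (o : Fin k → Option (Fin k × Fin z)) : Prop where
  inj : Function.Injective τ
  mono : Monotone par
  lt : ∀ i : Fin k, 0 < i.val → par i < i
  line : ∀ i : Fin k, 0 < i.val → ln (dir i) (u (τ i)) = ln (dir i) (u (τ (par i)))
  extra : ∀ i q d, o i = some (q, d) → q < i ∧ d ≠ dir i ∧ ln d (u (τ i)) = ln d (u (τ q))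
  cnt : (Finset.univ.filter (fun i => (o i).isSome)).card = x

/-- The slots touched by a set of pairs (slot, direction). -/
def slt {m z : ℕ} (H : Finset (Fin m × Fin z)) : Finset (Fin m) := H.image Prod.fst

/-- The lines touched by a set of pairs (slot, direction). -/
def lnt {m z N : ℕ} [NeZero N] (u : Fin m → Pt z N) (H : Finset (Fin m × Fin z)) :
    Finset (Ln z N) := H.image (fun e => ln e.2 (u e.1))

/-! ### The system of sets of a k-means instance -/

/-- A system of sets: `near t` is the set of the pairs (line, copy) near the point `t`. The points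
of the instance are the indicator vectors of the sets `cv t`, the candidate centres those of the
sets `fv w` and `fp p`. -/
structure Sys {V P D T : Type} [Fintype V] [DecidableEq V] [Fintype P] [Fintype T]
    [DecidableEq D] (R : ℕ) [NeZero R] (ε ρ : ℝ) (near : T → Finset (V × ZMod R))
    (fv : V × ZMod R → Finset D) (fp : P → Finset D) (cv : T → Finset D) (pl : T → P) : Prop where
  card_near : ∀ t, (near t).card = R
  d_near : ∀ t, ∀ w ∈ near t, (symmDiff (cv t) (fv w)).card = 1
  d_far : ∀ t, ∀ w, w ∉ near t → 2 ≤ (symmDiff (cv t) (fv w)).card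
  d_fp : ∀ t p, 2 ≤ (symmDiff (cv t) (fp p)).card
  d_pl : ∀ t, (symmDiff (cv t) (fp (pl t))).card = 2
  d_ne : ∀ t t', t ≠ t' → 2 ≤ (symmDiff (cv t) (cv t')).card
  d_dj : ∀ t t', t ≠ t' → Disjoint (near t) (near t') → 4 ≤ (symmDiff (cv t) (cv t')).card
  loc : ∃ B R0 : ℕ, (B : ℝ) ≤ ε * R0 ∧
    (∀ t, (Set.ncard {t' | t' ≠ t ∧ ¬ Disjoint (near t) (near t')}) ≤ B) ∧
    ∀ C : Finset T, C.Nonempty → C.card ≤ R0 →
      ∑ w : V × ZMod R, ((C.filter (fun t => w ∈ near t)).card - 1) < C.card
  unc : ∀ A : Finset (V × ZMod R), A.card ≤ Fintype.card V + Fintype.card P →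
    ρ - ε ≤ Pool.Agent.Lib.P47c.unc near A
  small : (Fintype.card V : ℝ) + (Fintype.card P : ℝ) ≤ ε * (Fintype.card T : ℝ)

end Pool.Agent.Lib.P47j
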