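import Pool.Agent.Lib.P47j.Defs
import Pool.Agent.Lib.P47j.Bas
import Pool.Agent.Lib.P325h.Defs

/-!
Module EdgJ (1.5h; black box Bas). From the slots and lines to the lines.
PROOF. E' g = E (fun y => g (fun l => y (Sum.inr l.1))), a linear map (composition); if g depends on D then the composition depends on the image of D, of the same cardinality, so E' is an IsLocalExpectation of degree r. cov (nearJ f pos) y is the mean over
t of the indicator that some w ∈ nearJ f pos t has y w.1 = w.2, i.e. that y of the line ln j (pos t).2 is (pos t).1 for some j ∈ act. For y : Fin M1 ⊕ Ln z N → ZMod R: if all edges (t, j), j ∈ act f (pos t).2, are satisfied, i.e.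
y (inr (ln j ..)) = y (inl t) + ((pos t).1 - rk t j), take the j with rk t j = y (inl t) (rk t is a bijection): t is covered. So 1[t covered] ≥ 1 - ∑_{j ∈ act} (1 - 1[edge (t, j) satisfied]), all functions of the R + 1 ≤ r labels of t and of the R lines. Apply E
(IsLocalExpectation.nonneg for the difference, linearity): E 1[t covered] ≥ 1 - R (1 - s). Mean over t (M1 > 0).
-/

open scoped BigOperators

namespace Pool.Agent.Lib.P47j

open Pool.Agent.Lib.P325h (IsLocalExpectation)
open Pool.Agent.Lib.P47c (cov)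

/-- The pairs (active line, copy) near the slot `t`: the active lines through its position, in its
copy. -/
noncomputable def nearJ {z N K R : ℕ} [NeZero N] [NeZero K] [NeZero R] {T : Type}
    (f : Ln z N → Fin K) (pos : T → ZMod R × Pt z N) (t : T) :
    Finset ({l : Ln z N // l ∈ lns f} × ZMod R) :=
  Finset.univ.filter (fun w => w.2 = (pos t).1 ∧ ∃ j, w.1.1 = ln j (pos t).2)

namespace EdgJAux

open Pool.Agent.Lib.P325P (mean)

/-- The restriction of a functional to the labels of the lines. -/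
noncomputable def res {z N K R : ℕ} [NeZero N] [NeZero K] [NeZero R] {M1 : ℕ}
    (f : Ln z N → Fin K) (E : ((Fin M1 ⊕ Ln z N → ZMod R) → ℝ) →ₗ[ℝ] ℝ) :
    (({l : Ln z N // l ∈ lns f} → ZMod R) → ℝ) →ₗ[ℝ] ℝ where
  toFun g := E (fun y => g (fun l => y (Sum.inr l.1)))
  map_add' g h := by
    rw [← map_add]
    rfl
  map_smul' c g := by
    rw [RingHom.id_apply, ← map_smul]
    rfl

theorem res_local {z N K R : ℕ} [NeZero N] [NeZero K] [NeZero R] {M1 : ℕ}
    (f : Ln z N → Fin K) (E : ((Fin M1 ⊕ Ln z N → ZMod R) → ℝ) →ₗ[ℝ] ℝ) (r : ℕ)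
    (hE : IsLocalExpectation r E) : IsLocalExpectation r (res f E) where
  one := hE.one
  nonneg g D hD hg h0 := by
    classical
    refine hE.nonneg _ (D.image (fun l => (Sum.inr l.1 : Fin M1 ⊕ Ln z N)))
      (Finset.card_image_le.trans hD) ?_ (fun y => h0 _)
    intro y y' hy
    refine hg (fun l hl => ?_)
    refine hy _ ?_
    rw [Finset.mem_coe] at hl ⊢
    exact Finset.mem_image_of_mem (fun l => (Sum.inr l.1 : Fin M1 ⊕ Ln z N)) hl

/-- The indicator that the slot `t` is covered. -/
noncomputable def cvr {z N K R M1 : ℕ} [NeZero N] [NeZero K] [NeZero R]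
    (f : Ln z N → Fin K) (pos : Fin M1 → ZMod R × Pt z N) (t : Fin M1)
    (y : {l : Ln z N // l ∈ lns f} → ZMod R) : ℝ := by
  classical
  exact if ∃ p ∈ nearJ f pos t, y p.1 = p.2 then 1 else 0

theorem cvr_nonneg {z N K R M1 : ℕ} [NeZero N] [NeZero K] [NeZero R]
    (f : Ln z N → Fin K) (pos : Fin M1 → ZMod R × Pt z N) (t : Fin M1)
    (y : {l : Ln z N // l ∈ lns f} → ZMod R) : 0 ≤ cvr f pos t y := by
  classical
  unfold cvr
  split_ifs <;> norm_num

theorem cvr_eq_one {z N K R M1 : ℕ} [NeZero N] [NeZero K] [NeZero R]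
    (f : Ln z N → Fin K) (pos : Fin M1 → ZMod R × Pt z N) (t : Fin M1)
    (rk : {j : Fin z // j ∈ act f (pos t).2} ≃ ZMod R)
    (y : Fin M1 ⊕ Ln z N → ZMod R)
    (h : ∀ j : {j : Fin z // j ∈ act f (pos t).2},
      y (Sum.inr (ln j.1 (pos t).2)) = y (Sum.inl t) + ((pos t).1 - rk j)) :
    cvr f pos t (fun l => y (Sum.inr l.1)) = 1 := by
  classical
  unfold cvr
  rw [if_pos]
  set j := rk.symm (y (Sum.inl t)) with hj
  have hjl : ln j.1 (pos t).2 ∈ lns f := by
    rw [ln_mem_lns]
    exact (mem_act f _ _).1 j.2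
  refine ⟨(⟨ln j.1 (pos t).2, hjl⟩, (pos t).1), ?_, ?_⟩
  · unfold nearJ
    rw [Finset.mem_filter]
    exact ⟨Finset.mem_univ _, rfl, j.1, rfl⟩
  · have h1 := h j
    rw [hj, Equiv.apply_symm_apply] at h1
    change y (Sum.inr (ln j.1 (pos t).2)) = (pos t).1
    rw [hj, h1]
    ring

theorem cvr_congr {z N K R M1 : ℕ} [NeZero N] [NeZero K] [NeZero R]
    (f : Ln z N → Fin K) (pos : Fin M1 → ZMod R × Pt z N) (t : Fin M1)
    (y y' : {l : Ln z N // l ∈ lns f} → ZMod R)
    (h : ∀ l : {l : Ln z N // l ∈ lns f}, (∃ j ∈ act f (pos t).2, l.1 = ln j (pos t).2) →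
      y l = y' l) : cvr f pos t y = cvr f pos t y' := by
  classical
  unfold cvr
  have h1 : (∃ p ∈ nearJ f pos t, y p.1 = p.2) ↔ ∃ p ∈ nearJ f pos t, y' p.1 = p.2 := by
    refine exists_congr fun p => ?_
    refine and_congr_right fun hp => ?_
    unfold nearJ at hp
    rw [Finset.mem_filter] at hp
    obtain ⟨_, _, j, hj⟩ := hp
    rw [h p.1 ⟨j, ?_, hj⟩]
    rw [mem_act, ← ln_mem_lns, ← hj]
    exact p.1.2
  simp only [h1]

theorem one_slot {z N K R M1 : ℕ} [NeZero N] [NeZero K] [NeZero R]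
    (f : Ln z N → Fin K) (pos : Fin M1 → ZMod R × Pt z N) (t : Fin M1)
    (ht : (pos t).2 ∈ good R f)
    (E : ((Fin M1 ⊕ Ln z N → ZMod R) → ℝ) →ₗ[ℝ] ℝ) (r : ℕ) (hr : R + 1 ≤ r)
    (hE : IsLocalExpectation r E) (s : ℝ)
    (rk : {j : Fin z // j ∈ act f (pos t).2} ≃ ZMod R)
    (hedge : ∀ (j : {j : Fin z // j ∈ act f (pos t).2}),
      s ≤ E (fun y => if y (Sum.inr (ln j.1 (pos t).2)) = y (Sum.inl t) + ((pos t).1 - rk j)
        then 1 else 0)) :
    1 - R * (1 - s) ≤ res f E (cvr f pos t) := by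
  classical
  have hcard : Fintype.card {j : Fin z // j ∈ act f (pos t).2} = R := by
    rw [Fintype.card_coe]
    exact (mem_good f _).1 ht
  set ind : {j : Fin z // j ∈ act f (pos t).2} → (Fin M1 ⊕ Ln z N → ZMod R) → ℝ :=
    fun j y => if y (Sum.inr (ln j.1 (pos t).2)) = y (Sum.inl t) + ((pos t).1 - rk j)
      then 1 else 0 with hind
  set C : (Fin M1 ⊕ Ln z N → ZMod R) → ℝ :=
    fun y => cvr f pos t (fun l => y (Sum.inr l.1)) with hC
  set one : (Fin M1 ⊕ Ln z N → ZMod R) → ℝ := fun _ => 1 with hone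
  have hind01 : ∀ j y, ind j y ≤ 1 := by
    intro j y
    rw [hind]
    dsimp only
    split_ifs <;> norm_num
  have key : 0 ≤ E (C - one + ∑ j, (one - ind j)) := by
    refine hE.nonneg _ (insert (Sum.inl t) ((Finset.univ : Finset {j : Fin z //
      j ∈ act f (pos t).2}).image (fun j => (Sum.inr (ln j.1 (pos t).2) : Fin M1 ⊕ Ln z N))))
      ?_ ?_ ?_
    · refine (Finset.card_insert_le _ _).trans ?_
      refine le_trans (Nat.add_le_add_right Finset.card_image_le 1) ?_
      rw [Finset.card_univ, hcard]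
      exact hr
    · intro y y' hy
      have ht' : y (Sum.inl t) = y' (Sum.inl t) := by
        refine hy _ ?_
        rw [Finset.mem_coe]
        exact Finset.mem_insert_self _ _
      have hj' : ∀ j : {j : Fin z // j ∈ act f (pos t).2},
          y (Sum.inr (ln j.1 (pos t).2)) = y' (Sum.inr (ln j.1 (pos t).2)) := by
        intro j
        refine hy _ ?_
        rw [Finset.mem_coe]
        exact Finset.mem_insert_of_mem (Finset.mem_image_of_mem
          (fun j : {j : Fin z // j ∈ act f (pos t).2} =>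
            (Sum.inr (ln j.1 (pos t).2) : Fin M1 ⊕ Ln z N)) (Finset.mem_univ j))
      have hC' : C y = C y' := by
        rw [hC]
        refine cvr_congr f pos t _ _ ?_
        rintro l ⟨j, hj, hl⟩
        rw [hl]
        exact hj' ⟨j, hj⟩
      have hI' : ∀ j, ind j y = ind j y' := by
        intro j
        rw [hind]
        dsimp only
        rw [ht', hj' j]
      simp only [Pi.add_apply, Pi.sub_apply, Finset.sum_apply, hC', hI']
      rfl
    · intro y
      simp only [Pi.add_apply, Pi.sub_apply, Finset.sum_apply]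
      have hone' : one y = 1 := rfl
      rw [hone']
      have hsum : ∀ j ∈ (Finset.univ : Finset {j : Fin z // j ∈ act f (pos t).2}),
          0 ≤ 1 - ind j y := fun j _ => sub_nonneg.2 (hind01 j y)
      by_cases hall : ∀ j, ind j y = 1
      · have h1 : C y = 1 := by
          rw [hC]
          refine cvr_eq_one f pos t rk y ?_
          intro j
          by_contra hne
          have h2 := hall j
          rw [hind] at h2
          dsimp only at h2
          rw [if_neg hne] at h2
          norm_num at h2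
        rw [h1]
        have := Finset.sum_nonneg hsum
        linarith
      · push Not at hall
        obtain ⟨j, hj⟩ := hall
        have hj0 : ind j y = 0 := by
          rw [hind] at hj ⊢
          dsimp only at hj ⊢
          split_ifs at hj ⊢ with h
          · exact absurd rfl hj
          · rfl
        have h1 : 1 ≤ ∑ j, (1 - ind j y) := by
          have := Finset.single_le_sum hsum (Finset.mem_univ j)
          rw [hj0] at this
          linarith
        have h2 : 0 ≤ C y := cvr_nonneg f pos t _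
        linarith
  rw [map_add, map_sub, map_sum] at key
  have hE1 : E one = 1 := hE.one
  have h3 : ∑ j, E (one - ind j) ≤ R * (1 - s) := by
    have h4 : ∀ j ∈ (Finset.univ : Finset {j : Fin z // j ∈ act f (pos t).2}),
        E (one - ind j) ≤ 1 - s := by
      intro j _
      rw [map_sub, hE1]
      have := hedge j
      linarith
    refine (Finset.sum_le_card_nsmul _ _ _ h4).trans ?_
    rw [Finset.card_univ, hcard, nsmul_eq_mul]
  rw [hE1] at key
  have h5 : res f E (cvr f pos t) = E C := rfl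
  rw [h5]
  linarith

theorem cov_eq {z N K R M1 : ℕ} [NeZero N] [NeZero K] [NeZero R]
    (f : Ln z N → Fin K) (pos : Fin M1 → ZMod R × Pt z N) :
    cov (nearJ f pos) = ((M1 : ℝ)⁻¹) • ∑ t, cvr f pos t := by
  classical
  funext y
  unfold cov cvr mean
  simp only [Pi.smul_apply, Finset.sum_apply, smul_eq_mul, Fintype.card_fin]
  rw [div_eq_inv_mul]
  refine congrArg _ (Finset.sum_congr rfl fun t _ => ?_)
  congr

end EdgJAux

theorem edgJ {z N K R M1 : ℕ} [NeZero N] [NeZero K] [NeZero R] (hM : 0 < M1)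
    (f : Ln z N → Fin K) (pos : Fin M1 → ZMod R × Pt z N) (hpos : ∀ t, (pos t).2 ∈ good R f)
    (E : ((Fin M1 ⊕ Ln z N → ZMod R) → ℝ) →ₗ[ℝ] ℝ) (r : ℕ) (hr : R + 1 ≤ r)
    (hE : IsLocalExpectation r E) (s : ℝ)
    (rk : ∀ t : Fin M1, {j : Fin z // j ∈ act f (pos t).2} ≃ ZMod R)
    (hedge : ∀ (t : Fin M1) (j : {j : Fin z // j ∈ act f (pos t).2}),
      s ≤ E (fun y => if y (Sum.inr (ln j.1 (pos t).2)) = y (Sum.inl t) + ((pos t).1 - rk t j)
        then 1 else 0)) :
    ∃ E' : (({l : Ln z N // l ∈ lns f} → ZMod R) → ℝ) →ₗ[ℝ] ℝ, IsLocalExpectation r E' ∧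
      1 - R * (1 - s) ≤ E' (cov (nearJ f pos)) := by
  refine ⟨EdgJAux.res f E, EdgJAux.res_local f E r hE, ?_⟩
  have hM' : (0 : ℝ) < M1 := by exact_mod_cast hM
  rw [EdgJAux.cov_eq, map_smul, map_sum, smul_eq_mul]
  have h1 : ∀ t ∈ (Finset.univ : Finset (Fin M1)),
      1 - R * (1 - s) ≤ EdgJAux.res f E (EdgJAux.cvr f pos t) := fun t _ =>
    EdgJAux.one_slot f pos t (hpos t) E r hr hE s (rk t) (hedge t)
  have h2 := Finset.card_nsmul_le_sum _ _ _ h1
  rw [Finset.card_univ, Fintype.card_fin, nsmul_eq_mul] at h2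
  rw [← div_eq_inv_mul, le_div_iff₀ hM']
  linarith

end Pool.Agent.Lib.P47j
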