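import Mathlib

/-!
Module Bfs (1.2h; Mathlib only). Breadth first search.
PROOF. Claim by induction on l, 1 ≤ l ≤ |S0|: there are τ : ℕ → α, par : ℕ → ℕ with τ injective on {i < l}, τ i ∈ S0 for i < l, par i < i and Rel (τ (par i)) (τ i) for 0 < i < l, par monotone on {i < l}, par 0 = 0, and for every i' < par (l-1)
all t' ∈ S0 with Rel (τ i') t' are in {τ i : i < l}. l = 1: any element. Step l → l + 1 ≤ |S0|: by hcon for S = {τ i : i < l} (l elements, so ≠ S0) some i < l has a t' ∈ S0 outside of S with Rel (τ i) t'; take the least such i.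
By the last property i ≥ par (l-1). Put τ l = t', par l = i.
-/

open scoped BigOperators

namespace Pool.Agent.Lib.P47j

namespace BfsAux

/-- the first `l` steps of the search -/
structure Step {α : Type} (S0 : Finset α) (Rel : α → α → Prop) (l : ℕ) (τ : ℕ → α)
    (par : ℕ → ℕ) : Prop where
  inj : ∀ i < l, ∀ j < l, τ i = τ j → i = j
  mem : ∀ i < l, τ i ∈ S0
  zero : par 0 = 0
  lt : ∀ i < l, 0 < i → par i < i ∧ Rel (τ (par i)) (τ i)
  mono : ∀ i j, i ≤ j → j < l → par i ≤ par j
  last : ∀ i' < par (l - 1), ∀ t' ∈ S0, Rel (τ i') t' → ∃ i < l, τ i = t'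

theorem step {α : Type} [DecidableEq α] {S0 : Finset α} {Rel : α → α → Prop}
    (hcon : ∀ S ⊆ S0, S.Nonempty → S ≠ S0 → ∃ t ∈ S, ∃ t' ∈ S0, t' ∉ S ∧ Rel t t')
    {l : ℕ} (hl : 0 < l) (hl' : l < S0.card) {τ : ℕ → α} {par : ℕ → ℕ}
    (h : Step S0 Rel l τ par) : ∃ τ' par', Step S0 Rel (l + 1) τ' par' := by
  classical
  set S : Finset α := (Finset.range l).image τ with hS
  have hmemS : ∀ t, t ∈ S ↔ ∃ i < l, τ i = t := by
    intro t
    rw [hS, Finset.mem_image]
    constructor
    · rintro ⟨i, hi, hit⟩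
      exact ⟨i, Finset.mem_range.1 hi, hit⟩
    · rintro ⟨i, hi, hit⟩
      exact ⟨i, Finset.mem_range.2 hi, hit⟩
  have hcard : S.card = l := by
    rw [hS, Finset.card_image_of_injOn, Finset.card_range]
    intro i hi j hj hij
    exact h.inj i (Finset.mem_range.1 (Finset.mem_coe.1 hi)) j
      (Finset.mem_range.1 (Finset.mem_coe.1 hj)) hij
  have hsub : S ⊆ S0 := by
    intro t ht
    obtain ⟨i, hi, hit⟩ := (hmemS t).1 ht
    rw [← hit]
    exact h.mem i hi
  have hne : S.Nonempty := by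
    rw [← Finset.card_pos, hcard]
    exact hl
  have hS0 : S ≠ S0 := by
    intro h1
    rw [h1] at hcard
    omega
  have hex : ∃ i, i < l ∧ ∃ t' ∈ S0, t' ∉ S ∧ Rel (τ i) t' := by
    obtain ⟨t, ht, t', ht', htS, hr⟩ := hcon S hsub hne hS0
    obtain ⟨i, hi, hit⟩ := (hmemS t).1 ht
    exact ⟨i, hi, t', ht', htS, by rw [hit]; exact hr⟩
  set i0 := Nat.find hex with hi0
  obtain ⟨hi0l, t', ht', htS, hr⟩ := Nat.find_spec hex
  rw [← hi0] at hi0l hr
  have hmin : ∀ i, i < i0 → ∀ t'' ∈ S0, Rel (τ i) t'' → ∃ j < l, τ j = t'' := by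
    intro i hi t'' ht'' hr''
    by_contra hcon'
    have h1 := Nat.find_min hex (m := i) hi
    exact h1 ⟨by omega, t'', ht'', fun h2 => hcon' ((hmemS t'').1 h2), hr''⟩
  have hge : par (l - 1) ≤ i0 := by
    by_contra hlt
    push Not at hlt
    obtain ⟨j, hj, hjt⟩ := h.last i0 hlt t' ht' hr
    exact htS ((hmemS t').2 ⟨j, hj, hjt⟩)
  have hτ : ∀ i, i < l → Function.update τ l t' i = τ i := by
    intro i hi
    rw [Function.update_of_ne (by omega)]
  have hp : ∀ i, i < l → Function.update par l i0 i = par i := by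
    intro i hi
    rw [Function.update_of_ne (by omega)]
  refine ⟨Function.update τ l t', Function.update par l i0, ?_, ?_, ?_, ?_, ?_, ?_⟩
  · intro i hi j hj hij
    rcases Nat.lt_succ_iff_lt_or_eq.1 hi with hi' | hi' <;>
      rcases Nat.lt_succ_iff_lt_or_eq.1 hj with hj' | hj'
    · rw [hτ i hi', hτ j hj'] at hij
      exact h.inj i hi' j hj' hij
    · exfalso
      rw [hj', hτ i hi', Function.update_self] at hij
      exact htS ((hmemS t').2 ⟨i, hi', hij⟩)
    · exfalso
      rw [hi', hτ j hj', Function.update_self] at hij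
      exact htS ((hmemS t').2 ⟨j, hj', hij.symm⟩)
    · omega
  · intro i hi
    rcases Nat.lt_succ_iff_lt_or_eq.1 hi with hi' | hi'
    · rw [hτ i hi']
      exact h.mem i hi'
    · rw [hi', Function.update_self]
      exact ht'
  · rw [hp 0 hl]
    exact h.zero
  · intro i hi hi0'
    rcases Nat.lt_succ_iff_lt_or_eq.1 hi with hi' | hi'
    · obtain ⟨h1, h2⟩ := h.lt i hi' hi0'
      rw [hp i hi', hτ i hi', hτ (par i) (by omega)]
      exact ⟨h1, h2⟩
    · rw [hi', Function.update_self, Function.update_self, hτ i0 hi0l]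
      exact ⟨hi0l, hr⟩
  · intro i j hij hj
    rcases Nat.lt_succ_iff_lt_or_eq.1 hj with hj' | hj'
    · rw [hp i (by omega), hp j hj']
      exact h.mono i j hij hj'
    · rw [hj', Function.update_self]
      rcases Nat.lt_or_ge i l with hi' | hi'
      · rw [hp i hi']
        exact (h.mono i (l - 1) (by omega) (by omega)).trans hge
      · have : i = l := by omega
        rw [this, Function.update_self]
  · intro i' hi' t'' ht'' hr''
    have e1 : l + 1 - 1 = l := by omega
    rw [e1, Function.update_self] at hi'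
    rw [hτ i' (by omega)] at hr''
    obtain ⟨j, hj, hjt⟩ := hmin i' hi' t'' ht'' hr''
    exact ⟨j, by omega, by rw [hτ j hj]; exact hjt⟩

theorem exists_step {α : Type} [DecidableEq α] {S0 : Finset α} {Rel : α → α → Prop}
    (hne : S0.Nonempty)
    (hcon : ∀ S ⊆ S0, S.Nonempty → S ≠ S0 → ∃ t ∈ S, ∃ t' ∈ S0, t' ∉ S ∧ Rel t t')
    (l : ℕ) (hl : l + 1 ≤ S0.card) : ∃ τ par, Step S0 Rel (l + 1) τ par := by
  induction l with
  | zero =>
    obtain ⟨t, ht⟩ := hne
    refine ⟨fun _ => t, fun _ => 0, ?_, ?_, rfl, ?_, ?_, ?_⟩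
    · intro i hi j hj _
      omega
    · intro i _
      exact ht
    · intro i hi hi'
      omega
    · intro i j _ _
      exact le_refl _
    · intro i' hi'
      exact absurd hi' (Nat.not_lt_zero _)
  | succ l ih =>
    obtain ⟨τ, par, h⟩ := ih (by omega)
    exact step hcon (Nat.succ_pos l) (by omega) h

end BfsAux

theorem bfs {α : Type} [DecidableEq α] (S0 : Finset α) (Rel : α → α → Prop) (hne : S0.Nonempty)
    (hcon : ∀ S ⊆ S0, S.Nonempty → S ≠ S0 → ∃ t ∈ S, ∃ t' ∈ S0, t' ∉ S ∧ Rel t t') :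
    ∃ (τ : Fin S0.card → α) (par : Fin S0.card → Fin S0.card), Function.Injective τ ∧
      (∀ i, τ i ∈ S0) ∧ Monotone par ∧
      ∀ i : Fin S0.card, 0 < i.val → par i < i ∧ Rel (τ (par i)) (τ i) := by
  have hpos : 0 < S0.card := Finset.card_pos.2 hne
  obtain ⟨τ, par, h⟩ := BfsAux.exists_step hne hcon (S0.card - 1) (by omega)
  have e1 : S0.card - 1 + 1 = S0.card := by omega
  rw [e1] at h
  have hpar : ∀ i : Fin S0.card, par i.val < S0.card := by
    intro i
    rcases Nat.eq_zero_or_pos i.val with h0 | h0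
    · rw [h0, h.zero]
      exact hpos
    · exact (h.lt i.val i.2 h0).1.trans i.2
  refine ⟨fun i => τ i.val, fun i => ⟨par i.val, hpar i⟩, ?_, ?_, ?_, ?_⟩
  · intro i j hij
    exact Fin.ext (h.inj i.val i.2 j.val j.2 hij)
  · intro i
    exact h.mem i.val i.2
  · intro i j hij
    exact Fin.mk_le_mk.2 (h.mono i.val j.val hij j.2)
  · intro i hi
    exact h.lt i.val i.2 hi

end Pool.Agent.Lib.P47j
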