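import Pool.Agent.Lib.P47j.Defs
import Pool.Agent.Lib.P47j.Bas
import Pool.Agent.Lib.P47j.Bfs

/-!
Module Extr (1.8h; black boxes Bas, bfs). Chains in dense sets of incidences.
PROOF. Replace H by a nonempty subset with the same inequality and minimal cardinality (slt only becomes smaller). Connectedness: if S ⊆ slt H, S ≠ ∅, S ≠ slt H, then there are t ∈ S, t' ∈ slt H \ S, j with (t, j), (t', j) ∈ H and
ln j (u t) = ln j (u t'). Otherwise H = H1 ∪ H2 (first components in S or not), both nonempty, slt H = slt H1 ⊔ slt H2, lnt u H = lnt u H1 ⊔ lnt u H2 disjoint (a common line ln j (u t) = ln j' (u t') has j = j' by ln_dir), and by minimality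
a |Hi| < b (|slt Hi| + |lnt u Hi|); the sum is a contradiction. bfs with S0 = slt H, Rel t t' = ∃ j, (t, j) ∈ H ∧ (t', j) ∈ H ∧ ln j (u t) = ln j (u t'): τ (onto slt H, k = |slt H|), par, and dir i = the chosen j (for i > 0; arbitrary for i = 0; z ≥ 1 as
H is nonempty). o i = some (q, d) if there are q < i, d ≠ dir i with (τ i, d), (τ q, d) ∈ H on the same line (choose one), otherwise none. X = {i : o i is some}, x = |X|. Count H: call (τ i, d) ∈ H new if no q < i has (τ q, d) ∈ H with the same line.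
The new ones are mapped injectively to their lines, so at most |lnt u H|. For i = 0 all are new, for i > 0, i ∉ X only d = dir i can be not new, for i ∈ X at most z (X does not contain 0). So |H| ≤ |lnt| + (k - 1) + (z - 1) x. With
b (k + |lnt|) ≤ a |H|: a (z - 1) x ≥ b (k + |lnt|) - a |lnt| - a (k - 1) ≥ (b - a) k + a.
-/

open scoped BigOperators

namespace Pool.Agent.Lib.P47j

namespace ExtrAux

variable {z N m : ℕ} [NeZero N]

theorem mem_slt {H : Finset (Fin m × Fin z)} {t : Fin m} : t ∈ slt H ↔ ∃ j, (t, j) ∈ H := by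
  unfold slt
  rw [Finset.mem_image]
  constructor
  · rintro ⟨⟨t', j⟩, h, rfl⟩
    exact ⟨j, h⟩
  · rintro ⟨j, h⟩
    exact ⟨(t, j), h, rfl⟩

theorem mem_lnt {u : Fin m → Pt z N} {H : Finset (Fin m × Fin z)} {l : Ln z N} :
    l ∈ lnt u H ↔ ∃ t j, (t, j) ∈ H ∧ ln j (u t) = l := by
  unfold lnt
  rw [Finset.mem_image]
  constructor
  · rintro ⟨⟨t', j⟩, h, rfl⟩
    exact ⟨t', j, h, rfl⟩
  · rintro ⟨t, j, h, rfl⟩
    exact ⟨(t, j), h, rfl⟩

theorem exists_min (u : Fin m → Pt z N) (a b : ℕ) (H : Finset (Fin m × Fin z))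
    (hne : H.Nonempty) (hH : b * ((slt H).card + (lnt u H).card) ≤ a * H.card) :
    ∃ H' ⊆ H, H'.Nonempty ∧ b * ((slt H').card + (lnt u H').card) ≤ a * H'.card ∧
      ∀ G ⊆ H', G.Nonempty → G ≠ H' → a * G.card < b * ((slt G).card + (lnt u G).card) := by
  classical
  obtain ⟨H', hH', hmin⟩ := Finset.exists_min_image
    (H.powerset.filter (fun G => G.Nonempty ∧
      b * ((slt G).card + (lnt u G).card) ≤ a * G.card)) Finset.card
    ⟨H, by rw [Finset.mem_filter, Finset.mem_powerset]; exact ⟨Finset.Subset.refl H, hne, hH⟩⟩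
  rw [Finset.mem_filter, Finset.mem_powerset] at hH'
  refine ⟨H', hH'.1, hH'.2.1, hH'.2.2, ?_⟩
  intro G hG hGne hGH
  by_contra hcon
  have h1 := hmin G (by
    rw [Finset.mem_filter, Finset.mem_powerset]
    exact ⟨hG.trans hH'.1, hGne, not_lt.1 hcon⟩)
  have h2 := Finset.card_lt_card (Finset.ssubset_iff_subset_ne.2 ⟨hG, hGH⟩)
  omega

theorem conn (u : Fin m → Pt z N) (a b : ℕ) (H : Finset (Fin m × Fin z))
    (hH : b * ((slt H).card + (lnt u H).card) ≤ a * H.card)
    (hmin : ∀ G ⊆ H, G.Nonempty → G ≠ H → a * G.card < b * ((slt G).card + (lnt u G).card))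
    (S : Finset (Fin m)) (hS : S ⊆ slt H) (hSne : S.Nonempty) (hSH : S ≠ slt H) :
    ∃ t ∈ S, ∃ t' ∈ slt H, t' ∉ S ∧
      ∃ j, (t, j) ∈ H ∧ (t', j) ∈ H ∧ ln j (u t) = ln j (u t') := by
  classical
  by_contra hcon
  set H1 := H.filter (fun e => e.1 ∈ S) with hH1
  set H2 := H.filter (fun e => ¬ e.1 ∈ S) with hH2
  have hcard : H1.card + H2.card = H.card := Finset.card_filter_add_card_filter_not _
  obtain ⟨t, ht⟩ := hSne
  obtain ⟨j, hj⟩ := mem_slt.1 (hS ht)
  obtain ⟨t', ht', htS'⟩ := Finset.exists_of_ssubset (Finset.ssubset_iff_subset_ne.2 ⟨hS, hSH⟩)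
  obtain ⟨j', hj'⟩ := mem_slt.1 ht'
  have hm1 : (t, j) ∈ H1 := Finset.mem_filter.2 ⟨hj, ht⟩
  have hm2 : (t', j') ∈ H2 := Finset.mem_filter.2 ⟨hj', htS'⟩
  have h1 := hmin H1 (Finset.filter_subset _ _) ⟨_, hm1⟩ (by
    intro h
    rw [← h] at hj'
    exact htS' (Finset.mem_filter.1 hj').2)
  have h2 := hmin H2 (Finset.filter_subset _ _) ⟨_, hm2⟩ (by
    intro h
    rw [← h] at hj
    exact (Finset.mem_filter.1 hj).2 ht)
  have h3 : (slt H1).card + (slt H2).card ≤ (slt H).card := by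
    rw [← Finset.card_union_of_disjoint]
    · apply Finset.card_le_card
      intro s hs
      rw [Finset.mem_union, mem_slt, mem_slt] at hs
      rw [mem_slt]
      rcases hs with ⟨i, hi⟩ | ⟨i, hi⟩
      · exact ⟨i, (Finset.mem_filter.1 hi).1⟩
      · exact ⟨i, (Finset.mem_filter.1 hi).1⟩
    · rw [Finset.disjoint_left]
      intro s hs1 hs2
      obtain ⟨i, hi⟩ := mem_slt.1 hs1
      obtain ⟨i', hi'⟩ := mem_slt.1 hs2
      exact (Finset.mem_filter.1 hi').2 (Finset.mem_filter.1 hi).2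
  have h4 : (lnt u H1).card + (lnt u H2).card ≤ (lnt u H).card := by
    rw [← Finset.card_union_of_disjoint]
    · apply Finset.card_le_card
      intro l hl
      rw [Finset.mem_union, mem_lnt, mem_lnt] at hl
      rw [mem_lnt]
      rcases hl with ⟨s, i, hi, h⟩ | ⟨s, i, hi, h⟩
      · exact ⟨s, i, (Finset.mem_filter.1 hi).1, h⟩
      · exact ⟨s, i, (Finset.mem_filter.1 hi).1, h⟩
    · rw [Finset.disjoint_left]
      intro l hl1 hl2
      obtain ⟨s, i, hi, h⟩ := mem_lnt.1 hl1
      obtain ⟨s', i', hi', h'⟩ := mem_lnt.1 hl2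
      have hd : i = i' := ln_dir (h.trans h'.symm)
      subst hd
      obtain ⟨hi1, hi2⟩ := Finset.mem_filter.1 hi
      obtain ⟨hi1', hi2'⟩ := Finset.mem_filter.1 hi'
      exact hcon ⟨s, hi2, s', mem_slt.2 ⟨i, hi1'⟩, hi2', i, hi1, hi1', h.trans h'.symm⟩
  have h5 : b * (((slt H1).card + (lnt u H1).card) + ((slt H2).card + (lnt u H2).card)) ≤
      b * ((slt H).card + (lnt u H).card) := Nat.mul_le_mul_left _ (by omega)
  have h6 : a * H.card = a * H1.card + a * H2.card := by
    rw [← hcard, Nat.mul_add]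
  rw [Nat.mul_add] at h5
  omega

/-- The counting. -/
theorem count (u : Fin m → Pt z N) (H : Finset (Fin m × Fin z)) (k : ℕ) (hk : 0 < k)
    (τ : Fin k → Fin m) (hsurj : ∀ t ∈ slt H, ∃ i, τ i = t) (dir : Fin k → Fin z)
    (X : Finset (Fin k))
    (hX : ∀ i q d, q < i → d ≠ dir i → (τ i, d) ∈ H → (τ q, d) ∈ H →
      ln d (u (τ i)) = ln d (u (τ q)) → i ∈ X) :
    H.card ≤ (lnt u H).card + (k - 1) + X.card * (z - 1) := by
  classical
  set P : Finset (Fin k × Fin z) := Finset.univ.filter (fun p => (τ p.1, p.2) ∈ H) with hP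
  have hHP : H.card ≤ P.card := by
    refine le_trans (Finset.card_le_card ?_)
      (Finset.card_image_le (s := P) (f := fun p => (τ p.1, p.2)))
    rintro ⟨t, d⟩ h
    obtain ⟨i, hi⟩ := hsurj t (mem_slt.2 ⟨d, h⟩)
    rw [Finset.mem_image]
    refine ⟨(i, d), ?_, by simp [hi]⟩
    rw [hP, Finset.mem_filter]
    exact ⟨Finset.mem_univ _, by simpa [hi] using h⟩
  let old : Fin k × Fin z → Prop := fun p =>
    ∃ q, q < p.1 ∧ (τ q, p.2) ∈ H ∧ ln p.2 (u (τ p.1)) = ln p.2 (u (τ q))
  have hcard : (P.filter old).card + (P.filter (fun p => ¬ old p)).card = P.card :=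
    Finset.card_filter_add_card_filter_not _
  have hnew : (P.filter (fun p => ¬ old p)).card ≤ (lnt u H).card := by
    apply Finset.card_le_card_of_injOn (fun p => ln p.2 (u (τ p.1)))
    · intro p hp
      have hp1 := (Finset.mem_filter.1 (Finset.mem_coe.1 hp)).1
      have hp2 := (Finset.mem_filter.1 hp1).2
      exact Finset.mem_coe.2 (mem_lnt.2 ⟨_, _, hp2, rfl⟩)
    · rintro ⟨i, d⟩ hp ⟨i', d'⟩ hp' h
      have h' : ln d (u (τ i)) = ln d' (u (τ i')) := h
      have hd : d = d' := ln_dir h'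
      subst hd
      obtain ⟨hp1, hp2⟩ := Finset.mem_filter.1 (Finset.mem_coe.1 hp)
      obtain ⟨hp1', hp2'⟩ := Finset.mem_filter.1 (Finset.mem_coe.1 hp')
      have hq := (Finset.mem_filter.1 hp1).2
      have hq' := (Finset.mem_filter.1 hp1').2
      rcases lt_trichotomy i i' with hlt | heq | hgt
      · exact absurd ⟨i, hlt, hq, h'.symm⟩ hp2'
      · rw [heq]
      · exact absurd ⟨i', hgt, hq', h'⟩ hp2
  have hold : (P.filter old).card ≤ (k - 1) + X.card * (z - 1) := by
    have hsub : P.filter old ⊆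
        ((Finset.univ.erase (⟨0, hk⟩ : Fin k)).image (fun i => (i, dir i))) ∪
        X.biUnion (fun i => (Finset.univ.erase (dir i)).image (fun d => (i, d))) := by
      rintro ⟨i, d⟩ hp
      obtain ⟨hp1, q, hq, hq1, hq2⟩ := Finset.mem_filter.1 hp
      have hq' : q < i := hq
      have hp2 : (τ i, d) ∈ H := (Finset.mem_filter.1 hp1).2
      rw [Finset.mem_union]
      by_cases hd : d = dir i
      · left
        rw [Finset.mem_image]
        refine ⟨i, ?_, by rw [hd]⟩
        rw [Finset.mem_erase]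
        refine ⟨?_, Finset.mem_univ _⟩
        intro h0
        rw [h0, Fin.lt_def] at hq'
        exact absurd hq' (by simp)
      · right
        rw [Finset.mem_biUnion]
        refine ⟨i, hX i q d hq' hd hp2 hq1 hq2, ?_⟩
        rw [Finset.mem_image]
        exact ⟨d, Finset.mem_erase.2 ⟨hd, Finset.mem_univ _⟩, rfl⟩
    refine (Finset.card_le_card hsub).trans ((Finset.card_union_le _ _).trans ?_)
    refine Nat.add_le_add ?_ ?_
    · refine Finset.card_image_le.trans ?_
      rw [Finset.card_erase_of_mem (Finset.mem_univ _), Finset.card_univ, Fintype.card_fin]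
    · refine Finset.card_biUnion_le.trans ?_
      rw [← smul_eq_mul]
      apply Finset.sum_le_card_nsmul
      intro i _
      refine Finset.card_image_le.trans ?_
      rw [Finset.card_erase_of_mem (Finset.mem_univ _), Finset.card_univ, Fintype.card_fin]
  omega

end ExtrAux

open ExtrAux

theorem extr {z N m : ℕ} [NeZero N] (u : Fin m → Pt z N) (a b : ℕ) (ha : 1 ≤ a) (hab : a ≤ b)
    (H : Finset (Fin m × Fin z)) (hne : H.Nonempty)
    (hH : b * ((slt H).card + (lnt u H).card) ≤ a * H.card) :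
    ∃ (k x : ℕ) (τ : Fin k → Fin m) (par : Fin k → Fin k) (dir : Fin k → Fin z)
      (o : Fin k → Option (Fin k × Fin z)), 1 ≤ k ∧ k ≤ (slt H).card ∧ (∀ i, τ i ∈ slt H) ∧
      (b - a) * k + a ≤ a * (z - 1) * x ∧ ChOK u k x τ par dir o := by
  classical
  obtain ⟨G, hGH, hGne, hG, hmin⟩ := exists_min u a b H hne hH
  obtain ⟨τ, par, hinj, hmem, hmono, hpar⟩ := bfs (slt G)
    (fun t t' => ∃ j, (t, j) ∈ G ∧ (t', j) ∈ G ∧ ln j (u t) = ln j (u t'))
    (by
      obtain ⟨⟨t, j⟩, h⟩ := hGne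
      exact ⟨t, mem_slt.2 ⟨j, h⟩⟩)
    (fun S hS hSne hSG => conn u a b G hG hmin S hS hSne hSG)
  have hsub : slt G ⊆ slt H := by
    intro t ht
    obtain ⟨j, hj⟩ := mem_slt.1 ht
    exact mem_slt.2 ⟨j, hGH hj⟩
  obtain ⟨⟨t0, j0⟩, h0⟩ := hGne
  have hk : 0 < (slt G).card := Finset.card_pos.2 ⟨t0, mem_slt.2 ⟨j0, h0⟩⟩
  generalize hkk : (slt G).card = k at *
  have hsurj : ∀ t ∈ slt G, ∃ i, τ i = t := by
    intro t ht
    have h1 : Finset.univ.image τ = slt G := by
      apply Finset.eq_of_subset_of_card_le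
      · intro s hs
        obtain ⟨i, _, rfl⟩ := Finset.mem_image.1 hs
        exact hmem i
      · rw [Finset.card_image_of_injective _ hinj, Finset.card_univ, Fintype.card_fin, hkk]
    rw [← h1] at ht
    obtain ⟨i, _, hi⟩ := Finset.mem_image.1 ht
    exact ⟨i, hi⟩
  have hdir : ∀ i : Fin k, ∃ j : Fin z, 0 < i.val →
      ((τ (par i), j) ∈ G ∧ (τ i, j) ∈ G ∧ ln j (u (τ (par i))) = ln j (u (τ i))) := by
    intro i
    by_cases hi : 0 < i.val
    · obtain ⟨j, hj⟩ := (hpar i hi).2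
      exact ⟨j, fun _ => hj⟩
    · exact ⟨j0, fun h => absurd h hi⟩
  choose dir hdir using hdir
  let Q : Fin k → Fin k × Fin z → Prop := fun i p =>
    p.1 < i ∧ p.2 ≠ dir i ∧ (τ i, p.2) ∈ G ∧ (τ p.1, p.2) ∈ G ∧
      ln p.2 (u (τ i)) = ln p.2 (u (τ p.1))
  let o : Fin k → Option (Fin k × Fin z) := fun i =>
    if h : ∃ p, Q i p then some h.choose else none
  have ho : ∀ i p, o i = some p → Q i p := by
    intro i p h
    by_cases hp : ∃ p, Q i p
    · have h1 : o i = some hp.choose := dif_pos hp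
      rw [h1] at h
      rw [← Option.some.inj h]
      exact hp.choose_spec
    · have h1 : o i = none := dif_neg hp
      rw [h1] at h
      exact absurd h (by simp)
  have ho' : ∀ i p, Q i p → (o i).isSome := by
    intro i p h
    have hp : ∃ p, Q i p := ⟨p, h⟩
    have h1 : o i = some hp.choose := dif_pos hp
    rw [h1]
    rfl
  have hcount := count u G k hk τ hsurj dir (Finset.univ.filter (fun i => (o i).isSome)) (by
    intro i q d hq hd h1 h2 h3
    rw [Finset.mem_filter]
    exact ⟨Finset.mem_univ _, ho' i (q, d) ⟨hq, hd, h1, h2, h3⟩⟩)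
  refine ⟨k, (Finset.univ.filter (fun i => (o i).isSome)).card, τ, par, dir, o, hk, ?_, ?_, ?_, ?_⟩
  · rw [← hkk]
    exact Finset.card_le_card hsub
  · intro i
    exact hsub (hmem i)
  · generalize (Finset.univ.filter (fun i => (o i).isSome)).card = x at *
    obtain ⟨c, rfl⟩ := Nat.exists_eq_add_of_le hab
    obtain ⟨k', rfl⟩ := Nat.exists_eq_add_of_le' (Nat.succ_le_of_lt hk)
    rw [Nat.add_sub_cancel_left]
    have h1 : a * G.card ≤ a * ((lnt u G).card + (k' + 1 - 1) + x * (z - 1)) :=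
      Nat.mul_le_mul_left _ hcount
    rw [Nat.add_sub_cancel] at h1
    generalize (lnt u G).card = l at *
    generalize z - 1 = w at *
    nlinarith
  · exact
    { inj := hinj
      mono := hmono
      lt := fun i hi => (hpar i hi).1
      line := fun i hi => (hdir i hi).2.2.symm
      extra := fun i q d h => ⟨(ho i (q, d) h).1, (ho i (q, d) h).2.1, (ho i (q, d) h).2.2.2.2⟩
      cnt := rfl }

end Pool.Agent.Lib.P47j
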