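import Pool.Agent.Lib.P47j.Defs
import Pool.Agent.Lib.P47j.Bas
import Pool.Agent.Lib.P47j.Extr
import Pool.Agent.Lib.P325L.Defs

/-!
Module NoCh (1.2h; black boxes Bas, extr). The graph of the slots and the active lines.
PROOF. (chRed) Remove x - x' of the marks: o' i = o i for i in a subset with x' elements of {i : o i is some}, otherwise none.
(noCh) For a finite set H of edges of grJ let H' ⊆ Fin m × Fin z be its image under Subtype.val (injective): |H'| = |H|, |verts H| = |slt H'| + |lnt u H'| (the images under Sum.inl and Sum.inr are disjoint).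
Girth: if H ≠ ∅, |H| ≤ g and |verts H| ≤ |H|: extr with a = b = 1: k ≤ |slt H'| ≤ |H| ≤ g, 1 ≤ (z - 1) x, so x ≥ 1, chRed to x' = 1 contradicts hsh. Sparse: if |verts H| ≤ Rr and (N0 + 1) |verts H| < N0 |H| (H ≠ ∅): extr with a = N0, b = N0 + 1:
k + N0 ≤ N0 (z - 1) x, so x ≥ 1 and k ≤ |slt H'| ≤ Rr. If k ≤ g: chRed to 1 and hsh. If g < k: x' = (k + N0 z - 1)/(N0 z) ≤ x since k ≤ N0 z x; chRed and hlo.
-/

open scoped BigOperators

namespace Pool.Agent.Lib.P47j

open Pool.Agent.Lib.P325L (Gr)

theorem chRed {z N m k x x' : ℕ} [NeZero N] {u : Fin m → Pt z N} {τ : Fin k → Fin m}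
    {par : Fin k → Fin k} {dir : Fin k → Fin z} {o : Fin k → Option (Fin k × Fin z)}
    (h : ChOK u k x τ par dir o) (hx : x' ≤ x) : ∃ o', ChOK u k x' τ par dir o' := by
  classical
  obtain ⟨B, hB, hBc⟩ := Finset.exists_subset_card_eq
    (s := Finset.univ.filter (fun i => (o i).isSome)) (n := x') (by rw [h.cnt]; exact hx)
  refine ⟨fun i => if i ∈ B then o i else none, h.inj, h.mono, h.lt, h.line, ?_, ?_⟩
  · intro i q d hi
    by_cases hiB : i ∈ B
    · simp only [hiB, if_true] at hi
      exact h.extra i q d hi
    · simp only [hiB, if_false] at hi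
      cases hi
  · rw [← hBc]
    congr 1
    ext i
    simp only [Finset.mem_filter, Finset.mem_univ, true_and]
    constructor
    · intro hi
      by_contra hiB
      simp [hiB] at hi
    · intro hi
      have h1 := hB hi
      simp only [Finset.mem_filter, Finset.mem_univ, true_and] at h1
      simp [hi, h1]

/-- The graph with the slots and the lines as vertices: every slot is joined to the active lines
through its position. -/
def grJ {z N K m : ℕ} [NeZero N] [NeZero K] (f : Ln z N → Fin K) (u : Fin m → Pt z N) :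
    Gr (Fin m ⊕ Ln z N) {e : Fin m × Fin z // e.2 ∈ act f (u e.1)} where
  src := fun e => Sum.inl e.1.1
  tgt := fun e => Sum.inr (ln e.1.2 (u e.1.1))
  ne := fun _ h => by cases h

namespace NoChAux

theorem card_verts {z N K m : ℕ} [NeZero N] [NeZero K] (f : Ln z N → Fin K) (u : Fin m → Pt z N)
    (H : Finset {e : Fin m × Fin z // e.2 ∈ act f (u e.1)}) :
    ((grJ f u).verts H).card =
      (slt (H.image Subtype.val)).card + (lnt u (H.image Subtype.val)).card := by
  classical
  have h1 : H.image (grJ f u).src = (slt (H.image Subtype.val)).image Sum.inl := by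
    simp only [slt, Finset.image_image]
    rfl
  have h2 : H.image (grJ f u).tgt = (lnt u (H.image Subtype.val)).image Sum.inr := by
    simp only [lnt, Finset.image_image]
    rfl
  unfold Pool.Agent.Lib.P325L.Gr.verts
  rw [h1, h2, Finset.card_union_of_disjoint, Finset.card_image_of_injective _ Sum.inl_injective,
    Finset.card_image_of_injective _ Sum.inr_injective]
  rw [Finset.disjoint_left]
  intro v hv hw
  simp only [Finset.mem_image] at hv hw
  obtain ⟨a, -, rfl⟩ := hv
  obtain ⟨b, -, hb⟩ := hw
  cases hb

end NoChAux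

theorem noCh {z N K m : ℕ} [NeZero N] [NeZero K] (f : Ln z N → Fin K) (u : Fin m → Pt z N)
    (g Rr N0 : ℕ) (hN0 : 1 ≤ N0)
    (hsh : ∀ k ≤ g, ∀ (τ : Fin k → Fin m) (par : Fin k → Fin k) (dir : Fin k → Fin z)
      (o : Fin k → Option (Fin k × Fin z)), ¬ ChOK u k 1 τ par dir o)
    (hlo : ∀ k, g < k → k ≤ Rr → ∀ (τ : Fin k → Fin m) (par : Fin k → Fin k)
      (dir : Fin k → Fin z) (o : Fin k → Option (Fin k × Fin z)),
      ¬ ChOK u k ((k + N0 * z - 1) / (N0 * z)) τ par dir o) :
    (grJ f u).Girth g ∧ (grJ f u).Sparse Rr N0 := by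
  classical
  constructor
  · intro H hne hHg
    by_contra hlt
    rw [not_lt, NoChAux.card_verts] at hlt
    have hcard : (H.image Subtype.val).card = H.card :=
      Finset.card_image_of_injective _ Subtype.val_injective
    obtain ⟨k, x, τ, par, dir, o, hk1, hk2, -, hx, hch⟩ :=
      extr u 1 1 le_rfl le_rfl (H.image Subtype.val) (hne.image _)
        (by rw [hcard, one_mul, one_mul]; exact hlt)
    have hx1 : 1 ≤ x := by
      rcases Nat.eq_zero_or_pos x with h0 | h0
      · subst h0
        simp at hx
      · exact h0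
    obtain ⟨o', ho'⟩ := chRed hch hx1
    refine hsh k ?_ τ par dir o' ho'
    have h3 : (slt (H.image Subtype.val)).card ≤ (H.image Subtype.val).card :=
      Finset.card_image_le
    omega
  · intro H hHR
    by_contra hlt
    rw [not_le] at hlt
    have hne : H.Nonempty := by
      rw [Finset.nonempty_iff_ne_empty]
      rintro rfl
      simp at hlt
    have hcard : (H.image Subtype.val).card = H.card :=
      Finset.card_image_of_injective _ Subtype.val_injective
    rw [NoChAux.card_verts] at hlt hHR
    obtain ⟨k, x, τ, par, dir, o, hk1, hk2, -, hx, hch⟩ :=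
      extr u N0 (N0 + 1) hN0 (Nat.le_succ _) (H.image Subtype.val) (hne.image _)
        (by rw [hcard]; exact hlt.le)
    have hx' : k + N0 ≤ N0 * (z - 1) * x := by
      have : N0 + 1 - N0 = 1 := by omega
      rw [this, one_mul] at hx
      exact hx
    have hx1 : 1 ≤ x := by
      rcases Nat.eq_zero_or_pos x with h0 | h0
      · subst h0
        simp at hx'
        omega
      · exact h0
    by_cases hkg : k ≤ g
    · obtain ⟨o', ho'⟩ := chRed hch hx1
      exact hsh k hkg τ par dir o' ho'
    · rw [not_le] at hkg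
      have hle : (k + N0 * z - 1) / (N0 * z) ≤ x := by
        rcases Nat.eq_zero_or_pos (N0 * z) with h0 | h0
        · rw [h0, Nat.div_zero]
          exact Nat.zero_le _
        · have h4 : k ≤ x * (N0 * z) := by
            have h5 : N0 * (z - 1) * x ≤ N0 * z * x :=
              Nat.mul_le_mul_right _ (Nat.mul_le_mul_left _ (Nat.sub_le _ _))
            have h6 : N0 * z * x = x * (N0 * z) := Nat.mul_comm _ _
            omega
          rw [← Nat.lt_succ_iff, Nat.div_lt_iff_lt_mul h0, Nat.succ_mul]
          omega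
      obtain ⟨o', ho'⟩ := chRed hch hle
      exact hlo k hkg (by omega) τ par dir o' ho'

end Pool.Agent.Lib.P47j
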