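import Pool.Agent.Lib.P325L.Par

/-!
Module NumJ (2h; black box P325L.par). Numerics.
PROOF. Let D9 be a natural number ≥ 18, ≥ 2 (16 z^2 Δ)^(z^3), and d = 9/D9 ≤ 1/2 ≤ s, so ⌈9/d⌉₊ = D9. e0 = log (1/s)/log (1/d)/20000 ∈ (0, 1/4] (as in P47k/BaseN.lean). Given m0, apply P325L.par s d a b0 with m0' ≥ m0, m0' so large that
(i) 2^(80 (m+3)) ≥ (80 z^3 (m+3))^2 z/ε1 for all m ≥ m0', (ii) for all g ≥ 24 m0': g^2 z (D9)  ≤ ε1 4 g^3 9^g (as D9 and z are constants). For N ≥ n0 we get m, g', l0, r, v0 from par (n := N); put g = max g' (4 z^3 (20 (m+3))).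
Then 24 (m+3) ≤ g, 2 l0 ≤ g, u^g ≤ u^g' (u = s^(1/8) ∈ (0,1)), so the smallness condition holds for g as well.
(16 z^2 Δ)^(4 (20 (m+3)) z) = ((16 z^2 Δ)^z)^(80 (m+3)) ≤ (2 (9 D9)^3)^(80 (m+3)) ≤ N.
(8 z Δ)^g g^2 z ≤ ε1 N: if g = g': N D9 ≥ 4 g^3 (9 D9)^g ≥ 4 g^3 9^g (8 z Δ)^g as D9 ≥ 8 z Δ, and (ii). If g = 80 z^3 (m+3): N ≥ (2 (9 D9)^3)^(80 (m+3)) ≥ (2 (8 z Δ)^(z^3))^(80 (m+3)) = 2^(80 (m+3)) (8 z Δ)^g, and (i).
m0 ≤ g: g ≥ 24 (m+3). (The statement of par has real powers of the form (2 * (9 * D9))^3 in c11 and (9 * D9)^g in c12, see the proof of P47k.baseN for the use.)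
-/

open scoped BigOperators

namespace Pool.Agent.Lib.P47j

namespace NumJAux

theorem case1 {A D z ε1 n : ℝ} {g : ℕ} (hA : 0 ≤ A) (hAD : A ≤ D) (hD : 1 ≤ D) (hε1 : 0 < ε1)
    (h : 4 * (g : ℝ) ^ 3 * (9 * D) ^ g ≤ n * D) (hz : z * D ≤ ε1 * g) :
    A ^ g * (g : ℝ) ^ 2 * z ≤ ε1 * n := by
  have hD0 : 0 < D := by linarith
  have h1 : A ^ g ≤ D ^ g := pow_le_pow_left₀ hA hAD g
  have hg0 : (0 : ℝ) ≤ g := Nat.cast_nonneg g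
  have h2 : D ^ g ≤ (9 * D) ^ g := pow_le_pow_left₀ hD0.le (by linarith) g
  have hA0 : 0 ≤ A ^ g := pow_nonneg hA g
  have hDg : 0 ≤ D ^ g := pow_nonneg hD0.le g
  have h9 : 0 ≤ (9 * D) ^ g := pow_nonneg (by linarith) g
  refine le_of_mul_le_mul_right ?_ hD0
  calc A ^ g * (g : ℝ) ^ 2 * z * D = A ^ g * (g : ℝ) ^ 2 * (z * D) := by ring
    _ ≤ A ^ g * (g : ℝ) ^ 2 * (ε1 * g) := mul_le_mul_of_nonneg_left hz (by positivity)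
    _ = ε1 * ((g : ℝ) ^ 3 * A ^ g) := by ring
    _ ≤ ε1 * (4 * (g : ℝ) ^ 3 * (9 * D) ^ g) := by
        refine mul_le_mul_of_nonneg_left ?_ hε1.le
        calc (g : ℝ) ^ 3 * A ^ g ≤ (g : ℝ) ^ 3 * (9 * D) ^ g :=
              mul_le_mul_of_nonneg_left (h1.trans h2) (by positivity)
          _ ≤ 4 * (g : ℝ) ^ 3 * (9 * D) ^ g := by
              have : 0 ≤ (g : ℝ) ^ 3 * (9 * D) ^ g := by positivity
              linarith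
    _ ≤ ε1 * (n * D) := mul_le_mul_of_nonneg_left h hε1.le
    _ = ε1 * n * D := by ring

theorem case2 {A D ε1 n : ℝ} {z M : ℕ} (hA : 0 ≤ A) (hAD : A ^ (z ^ 3) ≤ D) (hD : 1 ≤ D)
    (hε1 : 0 < ε1) (h : (2 * (9 * D) ^ 3) ^ (4 * (20 * M)) ≤ n)
    (hz : ((4 * z ^ 3 * (20 * M) : ℕ) : ℝ) ^ 2 * z ≤ ε1 * 2 ^ (4 * (20 * M))) :
    A ^ (4 * z ^ 3 * (20 * M)) * ((4 * z ^ 3 * (20 * M) : ℕ) : ℝ) ^ 2 * z ≤ ε1 * n := by
  have hD0 : 0 < D := by linarith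
  have h1 : A ^ (4 * z ^ 3 * (20 * M)) ≤ D ^ (4 * (20 * M)) := by
    have e : 4 * z ^ 3 * (20 * M) = z ^ 3 * (4 * (20 * M)) := by ring
    rw [e, pow_mul]
    exact pow_le_pow_left₀ (pow_nonneg hA _) hAD _
  have h9 : D ≤ (9 * D) ^ 3 := by
    have h3 : (9 * D) ^ 1 ≤ (9 * D) ^ 3 := pow_le_pow_right₀ (by linarith) (by norm_num)
    rw [pow_one] at h3
    linarith
  have h2 : 2 ^ (4 * (20 * M)) * D ^ (4 * (20 * M)) ≤ n := by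
    rw [← mul_pow]
    refine le_trans ?_ h
    exact pow_le_pow_left₀ (by linarith) (by linarith) _
  have hA0 : 0 ≤ A ^ (4 * z ^ 3 * (20 * M)) := pow_nonneg hA _
  have h20 : (0 : ℝ) ≤ 2 ^ (4 * (20 * M)) := by positivity
  calc A ^ (4 * z ^ 3 * (20 * M)) * ((4 * z ^ 3 * (20 * M) : ℕ) : ℝ) ^ 2 * z
      = A ^ (4 * z ^ 3 * (20 * M)) * (((4 * z ^ 3 * (20 * M) : ℕ) : ℝ) ^ 2 * z) := by ring
    _ ≤ A ^ (4 * z ^ 3 * (20 * M)) * (ε1 * 2 ^ (4 * (20 * M))) :=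
        mul_le_mul_of_nonneg_left hz hA0
    _ ≤ D ^ (4 * (20 * M)) * (ε1 * 2 ^ (4 * (20 * M))) :=
        mul_le_mul_of_nonneg_right h1 (mul_nonneg hε1.le h20)
    _ = ε1 * (2 ^ (4 * (20 * M)) * D ^ (4 * (20 * M))) := by ring
    _ ≤ ε1 * n := mul_le_mul_of_nonneg_left h2 hε1.le

theorem small2 {z M : ℕ} {ε1 : ℝ} (hε1 : 0 < ε1) (hM : 6400 * (z : ℝ) ^ 7 ≤ ε1 * M) :
    ((4 * z ^ 3 * (20 * M) : ℕ) : ℝ) ^ 2 * z ≤ ε1 * 2 ^ (4 * (20 * M)) := by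
  have hM2 : (M : ℝ) ≤ 2 ^ M := by
    have := (Nat.lt_two_pow_self (n := M)).le
    exact_mod_cast this
  have hM0 : (0 : ℝ) ≤ M := Nat.cast_nonneg M
  have h3 : (M : ℝ) ^ 3 ≤ 2 ^ (4 * (20 * M)) := by
    calc (M : ℝ) ^ 3 ≤ (2 ^ M) ^ 3 := pow_le_pow_left₀ hM0 hM2 3
      _ = 2 ^ (M * 3) := (pow_mul _ _ _).symm
      _ ≤ 2 ^ (4 * (20 * M)) := pow_le_pow_right₀ (by norm_num) (by omega)
  calc ((4 * z ^ 3 * (20 * M) : ℕ) : ℝ) ^ 2 * z = 6400 * (z : ℝ) ^ 7 * (M : ℝ) ^ 2 := by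
        push_cast
        ring
    _ ≤ ε1 * M * (M : ℝ) ^ 2 := mul_le_mul_of_nonneg_right hM (by positivity)
    _ = ε1 * (M : ℝ) ^ 3 := by ring
    _ ≤ ε1 * 2 ^ (4 * (20 * M)) := mul_le_mul_of_nonneg_left h3 hε1.le

end NumJAux

open NumJAux

theorem numJ (s : ℝ) (hs : 1 / 2 ≤ s) (hs1 : s < 1) (a b0 : ℝ) (ha : 0 < a) (hb : 0 < b0)
    (z Δ : ℕ) (hz : 1 ≤ z) (hΔ : 1 ≤ Δ) (ε1 : ℝ) (hε1 : 0 < ε1) :
    ∃ e0 : ℝ, 0 < e0 ∧ e0 ≤ 1 / 4 ∧ ∀ m0 : ℕ, ∃ n0 : ℕ, ∀ N ≥ n0, ∃ m g l0 r v0 : ℕ,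
      m0 ≤ N ∧ m0 ≤ m ∧ m0 ≤ g ∧ m0 ≤ r ∧ v0 = 6 * (m + 3) * r ∧ 2 ≤ r ∧ 1 ≤ l0 ∧ 2 * l0 ≤ g ∧
      24 * (m + 3) ≤ g ∧ 9 * (2 * v0) ^ 2 ≤ N ∧
      (16 * z ^ 2 * Δ) ^ (4 * (20 * (m + 3)) * z) ≤ N ∧ 4 * z ^ 3 * (20 * (m + 3)) ≤ g ∧
      ((8 * z * Δ : ℕ) : ℝ) ^ g * (g : ℝ) ^ 2 * z ≤ ε1 * N ∧
      (v0 : ℝ) * (s ^ (1 / 8 : ℝ)) ^ l0 ≤ 1 ∧
      (v0 : ℝ) * (a * ((s ^ (1 / 8 : ℝ)) ^ 4) ^ m * v0 +
        b0 * ((m : ℝ) + 1) * (((s ^ (1 / 8 : ℝ)) ^ 4) ^ m * (v0 : ℝ) ^ 2 +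
          v0 * (s ^ (1 / 8 : ℝ)) ^ g)) ≤ 1 ∧
      (2 * (N : ℝ)) ^ e0 ≤ r := by
  classical
  set B : ℕ := 16 * z ^ 2 * Δ with hB
  obtain ⟨D9, hD9⟩ : ∃ D9 : ℕ, D9 = 18 + 2 * B ^ (z ^ 3) := ⟨_, rfl⟩
  have hB1 : 1 ≤ B := by
    rw [hB]
    have h1 : 1 ≤ z ^ 2 := Nat.one_le_pow _ _ hz
    have h2 : 1 ≤ z ^ 2 * Δ := Nat.mul_pos h1 hΔ
    rw [mul_assoc]
    omega
  have hz3 : z ≤ z ^ 3 := by
    calc z = z ^ 1 := (pow_one z).symm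
      _ ≤ z ^ 3 := Nat.pow_le_pow_right hz (by norm_num)
  have hBz : B ^ z ≤ D9 := by
    have h1 : B ^ z ≤ B ^ (z ^ 3) := Nat.pow_le_pow_right hB1 hz3
    omega
  have hAB : 8 * z * Δ ≤ B := by
    rw [hB]
    have h1 : z ≤ z ^ 2 := by
      calc z = z ^ 1 := (pow_one z).symm
        _ ≤ z ^ 2 := Nat.pow_le_pow_right hz (by norm_num)
    exact Nat.mul_le_mul_right Δ (by omega)
  have hAz : (8 * z * Δ) ^ (z ^ 3) ≤ D9 := by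
    have h1 : (8 * z * Δ) ^ (z ^ 3) ≤ B ^ (z ^ 3) := Nat.pow_le_pow_left hAB _
    omega
  have hA1 : 8 * z * Δ ≤ D9 := by
    have h1 : B ^ 1 ≤ B ^ z := Nat.pow_le_pow_right hB1 hz
    rw [pow_one] at h1
    omega
  have hD18 : (18 : ℝ) ≤ D9 := by
    have : 18 ≤ D9 := by omega
    exact_mod_cast this
  have hD0 : (0 : ℝ) < D9 := by linarith
  set d : ℝ := 9 / (D9 : ℝ) with hd
  have hd0 : 0 < d := by positivity
  have hd2 : d ≤ 1 / 2 := by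
    rw [hd, div_le_iff₀ hD0]
    linarith
  have hceil : ⌈9 / d⌉₊ = D9 := by
    have h1 : 9 / d = (D9 : ℝ) := by
      rw [hd]
      field_simp
    rw [h1, Nat.ceil_natCast]
  have hs0 : 0 < s := by linarith
  have hds : d ≤ s := hd2.trans hs
  have hlogs : 0 < Real.log (1 / s) := by
    apply Real.log_pos
    rw [lt_div_iff₀ hs0]
    linarith
  have hlogd : 0 < Real.log (1 / d) := by
    apply Real.log_pos
    rw [lt_div_iff₀ hd0]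
    linarith
  have hlog : Real.log (1 / s) ≤ Real.log (1 / d) := by
    apply Real.log_le_log (by positivity)
    exact one_div_le_one_div_of_le hd0 hds
  set e0 : ℝ := Real.log (1 / s) / Real.log (1 / d) / 20000 with he0
  have he0pos : 0 < e0 := by positivity
  refine ⟨e0, he0pos, ?_, ?_⟩
  · have h1 : Real.log (1 / s) / Real.log (1 / d) ≤ 1 := by
      rw [div_le_one hlogd]
      exact hlog
    rw [he0]
    linarith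
  intro m0
  obtain ⟨K1, hK1⟩ : ∃ K1 : ℕ, K1 = ⌈(z : ℝ) * D9 / ε1⌉₊ := ⟨_, rfl⟩
  obtain ⟨K2, hK2⟩ : ∃ K2 : ℕ, K2 = ⌈6400 * (z : ℝ) ^ 7 / ε1⌉₊ := ⟨_, rfl⟩
  obtain ⟨n1, hn1⟩ := Pool.Agent.Lib.P325L.par s d a b0 hd0 hd2 hds hs1 ha hb
    (max m0 (max K1 K2))
  obtain ⟨n2, hn2⟩ : ∃ n2 : ℕ, n2 = ⌈(m0 : ℝ) ^ (1 / e0)⌉₊ := ⟨_, rfl⟩
  refine ⟨max n1 n2, fun N hN => ?_⟩
  obtain ⟨m, g', l0, r, v0, c1, c2, c3, c4, c5, c6, c7, c8, c9, c10, c11, c12, c13, c14, c15⟩ :=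
    hn1 N ((le_max_left _ _).trans hN)
  rw [hceil] at c11 c12
  have hm0m : m0 ≤ m := (le_max_left _ _).trans c2
  have hK1m : K1 ≤ m := ((le_max_left _ _).trans (le_max_right _ _)).trans c2
  have hK2m : K2 ≤ m := ((le_max_right _ _).trans (le_max_right _ _)).trans c2
  have hu0 : 0 < s ^ (1 / 8 : ℝ) := Real.rpow_pos_of_pos hs0 _
  have hu1 : s ^ (1 / 8 : ℝ) < 1 := Real.rpow_lt_one hs0.le hs1 (by norm_num)
  have hgg : g' ≤ max g' (4 * z ^ 3 * (20 * (m + 3))) := le_max_left _ _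
  have hr : m0 ≤ r := by
    have h1 : (m0 : ℝ) ^ (1 / e0) ≤ N := by
      have h2 : (m0 : ℝ) ^ (1 / e0) ≤ (n2 : ℝ) := by
        rw [hn2]
        exact Nat.le_ceil _
      have h3 : (n2 : ℝ) ≤ N := by
        exact_mod_cast (le_max_right _ _).trans hN
      exact h2.trans h3
    have h4 : (m0 : ℝ) ≤ (2 * (N : ℝ)) ^ e0 := by
      have h5 : ((m0 : ℝ) ^ (1 / e0)) ^ e0 = m0 := by
        rw [← Real.rpow_mul (Nat.cast_nonneg m0), one_div, inv_mul_cancel₀ he0pos.ne',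
          Real.rpow_one]
      rw [← h5]
      refine Real.rpow_le_rpow (Real.rpow_nonneg (Nat.cast_nonneg m0) _) ?_ he0pos.le
      have h6 : (0 : ℝ) ≤ N := Nat.cast_nonneg N
      linarith
    exact_mod_cast h4.trans c15
  have hA0 : (0 : ℝ) ≤ ((8 * z * Δ : ℕ) : ℝ) := Nat.cast_nonneg _
  refine ⟨m, max g' (4 * z ^ 3 * (20 * (m + 3))), l0, r, v0, by omega, hm0m, by omega, hr, c3, c4,
    c7, c8.trans hgg, c9.trans hgg, c10, ?_, le_max_right _ _, ?_, c13, ?_, c15⟩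
  · have h1 : ((B ^ (4 * (20 * (m + 3)) * z) : ℕ) : ℝ) ≤ N := by
      refine le_trans ?_ c11
      have e : 4 * (20 * (m + 3)) * z = z * (4 * (20 * (m + 3))) := by ring
      rw [e, pow_mul]
      push_cast
      refine pow_le_pow_left₀ (by positivity) ?_ _
      have h2 : ((B : ℝ)) ^ z ≤ D9 := by exact_mod_cast hBz
      have h3 : (9 * (D9 : ℝ)) ^ 1 ≤ (9 * (D9 : ℝ)) ^ 3 :=
        pow_le_pow_right₀ (by linarith) (by norm_num)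
      rw [pow_one] at h3
      linarith
    exact_mod_cast h1
  · rcases le_total (4 * z ^ 3 * (20 * (m + 3))) g' with h | h
    · rw [max_eq_left h]
      refine case1 (D := (D9 : ℝ)) hA0 (by exact_mod_cast hA1) (by linarith) hε1 c12 ?_
      have h1 : (z : ℝ) * D9 / ε1 ≤ K1 := by
        rw [hK1]
        exact Nat.le_ceil _
      have h2 : (K1 : ℝ) ≤ g' := by
        have : K1 ≤ g' := by omega
        exact_mod_cast this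
      rw [div_le_iff₀ hε1] at h1
      have h3 : (K1 : ℝ) * ε1 ≤ g' * ε1 := mul_le_mul_of_nonneg_right h2 hε1.le
      linarith
    · rw [max_eq_right h]
      refine case2 (D := (D9 : ℝ)) hA0 ?_ (by linarith) hε1 c11 ?_
      · exact_mod_cast hAz
      · apply small2 hε1
        have h1 : 6400 * (z : ℝ) ^ 7 / ε1 ≤ K2 := by
          rw [hK2]
          exact Nat.le_ceil _
        have h2 : (K2 : ℝ) ≤ ((m + 3 : ℕ) : ℝ) := by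
          have : K2 ≤ m + 3 := by omega
          exact_mod_cast this
        rw [div_le_iff₀ hε1] at h1
        have h3 : (K2 : ℝ) * ε1 ≤ ((m + 3 : ℕ) : ℝ) * ε1 := mul_le_mul_of_nonneg_right h2 hε1.le
        linarith
  · refine le_trans ?_ c14
    have h1 : (s ^ (1 / 8 : ℝ)) ^ (max g' (4 * z ^ 3 * (20 * (m + 3)))) ≤
        (s ^ (1 / 8 : ℝ)) ^ g' := pow_le_pow_of_le_one hu0.le hu1.le hgg
    gcongr

end Pool.Agent.Lib.P47j
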