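import Pool.Agent.Lib.P47j.Defs
import Pool.Agent.Lib.P47j.Bas

/-!
Module ChCnt. The number of chains.
-/

open scoped BigOperators

namespace Pool.Agent.Lib.P47j

namespace ChCntAux

/-- Changes of one value: a set of functions whose sections at `t0` have at most `b` elements. -/
theorem upd {m b : ℕ} {X : Type} [Fintype X] [DecidableEq X] (t0 : Fin m)
    (S' S : Finset (Fin m → X)) (hsub : S' ⊆ S)
    (hinv : ∀ u ∈ S, ∀ c, Function.update u t0 c ∈ S)
    (hb : ∀ w ∈ S, (Finset.univ.filter (fun c => Function.update w t0 c ∈ S')).card ≤ b) :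
    S'.card * Fintype.card X ≤ b * S.card := by
  classical
  have h := Finset.card_le_mul_card_image_of_maps_to
    (f := fun p : (Fin m → X) × X => Function.update p.1 t0 p.2)
    (s := S' ×ˢ (Finset.univ : Finset X)) (t := S) (by
      intro p hp
      rw [Finset.mem_product] at hp
      exact hinv _ (hsub hp.1) _) b (by
      intro w hw
      refine le_trans ?_ (hb w hw)
      refine Finset.card_le_card_of_injOn (fun p => p.1 t0) ?_ ?_
      · intro p hp
        rw [Finset.mem_coe, Finset.mem_filter, Finset.mem_product] at hp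
        obtain ⟨⟨hp1, _⟩, hp2⟩ := hp
        rw [Finset.mem_coe, Finset.mem_filter]
        refine ⟨Finset.mem_univ _, ?_⟩
        rw [← hp2]
        simp only [Function.update_idem, Function.update_eq_self]
        exact hp1
      · intro p hp p' hp' hpp
        rw [Finset.mem_coe, Finset.mem_filter, Finset.mem_product] at hp hp'
        have h1 := hp.2
        have h2 := hp'.2
        simp only at hpp h1 h2
        apply Prod.ext
        · funext i
          by_cases hi : i = t0
          · rw [hi]; exact hpp
          · have e1 := congrFun h1 i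
            have e2 := congrFun h2 i
            rw [Function.update_of_ne hi] at e1 e2
            rw [e1, e2]
        · have e1 := congrFun h1 t0
          have e2 := congrFun h2 t0
          rw [Function.update_self] at e1 e2
          rw [e1, e2])
  rw [Finset.card_product, Finset.card_univ] at h
  exact h

section Fix

variable {z N m k : ℕ} [NeZero N]

/-- The positions that satisfy the conditions of the slots before `l`. -/
noncomputable def US (τ : Fin k → Fin m) (par : Fin k → Fin k) (dir : Fin k → Fin z)
    (o : Fin k → Option (Fin k × Fin z)) (l : ℕ) : Finset (Fin m → Pt z N) := by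
  classical
  exact Finset.univ.filter (fun u =>
    (∀ i : Fin k, 0 < i.val → i.val < l → ln (dir i) (u (τ i)) = ln (dir i) (u (τ (par i)))) ∧
    (∀ i q d, i.val < l → o i = some (q, d) → ln d (u (τ i)) = ln d (u (τ q))))

theorem mem_US (τ : Fin k → Fin m) (par : Fin k → Fin k) (dir : Fin k → Fin z)
    (o : Fin k → Option (Fin k × Fin z)) (l : ℕ) (u : Fin m → Pt z N) :
    u ∈ US τ par dir o l ↔
    (∀ i : Fin k, 0 < i.val → i.val < l → ln (dir i) (u (τ i)) = ln (dir i) (u (τ (par i)))) ∧
    (∀ i q d, i.val < l → o i = some (q, d) → ln d (u (τ i)) = ln d (u (τ q))) := by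
  classical
  unfold US
  rw [Finset.mem_filter]
  simp only [Finset.mem_univ, true_and]

/-- The number of the marks before `l`. -/
def mk (o : Fin k → Option (Fin k × Fin z)) (l : ℕ) : ℕ :=
  (Finset.univ.filter (fun i : Fin k => i.val < l ∧ (o i).isSome)).card

theorem mk_succ (o : Fin k → Option (Fin k × Fin z)) (l : ℕ) (hl : l < k) :
    mk o (l + 1) = mk o l + (if (o ⟨l, hl⟩).isSome then 1 else 0) := by
  classical
  unfold mk
  by_cases h : (o ⟨l, hl⟩).isSome
  · rw [if_pos h]
    have e : Finset.univ.filter (fun i : Fin k => i.val < l + 1 ∧ (o i).isSome) =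
        insert (⟨l, hl⟩ : Fin k)
          (Finset.univ.filter (fun i : Fin k => i.val < l ∧ (o i).isSome)) := by
      ext i
      simp only [Finset.mem_filter, Finset.mem_univ, true_and, Finset.mem_insert]
      constructor
      · rintro ⟨h1, h2⟩
        by_cases hi : i.val = l
        · left; exact Fin.ext hi
        · right; exact ⟨by omega, h2⟩
      · rintro (h1 | ⟨h1, h2⟩)
        · rw [h1]; exact ⟨by simp, h⟩
        · exact ⟨by omega, h2⟩
    rw [e, Finset.card_insert_of_notMem]
    simp
  · rw [if_neg h, add_zero]
    congr 1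
    ext i
    simp only [Finset.mem_filter, Finset.mem_univ, true_and]
    constructor
    · rintro ⟨h1, h2⟩
      refine ⟨?_, h2⟩
      by_cases hi : i.val = l
      · exfalso; apply h
        have : i = ⟨l, hl⟩ := Fin.ext hi
        rw [← this]; exact h2
      · omega
    · rintro ⟨h1, h2⟩
      exact ⟨by omega, h2⟩

theorem step (hz : 1 ≤ z) (τ : Fin k → Fin m) (par : Fin k → Fin k) (dir : Fin k → Fin z)
    (o : Fin k → Option (Fin k × Fin z)) (hinj : Function.Injective τ)
    (hlt : ∀ i : Fin k, 0 < i.val → par i < i)
    (hex : ∀ i q d, o i = some (q, d) → q < i ∧ d ≠ dir i) (l : ℕ) (hl0 : 0 < l) (hl : l < k) :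
    (US (z := z) (N := N) τ par dir o (l + 1)).card *
      N ^ ((z - 1) + (if (o ⟨l, hl⟩).isSome then 1 else 0)) ≤
      (US (z := z) (N := N) τ par dir o l).card := by
  classical
  have hN : 0 < N := Nat.pos_of_ne_zero (NeZero.ne N)
  have hsub : US (z := z) (N := N) τ par dir o (l + 1) ⊆ US τ par dir o l := by
    intro u hu
    rw [mem_US] at hu ⊢
    exact ⟨fun i h1 h2 => hu.1 i h1 (by omega), fun i q d h1 h2 => hu.2 i q d (by omega) h2⟩
  have hne : ∀ i : Fin k, i.val < l → τ i ≠ τ ⟨l, hl⟩ := by
    intro i hi h
    have := hinj h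
    rw [this] at hi
    simp at hi
  have hinv : ∀ u ∈ US (z := z) (N := N) τ par dir o l, ∀ c,
      Function.update u (τ ⟨l, hl⟩) c ∈ US τ par dir o l := by
    intro u hu c
    rw [mem_US] at hu ⊢
    constructor
    · intro i h1 h2
      have h3 := hlt i h1
      rw [Function.update_of_ne (hne i h2), Function.update_of_ne (hne (par i) (by
        have : (par i).val < i.val := h3
        omega))]
      exact hu.1 i h1 h2
    · intro i q d h1 h2
      have h3 := (hex i q d h2).1
      rw [Function.update_of_ne (hne i h1), Function.update_of_ne (hne q (by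
        have : q.val < i.val := h3
        omega))]
      exact hu.2 i q d h1 h2
  have hpar : (par ⟨l, hl⟩).val < l := by
    have h3 : par ⟨l, hl⟩ < ⟨l, hl⟩ := hlt ⟨l, hl⟩ hl0
    exact h3
  have hline : ∀ w : Fin m → Pt z N, ∀ c,
      Function.update w (τ ⟨l, hl⟩) c ∈ US τ par dir o (l + 1) →
      ln (dir ⟨l, hl⟩) c = ln (dir ⟨l, hl⟩) (w (τ (par ⟨l, hl⟩))) := by
    intro w c hc
    rw [mem_US] at hc
    have h := hc.1 ⟨l, hl⟩ hl0 (by simp)
    rw [Function.update_self, Function.update_of_ne (hne _ hpar)] at h
    exact h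
  by_cases hs : (o ⟨l, hl⟩).isSome
  · rw [if_pos hs]
    obtain ⟨⟨q, d⟩, hqd⟩ := Option.isSome_iff_exists.mp hs
    have hq := (hex _ q d hqd)
    have hql : q.val < l := hq.1
    have h := upd (b := 1) (τ ⟨l, hl⟩) _ _ hsub hinv (by
      intro w _
      rw [Finset.card_le_one]
      intro c hc c' hc'
      rw [Finset.mem_filter] at hc hc'
      have e1 := hline w c hc.2
      have e1' := hline w c' hc'.2
      have h2 := hc.2
      have h2' := hc'.2
      rw [mem_US] at h2 h2'
      have e2 := h2.2 ⟨l, hl⟩ q d (by simp) hqd
      have e2' := h2'.2 ⟨l, hl⟩ q d (by simp) hqd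
      rw [Function.update_self, Function.update_of_ne (hne _ hql)] at e2 e2'
      have f1 := (ln_eq_iff _ _ _).mp (e1.trans e1'.symm)
      have f2 := (ln_eq_iff _ _ _).mp (e2.trans e2'.symm)
      funext i
      by_cases hi : i = d
      · exact f1 i (by rw [hi]; exact hq.2)
      · exact f2 i hi)
    rw [card_Pt, one_mul] at h
    have e : z - 1 + 1 = z := by omega
    rw [e]
    exact h
  · rw [if_neg hs, add_zero]
    have h := upd (b := N) (τ ⟨l, hl⟩) _ _ hsub hinv (by
      intro w _
      have hc := card_line (z := z) (N := N) (dir ⟨l, hl⟩)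
        (Function.update (w (τ (par ⟨l, hl⟩))) (dir ⟨l, hl⟩) 0) (by simp)
      refine le_trans ?_ hc.le
      apply Finset.card_le_card
      intro c hcm
      rw [Finset.mem_filter] at hcm ⊢
      refine ⟨Finset.mem_univ _, ?_⟩
      exact hline w c hcm.2)
    rw [card_Pt] at h
    have e : N ^ z = N ^ (z - 1) * N := by
      rw [← pow_succ]
      congr 1
      omega
    rw [e] at h
    have h' : N * ((US (z := z) (N := N) τ par dir o (l + 1)).card * N ^ (z - 1)) ≤
        N * (US (z := z) (N := N) τ par dir o l).card := by
      calc _ = (US (z := z) (N := N) τ par dir o (l + 1)).card * (N ^ (z - 1) * N) := by ring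
        _ ≤ _ := h
    exact Nat.le_of_mul_le_mul_left h' hN

theorem card_all : Fintype.card (Fin m → Pt z N) = N ^ (z * m) := by
  rw [Fintype.card_fun, card_Pt, Fintype.card_fin, pow_mul]

theorem prod (hz : 1 ≤ z) (τ : Fin k → Fin m) (par : Fin k → Fin k) (dir : Fin k → Fin z)
    (o : Fin k → Option (Fin k × Fin z)) (hinj : Function.Injective τ)
    (hlt : ∀ i : Fin k, 0 < i.val → par i < i)
    (hex : ∀ i q d, o i = some (q, d) → q < i ∧ d ≠ dir i) (l : ℕ) (hl : l ≤ k) :
    (US (z := z) (N := N) τ par dir o l).card * N ^ ((z - 1) * (l - 1) + mk o l) ≤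
      N ^ (z * m) := by
  classical
  induction l with
  | zero =>
    have h0 : mk o 0 = 0 := by
      unfold mk
      simp
    rw [h0]
    simp only [Nat.zero_sub, mul_zero, add_zero, pow_zero, mul_one]
    rw [← card_all (z := z) (N := N) (m := m), ← Finset.card_univ]
    exact Finset.card_le_card (Finset.subset_univ _)
  | succ l ih =>
    have ih' := ih (by omega)
    have hlk : l < k := by omega
    rcases Nat.eq_zero_or_pos l with h0 | h0
    · subst h0
      have hn : ¬ (o ⟨0, hlk⟩).isSome := by
        intro h
        obtain ⟨⟨q, d⟩, hqd⟩ := Option.isSome_iff_exists.mp h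
        have := (hex _ q d hqd).1
        have h' : q.val < 0 := this
        omega
      rw [mk_succ o 0 hlk, if_neg hn, add_zero]
      have hm0 : mk o 0 = 0 := by
        unfold mk
        simp
      rw [hm0]
      simp only [zero_add, Nat.sub_self, mul_zero, add_zero, pow_zero, mul_one]
      rw [← card_all (z := z) (N := N) (m := m), ← Finset.card_univ]
      exact Finset.card_le_card (Finset.subset_univ _)
    · have hst := step (N := N) hz τ par dir o hinj hlt hex l h0 hlk
      rw [mk_succ o l hlk]
      have e : (z - 1) * (l + 1 - 1) + (mk o l + (if (o ⟨l, hlk⟩).isSome then 1 else 0)) =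
          ((z - 1) + (if (o ⟨l, hlk⟩).isSome then 1 else 0)) + ((z - 1) * (l - 1) + mk o l) := by
        have : (z - 1) * (l + 1 - 1) = (z - 1) * (l - 1) + (z - 1) := by
          have e2 : l + 1 - 1 = (l - 1) + 1 := by omega
          rw [e2, Nat.mul_add, mul_one]
        rw [this]
        ring
      rw [e, pow_add, ← mul_assoc]
      exact le_trans (Nat.mul_le_mul_right _ hst) ih'

end Fix

end ChCntAux

open ChCntAux in
theorem chFix {z N m k x : ℕ} [NeZero N] (hz : 1 ≤ z) (hk : 1 ≤ k) (τ : Fin k → Fin m)
    (par : Fin k → Fin k) (dir : Fin k → Fin z) (o : Fin k → Option (Fin k × Fin z)) :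
    Nat.card {u : Fin m → Pt z N // ChOK u k x τ par dir o} * N ^ ((z - 1) * (k - 1) + x) ≤
      N ^ (z * m) := by
  classical
  by_cases he : ∃ u : Fin m → Pt z N, ChOK u k x τ par dir o
  · obtain ⟨u0, h0⟩ := he
    have hp := prod (N := N) (z := z) hz τ par dir o h0.inj h0.lt
      (fun i q d h => ⟨(h0.extra i q d h).1, (h0.extra i q d h).2.1⟩) k le_rfl
    have hx : mk o k = x := by
      rw [← h0.cnt]
      unfold mk
      congr 1
      ext i
      simp [i.isLt]
    rw [hx] at hp
    refine le_trans (Nat.mul_le_mul_right _ ?_) hp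
    rw [Nat.card_eq_fintype_card, Fintype.card_subtype]
    apply Finset.card_le_card
    intro u hu
    rw [Finset.mem_filter] at hu
    rw [mem_US]
    exact ⟨fun i h1 _ => hu.2.line i h1, fun i q d _ h => (hu.2.extra i q d h).2.2⟩
  · have : Nat.card {u : Fin m → Pt z N // ChOK u k x τ par dir o} = 0 := by
      rw [Nat.card_eq_fintype_card, Fintype.card_eq_zero_iff]
      exact ⟨fun u => he ⟨u.1, u.2⟩⟩
    rw [this, zero_mul]
    exact Nat.zero_le _

/-- The number of the chains with `k` slots and `x` marks. -/
noncomputable def nch {z N m : ℕ} [NeZero N] (u : Fin m → Pt z N) (k x : ℕ) : ℕ :=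
  Nat.card {c : (Fin k → Fin m) × (Fin k → Fin k) × (Fin k → Fin z) ×
    (Fin k → Option (Fin k × Fin z)) // ChOK u k x c.1 c.2.1 c.2.2.1 c.2.2.2}

namespace ChCntAux

/-- The number of the monotone functions. -/
theorem card_par (k : ℕ) :
    Nat.card {p : Fin k → Fin k // Monotone p} ≤ 4 ^ k := by
  classical
  let F : {p : Fin k → Fin k // Monotone p} → Finset (Fin (2 * k)) := fun p =>
    Finset.univ.image (fun i : Fin k => (⟨(p.1 i).val + i.val, by
      have h1 := (p.1 i).isLt
      have h2 := i.isLt
      omega⟩ : Fin (2 * k)))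
  have hF : Function.Injective F := by
    intro p p' h
    have hs : ∀ p : {p : Fin k → Fin k // Monotone p}, StrictMono (fun i : Fin k =>
        (⟨(p.1 i).val + i.val, by
          have h1 := (p.1 i).isLt
          have h2 := i.isLt
          omega⟩ : Fin (2 * k))) := by
      intro p i j hij
      have h1 : (p.1 i).val ≤ (p.1 j).val := p.2 hij.le
      have h2 : i.val < j.val := hij
      show (p.1 i).val + i.val < (p.1 j).val + j.val
      omega
    have hr : Set.range (fun i : Fin k =>
        (⟨(p.1 i).val + i.val, by
          have h1 := (p.1 i).isLt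
          have h2 := i.isLt
          omega⟩ : Fin (2 * k))) = Set.range (fun i : Fin k =>
        (⟨(p'.1 i).val + i.val, by
          have h1 := (p'.1 i).isLt
          have h2 := i.isLt
          omega⟩ : Fin (2 * k))) := by
      have h' := congrArg (fun s : Finset (Fin (2 * k)) => (s : Set (Fin (2 * k)))) h
      simpa [F] using h'
    have he := (StrictMono.range_inj (hs p) (hs p')).mp hr
    apply Subtype.ext
    funext i
    have hi := congrFun he i
    have hi' : (p.1 i).val + i.val = (p'.1 i).val + i.val := by
      have := congrArg Fin.val hi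
      simpa using this
    apply Fin.ext
    omega
  have hc := Nat.card_le_card_of_injective F hF
  refine le_trans hc ?_
  rw [Nat.card_eq_fintype_card, Fintype.card_finset, Fintype.card_fin, pow_mul]
  norm_num

/-- The number of the functions with `x` marks. -/
theorem card_opt (k z x : ℕ) :
    Nat.card {o : Fin k → Option (Fin k × Fin z) //
      (Finset.univ.filter (fun i => (o i).isSome)).card = x} ≤ 2 ^ k * (k * z) ^ x := by
  classical
  rw [Nat.card_eq_fintype_card, Fintype.card_subtype]
  let G : Finset (Fin k) → Finset (Fin k → Option (Fin k × Fin z)) := fun S =>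
    Fintype.piFinset (fun i => if i ∈ S then (Finset.univ : Finset (Fin k × Fin z)).image some
      else {none})
  have hG : ∀ S, (G S).card = (k * z) ^ S.card := by
    intro S
    simp only [G]
    rw [Fintype.card_piFinset]
    have : ∀ i : Fin k, (if i ∈ S then (Finset.univ : Finset (Fin k × Fin z)).image some
        else ({none} : Finset (Option (Fin k × Fin z)))).card = if i ∈ S then k * z else 1 := by
      intro i
      split_ifs
      · rw [Finset.card_image_of_injective _ (Option.some_injective _), Finset.card_univ,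
          Fintype.card_prod, Fintype.card_fin, Fintype.card_fin]
      · simp
    rw [Finset.prod_congr rfl (fun i _ => this i), Finset.prod_ite_mem, Finset.univ_inter,
      Finset.prod_const]
  have hsub : Finset.univ.filter (fun o : Fin k → Option (Fin k × Fin z) =>
      (Finset.univ.filter (fun i => (o i).isSome)).card = x) ⊆
      (Finset.univ.filter (fun S : Finset (Fin k) => S.card = x)).biUnion G := by
    intro o ho
    rw [Finset.mem_filter] at ho
    rw [Finset.mem_biUnion]
    refine ⟨Finset.univ.filter (fun i => (o i).isSome), ?_, ?_⟩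
    · rw [Finset.mem_filter]
      exact ⟨Finset.mem_univ _, ho.2⟩
    · simp only [G]
      rw [Fintype.mem_piFinset]
      intro i
      split_ifs with h
      · rw [Finset.mem_filter] at h
        obtain ⟨a, ha⟩ := Option.isSome_iff_exists.mp h.2
        rw [ha]
        exact Finset.mem_image_of_mem _ (Finset.mem_univ _)
      · rw [Finset.mem_filter] at h
        have h' : ¬ (o i).isSome := fun hh => h ⟨Finset.mem_univ _, hh⟩
        rw [Finset.mem_singleton]
        exact Option.not_isSome_iff_eq_none.mp h'
  refine le_trans (Finset.card_le_card hsub) ?_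
  refine le_trans Finset.card_biUnion_le ?_
  have h1 : ∀ S ∈ Finset.univ.filter (fun S : Finset (Fin k) => S.card = x),
      (G S).card = (k * z) ^ x := by
    intro S hS
    rw [hG, (Finset.mem_filter.mp hS).2]
  rw [Finset.sum_congr rfl h1, Finset.sum_const, smul_eq_mul]
  apply Nat.mul_le_mul_right
  refine le_trans (Finset.card_le_card (Finset.filter_subset _ _)) ?_
  rw [Finset.card_univ, Fintype.card_finset, Fintype.card_fin]

end ChCntAux

open ChCntAux in
theorem chCnt (z N m k x : ℕ) [NeZero N] (hz : 1 ≤ z) (hk : 1 ≤ k) :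
    (∑ u : Fin m → Pt z N, nch u k x) * N ^ ((z - 1) * (k - 1) + x) ≤
      (8 * z * m) ^ k * (k * z) ^ x * N ^ (z * m) := by
  classical
  let V : Finset ((Fin k → Fin m) × (Fin k → Fin k) × (Fin k → Fin z) ×
      (Fin k → Option (Fin k × Fin z))) :=
    (Finset.univ : Finset (Fin k → Fin m)) ×ˢ
      ((Finset.univ.filter (fun p : Fin k → Fin k => Monotone p)) ×ˢ
        ((Finset.univ : Finset (Fin k → Fin z)) ×ˢ
          (Finset.univ.filter (fun o : Fin k → Option (Fin k × Fin z) =>
            (Finset.univ.filter (fun i => (o i).isSome)).card = x))))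
  have hV : V.card ≤ (8 * z * m) ^ k * (k * z) ^ x := by
    have h1 := card_par k
    rw [Nat.card_eq_fintype_card, Fintype.card_subtype] at h1
    have h2 := card_opt k z x
    rw [Nat.card_eq_fintype_card, Fintype.card_subtype] at h2
    simp only [V]
    rw [Finset.card_product, Finset.card_product, Finset.card_product, Finset.card_univ,
      Finset.card_univ, Fintype.card_fun, Fintype.card_fun, Fintype.card_fin, Fintype.card_fin,
      Fintype.card_fin]
    calc _ ≤ m ^ k * (4 ^ k * (z ^ k * (2 ^ k * (k * z) ^ x))) := by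
          apply Nat.mul_le_mul_left
          apply Nat.mul_le_mul h1
          apply Nat.mul_le_mul_left
          exact h2
      _ = _ := by
          have : (8 * z * m) ^ k = m ^ k * (4 ^ k * (z ^ k * 2 ^ k)) := by
            rw [← mul_pow, ← mul_pow, ← mul_pow]
            congr 1
            ring
          rw [this]
          ring
  have hsum : ∑ u : Fin m → Pt z N, nch u k x =
      ∑ c : (Fin k → Fin m) × (Fin k → Fin k) × (Fin k → Fin z) ×
        (Fin k → Option (Fin k × Fin z)),
        Nat.card {u : Fin m → Pt z N // ChOK u k x c.1 c.2.1 c.2.2.1 c.2.2.2} := by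
    unfold nch
    simp only [Nat.card_eq_fintype_card, Fintype.card_subtype, Finset.card_filter]
    rw [Finset.sum_comm]
  have hsupp : ∑ c : (Fin k → Fin m) × (Fin k → Fin k) × (Fin k → Fin z) ×
        (Fin k → Option (Fin k × Fin z)),
        Nat.card {u : Fin m → Pt z N // ChOK u k x c.1 c.2.1 c.2.2.1 c.2.2.2} =
      ∑ c ∈ V, Nat.card {u : Fin m → Pt z N // ChOK u k x c.1 c.2.1 c.2.2.1 c.2.2.2} := by
    symm
    apply Finset.sum_subset (Finset.subset_univ _)
    intro c _ hc
    rw [Nat.card_eq_fintype_card, Fintype.card_eq_zero_iff]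
    refine ⟨fun u => hc ?_⟩
    simp only [V]
    rw [Finset.mem_product, Finset.mem_product, Finset.mem_product, Finset.mem_filter,
      Finset.mem_filter]
    exact ⟨Finset.mem_univ _, ⟨Finset.mem_univ _, u.2.mono⟩, Finset.mem_univ _,
      Finset.mem_univ _, u.2.cnt⟩
  rw [hsum, hsupp, Finset.sum_mul]
  calc _ ≤ ∑ _c ∈ V, N ^ (z * m) := by
        apply Finset.sum_le_sum
        intro c _
        exact chFix hz hk c.1 c.2.1 c.2.2.1 c.2.2.2
    _ = V.card * N ^ (z * m) := by
        rw [Finset.sum_const, smul_eq_mul]
    _ ≤ _ := Nat.mul_le_mul_right _ hV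

end Pool.Agent.Lib.P47j
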