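import Mathlib

/-!
Module Hoef (1h; Mathlib only; see DiscAux in P47k/Disc.lean for the exponential moment method with counting). Random colourings.
PROOF. If S.card > 0 ... let Y f = ∑_{x ∈ S} (1[f x = 0] - 1/K), each term y in [-1, 1] with ∑_{c : Fin K} (1[c = 0] - 1/K) = 0. For λ = t/2 ∈ [0, 1/2]: exp (λ y) ≤ 1 + λ y + λ^2 (|λ y| ≤ 1), so
∑_f exp (± λ Y f) = K^(|X| - |S|) ∏_{x ∈ S} ∑_c exp (± λ (1[c = 0] - 1/K)) ≤ K^|X| (1 + λ^2)^|S| ≤ K^|X| exp (λ^2 n) (Finset.prod_univ_sum / Fintype.piFinset; write the exponential of the sum as the product over all x : X of a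
factor that is 1 for x ∉ S). If t n < |Y f| then 1 ≤ exp (λ (± Y f) - λ t n) for one of the signs. Total: 2 K^|X| exp (λ^2 n - λ t n) = 2 K^|X| exp (- t^2 n/4).
-/

open scoped BigOperators

namespace Pool.Agent.Lib.P47j

namespace HoefAux

variable {X : Type} [Fintype X] [DecidableEq X]

/-- The centred indicator of the colour `0`. -/
noncomputable def y (K : ℕ) [NeZero K] (c : Fin K) : ℝ :=
  (if c = 0 then (1 : ℝ) else 0) - 1 / (K : ℝ)

lemma sum_y (K : ℕ) [NeZero K] : ∑ c : Fin K, y K c = 0 := by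
  unfold y
  have hK : (K : ℝ) ≠ 0 := Nat.cast_ne_zero.2 (NeZero.ne K)
  rw [Finset.sum_sub_distrib, Finset.sum_ite_eq']
  simp [hK]

lemma y_abs (K : ℕ) [NeZero K] (c : Fin K) : |y K c| ≤ 1 := by
  unfold y
  have hK : (1 : ℝ) ≤ (K : ℝ) := by
    exact_mod_cast Nat.one_le_iff_ne_zero.2 (NeZero.ne K)
  have h1 : 0 ≤ 1 / (K : ℝ) := by positivity
  have h2 : 1 / (K : ℝ) ≤ 1 := by
    rw [div_le_one (by linarith)]
    exact hK
  rw [abs_le]
  split_ifs <;> constructor <;> linarith

lemma factor (K : ℕ) [NeZero K] (l : ℝ) (hl : |l| ≤ 1) :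
    ∑ c : Fin K, Real.exp (l * y K c) ≤ (K : ℝ) * Real.exp (l ^ 2) := by
  have h1 : ∀ c : Fin K, Real.exp (l * y K c) ≤ 1 + l * y K c + l ^ 2 := by
    intro c
    have hy := y_abs K c
    have hx : |l * y K c| ≤ 1 := by
      rw [abs_mul]
      exact mul_le_one₀ hl (abs_nonneg _) hy
    have h := (abs_le.1 (Real.abs_exp_sub_one_sub_id_le hx)).2
    have hsq : (l * y K c) ^ 2 ≤ l ^ 2 := by
      rw [mul_pow]
      have : (y K c) ^ 2 ≤ 1 := by
        rw [← sq_abs]
        nlinarith [abs_nonneg (y K c)]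
      nlinarith [sq_nonneg l]
    linarith
  calc ∑ c : Fin K, Real.exp (l * y K c)
      ≤ ∑ c : Fin K, (1 + l * y K c + l ^ 2) := Finset.sum_le_sum fun c _ => h1 c
    _ = (K : ℝ) * (1 + l ^ 2) := by
        rw [Finset.sum_add_distrib, Finset.sum_add_distrib, ← Finset.mul_sum, sum_y]
        simp only [Finset.sum_const, Finset.card_univ, Fintype.card_fin, nsmul_eq_mul]
        ring
    _ ≤ (K : ℝ) * Real.exp (l ^ 2) := by
        have := Real.add_one_le_exp (l ^ 2)
        have hn0 : (0 : ℝ) ≤ (K : ℝ) := by positivity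
        nlinarith

lemma sum_eq (K : ℕ) [NeZero K] (S : Finset X) (f : X → Fin K) :
    ((S.filter (fun x => f x = 0)).card : ℝ) - (S.card : ℝ) / (K : ℝ) = ∑ x ∈ S, y K (f x) := by
  unfold y
  rw [Finset.sum_sub_distrib, Finset.natCast_card_filter, Finset.sum_const, nsmul_eq_mul]
  ring

lemma expsum (K : ℕ) [NeZero K] (S : Finset X) (n : ℕ) (hn : S.card ≤ n) (l : ℝ) (hl : |l| ≤ 1) :
    ∑ f : X → Fin K, Real.exp (l * ∑ x ∈ S, y K (f x)) ≤
      Real.exp (l ^ 2 * n) * (K : ℝ) ^ Fintype.card X := by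
  have h1 : ∀ f : X → Fin K, Real.exp (l * ∑ x ∈ S, y K (f x)) =
      ∏ x : X, (if x ∈ S then Real.exp (l * y K (f x)) else 1) := by
    intro f
    rw [Finset.mul_sum, Real.exp_sum, Finset.prod_ite, Finset.prod_const_one, mul_one]
    congr 1
    ext x
    simp
  calc ∑ f : X → Fin K, Real.exp (l * ∑ x ∈ S, y K (f x))
      = ∑ f : X → Fin K, ∏ x : X, (if x ∈ S then Real.exp (l * y K (f x)) else 1) :=
        Finset.sum_congr rfl fun f _ => h1 f
    _ = ∏ x : X, ∑ c : Fin K, (if x ∈ S then Real.exp (l * y K c) else 1) := by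
        rw [Finset.prod_univ_sum]
        simp
    _ ≤ ∏ x : X, ((K : ℝ) * (if x ∈ S then Real.exp (l ^ 2) else 1)) := by
        apply Finset.prod_le_prod
        · intro x _
          apply Finset.sum_nonneg
          intro c _
          split_ifs
          · positivity
          · norm_num
        · intro x _
          by_cases hx : x ∈ S
          · simpa [hx] using factor K l hl
          · simp [hx]
    _ = (K : ℝ) ^ Fintype.card X * Real.exp (l ^ 2 * S.card) := by
        rw [Finset.prod_mul_distrib, Finset.prod_const, Finset.card_univ]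
        congr 1
        rw [Finset.prod_ite, Finset.prod_const_one, mul_one, Finset.prod_const, ← Real.exp_nat_mul]
        congr 1
        have : (Finset.univ.filter (fun x => x ∈ S)) = S := by ext x; simp
        rw [this]
        ring
    _ ≤ Real.exp (l ^ 2 * n) * (K : ℝ) ^ Fintype.card X := by
        rw [mul_comm]
        apply mul_le_mul_of_nonneg_right _ (by positivity)
        apply Real.exp_le_exp.2
        have : (S.card : ℝ) ≤ n := by exact_mod_cast hn
        nlinarith [sq_nonneg l]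

end HoefAux

open HoefAux in
theorem hoef {X : Type} [Fintype X] [DecidableEq X] (K : ℕ) [NeZero K] (S : Finset X) (n : ℕ)
    (hn : S.card ≤ n) (t : ℝ) (ht0 : 0 ≤ t) (ht1 : t ≤ 1) :
    ((Finset.univ.filter (fun f : X → Fin K =>
      t * (n : ℝ) < |((S.filter (fun x => f x = 0)).card : ℝ) - (S.card : ℝ) / (K : ℝ)|)).card : ℝ) ≤
      2 * Real.exp (-(t ^ 2 * (n : ℝ) / 4)) * (K : ℝ) ^ Fintype.card X := by
  have hl : |t / 2| ≤ 1 := by
    rw [abs_of_nonneg (by linarith)]
    linarith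
  have hl' : |-(t / 2)| ≤ 1 := by rw [abs_neg]; exact hl
  have e1 := expsum K S n hn (t / 2) hl
  have e2 := expsum K S n hn (-(t / 2)) hl'
  rw [Finset.natCast_card_filter]
  have hpt : ∀ f : X → Fin K, (if t * (n : ℝ) <
      |((S.filter (fun x => f x = 0)).card : ℝ) - (S.card : ℝ) / (K : ℝ)| then (1 : ℝ) else 0) ≤
      Real.exp (-(t / 2 * t * n)) * (Real.exp (t / 2 * ∑ x ∈ S, y K (f x)) +
        Real.exp (-(t / 2) * ∑ x ∈ S, y K (f x))) := by
    intro f
    rw [sum_eq, mul_add, ← Real.exp_add, ← Real.exp_add]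
    split_ifs with h
    · rcases lt_abs.1 h with h | h
      · have h2 : (1 : ℝ) ≤ Real.exp (-(t / 2 * t * n) + t / 2 * ∑ x ∈ S, y K (f x)) := by
          apply Real.one_le_exp
          nlinarith [mul_nonneg ht0 (sub_nonneg.2 h.le)]
        have := Real.exp_pos (-(t / 2 * t * n) + -(t / 2) * ∑ x ∈ S, y K (f x))
        linarith
      · have h2 : (1 : ℝ) ≤ Real.exp (-(t / 2 * t * n) + -(t / 2) * ∑ x ∈ S, y K (f x)) := by
          apply Real.one_le_exp
          nlinarith [mul_nonneg ht0 (sub_nonneg.2 h.le)]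
        have := Real.exp_pos (-(t / 2 * t * n) + t / 2 * ∑ x ∈ S, y K (f x))
        linarith
    · positivity
  calc _ ≤ ∑ f : X → Fin K, Real.exp (-(t / 2 * t * n)) *
        (Real.exp (t / 2 * ∑ x ∈ S, y K (f x)) + Real.exp (-(t / 2) * ∑ x ∈ S, y K (f x))) :=
        Finset.sum_le_sum fun f _ => hpt f
    _ = Real.exp (-(t / 2 * t * n)) * (∑ f : X → Fin K, Real.exp (t / 2 * ∑ x ∈ S, y K (f x)) +
        ∑ f : X → Fin K, Real.exp (-(t / 2) * ∑ x ∈ S, y K (f x))) := by
        rw [← Finset.mul_sum, Finset.sum_add_distrib]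
    _ ≤ Real.exp (-(t / 2 * t * n)) * (Real.exp ((t / 2) ^ 2 * n) * (K : ℝ) ^ Fintype.card X +
        Real.exp ((-(t / 2)) ^ 2 * n) * (K : ℝ) ^ Fintype.card X) := by
        apply mul_le_mul_of_nonneg_left _ (Real.exp_pos _).le
        linarith
    _ = 2 * Real.exp (-(t ^ 2 * (n : ℝ) / 4)) * (K : ℝ) ^ Fintype.card X := by
        have : Real.exp (-(t ^ 2 * (n : ℝ) / 4)) =
            Real.exp (-(t / 2 * t * n)) * Real.exp ((t / 2) ^ 2 * n) := by
          rw [← Real.exp_add]
          congr 1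
          ring
        rw [this, neg_sq]
        ring

end Pool.Agent.Lib.P47j
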