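import Pool.Agent.Lib.P47j.Defs
import Pool.Agent.Lib.P47j.Bas
import Pool.Agent.Lib.P47j.Hoef

/-!
Random colourings are quasirandom: a union bound over the directions, the `M` tests and the points.
A test is determined by the parts with two vanishing coordinates of the sets `s i`, so there are at
most `2 ^ (z N ^ (z - 2))` tests, and the probability that a cell is bad for a given choice is at
most `2 exp (- t ^ 2 N ^ (z - 1) / 4)`.
-/

open scoped BigOperators

namespace Pool.Agent.Lib.P47j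

namespace ColrAux

variable {z N K M : ℕ} [NeZero N] [NeZero K]

/-- The points whose coordinates `i` and `j` vanish. -/
def sl (i j : Fin z) : Finset (Pt z N) :=
  Fintype.piFinset (fun k => if k = i ∨ k = j then {0} else Finset.univ)

theorem mem_sl (i j : Fin z) (v : Pt z N) : v ∈ sl i j ↔ v i = 0 ∧ v j = 0 := by
  unfold sl
  rw [Fintype.mem_piFinset]
  constructor
  · intro h
    have h1 := h i
    have h2 := h j
    simp only [true_or, or_true, if_true, Finset.mem_singleton] at h1 h2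
    exact ⟨h1, h2⟩
  · rintro ⟨h1, h2⟩ k
    by_cases hk : k = i ∨ k = j
    · rw [if_pos hk, Finset.mem_singleton]
      rcases hk with rfl | rfl <;> assumption
    · rw [if_neg hk]
      exact Finset.mem_univ _

theorem card_sl {i j : Fin z} (h : i ≠ j) : (sl (N := N) i j).card = N ^ (z - 2) := by
  unfold sl
  rw [Fintype.card_piFinset]
  have h1 : ∀ k : Fin z, (if k = i ∨ k = j then ({0} : Finset (Fin N)) else Finset.univ).card =
      if k = i ∨ k = j then 1 else N := by
    intro k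
    split_ifs
    · exact Finset.card_singleton _
    · rw [Finset.card_univ, Fintype.card_fin]
  rw [Finset.prod_congr rfl (fun k _ => h1 k), Finset.prod_ite, Finset.prod_const_one, one_mul,
    Finset.prod_const]
  congr 1
  have h2 : Finset.univ.filter (fun k : Fin z => ¬ (k = i ∨ k = j)) =
      ({i, j} : Finset (Fin z))ᶜ := by
    ext k
    simp
  rw [h2, Finset.card_compl, Fintype.card_fin, Finset.card_pair h]

/-- The codes of the tests. -/
def cod (j : Fin z) : Finset (Fin z → Finset (Pt z N)) :=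
  Fintype.piFinset (fun i => if i = j then {∅} else (sl i j).powerset)

theorem card_cod (j : Fin z) : (cod (N := N) j).card ≤ 2 ^ (z * N ^ (z - 2)) := by
  unfold cod
  rw [Fintype.card_piFinset]
  have h1 : ∀ i ∈ (Finset.univ : Finset (Fin z)),
      (if i = j then ({∅} : Finset (Finset (Pt z N))) else (sl i j).powerset).card ≤
        2 ^ (N ^ (z - 2)) := by
    intro i _
    split_ifs with hi
    · rw [Finset.card_singleton]
      exact Nat.one_le_two_pow
    · rw [Finset.card_powerset, card_sl hi]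
  refine (Finset.prod_le_pow_card _ _ _ h1).trans ?_
  rw [Finset.card_univ, Fintype.card_fin, ← pow_mul, mul_comm]

/-- The test with the code `c`. -/
def dec (j : Fin z) (c : Fin z → Finset (Pt z N)) : Finset (Pt z N) :=
  Finset.univ.filter
    (fun u => ∀ i, i ≠ j → Function.update (Function.update u i 0) j 0 ∈ c i)

theorem tst_dec {j : Fin z} {T : Finset (Pt z N)} (hT : T ∈ Tst j) : ∃ c ∈ cod j, T = dec j c := by
  obtain ⟨s, hs, rfl⟩ := hT
  refine ⟨fun i => if i = j then ∅ else (s i).filter (fun v => v i = 0 ∧ v j = 0), ?_, ?_⟩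
  · unfold cod
    rw [Fintype.mem_piFinset]
    intro i
    by_cases hi : i = j
    · simp only [if_pos hi, Finset.mem_singleton]
    · simp only [if_neg hi, Finset.mem_powerset]
      intro v hv
      rw [Finset.mem_filter] at hv
      exact (mem_sl i j v).2 hv.2
  · ext u
    unfold dec
    rw [Finset.mem_filter, Finset.mem_filter]
    simp only [Finset.mem_univ, true_and]
    refine forall_congr' fun i => forall_congr' fun hi => ?_
    rw [if_neg hi, Finset.mem_filter, Function.update_self, Function.update_of_ne hi,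
      Function.update_self, (hs i hi).2, (hs i hi).1]
    simp

omit [NeZero N] in
theorem inv_tst {j : Fin z} {T : Finset (Pt z N)} (hT : T ∈ Tst j) : Inv j T := by
  obtain ⟨s, hs, rfl⟩ := hT
  intro u c
  rw [Finset.mem_filter, Finset.mem_filter]
  simp only [Finset.mem_univ, true_and]
  exact forall_congr' fun i => forall_congr' fun hi => (hs i hi).2 u c

theorem inv_cell {j : Fin z} {φ : Fin M → Finset (Pt z N)} (hφ : ∀ i, φ i ∈ Tst j) (u : Pt z N) :
    Inv j (cell φ u) := by
  intro v c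
  unfold cell
  rw [Finset.mem_filter, Finset.mem_filter]
  simp only [Finset.mem_univ, true_and]
  exact forall_congr' fun i => by rw [inv_tst (hφ i) v c]

/-- The lines with direction `j` through the points of `S`. -/
def lS (j : Fin z) (S : Finset (Pt z N)) : Finset (Ln z N) :=
  Finset.univ.filter (fun l => l.1 = j ∧ l.2 j = 0 ∧ l.2 ∈ S)

theorem card_lS (j : Fin z) (S : Finset (Pt z N)) : (lS j S).card ≤ N ^ (z - 1) := by
  rw [← card_slice (N := N) j]
  refine Finset.card_le_card_of_injOn Prod.snd ?_ ?_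
  · intro l hl
    unfold lS at hl
    rw [Finset.mem_coe, Finset.mem_filter] at hl
    rw [Finset.mem_coe, Finset.mem_filter]
    exact ⟨Finset.mem_univ _, hl.2.2.1⟩
  · intro l hl l' hl' h
    unfold lS at hl hl'
    rw [Finset.mem_coe, Finset.mem_filter] at hl hl'
    exact Prod.ext (hl.2.1.trans hl'.2.1.symm) h

theorem ln_mem_lS {j : Fin z} {S : Finset (Pt z N)} (hS : Inv j S) (u : Pt z N) :
    ln j u ∈ lS j S ↔ u ∈ S := by
  unfold lS ln
  rw [Finset.mem_filter]
  simp only [Finset.mem_univ, true_and, Function.update_self]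
  exact hS u 0

theorem card_pre (j : Fin z) (Q : Finset (Ln z N)) (hQ : ∀ l ∈ Q, l.1 = j ∧ l.2 j = 0) :
    ((Finset.univ.filter (fun u : Pt z N => ln j u ∈ Q)).card : ℝ) = (N : ℝ) * (Q.card : ℝ) := by
  have h1 := sum_ln (N := N) j (fun l => if l ∈ Q then (1 : ℝ) else 0)
  rw [Finset.sum_boole, Finset.sum_boole] at h1
  rw [h1]
  congr 2
  refine Finset.card_bij (fun v _ => (j, v)) ?_ ?_ ?_
  · intro v hv
    exact (Finset.mem_filter.1 hv).2
  · intro v _ v' _ h
    exact (Prod.mk.inj h).2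
  · intro l hl
    refine ⟨l.2, ?_, Prod.ext (hQ l hl).1.symm rfl⟩
    rw [Finset.mem_filter, Finset.mem_filter]
    refine ⟨⟨Finset.mem_univ _, (hQ l hl).2⟩, ?_⟩
    have h2 : (j, l.2) = l := Prod.ext (hQ l hl).1.symm rfl
    rw [h2]
    exact hl

theorem dev {j : Fin z} {S : Finset (Pt z N)} (hS : Inv j S) (f : Ln z N → Fin K) :
    ((S.filter (fun v => f (ln j v) = 0)).card : ℝ) - (S.card : ℝ) / (K : ℝ) =
      (N : ℝ) * ((((lS j S).filter (fun l => f l = 0)).card : ℝ) -
        ((lS j S).card : ℝ) / (K : ℝ)) := by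
  have h1 : S = Finset.univ.filter (fun u : Pt z N => ln j u ∈ lS j S) := by
    ext u
    rw [Finset.mem_filter, ln_mem_lS hS]
    simp
  have h2 : S.filter (fun v => f (ln j v) = 0) =
      Finset.univ.filter (fun u : Pt z N => ln j u ∈ (lS j S).filter (fun l => f l = 0)) := by
    ext u
    rw [Finset.mem_filter, Finset.mem_filter, Finset.mem_filter, ln_mem_lS hS]
    simp
  have hq : ∀ l ∈ lS j S, l.1 = j ∧ l.2 j = 0 := by
    intro l hl
    unfold lS at hl
    rw [Finset.mem_filter] at hl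
    exact ⟨hl.2.1, hl.2.2.1⟩
  have h3 := card_pre j (lS j S) hq
  rw [← h1] at h3
  have h4 := card_pre j ((lS j S).filter (fun l => f l = 0))
    (fun l hl => hq l (Finset.mem_filter.1 hl).1)
  rw [← h2] at h4
  rw [h3, h4]
  ring

/-- The bad colourings for given tests. -/
noncomputable def bad (K : ℕ) [NeZero K] (t : ℝ) (j : Fin z) (S : Finset (Pt z N)) :
    Finset (Ln z N → Fin K) :=
  Finset.univ.filter (fun f => t * ((N ^ (z - 1) : ℕ) : ℝ) <
    |(((lS j S).filter (fun l => f l = 0)).card : ℝ) - ((lS j S).card : ℝ) / (K : ℝ)|)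

theorem card_bad {t : ℝ} (ht0 : 0 ≤ t) (ht1 : t ≤ 1) (j : Fin z) (S : Finset (Pt z N)) :
    ((bad K t j S).card : ℝ) ≤
      2 * Real.exp (-(t ^ 2 * ((N ^ (z - 1) : ℕ) : ℝ) / 4)) * (K : ℝ) ^ Fintype.card (Ln z N) :=
  hoef K (lS j S) (N ^ (z - 1)) (card_lS j S) t ht0 ht1

theorem exists_bad (hz : 1 ≤ z) {κ t : ℝ} (ht : t ≤ κ) {f : Ln z N → Fin K} (h : ¬ QR M κ f) :
    ∃ j : Fin z, ∃ c ∈ Fintype.piFinset (fun _ : Fin M => cod (N := N) j), ∃ u : Pt z N,
      f ∈ bad K t j (cell (fun i => dec j (c i)) u) := by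
  unfold QR at h
  push Not at h
  obtain ⟨j, φ, hφ, u, hu⟩ := h
  choose c hc hc' using fun i => tst_dec (hφ i)
  refine ⟨j, c, Fintype.mem_piFinset.2 hc, u, ?_⟩
  have h1 : (fun i => dec j (c i)) = φ := funext fun i => (hc' i).symm
  rw [h1]
  unfold bad
  rw [Finset.mem_filter]
  refine ⟨Finset.mem_univ _, ?_⟩
  rw [dev (inv_cell hφ u) f, abs_mul, Nat.abs_cast] at hu
  have hN : (0 : ℝ) < N := Nat.cast_pos.2 (Nat.pos_of_ne_zero (NeZero.ne N))
  have h2 : (N : ℝ) ^ z = N * (N : ℝ) ^ (z - 1) := by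
    rw [← pow_succ']
    congr 1
    omega
  have h3 : (N : ℝ) * (κ * (N : ℝ) ^ (z - 1)) < N * |(((lS j (cell φ u)).filter
      (fun l => f l = 0)).card : ℝ) - ((lS j (cell φ u)).card : ℝ) / (K : ℝ)| := by
    refine lt_of_eq_of_lt ?_ hu
    rw [h2]
    ring
  have h4 := lt_of_mul_lt_mul_left h3 hN.le
  refine lt_of_le_of_lt ?_ h4
  rw [Nat.cast_pow]
  exact mul_le_mul_of_nonneg_right ht (pow_nonneg hN.le _)

theorem count (hz : 1 ≤ z) {κ t : ℝ} (ht : t ≤ κ) (ht0 : 0 ≤ t) (ht1 : t ≤ 1) :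
    (Nat.card {f : Ln z N → Fin K // ¬ QR M κ f} : ℝ) ≤
      (z : ℝ) * ((2 : ℝ) ^ (z * M * N ^ (z - 2)) * ((N : ℝ) ^ z *
        (2 * Real.exp (-(t ^ 2 * ((N ^ (z - 1) : ℕ) : ℝ) / 4)) *
          (K : ℝ) ^ Fintype.card (Ln z N)))) := by
  classical
  set b : ℝ := 2 * Real.exp (-(t ^ 2 * ((N ^ (z - 1) : ℕ) : ℝ) / 4)) *
          (K : ℝ) ^ Fintype.card (Ln z N) with hb
  have hb0 : 0 ≤ b := by positivity
  rw [Nat.card_eq_fintype_card, Fintype.card_subtype]
  have hsub : Finset.univ.filter (fun f : Ln z N → Fin K => ¬ QR M κ f) ⊆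
      (Finset.univ : Finset (Fin z)).biUnion (fun j =>
        (Fintype.piFinset (fun _ : Fin M => cod (N := N) j)).biUnion (fun c =>
          (Finset.univ : Finset (Pt z N)).biUnion (fun u =>
            bad K t j (cell (fun i => dec j (c i)) u)))) := by
    intro f hf
    obtain ⟨j, c, hc, u, hu⟩ := exists_bad (M := M) hz ht (Finset.mem_filter.1 hf).2
    rw [Finset.mem_biUnion]
    refine ⟨j, Finset.mem_univ _, ?_⟩
    rw [Finset.mem_biUnion]
    refine ⟨c, hc, ?_⟩
    rw [Finset.mem_biUnion]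
    exact ⟨u, Finset.mem_univ _, hu⟩
  have h1 := Finset.card_le_card hsub
  have h2 : ∀ (j : Fin z) (c : Fin M → Fin z → Finset (Pt z N)),
      (((Finset.univ : Finset (Pt z N)).biUnion (fun u =>
            bad K t j (cell (fun i => dec j (c i)) u))).card : ℝ) ≤ (N : ℝ) ^ z * b := by
    intro j c
    have h3 : (((Finset.univ : Finset (Pt z N)).biUnion (fun u =>
            bad K t j (cell (fun i => dec j (c i)) u))).card : ℝ) ≤
        ∑ u : Pt z N, ((bad K t j (cell (fun i => dec j (c i)) u)).card : ℝ) := by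
      exact_mod_cast Finset.card_biUnion_le
    refine h3.trans ?_
    refine (Finset.sum_le_card_nsmul _ _ b fun u _ => card_bad ht0 ht1 j _).trans ?_
    rw [Finset.card_univ, card_Pt, nsmul_eq_mul, Nat.cast_pow]
  have h4 : ∀ j : Fin z, (((Fintype.piFinset (fun _ : Fin M => cod (N := N) j)).biUnion (fun c =>
          (Finset.univ : Finset (Pt z N)).biUnion (fun u =>
            bad K t j (cell (fun i => dec j (c i)) u)))).card : ℝ) ≤
      (2 : ℝ) ^ (z * M * N ^ (z - 2)) * ((N : ℝ) ^ z * b) := by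
    intro j
    have h3 : (((Fintype.piFinset (fun _ : Fin M => cod (N := N) j)).biUnion (fun c =>
          (Finset.univ : Finset (Pt z N)).biUnion (fun u =>
            bad K t j (cell (fun i => dec j (c i)) u)))).card : ℝ) ≤
        ∑ c ∈ Fintype.piFinset (fun _ : Fin M => cod (N := N) j),
          (((Finset.univ : Finset (Pt z N)).biUnion (fun u =>
            bad K t j (cell (fun i => dec j (c i)) u))).card : ℝ) := by
      exact_mod_cast Finset.card_biUnion_le
    refine h3.trans ?_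
    refine (Finset.sum_le_card_nsmul _ _ _ fun c _ => h2 j c).trans ?_
    rw [nsmul_eq_mul]
    refine mul_le_mul_of_nonneg_right ?_ (by positivity)
    rw [Fintype.card_piFinset, Finset.prod_const, Finset.card_univ, Fintype.card_fin]
    have h5 : ((cod (N := N) j).card : ℝ) ≤ (2 : ℝ) ^ (z * N ^ (z - 2)) := by
      exact_mod_cast card_cod (N := N) j
    rw [Nat.cast_pow]
    refine (pow_le_pow_left₀ (Nat.cast_nonneg _) h5 M).trans (le_of_eq ?_)
    rw [← pow_mul]
    congr 1
    ring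
  have h6 : ((Finset.univ.filter (fun f : Ln z N → Fin K => ¬ QR M κ f)).card : ℝ) ≤
      ∑ j : Fin z, (((Fintype.piFinset (fun _ : Fin M => cod (N := N) j)).biUnion (fun c =>
          (Finset.univ : Finset (Pt z N)).biUnion (fun u =>
            bad K t j (cell (fun i => dec j (c i)) u)))).card : ℝ) := by
    exact_mod_cast h1.trans Finset.card_biUnion_le
  refine h6.trans ?_
  refine (Finset.sum_le_card_nsmul _ _ _ fun j _ => h4 j).trans ?_
  rw [Finset.card_univ, Fintype.card_fin, nsmul_eq_mul]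

theorem asym (z M : ℕ) (hz : 2 ≤ z) (t : ℝ) (ht : 0 < t) : ∃ N0 : ℕ, ∀ N : ℕ, N0 ≤ N → 1 ≤ N →
    8 * ((z : ℝ) * ((2 : ℝ) ^ (z * M * N ^ (z - 2)) * ((N : ℝ) ^ z *
        (2 * Real.exp (-(t ^ 2 * ((N ^ (z - 1) : ℕ) : ℝ) / 4)))))) ≤ 1 := by
  have hz0 : (0 : ℝ) < z := by exact_mod_cast (by omega : 0 < z)
  have hc : (0 : ℝ) < t ^ 2 / (8 * z) := by positivity
  have e1 := (Real.isLittleO_log_id_atTop.def hc)
  have e2 : ∀ᶠ x : ℝ in Filter.atTop,
      (Real.log (16 * z) + z * M * Real.log 2) * (8 / t ^ 2) ≤ x := Filter.eventually_ge_atTop _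
  have e3 := (tendsto_natCast_atTop_atTop (R := ℝ)).eventually (e1.and e2)
  obtain ⟨N0, hN0⟩ := Filter.eventually_atTop.1 e3
  refine ⟨N0, fun N hN hN1 => ?_⟩
  obtain ⟨h1, h2⟩ := hN0 N hN
  have hNp : (1 : ℝ) ≤ N := by exact_mod_cast hN1
  have hNpos : (0 : ℝ) < N := by linarith
  have hlog : 0 ≤ Real.log N := Real.log_nonneg hNp
  rw [id, Real.norm_of_nonneg hlog, Real.norm_of_nonneg hNpos.le] at h1
  have h3 : (z : ℝ) * Real.log N ≤ t ^ 2 * N / 8 := by
    have := mul_le_mul_of_nonneg_left h1 hz0.le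
    refine this.trans (le_of_eq ?_)
    field_simp
  have h4 : Real.log (16 * z) + z * M * Real.log 2 ≤ t ^ 2 * N / 8 := by
    have ht2 : (0 : ℝ) < t ^ 2 / 8 := by positivity
    have := mul_le_mul_of_nonneg_right h2 ht2.le
    refine le_trans (le_of_eq ?_) (this.trans (le_of_eq ?_))
    · field_simp
    · ring
  set A : ℝ := (N : ℝ) ^ (z - 2) with hA
  have hA1 : 1 ≤ A := one_le_pow₀ hNp
  have h5 : ((N ^ (z - 1) : ℕ) : ℝ) = N * A := by
    rw [Nat.cast_pow, hA, ← pow_succ']
    congr 1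
    omega
  have h16 : 0 ≤ Real.log (16 * z) := Real.log_nonneg (by
    have : (2 : ℝ) ≤ z := by exact_mod_cast hz
    linarith)
  have h6 : Real.log (16 * z) + z * Real.log N + z * M * A * Real.log 2 ≤
      t ^ 2 * (N * A) / 4 := by
    have h7 : Real.log (16 * z) + z * Real.log N ≤
        (Real.log (16 * z) + z * Real.log N) * A := by
      have : 0 ≤ Real.log (16 * z) + z * Real.log N := by positivity
      nlinarith
    have h8 : (Real.log (16 * z) + z * M * Real.log 2 + z * Real.log N) * A ≤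
        (t ^ 2 * N / 8 + t ^ 2 * N / 8) * A :=
      mul_le_mul_of_nonneg_right (add_le_add h4 h3) (by linarith)
    nlinarith
  have h9 : 8 * ((z : ℝ) * ((2 : ℝ) ^ (z * M * N ^ (z - 2)) * ((N : ℝ) ^ z *
        (2 * Real.exp (-(t ^ 2 * ((N ^ (z - 1) : ℕ) : ℝ) / 4)))))) =
      Real.exp (Real.log (16 * z) + z * Real.log N + z * M * A * Real.log 2 -
        t ^ 2 * (N * A) / 4) := by
    rw [Real.exp_sub, Real.exp_add, Real.exp_add, Real.exp_log (by positivity)]
    have h10 : Real.exp (z * Real.log N) = (N : ℝ) ^ z := by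
      rw [Real.exp_nat_mul, Real.exp_log hNpos]
    have h11 : Real.exp (z * M * A * Real.log 2) = (2 : ℝ) ^ (z * M * N ^ (z - 2)) := by
      have : (z : ℝ) * M * A * Real.log 2 = ((z * M * N ^ (z - 2) : ℕ) : ℝ) * Real.log 2 := by
        rw [hA]
        push_cast
        ring
      rw [this, Real.exp_nat_mul, Real.exp_log (by norm_num)]
    rw [h10, h11, h5, Real.exp_neg]
    field_simp
    ring
  rw [h9]
  exact Real.exp_le_one_iff.2 (by linarith)

end ColrAux

open ColrAux in
theorem colr (z K M : ℕ) [NeZero K] (hz : 2 ≤ z) (κ : ℝ) (hκ : 0 < κ) :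
    ∃ N0 : ℕ, ∀ (N : ℕ) [NeZero N], N0 ≤ N →
      8 * (Nat.card {f : Ln z N → Fin K // ¬ QR M κ f} : ℝ) ≤
        (K : ℝ) ^ Fintype.card (Ln z N) := by
  have ht : 0 < min κ 1 := lt_min hκ one_pos
  obtain ⟨N0, hN0⟩ := asym z M hz (min κ 1) ht
  refine ⟨N0, fun N _ hN => ?_⟩
  have h1 := hN0 N hN (Nat.one_le_iff_ne_zero.2 (NeZero.ne N))
  have h2 := count (N := N) (K := K) (M := M) (z := z) (by omega) (min_le_left κ 1) ht.le
    (min_le_right κ 1)
  have h3 : (0 : ℝ) ≤ (K : ℝ) ^ Fintype.card (Ln z N) := by positivity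
  have h4 := mul_le_mul_of_nonneg_right h1 h3
  rw [one_mul] at h4
  refine le_trans ?_ h4
  have h5 := mul_le_mul_of_nonneg_left h2 (by norm_num : (0 : ℝ) ≤ 8)
  refine h5.trans (le_of_eq ?_)
  ring

end Pool.Agent.Lib.P47j
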