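import Pool.Agent.Lib.P47j.Defs
import Pool.Agent.Lib.P47j.Bas

/-!
Pairs of slots on common lines: expected numbers of pairs of slots on a common line, and of pairs
of slots in the same copy on a common line that is not active.
-/

open scoped BigOperators

namespace Pool.Agent.Lib.P47j

namespace PairAux

/-- exchange of two values of a function with two further elements -/
def swp {X : Type} {m : ℕ} (t t' : Fin m) (p : (Fin m → X) × X × X) : (Fin m → X) × X × X :=
  (Function.update (Function.update p.1 t p.2.1) t' p.2.2, p.1 t, p.1 t')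

theorem swp_swp {X : Type} {m : ℕ} (t t' : Fin m) (h : t ≠ t') :
    Function.Involutive (swp (X := X) t t') := by
  rintro ⟨e, x, y⟩
  simp only [swp]
  refine Prod.ext ?_ (Prod.ext ?_ ?_)
  · funext i
    by_cases h1 : i = t'
    · subst h1; simp
    · by_cases h2 : i = t
      · subst h2; simp [h1]
      · simp [h1, h2]
  · simp [h]
  · simp

end PairAux

theorem pairSum {X : Type} [Fintype X] {m : ℕ} (t t' : Fin m) (h : t ≠ t') (F : X → X → ℝ) :
    (∑ e : Fin m → X, F (e t) (e t')) * (Fintype.card X : ℝ) ^ 2 =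
      (∑ x, ∑ y, F x y) * (Fintype.card X : ℝ) ^ m := by
  classical
  have h1 : ∑ p : (Fin m → X) × X × X, F (p.1 t) (p.1 t') =
      (∑ e : Fin m → X, F (e t) (e t')) * (Fintype.card X : ℝ) ^ 2 := by
    rw [Fintype.sum_prod_type, Finset.sum_mul]
    refine Finset.sum_congr rfl fun e _ => ?_
    simp only [Finset.sum_const, Finset.card_univ, Fintype.card_prod, nsmul_eq_mul]
    push_cast
    ring
  have h2 : ∑ q : (Fin m → X) × X × X, F q.2.1 q.2.2 =
      (∑ x, ∑ y, F x y) * (Fintype.card X : ℝ) ^ m := by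
    rw [Fintype.sum_prod_type]
    simp only [Fintype.sum_prod_type, Finset.sum_const, Finset.card_univ, nsmul_eq_mul]
    rw [Fintype.card_fun, Fintype.card_fin]
    push_cast
    ring
  rw [← h1, ← h2]
  exact Equiv.sum_comp ((PairAux.swp_swp t t' h).toPerm (PairAux.swp (X := X) t t'))
    (fun q : (Fin m → X) × X × X => F q.2.1 q.2.2)

/-- The ordered pairs of different slots on a common line. -/
noncomputable def nbD {z N R m : ℕ} [NeZero N] (e : Fin m → ZMod R × Pt z N) : ℕ :=
  Nat.card {p : Fin m × Fin m // p.1 ≠ p.2 ∧ ∃ j, ln j (e p.1).2 = ln j (e p.2).2}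

/-- The ordered pairs of different points of the same copy, both on exactly `R` active lines, on a
common line that is not active. -/
noncomputable def nbI {z N K R m : ℕ} [NeZero N] [NeZero K] (f : Ln z N → Fin K)
    (e : Fin m → ZMod R × Pt z N) : ℕ :=
  Nat.card {p : Fin m × Fin m // (e p.1).1 = (e p.2).1 ∧ (e p.1).2 ≠ (e p.2).2 ∧
    (e p.1).2 ∈ good R f ∧ (e p.2).2 ∈ good R f ∧
    ∃ j, ln j (e p.1).2 = ln j (e p.2).2 ∧ f (ln j (e p.1).2) ≠ 0}

namespace PairAux

theorem pair_le {X : Type} [Fintype X] [Nonempty X] {m : ℕ} (t t' : Fin m) (h : t ≠ t')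
    (F : X → X → ℝ) (B : ℝ) (hB : ∑ x, ∑ y, F x y ≤ B * (Fintype.card X : ℝ) ^ 2) :
    ∑ e : Fin m → X, F (e t) (e t') ≤ B * (Fintype.card (Fin m → X) : ℝ) := by
  have hX : (0 : ℝ) < (Fintype.card X : ℝ) := by exact_mod_cast Fintype.card_pos
  have h1 := pairSum t t' h F
  have h2 : (Fintype.card (Fin m → X) : ℝ) = (Fintype.card X : ℝ) ^ m := by
    rw [Fintype.card_fun, Fintype.card_fin]; push_cast; ring
  rw [h2]
  have h3 : (∑ e : Fin m → X, F (e t) (e t')) * (Fintype.card X : ℝ) ^ 2 ≤
      (B * (Fintype.card X : ℝ) ^ m) * (Fintype.card X : ℝ) ^ 2 := by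
    rw [h1]
    calc (∑ x, ∑ y, F x y) * (Fintype.card X : ℝ) ^ m
        ≤ (B * (Fintype.card X : ℝ) ^ 2) * (Fintype.card X : ℝ) ^ m :=
          mul_le_mul_of_nonneg_right hB (by positivity)
      _ = (B * (Fintype.card X : ℝ) ^ m) * (Fintype.card X : ℝ) ^ 2 := by ring
  exact le_of_mul_le_mul_right h3 (by positivity)

/-- the points on a line through a given point -/
theorem card_ln {z N : ℕ} [NeZero N] (j : Fin z) (u : Pt z N) :
    (Finset.univ.filter (fun v : Pt z N => ln j u = ln j v)).card = N := by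
  have h := card_line j (Function.update u j 0) (by simp)
  refine Eq.trans ?_ h
  congr 1
  ext v
  simp only [Finset.mem_filter, Finset.mem_univ, true_and]
  exact ⟨fun h => h.symm, fun h => h.symm⟩

/-- the points on some line through a given point -/
theorem card_nb {z N : ℕ} [NeZero N] (u : Pt z N) :
    (Finset.univ.filter (fun v : Pt z N => ∃ j, ln j u = ln j v)).card ≤ z * N := by
  classical
  have h1 : Finset.univ.filter (fun v : Pt z N => ∃ j, ln j u = ln j v) ⊆
      Finset.univ.biUnion fun j : Fin z =>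
        Finset.univ.filter (fun v : Pt z N => ln j u = ln j v) := by
    intro v hv
    simp only [Finset.mem_filter, Finset.mem_univ, true_and, Finset.mem_biUnion] at hv ⊢
    exact hv
  refine (Finset.card_le_card h1).trans (Finset.card_biUnion_le.trans ?_)
  simp only [card_ln, Finset.sum_const, Finset.card_univ, Fintype.card_fin, smul_eq_mul]
  exact le_refl _

/-- the functions that vanish on a given set -/
theorem card_zero {A : Type} [Fintype A] [DecidableEq A] {K : ℕ} [NeZero K] (L : Finset A) :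
    ((Finset.univ.filter (fun f : A → Fin K => ∀ l ∈ L, f l = 0)).card : ℝ) * (K : ℝ) ^ L.card =
      (Fintype.card (A → Fin K) : ℝ) := by
  have h1 : Finset.univ.filter (fun f : A → Fin K => ∀ l ∈ L, f l = 0) =
      Fintype.piFinset fun l => if l ∈ L then ({0} : Finset (Fin K)) else Finset.univ := by
    ext f
    simp only [Finset.mem_filter, Finset.mem_univ, true_and, Fintype.mem_piFinset]
    constructor
    · intro h l
      by_cases hl : l ∈ L
      · rw [if_pos hl]; simpa using h l hl
      · rw [if_neg hl]; exact Finset.mem_univ _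
    · intro h l hl
      have := h l
      rw [if_pos hl] at this
      simpa using this
  rw [h1, Fintype.card_piFinset, Fintype.card_fun, Fintype.card_fin]
  push_cast
  have h2 : ∀ l, ((if l ∈ L then ({0} : Finset (Fin K)) else Finset.univ).card : ℝ) =
      if l ∈ L then 1 else (K : ℝ) := by
    intro l
    split_ifs <;> simp
  have h3 : (K : ℝ) ^ L.card = ∏ l : A, if l ∈ L then (K : ℝ) else 1 := by
    rw [Finset.prod_ite_mem]
    simp
  rw [Finset.prod_congr rfl fun l _ => h2 l, h3, ← Finset.prod_mul_distrib]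
  rw [← Finset.card_univ, ← Finset.prod_const]
  refine Finset.prod_congr rfl fun l _ => ?_
  split_ifs <;> simp

/-- the number of the colourings for which two points on a common inactive line are good -/
theorem card_two {z N K R : ℕ} [NeZero N] [NeZero K] (u u' : Pt z N) (huv : u ≠ u')
    (hj : ∃ j, ln j u = ln j u') :
    ((Finset.univ.filter (fun f : Ln z N → Fin K => u ∈ good R f ∧ u' ∈ good R f ∧
      ∃ j, ln j u = ln j u' ∧ f (ln j u) ≠ 0)).card : ℝ) ≤
      mu z K R ^ 2 * (Fintype.card (Ln z N → Fin K) : ℝ) := by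
  classical
  obtain ⟨j, hj⟩ := hj
  have hK : (0 : ℝ) < (K : ℝ) := by exact_mod_cast Nat.pos_of_ne_zero (NeZero.ne K)
  let P := (Finset.univ.erase j : Finset (Fin z)).powersetCard R
  let L : Finset (Fin z) × Finset (Fin z) → Finset (Ln z N) := fun A =>
    A.1.image (fun i => ln i u) ∪ A.2.image (fun i => ln i u')
  have hinj : ∀ w : Pt z N, Function.Injective (fun i : Fin z => ln i w) := by
    intro w i i' h
    exact ln_dir h
  have hL : ∀ A ∈ P ×ˢ P, (L A).card = 2 * R := by
    intro A hA
    rw [Finset.mem_product] at hA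
    have hA1 := Finset.mem_powersetCard.1 hA.1
    have hA2 := Finset.mem_powersetCard.1 hA.2
    rw [Finset.card_union_of_disjoint, Finset.card_image_of_injective _ (hinj u),
      Finset.card_image_of_injective _ (hinj u'), hA1.2, hA2.2]
    · ring
    · rw [Finset.disjoint_left]
      intro l h1 h2
      obtain ⟨i, hi, rfl⟩ := Finset.mem_image.1 h1
      obtain ⟨i', hi', h3⟩ := Finset.mem_image.1 h2
      have h4 : i' = i := ln_dir h3
      subst h4
      have h5 : i' = j := ln_unique huv h3.symm hj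
      have h6 := hA1.1 hi
      rw [h5] at h6
      simp at h6
  have hsub : Finset.univ.filter (fun f : Ln z N → Fin K => u ∈ good R f ∧ u' ∈ good R f ∧
      ∃ j, ln j u = ln j u' ∧ f (ln j u) ≠ 0) ⊆
      (P ×ˢ P).biUnion fun A =>
        Finset.univ.filter (fun f : Ln z N → Fin K => ∀ l ∈ L A, f l = 0) := by
    intro f hf
    simp only [Finset.mem_filter, Finset.mem_univ, true_and] at hf
    obtain ⟨h1, h2, i, hi, h3⟩ := hf
    have hij : i = j := ln_unique huv hi hj
    subst hij
    rw [mem_good] at h1 h2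
    rw [Finset.mem_biUnion]
    refine ⟨(act f u, act f u'), ?_, ?_⟩
    · rw [Finset.mem_product]
      refine ⟨Finset.mem_powersetCard.2 ⟨?_, h1⟩, Finset.mem_powersetCard.2 ⟨?_, h2⟩⟩
      · intro a ha
        rw [Finset.mem_erase]
        refine ⟨?_, Finset.mem_univ _⟩
        rintro rfl
        exact h3 ((mem_act f u a).1 ha)
      · intro a ha
        rw [Finset.mem_erase]
        refine ⟨?_, Finset.mem_univ _⟩
        rintro rfl
        rw [hi] at h3
        exact h3 ((mem_act f u' a).1 ha)
    · simp only [Finset.mem_filter, Finset.mem_univ, true_and]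
      intro l hl
      rcases Finset.mem_union.1 hl with hl | hl
      · obtain ⟨a, ha, rfl⟩ := Finset.mem_image.1 hl
        exact (mem_act f u a).1 ha
      · obtain ⟨a, ha, rfl⟩ := Finset.mem_image.1 hl
        exact (mem_act f u' a).1 ha
  have h1 : ((Finset.univ.filter (fun f : Ln z N → Fin K => u ∈ good R f ∧ u' ∈ good R f ∧
      ∃ j, ln j u = ln j u' ∧ f (ln j u) ≠ 0)).card : ℝ) ≤
      ∑ A ∈ P ×ˢ P, ((Finset.univ.filter
        (fun f : Ln z N → Fin K => ∀ l ∈ L A, f l = 0)).card : ℝ) := by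
    have := (Finset.card_le_card hsub).trans Finset.card_biUnion_le
    exact_mod_cast this
  have h2 : ∀ A ∈ P ×ˢ P, ((Finset.univ.filter
        (fun f : Ln z N → Fin K => ∀ l ∈ L A, f l = 0)).card : ℝ) =
      (Fintype.card (Ln z N → Fin K) : ℝ) / (K : ℝ) ^ (2 * R) := by
    intro A hA
    rw [eq_div_iff (by positivity), ← card_zero (L A), hL A hA]
  rw [Finset.sum_congr rfl h2, Finset.sum_const, Finset.card_product, nsmul_eq_mul] at h1
  refine h1.trans ?_
  have h3 : (P.card : ℝ) ≤ (z.choose R : ℝ) := by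
    have : P.card ≤ z.choose R := by
      simp only [P]
      rw [Finset.card_powersetCard]
      refine Nat.choose_le_choose R ?_
      exact (Finset.card_le_univ _).trans (by simp)
    exact_mod_cast this
  have h4 : (0 : ℝ) ≤ (Fintype.card (Ln z N → Fin K) : ℝ) := by positivity
  rw [mu, div_pow, ← pow_mul, mul_comm R 2]
  push_cast
  rw [← mul_div_assoc, div_mul_eq_mul_div]
  refine div_le_div_of_nonneg_right ?_ (by positivity)
  refine mul_le_mul_of_nonneg_right ?_ h4
  rw [sq]
  exact mul_le_mul h3 h3 (by positivity) (by positivity)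

theorem card_X (z N R : ℕ) [NeZero R] :
    (Fintype.card (ZMod R × Pt z N) : ℝ) = R * (N : ℝ) ^ z := by
  rw [Fintype.card_prod, ZMod.card]
  simp

end PairAux

theorem sum_nbD (z N R m : ℕ) [NeZero N] [NeZero R] (hz : 1 ≤ z) :
    ∑ e : Fin m → ZMod R × Pt z N, (nbD e : ℝ) ≤
      (m : ℝ) ^ 2 * (z / (N : ℝ) ^ (z - 1)) *
        (Fintype.card (Fin m → ZMod R × Pt z N) : ℝ) := by
  classical
  have hN : (0 : ℝ) < (N : ℝ) := by exact_mod_cast Nat.pos_of_ne_zero (NeZero.ne N)
  have hR : (0 : ℝ) < (R : ℝ) := by exact_mod_cast Nat.pos_of_ne_zero (NeZero.ne R)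
  have hcard : ∀ e : Fin m → ZMod R × Pt z N, (nbD e : ℝ) = ∑ p : Fin m × Fin m,
      if p.1 ≠ p.2 ∧ ∃ j, ln j (e p.1).2 = ln j (e p.2).2 then (1 : ℝ) else 0 := by
    intro e
    rw [nbD, Nat.card_eq_fintype_card, Fintype.card_subtype, Finset.natCast_card_filter]
  simp only [hcard]
  rw [Finset.sum_comm]
  have hp : ∀ p ∈ (Finset.univ : Finset (Fin m × Fin m)),
      ∑ e : Fin m → ZMod R × Pt z N,
        (if p.1 ≠ p.2 ∧ ∃ j, ln j (e p.1).2 = ln j (e p.2).2 then (1 : ℝ) else 0) ≤
      (z / (N : ℝ) ^ (z - 1)) * (Fintype.card (Fin m → ZMod R × Pt z N) : ℝ) := by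
    intro p _
    by_cases hpp : p.1 = p.2
    · simp only [hpp, ne_eq, not_true_eq_false, false_and, if_false, Finset.sum_const_zero]
      positivity
    · have h1 := PairAux.pair_le (X := ZMod R × Pt z N) p.1 p.2 hpp
        (fun x y => if ∃ j, ln j x.2 = ln j y.2 then (1 : ℝ) else 0) (z / (N : ℝ) ^ (z - 1)) ?_
      · refine le_trans (le_of_eq ?_) h1
        refine Finset.sum_congr rfl fun e _ => ?_
        simp [hpp]
      · have h2 : ∀ x : ZMod R × Pt z N,
            ∑ y : ZMod R × Pt z N, (if ∃ j, ln j x.2 = ln j y.2 then (1 : ℝ) else 0) ≤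
              R * (z * N) := by
          intro x
          rw [Fintype.sum_prod_type]
          have h3 : ∀ a ∈ (Finset.univ : Finset (ZMod R)), ∑ v : Pt z N,
              (if ∃ j, ln j x.2 = ln j (a, v).2 then (1 : ℝ) else 0) ≤ z * N := by
            intro a _
            rw [← Finset.natCast_card_filter]
            exact_mod_cast PairAux.card_nb x.2
          refine (Finset.sum_le_sum h3).trans ?_
          rw [Finset.sum_const, Finset.card_univ, ZMod.card, nsmul_eq_mul]
        refine (Finset.sum_le_sum fun x _ => h2 x).trans ?_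
        rw [Finset.sum_const, Finset.card_univ, nsmul_eq_mul, PairAux.card_X]
        obtain ⟨k, rfl⟩ : ∃ k, z = k + 1 := ⟨z - 1, by omega⟩
        rw [Nat.add_sub_cancel]
        rw [pow_succ]
        apply le_of_eq
        field_simp
  refine (Finset.sum_le_sum hp).trans ?_
  rw [Finset.sum_const, Finset.card_univ, Fintype.card_prod, Fintype.card_fin, nsmul_eq_mul]
  push_cast
  apply le_of_eq
  ring

theorem sum_nbI (z N K R m : ℕ) [NeZero N] [NeZero K] [NeZero R] (hz : 1 ≤ z) :
    ∑ f : Ln z N → Fin K, ∑ e : Fin m → ZMod R × Pt z N, (nbI f e : ℝ) ≤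
      (m : ℝ) ^ 2 * (z / (R * (N : ℝ) ^ (z - 1))) * mu z K R ^ 2 *
        ((Fintype.card (Ln z N → Fin K) : ℝ) *
          (Fintype.card (Fin m → ZMod R × Pt z N) : ℝ)) := by
  classical
  have hN : (0 : ℝ) < (N : ℝ) := by exact_mod_cast Nat.pos_of_ne_zero (NeZero.ne N)
  have hR : (0 : ℝ) < (R : ℝ) := by exact_mod_cast Nat.pos_of_ne_zero (NeZero.ne R)
  let G : (Ln z N → Fin K) → (ZMod R × Pt z N) → (ZMod R × Pt z N) → ℝ := fun f x y =>
    if x.1 = y.1 ∧ x.2 ≠ y.2 ∧ x.2 ∈ good R f ∧ y.2 ∈ good R f ∧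
      ∃ j, ln j x.2 = ln j y.2 ∧ f (ln j x.2) ≠ 0 then (1 : ℝ) else 0
  have hcard : ∀ (f : Ln z N → Fin K) (e : Fin m → ZMod R × Pt z N),
      (nbI f e : ℝ) = ∑ p : Fin m × Fin m, G f (e p.1) (e p.2) := by
    intro f e
    rw [nbI, Nat.card_eq_fintype_card, Fintype.card_subtype, Finset.natCast_card_filter]
  simp only [hcard]
  have hswap : ∑ f : Ln z N → Fin K, ∑ e : Fin m → ZMod R × Pt z N,
      ∑ p : Fin m × Fin m, G f (e p.1) (e p.2) =
      ∑ p : Fin m × Fin m, ∑ e : Fin m → ZMod R × Pt z N, ∑ f : Ln z N → Fin K,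
        G f (e p.1) (e p.2) := by
    calc ∑ f : Ln z N → Fin K, ∑ e : Fin m → ZMod R × Pt z N,
          ∑ p : Fin m × Fin m, G f (e p.1) (e p.2)
        = ∑ e : Fin m → ZMod R × Pt z N, ∑ f : Ln z N → Fin K,
          ∑ p : Fin m × Fin m, G f (e p.1) (e p.2) := Finset.sum_comm
      _ = ∑ e : Fin m → ZMod R × Pt z N, ∑ p : Fin m × Fin m,
          ∑ f : Ln z N → Fin K, G f (e p.1) (e p.2) :=
          Finset.sum_congr rfl fun e _ => Finset.sum_comm
      _ = ∑ p : Fin m × Fin m, ∑ e : Fin m → ZMod R × Pt z N,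
          ∑ f : Ln z N → Fin K, G f (e p.1) (e p.2) := Finset.sum_comm
  rw [hswap]
  have hmu : (0 : ℝ) ≤ mu z K R ^ 2 * (Fintype.card (Ln z N → Fin K) : ℝ) := by
    positivity
  have hG : ∀ x y : ZMod R × Pt z N, ∑ f : Ln z N → Fin K, G f x y ≤
      (if x.1 = y.1 ∧ ∃ j, ln j x.2 = ln j y.2 then (1 : ℝ) else 0) *
        (mu z K R ^ 2 * (Fintype.card (Ln z N → Fin K) : ℝ)) := by
    intro x y
    by_cases h1 : x.1 = y.1 ∧ ∃ j, ln j x.2 = ln j y.2
    · rw [if_pos h1, one_mul]
      by_cases h2 : x.2 = y.2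
      · refine le_trans (le_of_eq ?_) hmu
        refine Finset.sum_eq_zero fun f _ => ?_
        simp only [G]
        rw [if_neg]
        rintro ⟨_, h3, _⟩
        exact h3 h2
      · refine le_trans (le_of_eq ?_) (PairAux.card_two (R := R) x.2 y.2 h2 h1.2)
        rw [Finset.natCast_card_filter]
        refine Finset.sum_congr rfl fun f _ => ?_
        simp only [G]
        simp only [h1.1, h2, ne_eq, not_false_eq_true, true_and]
    · rw [if_neg h1, zero_mul]
      apply le_of_eq
      refine Finset.sum_eq_zero fun f _ => ?_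
      simp only [G]
      rw [if_neg]
      rintro ⟨h3, _, _, _, j, h4, _⟩
      exact h1 ⟨h3, j, h4⟩
  have hp : ∀ p ∈ (Finset.univ : Finset (Fin m × Fin m)),
      ∑ e : Fin m → ZMod R × Pt z N, ∑ f : Ln z N → Fin K, G f (e p.1) (e p.2) ≤
      ((z / (R * (N : ℝ) ^ (z - 1))) *
        (mu z K R ^ 2 * (Fintype.card (Ln z N → Fin K) : ℝ))) *
        (Fintype.card (Fin m → ZMod R × Pt z N) : ℝ) := by
    intro p _
    by_cases hpp : p.1 = p.2
    · have h0 : ∑ e : Fin m → ZMod R × Pt z N, ∑ f : Ln z N → Fin K,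
          G f (e p.1) (e p.2) = 0 := by
        refine Finset.sum_eq_zero fun e _ => Finset.sum_eq_zero fun f _ => ?_
        simp only [G]
        rw [if_neg]
        rintro ⟨_, h3, _⟩
        rw [hpp] at h3
        exact h3 rfl
      rw [h0]
      positivity
    · refine PairAux.pair_le (X := ZMod R × Pt z N) p.1 p.2 hpp
        (fun x y => ∑ f : Ln z N → Fin K, G f x y) _ ?_
      have h2 : ∀ x : ZMod R × Pt z N,
          ∑ y : ZMod R × Pt z N, ∑ f : Ln z N → Fin K, G f x y ≤
            (z * N) * (mu z K R ^ 2 * (Fintype.card (Ln z N → Fin K) : ℝ)) := by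
        intro x
        refine (Finset.sum_le_sum fun y _ => hG x y).trans ?_
        rw [← Finset.sum_mul]
        refine mul_le_mul_of_nonneg_right ?_ hmu
        rw [Fintype.sum_prod_type]
        rw [Finset.sum_eq_single x.1]
        · simp only [true_and]
          rw [← Finset.natCast_card_filter]
          exact_mod_cast PairAux.card_nb x.2
        · intro b _ hb
          refine Finset.sum_eq_zero fun v _ => ?_
          rw [if_neg]
          rintro ⟨h3, _⟩
          exact hb h3.symm
        · intro h3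
          exact absurd (Finset.mem_univ _) h3
      refine (Finset.sum_le_sum fun x _ => h2 x).trans ?_
      rw [Finset.sum_const, Finset.card_univ, nsmul_eq_mul, PairAux.card_X]
      obtain ⟨k, rfl⟩ : ∃ k, z = k + 1 := ⟨z - 1, by omega⟩
      rw [Nat.add_sub_cancel]
      rw [pow_succ]
      apply le_of_eq
      field_simp
  refine (Finset.sum_le_sum hp).trans ?_
  rw [Finset.sum_const, Finset.card_univ, Fintype.card_prod, Fintype.card_fin, nsmul_eq_mul]
  push_cast
  apply le_of_eq
  ring

end Pool.Agent.Lib.P47j
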