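import Pool.Agent.Lib.P47j.Defs
import Pool.Agent.Lib.P47j.Bas
import Pool.Agent.Lib.P47j.Pair
import Pool.Agent.Lib.P47j.ChCnt

/-!
Module Del. Deletions of slots: few slots are removed so that no two slots of a copy lie on a
common line that is not active, every slot has few neighbours and there are no short chains with
a mark.
-/

open scoped BigOperators

namespace Pool.Agent.Lib.P47j

namespace DelAux

/-- A set of first components of pairs is not larger than the set of the pairs. -/
theorem card_fst_le {m : ℕ} (Q : Fin m × Fin m → Prop) (A : Finset (Fin m))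
    (hA : ∀ t ∈ A, ∃ t', Q (t, t')) : A.card ≤ Nat.card {p : Fin m × Fin m // Q p} := by
  classical
  choose! g hg using hA
  have h1 : Function.Injective
      (fun t : A => (⟨(t.1, g t.1), hg t.1 t.2⟩ : {p : Fin m × Fin m // Q p})) := by
    intro a b hab
    have h2 := congrArg (fun x => x.1.1) hab
    exact Subtype.ext h2
  have h3 := Nat.card_le_card_of_injective _ h1
  simpa using h3

/-- Double counting: the slots with more than `B` partners. -/
theorem card_deg_le {m : ℕ} (Q : Fin m → Fin m → Prop) [DecidableRel Q] (B : ℕ)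
    (A : Finset (Fin m)) (hA : ∀ t ∈ A, B ≤ (Finset.univ.filter (fun t' => Q t t')).card) :
    A.card * B ≤ Nat.card {p : Fin m × Fin m // Q p.1 p.2} := by
  classical
  rw [Nat.card_eq_fintype_card, Fintype.card_subtype]
  have h1 : (Finset.univ.filter (fun p : Fin m × Fin m => Q p.1 p.2)).card =
      ∑ t : Fin m, (Finset.univ.filter (fun t' => Q t t')).card := by
    rw [Finset.card_filter, Fintype.sum_prod_type]
    refine Finset.sum_congr rfl (fun t _ => ?_)
    rw [Finset.card_filter]
  rw [h1]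
  calc A.card * B = ∑ _t ∈ A, B := by rw [Finset.sum_const, smul_eq_mul]
    _ ≤ ∑ t ∈ A, (Finset.univ.filter (fun t' => Q t t')).card := Finset.sum_le_sum hA
    _ ≤ ∑ t : Fin m, (Finset.univ.filter (fun t' => Q t t')).card :=
        Finset.sum_le_sum_of_subset (Finset.subset_univ _)

/-- Every chain of a subfamily is a chain of the family. -/
theorem chOK_comp {z N m M1 : ℕ} [NeZero N] (u : Fin m → Pt z N) (ι : Fin M1 → Fin m)
    (hι : Function.Injective ι) {k x : ℕ} {τ : Fin k → Fin M1} {par : Fin k → Fin k}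
    {dir : Fin k → Fin z} {o : Fin k → Option (Fin k × Fin z)}
    (h : ChOK (fun t => u (ι t)) k x τ par dir o) : ChOK u k x (fun i => ι (τ i)) par dir o :=
  ⟨fun a b hab => h.inj (hι hab), h.mono, h.lt, h.line, h.extra, h.cnt⟩

/-- A set of first slots of chains is not larger than the number of the chains. -/
theorem card_first_le {z N m : ℕ} [NeZero N] (u : Fin m → Pt z N) (k : ℕ) (A : Finset (Fin m))
    (hA : ∀ t ∈ A, ∃ (τ : Fin k → Fin m) (par : Fin k → Fin k) (dir : Fin k → Fin z)
      (o : Fin k → Option (Fin k × Fin z)), ChOK u k 1 τ par dir o ∧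
        ∃ h : 0 < k, τ ⟨0, h⟩ = t) :
    A.card ≤ nch u k 1 := by
  classical
  unfold nch
  choose τ par dir o hc h0 hτ using hA
  have h1 : Function.Injective (fun t : A =>
      (⟨(τ t.1 t.2, par t.1 t.2, dir t.1 t.2, o t.1 t.2), hc t.1 t.2⟩ :
        {c : (Fin k → Fin m) × (Fin k → Fin k) × (Fin k → Fin z) ×
          (Fin k → Option (Fin k × Fin z)) // ChOK u k 1 c.1 c.2.1 c.2.2.1 c.2.2.2})) := by
    intro a b hab
    have h2 : τ a.1 a.2 = τ b.1 b.2 := congrArg (fun x => x.1.1) hab
    apply Subtype.ext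
    rw [← hτ a.1 a.2, ← hτ b.1 b.2, h2]
  have h3 := Nat.card_le_card_of_injective _ h1
  simpa using h3

end DelAux

theorem del {z N K R m : ℕ} [NeZero N] [NeZero K] [NeZero R] (f : Ln z N → Fin K)
    (e : Fin m → ZMod R × Pt z N) (g B : ℕ) (hB : 1 ≤ B) :
    ∃ (M1 : ℕ) (ι : Fin M1 → Fin m), Function.Injective ι ∧
      (∀ t, (e (ι t)).2 ∈ good R f) ∧
      (∀ t t', (e (ι t)).1 = (e (ι t')).1 → (e (ι t)).2 ≠ (e (ι t')).2 → ∀ j,
        ln j (e (ι t)).2 = ln j (e (ι t')).2 → f (ln j (e (ι t)).2) = 0) ∧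
      (∀ t, (Finset.univ.filter (fun t' => t' ≠ t ∧
        ∃ j, ln j (e (ι t)).2 = ln j (e (ι t')).2)).card ≤ B) ∧
      (∀ k ≤ g, ∀ (τ : Fin k → Fin M1) (par : Fin k → Fin k) (dir : Fin k → Fin z)
        (o : Fin k → Option (Fin k × Fin z)),
        ¬ ChOK (fun t => (e (ι t)).2) k 1 τ par dir o) ∧
      ∀ P : Finset (ZMod R × Pt z N), (∀ p ∈ P, p.2 ∈ good R f) →
        ((Finset.univ.filter (fun t => e t ∈ P)).card : ℝ) - (nbI f e : ℝ) - (nbD e : ℝ) / B -
          ∑ k ∈ Finset.range (g + 1), (nch (fun t => (e t).2) k 1 : ℝ) ≤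
          ((Finset.univ.filter (fun t => e (ι t) ∈ P)).card : ℝ) := by
  classical
  set u : Fin m → Pt z N := fun t => (e t).2 with hu
  set A1 : Finset (Fin m) := Finset.univ.filter (fun t => ∃ t', (e t).1 = (e t').1 ∧
    (e t).2 ≠ (e t').2 ∧ (e t).2 ∈ good R f ∧ (e t').2 ∈ good R f ∧
    ∃ j, ln j (e t).2 = ln j (e t').2 ∧ f (ln j (e t).2) ≠ 0) with hA1
  set A2 : Finset (Fin m) := Finset.univ.filter (fun t =>
    B ≤ (Finset.univ.filter (fun t' => t ≠ t' ∧ ∃ j, ln j (e t).2 = ln j (e t').2)).card) with hA2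
  set A3 : ℕ → Finset (Fin m) := fun k => Finset.univ.filter (fun t =>
    ∃ (τ : Fin k → Fin m) (par : Fin k → Fin k) (dir : Fin k → Fin z)
      (o : Fin k → Option (Fin k × Fin z)), ChOK u k 1 τ par dir o ∧
        ∃ h : 0 < k, τ ⟨0, h⟩ = t) with hA3
  have c1 : A1.card ≤ nbI f e := by
    unfold nbI
    refine DelAux.card_fst_le (fun p => (e p.1).1 = (e p.2).1 ∧ (e p.1).2 ≠ (e p.2).2 ∧
      (e p.1).2 ∈ good R f ∧ (e p.2).2 ∈ good R f ∧
      ∃ j, ln j (e p.1).2 = ln j (e p.2).2 ∧ f (ln j (e p.1).2) ≠ 0) A1 ?_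
    intro t ht
    exact (Finset.mem_filter.1 ht).2
  have c2 : A2.card * B ≤ nbD e := by
    unfold nbD
    refine DelAux.card_deg_le (fun t t' => t ≠ t' ∧ ∃ j, ln j (e t).2 = ln j (e t').2) B A2 ?_
    intro t ht
    exact (Finset.mem_filter.1 ht).2
  have c3 : ∀ k, (A3 k).card ≤ nch u k 1 := by
    intro k
    refine DelAux.card_first_le u k (A3 k) ?_
    intro t ht
    exact (Finset.mem_filter.1 ht).2
  set S : Finset (Fin m) := Finset.univ.filter (fun t => (e t).2 ∈ good R f ∧ t ∉ A1 ∧ t ∉ A2 ∧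
    t ∉ (Finset.range (g + 1)).biUnion A3) with hS
  have hmem : ∀ t : Fin S.card, S.orderEmbOfFin rfl t ∈ S := fun t =>
    Finset.orderEmbOfFin_mem S rfl t
  have hm : ∀ t : Fin S.card, (e (S.orderEmbOfFin rfl t)).2 ∈ good R f ∧
      S.orderEmbOfFin rfl t ∉ A1 ∧ S.orderEmbOfFin rfl t ∉ A2 ∧
      S.orderEmbOfFin rfl t ∉ (Finset.range (g + 1)).biUnion A3 := fun t =>
    (Finset.mem_filter.1 (hmem t)).2
  have hinj : Function.Injective (fun t : Fin S.card => S.orderEmbOfFin rfl t) :=
    (S.orderEmbOfFin rfl).injective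
  refine ⟨S.card, fun t => S.orderEmbOfFin rfl t, hinj, fun t => (hm t).1, ?_, ?_, ?_, ?_⟩
  · intro t t' h1 h2 j h3
    by_contra h4
    exact (hm t).2.1 (Finset.mem_filter.2 ⟨Finset.mem_univ _, S.orderEmbOfFin rfl t', h1, h2,
      (hm t).1, (hm t').1, j, h3, h4⟩)
  · intro t
    by_contra hcon
    rw [not_le] at hcon
    apply (hm t).2.2.1
    refine Finset.mem_filter.2 ⟨Finset.mem_univ _, le_trans hcon.le ?_⟩
    refine Finset.card_le_card_of_injOn (fun t' => S.orderEmbOfFin rfl t') ?_
      (hinj.injOn)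
    intro t' ht'
    have h1 := (Finset.mem_filter.1 ht').2
    refine Finset.mem_coe.2 (Finset.mem_filter.2 ⟨Finset.mem_univ _, ?_, h1.2⟩)
    intro h2
    exact h1.1 (hinj h2.symm)
  · intro k hk τ par dir o hch
    have h1 := DelAux.chOK_comp u (fun t => S.orderEmbOfFin rfl t) hinj hch
    have hk0 : 0 < k := by
      rcases Nat.eq_zero_or_pos k with h | h
      · subst h
        have h2 := hch.cnt
        simp at h2
      · exact h
    exact (hm (τ ⟨0, hk0⟩)).2.2.2 (Finset.mem_biUnion.2 ⟨k, Finset.mem_range.2 (by omega),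
      Finset.mem_filter.2 ⟨Finset.mem_univ _, _, par, dir, o, h1, hk0, rfl⟩⟩)
  · intro P hP
    have hBR : (0 : ℝ) < (B : ℝ) := by exact_mod_cast (by omega : 0 < B)
    have hsub : (Finset.univ.filter (fun t => e t ∈ P)) ⊆
        (((Finset.univ.filter (fun t : Fin S.card => e (S.orderEmbOfFin rfl t) ∈ P)).image
          (fun t => S.orderEmbOfFin rfl t) ∪ A1) ∪ A2) ∪ (Finset.range (g + 1)).biUnion A3 := by
      intro t ht
      have h1 := (Finset.mem_filter.1 ht).2
      by_cases hS1 : t ∈ S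
      · refine Finset.mem_union_left _ (Finset.mem_union_left _ (Finset.mem_union_left _ ?_))
        have h2 : t ∈ Set.range (S.orderEmbOfFin rfl) := by
          rw [Finset.range_orderEmbOfFin]
          exact hS1
        obtain ⟨t', ht'⟩ := h2
        refine Finset.mem_image.2 ⟨t', Finset.mem_filter.2 ⟨Finset.mem_univ _, ?_⟩, ht'⟩
        rw [ht']
        exact h1
      · by_cases ha1 : t ∈ A1
        · exact Finset.mem_union_left _ (Finset.mem_union_left _ (Finset.mem_union_right _ ha1))
        by_cases ha2 : t ∈ A2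
        · exact Finset.mem_union_left _ (Finset.mem_union_right _ ha2)
        refine Finset.mem_union_right _ ?_
        by_contra ha3
        apply hS1
        exact Finset.mem_filter.2 ⟨Finset.mem_univ _, hP _ h1, ha1, ha2, ha3⟩
    have h1 := Finset.card_le_card hsub
    have h2 := Finset.card_union_le
      (((Finset.univ.filter (fun t : Fin S.card => e (S.orderEmbOfFin rfl t) ∈ P)).image
          (fun t => S.orderEmbOfFin rfl t) ∪ A1) ∪ A2) ((Finset.range (g + 1)).biUnion A3)
    have h3 := Finset.card_union_le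
      ((Finset.univ.filter (fun t : Fin S.card => e (S.orderEmbOfFin rfl t) ∈ P)).image
          (fun t => S.orderEmbOfFin rfl t) ∪ A1) A2
    have h4 := Finset.card_union_le
      ((Finset.univ.filter (fun t : Fin S.card => e (S.orderEmbOfFin rfl t) ∈ P)).image
          (fun t => S.orderEmbOfFin rfl t)) A1
    have h5 : ((Finset.univ.filter (fun t : Fin S.card => e (S.orderEmbOfFin rfl t) ∈ P)).image
          (fun t => S.orderEmbOfFin rfl t)).card ≤
        (Finset.univ.filter (fun t : Fin S.card => e (S.orderEmbOfFin rfl t) ∈ P)).card :=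
      Finset.card_image_le
    have h6 : ((Finset.range (g + 1)).biUnion A3).card ≤
        ∑ k ∈ Finset.range (g + 1), nch u k 1 :=
      le_trans Finset.card_biUnion_le (Finset.sum_le_sum (fun k _ => c3 k))
    have h7 : (Finset.univ.filter (fun t => e t ∈ P)).card ≤
        (Finset.univ.filter (fun t : Fin S.card => e (S.orderEmbOfFin rfl t) ∈ P)).card +
          nbI f e + A2.card + ∑ k ∈ Finset.range (g + 1), nch u k 1 := by omega
    have h8 : ((Finset.univ.filter (fun t => e t ∈ P)).card : ℝ) ≤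
        ((Finset.univ.filter (fun t : Fin S.card => e (S.orderEmbOfFin rfl t) ∈ P)).card : ℝ) +
          (nbI f e : ℝ) + (A2.card : ℝ) + ∑ k ∈ Finset.range (g + 1), (nch u k 1 : ℝ) := by
      exact_mod_cast h7
    have h9 : (A2.card : ℝ) ≤ (nbD e : ℝ) / B := by
      rw [le_div_iff₀ hBR]
      exact_mod_cast c2
    linarith

end Pool.Agent.Lib.P47j
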