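import Pool.Agent.Lib.P47j.Defs

/-!
Module Tele (1.8h; Mathlib only). Counting.
PROOF. (tstProd) First a finite layer cake: a function F : Pt → ℝ with 0 ≤ F ≤ K is ∑_{v ∈ values} λ_v 1[F ≥ v] with λ_v ≥ 0 (differences of consecutive values), ∑ λ_v ≤ K; the sets {F ≥ v} are invariant
under changes of i and j if F is. (E.g. by induction on the number of positive values: subtract the smallest positive value times the indicator of {F > 0}.) Generalise: for disjoint A, j ∉ A and sets s i (i ≠ j)
invariant under i and j, |∑_{u : ∀ i ≠ j, i ∉ A → u ∈ s i} a u ∏_{i ∈ A} F i u| ≤ K^|A| B, by induction on A: for A = ∅ the sum is over a test (ha); for insert i0 A expand F i0 by the layer cake: every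
term λ_v times the sum with s i0 := {F i0 ≥ v} and A. Then take s i = univ.
(tele) Replace H by H' one direction at a time (Finset.induction_on A, or an order of A): for B = insert j B',
∏_B H - ∏_B H' = (H j - H' j) ∏_{B'} H + H' j (∏_{B'} H - ∏_{B'} H'); to control the second term generalise the statement to
|∑_u ∏_{i ∈ C} G i u (∏_{i ∈ B} H i u - ∏_{i ∈ B} H' i u)| ≤ |B| K^(|B|+|C|-1) η N^z for disjoint B, C and G i invariant under i with 0 ≤ G ≤ K. One step: for functions F i (i ∈ A', j ∉ A') with F i invariant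
under i, 0 ≤ F i ≤ K: |∑_u (H j - H' j)(u) ∏_{A'} F i u| ≤ K^|A'| η N^z: H j - H' j is invariant under j, so the sum is
(1/N) ∑_{c : Fin N} ∑_u (H j - H' j)(u) ∏_{A'} F i (update u j c) (the map (u, c) ↦ (update u j c, u j) is a bijection of Pt × Fin N), and for fixed c the functions u ↦ F i (update u j c) are invariant under i and j
(i ≠ j: the updates commute), so tstProd applies.
-/

open scoped BigOperators

namespace Pool.Agent.Lib.P47j

variable {z N : ℕ} [NeZero N]

namespace TeleAux

theorem layer_int (x p q : ℝ) : IntervalIntegrable (fun t : ℝ => if t ≤ x then (1 : ℝ) else 0)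
    MeasureTheory.volume p q := by
  have h : Antitone (fun t : ℝ => if t ≤ x then (1 : ℝ) else 0) := by
    intro a b hab
    dsimp only
    split_ifs with h1 h2
    · exact le_rfl
    · exact absurd (le_trans hab h1) h2
    · exact zero_le_one
    · exact le_rfl
  exact h.intervalIntegrable

theorem layer (x K : ℝ) (h0 : 0 ≤ x) (h1 : x ≤ K) :
    ∫ t in (0 : ℝ)..K, (if t ≤ x then (1 : ℝ) else 0) = x := by
  rw [← intervalIntegral.integral_add_adjacent_intervals (layer_int x 0 x) (layer_int x x K)]
  have e1 : ∫ t in (0 : ℝ)..x, (if t ≤ x then (1 : ℝ) else 0) = x := by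
    rw [intervalIntegral.integral_of_le h0]
    have h2 : Set.EqOn (fun t : ℝ => if t ≤ x then (1 : ℝ) else 0) (fun _ => (1 : ℝ))
        (Set.Ioc 0 x) := fun t ht => by simp [ht.2]
    rw [MeasureTheory.setIntegral_congr_fun measurableSet_Ioc h2]
    simp [h0]
  have e2 : ∫ t in x..K, (if t ≤ x then (1 : ℝ) else 0) = 0 := by
    rw [intervalIntegral.integral_of_le h1]
    have h2 : Set.EqOn (fun t : ℝ => if t ≤ x then (1 : ℝ) else 0) (fun _ => (0 : ℝ))
        (Set.Ioc x K) := fun t ht => by simp [not_le.2 ht.1]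
    rw [MeasureTheory.setIntegral_congr_fun measurableSet_Ioc h2]
    simp
  rw [e1, e2, add_zero]

theorem gen (j : Fin z) (a : Pt z N → ℝ) (B : ℝ) (ha : ∀ T ∈ Tst j, |∑ u ∈ T, a u| ≤ B)
    (K : ℝ) (hK : 0 ≤ K) (A : Finset (Fin z)) : ∀ (_ : j ∉ A) (F : Fin z → Pt z N → ℝ)
    (_ : ∀ i ∈ A, ∀ u, 0 ≤ F i u) (_ : ∀ i ∈ A, ∀ u, F i u ≤ K)
    (_ : ∀ i ∈ A, ∀ u c, F i (Function.update u i c) = F i u ∧
      F i (Function.update u j c) = F i u) (s : Fin z → Finset (Pt z N))
    (_ : ∀ i, i ≠ j → Inv i (s i) ∧ Inv j (s i)) (_ : ∀ i ∈ A, s i = Finset.univ),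
    |∑ u ∈ Finset.univ.filter (fun u => ∀ i, i ≠ j → u ∈ s i), a u * ∏ i ∈ A, F i u| ≤
      K ^ A.card * B := by
  classical
  induction A using Finset.induction_on with
  | empty =>
    intro hj F hF0 hF1 hinv s hs hsA
    simp only [Finset.prod_empty, mul_one, Finset.card_empty, pow_zero, one_mul]
    exact ha _ ⟨s, hs, rfl⟩
  | insert i0 A hi0 ih =>
    intro hj F hF0 hF1 hinv s hs hsA
    have hj0 : i0 ≠ j := fun h => hj (h ▸ Finset.mem_insert_self _ _)
    have hjA : j ∉ A := fun h => hj (Finset.mem_insert_of_mem h)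
    have hm0 : i0 ∈ insert i0 A := Finset.mem_insert_self _ _
    have key : ∀ t : ℝ, |∑ u ∈ Finset.univ.filter (fun u => ∀ i, i ≠ j → u ∈ s i),
        a u * ((if t ≤ F i0 u then (1 : ℝ) else 0) * ∏ i ∈ A, F i u)| ≤ K ^ A.card * B := by
      intro t
      have h1 := ih hjA F (fun i hi => hF0 i (Finset.mem_insert_of_mem hi))
        (fun i hi => hF1 i (Finset.mem_insert_of_mem hi))
        (fun i hi => hinv i (Finset.mem_insert_of_mem hi))
        (Function.update s i0 (Finset.univ.filter (fun u => t ≤ F i0 u))) ?_ ?_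
      · refine le_trans (le_of_eq ?_) h1
        congr 1
        rw [← Finset.sum_filter_add_sum_filter_not
          (Finset.univ.filter (fun u : Pt z N => ∀ i, i ≠ j → u ∈ s i)) (fun u => t ≤ F i0 u)]
        have h2 : ∑ u ∈ (Finset.univ.filter (fun u : Pt z N => ∀ i, i ≠ j → u ∈ s i)).filter
            (fun u => ¬ t ≤ F i0 u),
            a u * ((if t ≤ F i0 u then (1 : ℝ) else 0) * ∏ i ∈ A, F i u) = 0 := by
          refine Finset.sum_eq_zero fun u hu => ?_
          rw [if_neg (Finset.mem_filter.1 hu).2, zero_mul, mul_zero]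
        rw [h2, add_zero]
        refine Finset.sum_congr ?_ fun u hu => ?_
        · ext u
          simp only [Finset.mem_filter, Finset.mem_univ, true_and]
          constructor
          · rintro ⟨h3, h4⟩ i hi
            by_cases hii : i = i0
            · subst hii
              rw [Function.update_self]
              exact Finset.mem_filter.2 ⟨Finset.mem_univ _, h4⟩
            · rw [Function.update_of_ne hii]
              exact h3 i hi
          · intro h3
            refine ⟨fun i hi => ?_, ?_⟩
            · by_cases hii : i = i0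
              · subst hii
                rw [hsA i hm0]
                exact Finset.mem_univ _
              · have h4 := h3 i hi
                rwa [Function.update_of_ne hii] at h4
            · have h4 := h3 i0 hj0
              rw [Function.update_self] at h4
              exact (Finset.mem_filter.1 h4).2
        · have h5 : t ≤ F i0 u := by
            have h4 := (Finset.mem_filter.1 hu).2 i0 hj0
            rw [Function.update_self] at h4
            exact (Finset.mem_filter.1 h4).2
          rw [if_pos h5, one_mul]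
      · intro i hi
        by_cases hii : i = i0
        · subst hii
          rw [Function.update_self]
          constructor
          · intro u c
            simp only [Finset.mem_filter, Finset.mem_univ, true_and]
            rw [(hinv i hm0 u c).1]
          · intro u c
            simp only [Finset.mem_filter, Finset.mem_univ, true_and]
            rw [(hinv i hm0 u c).2]
        · rw [Function.update_of_ne hii]
          exact hs i hi
      · intro i hi
        have hii : i ≠ i0 := fun h => hi0 (h ▸ hi)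
        rw [Function.update_of_ne hii]
        exact hsA i (Finset.mem_insert_of_mem hi)
    have rep : ∑ u ∈ Finset.univ.filter (fun u => ∀ i, i ≠ j → u ∈ s i),
        a u * ∏ i ∈ insert i0 A, F i u =
        ∫ t in (0 : ℝ)..K, ∑ u ∈ Finset.univ.filter (fun u => ∀ i, i ≠ j → u ∈ s i),
          a u * ((if t ≤ F i0 u then (1 : ℝ) else 0) * ∏ i ∈ A, F i u) := by
      rw [intervalIntegral.integral_finset_sum]
      · refine Finset.sum_congr rfl fun u hu => ?_
        rw [intervalIntegral.integral_const_mul, intervalIntegral.integral_mul_const,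
          layer _ _ (hF0 i0 hm0 u) (hF1 i0 hm0 u), Finset.prod_insert hi0]
      · intro u hu
        exact ((layer_int _ _ _).mul_const _).const_mul _
    have h6 := intervalIntegral.norm_integral_le_of_norm_le_const (a := (0 : ℝ)) (b := K)
      (C := K ^ A.card * B)
      (f := fun t : ℝ => ∑ u ∈ Finset.univ.filter (fun u => ∀ i, i ≠ j → u ∈ s i),
          a u * ((if t ≤ F i0 u then (1 : ℝ) else 0) * ∏ i ∈ A, F i u))
      (fun t _ => by rw [Real.norm_eq_abs]; exact key t)
    rw [sub_zero, abs_of_nonneg hK, Real.norm_eq_abs] at h6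
    rw [rep, Finset.card_insert_of_notMem hi0, pow_succ]
    refine h6.trans (le_of_eq ?_)
    ring

theorem sum_upd (j : Fin z) (g : Pt z N → ℝ) :
    ∑ c : Fin N, ∑ u : Pt z N, g (Function.update u j c) = (N : ℝ) * ∑ u : Pt z N, g u := by
  classical
  rw [← Fintype.sum_prod_type' (f := fun (c : Fin N) (u : Pt z N) => g (Function.update u j c))]
  have hinv : Function.Involutive
      (fun p : Fin N × Pt z N => ((p.2 j, Function.update p.2 j p.1) : Fin N × Pt z N)) := by
    rintro ⟨c, u⟩
    simp
  rw [show (∑ p : Fin N × Pt z N, g (Function.update p.2 j p.1)) =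
      ∑ p : Fin N × Pt z N, (fun q : Fin N × Pt z N => g q.2) (hinv.toPerm _ p) from rfl,
    Equiv.sum_comp (hinv.toPerm _) (fun q : Fin N × Pt z N => g q.2),
    Fintype.sum_prod_type]
  simp

theorem step (K η : ℝ) (hK : 0 ≤ K) (j : Fin z) (a : Pt z N → ℝ)
    (haj : ∀ u c, a (Function.update u j c) = a u)
    (hη : ∀ T ∈ Tst j, |∑ u ∈ T, a u| ≤ η) (A : Finset (Fin z)) (hj : j ∉ A)
    (F : Fin z → Pt z N → ℝ) (hF0 : ∀ i ∈ A, ∀ u, 0 ≤ F i u) (hF1 : ∀ i ∈ A, ∀ u, F i u ≤ K)
    (hinv : ∀ i ∈ A, ∀ u c, F i (Function.update u i c) = F i u) :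
    |∑ u, a u * ∏ i ∈ A, F i u| ≤ K ^ A.card * η := by
  classical
  have hN : 0 < (N : ℝ) := Nat.cast_pos.2 (Nat.pos_of_ne_zero (NeZero.ne N))
  have h1 : ∀ c : Fin N,
      |∑ u : Pt z N, a (Function.update u j c) * ∏ i ∈ A, F i (Function.update u j c)| ≤
        K ^ A.card * η := by
    intro c
    have h2 := gen j a η hη K hK A hj (fun i u => F i (Function.update u j c))
      (fun i hi u => hF0 i hi _) (fun i hi u => hF1 i hi _) ?_ (fun _ => Finset.univ) ?_
      (fun _ _ => rfl)
    · refine le_trans (le_of_eq ?_) h2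
      congr 1
      refine Finset.sum_congr ?_ fun u _ => ?_
      · ext u
        simp
      · rw [haj]
    · intro i hi u c'
      have hij : i ≠ j := fun h => hj (h ▸ hi)
      constructor
      · rw [Function.update_comm hij, hinv i hi]
      · rw [Function.update_idem]
    · intro i hi
      exact ⟨fun u c => by simp, fun u c => by simp⟩
  have h3 := sum_upd j (fun u => a u * ∏ i ∈ A, F i u)
  have h4 : |(N : ℝ) * ∑ u : Pt z N, a u * ∏ i ∈ A, F i u| ≤ (N : ℝ) * (K ^ A.card * η) := by
    rw [← h3]
    refine (Finset.abs_sum_le_sum_abs _ _).trans ?_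
    refine (Finset.sum_le_sum fun c _ => h1 c).trans ?_
    rw [Finset.sum_const, Finset.card_univ, Fintype.card_fin, nsmul_eq_mul]
  rw [abs_mul, abs_of_pos hN] at h4
  exact le_of_mul_le_mul_left h4 hN

end TeleAux

open TeleAux

theorem tstProd (j : Fin z) (a : Pt z N → ℝ) (B : ℝ) (ha : ∀ T ∈ Tst j, |∑ u ∈ T, a u| ≤ B)
    (K : ℝ) (hK : 0 ≤ K) (A : Finset (Fin z)) (hj : j ∉ A) (F : Fin z → Pt z N → ℝ)
    (hF0 : ∀ i ∈ A, ∀ u, 0 ≤ F i u) (hF1 : ∀ i ∈ A, ∀ u, F i u ≤ K)
    (hinv : ∀ i ∈ A, ∀ u c, F i (Function.update u i c) = F i u ∧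
      F i (Function.update u j c) = F i u) :
    |∑ u, a u * ∏ i ∈ A, F i u| ≤ K ^ A.card * B := by
  have h := gen j a B ha K hK A hj F hF0 hF1 hinv (fun _ => Finset.univ)
    (fun i _ => ⟨fun u c => by simp, fun u c => by simp⟩) (fun _ _ => rfl)
  have he : Finset.univ.filter (fun u : Pt z N => ∀ i : Fin z, i ≠ j → u ∈
      (fun _ : Fin z => (Finset.univ : Finset (Pt z N))) i) = Finset.univ := by
    ext u
    simp
  rwa [he] at h

theorem tele (K η : ℝ) (hK : 0 ≤ K) (A : Finset (Fin z)) (H H' : Fin z → Pt z N → ℝ)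
    (hH : ∀ i u c, H i (Function.update u i c) = H i u)
    (hH' : ∀ i u c, H' i (Function.update u i c) = H' i u)
    (hH0 : ∀ i u, 0 ≤ H i u) (hH1 : ∀ i u, H i u ≤ K) (hH0' : ∀ i u, 0 ≤ H' i u)
    (hH1' : ∀ i u, H' i u ≤ K)
    (hη : ∀ j ∈ A, ∀ T ∈ Tst j, |∑ u ∈ T, (H j u - H' j u)| ≤ η * (N : ℝ) ^ z) :
    |∑ u, ∏ i ∈ A, H i u - ∑ u, ∏ i ∈ A, H' i u| ≤
      A.card * K ^ (A.card - 1) * (η * (N : ℝ) ^ z) := by
  classical
  have main : ∀ S : Finset (Fin z), S ⊆ A →
      |∑ u : Pt z N, ∏ i ∈ A, (if i ∈ S then H i u else H' i u) -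
        ∑ u : Pt z N, ∏ i ∈ A, H' i u| ≤
      S.card * (K ^ (A.card - 1) * (η * (N : ℝ) ^ z)) := by
    intro S
    induction S using Finset.induction_on with
    | empty =>
      intro _
      simp
    | insert j S hjS ih =>
      intro hS
      have hjA : j ∈ A := hS (Finset.mem_insert_self _ _)
      have ih' := ih (fun i hi => hS (Finset.mem_insert_of_mem hi))
      have hst := step K (η * (N : ℝ) ^ z) hK j (fun u => H j u - H' j u)
        (fun u c => by rw [hH, hH']) (hη j hjA) (A.erase j) (Finset.notMem_erase j A)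
        (fun i u => if i ∈ S then H i u else H' i u)
        (fun i _ u => by split_ifs; exacts [hH0 i u, hH0' i u])
        (fun i _ u => by split_ifs; exacts [hH1 i u, hH1' i u])
        (fun i _ u c => by rw [hH, hH'])
      rw [Finset.card_erase_of_mem hjA] at hst
      have hdiff : ∑ u : Pt z N, ∏ i ∈ A, (if i ∈ insert j S then H i u else H' i u) -
          ∑ u : Pt z N, ∏ i ∈ A, (if i ∈ S then H i u else H' i u) =
          ∑ u : Pt z N, (H j u - H' j u) *
            ∏ i ∈ A.erase j, (if i ∈ S then H i u else H' i u) := by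
        rw [← Finset.sum_sub_distrib]
        refine Finset.sum_congr rfl fun u _ => ?_
        rw [← Finset.mul_prod_erase A (fun i => if i ∈ insert j S then H i u else H' i u) hjA,
          ← Finset.mul_prod_erase A (fun i => if i ∈ S then H i u else H' i u) hjA]
        have h1 : ∏ i ∈ A.erase j, (if i ∈ insert j S then H i u else H' i u) =
            ∏ i ∈ A.erase j, (if i ∈ S then H i u else H' i u) := by
          refine Finset.prod_congr rfl fun i hi => ?_
          have hij : i ≠ j := (Finset.mem_erase.1 hi).1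
          have h2 : i ∈ insert j S ↔ i ∈ S := by
            rw [Finset.mem_insert]
            exact ⟨fun h => h.resolve_left hij, Or.inr⟩
          by_cases h3 : i ∈ S
          · rw [if_pos h3, if_pos (h2.2 h3)]
          · rw [if_neg h3, if_neg (fun h => h3 (h2.1 h))]
        rw [h1, if_pos (Finset.mem_insert_self j S), if_neg hjS, sub_mul]
      have h5 : ∑ u : Pt z N, ∏ i ∈ A, (if i ∈ insert j S then H i u else H' i u) -
          ∑ u : Pt z N, ∏ i ∈ A, H' i u =
          (∑ u : Pt z N, ∏ i ∈ A, (if i ∈ insert j S then H i u else H' i u) -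
            ∑ u : Pt z N, ∏ i ∈ A, (if i ∈ S then H i u else H' i u)) +
          (∑ u : Pt z N, ∏ i ∈ A, (if i ∈ S then H i u else H' i u) -
            ∑ u : Pt z N, ∏ i ∈ A, H' i u) := by ring
      rw [h5, hdiff]
      refine (abs_add_le _ _).trans ?_
      rw [Finset.card_insert_of_notMem hjS, Nat.cast_add, Nat.cast_one, add_mul, one_mul, add_comm]
      exact add_le_add ih' hst
  have h := main A (Finset.Subset.refl A)
  have h2 : ∑ u : Pt z N, ∏ i ∈ A, (if i ∈ A then H i u else H' i u) =
      ∑ u : Pt z N, ∏ i ∈ A, H i u :=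
    Finset.sum_congr rfl fun u _ => Finset.prod_congr rfl fun i hi => if_pos hi
  rw [h2] at h
  refine h.trans (le_of_eq ?_)
  ring

end Pool.Agent.Lib.P47j
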