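import Pool.Agent.Lib.P47j.Defs

/-!
Module Wreg (1.8h; Mathlib only). Weak regularity.
PROOF. Let X be nonempty. For φ : Fin l → Finset X with values in Φ put c = cavg φ h and the energy E(φ) = ∑ x, c x ^ 2 ≤ K^2 |X| (0 ≤ c ≤ K). If T ∈ Φ and |∑_{x ∈ T} (h x - c x)| > η |X|, let φ' = φ together
with T (Fin (l+1)), c' = cavg φ' h. Functions constant on the cells of φ' are orthogonal to h - c' (sum over each cell is 0); T is a union of cells of φ', c is constant on them, so
∑_T (h - c) = ∑_T (c' - c) and ∑ c (c' - c) = ∑ c (h - c) - ∑ c (h - c') = 0, i.e. E(φ') = E(φ) + ∑ (c' - c)^2; by Cauchy-Schwarz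
η^2 |X|^2 < (∑_T (c' - c))^2 ≤ |X| ∑ (c' - c)^2. So E(φ') > E(φ) + η^2 |X|. If no family of M sets works, then none of l ≤ M sets works (fill up with univ ∈ Φ: cells and cavg do not
change), and one gets families with E ≥ l η^2 |X| for all l ≤ M, a contradiction for l = M.
-/

open scoped BigOperators

namespace Pool.Agent.Lib.P47j

namespace WregAux

variable {X : Type} [Fintype X] [DecidableEq X]

theorem mem_cell {M : ℕ} (φ : Fin M → Finset X) (x y : X) :
    y ∈ cell φ x ↔ ∀ i, y ∈ φ i ↔ x ∈ φ i := by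
  simp [cell]

theorem self_mem {M : ℕ} (φ : Fin M → Finset X) (x : X) : x ∈ cell φ x := by
  simp [mem_cell]

theorem cell_symm {M : ℕ} (φ : Fin M → Finset X) (x y : X) :
    y ∈ cell φ x ↔ x ∈ cell φ y := by
  simp only [mem_cell]
  exact ⟨fun h i => (h i).symm, fun h i => (h i).symm⟩

theorem cell_eq {M : ℕ} (φ : Fin M → Finset X) {x y : X} (h : y ∈ cell φ x) :
    cell φ y = cell φ x := by
  rw [mem_cell] at h
  ext z
  simp only [mem_cell]
  exact ⟨fun g i => (g i).trans (h i), fun g i => (g i).trans (h i).symm⟩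

theorem cavg_eq {M : ℕ} (φ : Fin M → Finset X) (h : X → ℝ) {x y : X} (hy : y ∈ cell φ x) :
    cavg φ h y = cavg φ h x := by
  unfold cavg
  rw [cell_eq φ hy]

theorem card_ne {M : ℕ} (φ : Fin M → Finset X) (x : X) : ((cell φ x).card : ℝ) ≠ 0 := by
  have : (cell φ x).card ≠ 0 := Finset.card_ne_zero.mpr ⟨x, self_mem φ x⟩
  exact_mod_cast this

/-- Functions that are constant on the cells have the same products with `h` and its averages. -/
theorem orth {M : ℕ} (φ : Fin M → Finset X) (h g : X → ℝ)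
    (hg : ∀ x y, y ∈ cell φ x → g y = g x) :
    ∑ x, g x * cavg φ h x = ∑ x, g x * h x := by
  have e1 : ∀ x, g x * cavg φ h x =
      ∑ y, if y ∈ cell φ x then g x * h y / ((cell φ x).card : ℝ) else 0 := by
    intro x
    rw [← Finset.sum_filter, Finset.filter_mem_eq_inter, Finset.univ_inter]
    unfold cavg
    rw [Finset.sum_div, Finset.mul_sum]
    exact Finset.sum_congr rfl (fun y _ => by ring)
  rw [Finset.sum_congr rfl (fun x _ => e1 x), Finset.sum_comm]
  refine Finset.sum_congr rfl (fun y _ => ?_)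
  have e2 : ∀ x, (if y ∈ cell φ x then g x * h y / ((cell φ x).card : ℝ) else 0) =
      if x ∈ cell φ y then g y * h y / ((cell φ y).card : ℝ) else 0 := by
    intro x
    by_cases hx : y ∈ cell φ x
    · rw [if_pos hx, if_pos ((cell_symm φ x y).1 hx), hg x y hx, cell_eq φ hx]
    · rw [if_neg hx, if_neg (fun k => hx ((cell_symm φ x y).2 k))]
  rw [Finset.sum_congr rfl (fun x _ => e2 x), ← Finset.sum_filter,
    Finset.filter_mem_eq_inter, Finset.univ_inter, Finset.sum_const, nsmul_eq_mul]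
  field_simp [card_ne φ y]

theorem cavg_nonneg {M : ℕ} (φ : Fin M → Finset X) (h : X → ℝ) (h0 : ∀ x, 0 ≤ h x) (x : X) :
    0 ≤ cavg φ h x :=
  div_nonneg (Finset.sum_nonneg (fun y _ => h0 y)) (Nat.cast_nonneg _)

theorem cavg_le {M : ℕ} (φ : Fin M → Finset X) (h : X → ℝ) (K : ℝ) (h1 : ∀ x, h x ≤ K) (x : X) :
    cavg φ h x ≤ K := by
  unfold cavg
  have hc : (0 : ℝ) < ((cell φ x).card : ℝ) :=
    lt_of_le_of_ne (Nat.cast_nonneg _) (card_ne φ x).symm
  rw [div_le_iff₀ hc]
  calc ∑ y ∈ cell φ x, h y ≤ ∑ y ∈ cell φ x, K := Finset.sum_le_sum (fun y _ => h1 y)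
    _ = K * ((cell φ x).card : ℝ) := by rw [Finset.sum_const, nsmul_eq_mul]; ring

/-- Filling up with `univ`. -/
def fill {l : ℕ} (M : ℕ) (φ : Fin l → Finset X) (i : Fin M) : Finset X :=
  if hi : i.val < l then φ ⟨i.val, hi⟩ else Finset.univ

theorem cell_fill {l M : ℕ} (hl : l ≤ M) (φ : Fin l → Finset X) (x : X) :
    cell (fill M φ) x = cell φ x := by
  ext y
  simp only [mem_cell]
  constructor
  · intro g i
    have := g ⟨i.val, lt_of_lt_of_le i.isLt hl⟩
    simpa [fill, i.isLt] using this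
  · intro g i
    by_cases hi : i.val < l
    · have := g ⟨i.val, hi⟩
      simpa [fill, hi] using this
    · simp [fill, hi]

theorem cavg_fill {l M : ℕ} (hl : l ≤ M) (φ : Fin l → Finset X) (h : X → ℝ) (x : X) :
    cavg (fill M φ) h x = cavg φ h x := by
  unfold cavg
  rw [cell_fill hl φ x]

theorem cell_snoc {l : ℕ} (φ : Fin l → Finset X) (T : Finset X) {x y : X}
    (hy : y ∈ cell (Fin.snoc φ T : Fin (l + 1) → Finset X) x) :
    y ∈ cell φ x ∧ (y ∈ T ↔ x ∈ T) := by
  rw [mem_cell] at hy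
  refine ⟨?_, ?_⟩
  · rw [mem_cell]
    intro i
    have := hy (Fin.castSucc i)
    simpa [Fin.snoc_castSucc] using this
  · have := hy (Fin.last l)
    simpa [Fin.snoc_last] using this

/-- The increment of the energy. -/
theorem step {l : ℕ} (φ : Fin l → Finset X) (T : Finset X) (h : X → ℝ) (η : ℝ) (hη : 0 < η)
    (hX : 0 < Fintype.card X)
    (hT : η * (Fintype.card X : ℝ) < |∑ x ∈ T, (h x - cavg φ h x)|) :
    (∑ x, cavg φ h x ^ 2) + η ^ 2 * (Fintype.card X : ℝ) ≤
      ∑ x, cavg (Fin.snoc φ T : Fin (l + 1) → Finset X) h x ^ 2 := by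
  set ψ : Fin (l + 1) → Finset X := Fin.snoc φ T with hψ
  have hXr : (0 : ℝ) < (Fintype.card X : ℝ) := by exact_mod_cast hX
  -- the three orthogonality relations
  have o1 : ∑ x, cavg φ h x * cavg ψ h x = ∑ x, cavg φ h x * h x :=
    orth ψ h (cavg φ h) (fun x y hy => cavg_eq φ h (cell_snoc φ T hy).1)
  have o2 : ∑ x, cavg φ h x * cavg φ h x = ∑ x, cavg φ h x * h x :=
    orth φ h (cavg φ h) (fun x y hy => cavg_eq φ h hy)
  have o3 : ∑ x, (if x ∈ T then (1 : ℝ) else 0) * cavg ψ h x =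
      ∑ x, (if x ∈ T then (1 : ℝ) else 0) * h x := by
    refine orth ψ h (fun x => if x ∈ T then (1 : ℝ) else 0) (fun x y hy => ?_)
    have := (cell_snoc φ T hy).2
    by_cases hx : x ∈ T
    · simp [hx, this.2 hx]
    · have hy' : y ∉ T := fun k => hx (this.1 k)
      simp [hx, hy']
  have o3' : ∑ x ∈ T, cavg ψ h x = ∑ x ∈ T, h x := by
    simpa [Finset.sum_ite_mem] using o3
  have e1 : ∑ x, (cavg ψ h x - cavg φ h x) ^ 2 =
      (∑ x, cavg ψ h x ^ 2) - ∑ x, cavg φ h x ^ 2 := by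
    have : ∀ x, (cavg ψ h x - cavg φ h x) ^ 2 =
        cavg ψ h x ^ 2 - 2 * (cavg φ h x * cavg ψ h x) + cavg φ h x * cavg φ h x := by
      intro x; ring
    rw [Finset.sum_congr rfl (fun x _ => this x), Finset.sum_add_distrib,
      Finset.sum_sub_distrib, ← Finset.mul_sum, o1, ← o2]
    have : ∑ x, cavg φ h x ^ 2 = ∑ x, cavg φ h x * cavg φ h x :=
      Finset.sum_congr rfl (fun x _ => by ring)
    rw [this]; ring
  have e2 : ∑ x ∈ T, (h x - cavg φ h x) = ∑ x ∈ T, (cavg ψ h x - cavg φ h x) := by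
    rw [Finset.sum_sub_distrib, Finset.sum_sub_distrib, o3']
  have e3 : (∑ x ∈ T, (cavg ψ h x - cavg φ h x)) ^ 2 ≤
      (Fintype.card X : ℝ) * ∑ x, (cavg ψ h x - cavg φ h x) ^ 2 := by
    calc (∑ x ∈ T, (cavg ψ h x - cavg φ h x)) ^ 2
        ≤ (T.card : ℝ) * ∑ x ∈ T, (cavg ψ h x - cavg φ h x) ^ 2 := sq_sum_le_card_mul_sum_sq
      _ ≤ (Fintype.card X : ℝ) * ∑ x, (cavg ψ h x - cavg φ h x) ^ 2 := by
          refine mul_le_mul ?_ ?_ (Finset.sum_nonneg (fun x _ => sq_nonneg _))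
            (Nat.cast_nonneg _)
          · exact_mod_cast Finset.card_le_univ T
          · exact Finset.sum_le_sum_of_subset_of_nonneg (Finset.subset_univ T)
              (fun x _ _ => sq_nonneg _)
  have e4 : (η * (Fintype.card X : ℝ)) ^ 2 < (∑ x ∈ T, (cavg ψ h x - cavg φ h x)) ^ 2 := by
    rw [← e2, ← sq_abs (∑ x ∈ T, (h x - cavg φ h x))]
    exact pow_lt_pow_left₀ hT (by positivity) (by norm_num)
  have e5 : η ^ 2 * (Fintype.card X : ℝ) < ∑ x, (cavg ψ h x - cavg φ h x) ^ 2 := by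
    have := lt_of_lt_of_le e4 e3
    have h6 : (Fintype.card X : ℝ) * (η ^ 2 * (Fintype.card X : ℝ)) <
        (Fintype.card X : ℝ) * ∑ x, (cavg ψ h x - cavg φ h x) ^ 2 := by
      calc (Fintype.card X : ℝ) * (η ^ 2 * (Fintype.card X : ℝ))
          = (η * (Fintype.card X : ℝ)) ^ 2 := by ring
        _ < _ := this
    exact lt_of_mul_lt_mul_left h6 hXr.le
  rw [e1] at e5
  linarith

end WregAux

open WregAux in
theorem wreg {X : Type} [Fintype X] [DecidableEq X] (Φ : Set (Finset X))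
    (hΦ : Finset.univ ∈ Φ) (K η : ℝ) (hK : 0 ≤ K) (hη : 0 < η) (M : ℕ)
    (hM : K ^ 2 < (M : ℝ) * η ^ 2) (h : X → ℝ) (h0 : ∀ x, 0 ≤ h x) (h1 : ∀ x, h x ≤ K) :
    ∃ φ : Fin M → Finset X, (∀ i, φ i ∈ Φ) ∧
      ∀ T ∈ Φ, |∑ x ∈ T, (h x - cavg φ h x)| ≤ η * (Fintype.card X : ℝ) := by
  by_contra hcon
  push Not at hcon
  rcases Nat.eq_zero_or_pos (Fintype.card X) with hX | hX
  · obtain ⟨T, _, hT⟩ := hcon (fun _ => Finset.univ) (fun _ => hΦ)
    have : IsEmpty X := Fintype.card_eq_zero_iff.mp hX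
    have : T = ∅ := Finset.eq_empty_of_isEmpty T
    rw [this, hX] at hT
    simp at hT
  · have key : ∀ l : ℕ, l ≤ M → ∃ φ : Fin l → Finset X, (∀ i, φ i ∈ Φ) ∧
        (l : ℝ) * (η ^ 2 * (Fintype.card X : ℝ)) ≤ ∑ x, cavg φ h x ^ 2 := by
      intro l
      induction l with
      | zero =>
        intro _
        refine ⟨fun i => i.elim0, fun i => i.elim0, ?_⟩
        simp only [Nat.cast_zero, zero_mul]
        exact Finset.sum_nonneg (fun x _ => sq_nonneg _)
      | succ l ih =>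
        intro hl
        obtain ⟨φ, hφ, hE⟩ := ih (Nat.le_of_succ_le hl)
        have hl' : l ≤ M := Nat.le_of_succ_le hl
        obtain ⟨T, hTΦ, hT⟩ := hcon (fill M φ) (fun i => by
          unfold fill
          split_ifs with hi
          · exact hφ _
          · exact hΦ)
        have hT' : η * (Fintype.card X : ℝ) < |∑ x ∈ T, (h x - cavg φ h x)| := by
          simpa only [cavg_fill hl' φ h] using hT
        refine ⟨Fin.snoc φ T, ?_, ?_⟩
        · intro i
          refine Fin.lastCases ?_ (fun j => ?_) i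
          · simpa [Fin.snoc_last] using hTΦ
          · simpa [Fin.snoc_castSucc] using hφ j
        · have := step φ T h η hη hX hT'
          push_cast
          linarith
    obtain ⟨φ, _, hE⟩ := key M le_rfl
    have hXr : (0 : ℝ) < (Fintype.card X : ℝ) := by exact_mod_cast hX
    have hup : ∑ x, cavg φ h x ^ 2 ≤ (Fintype.card X : ℝ) * K ^ 2 := by
      calc ∑ x, cavg φ h x ^ 2 ≤ ∑ _x : X, K ^ 2 := Finset.sum_le_sum (fun x _ =>
            pow_le_pow_left₀ (cavg_nonneg φ h h0 x) (cavg_le φ h K h1 x) 2)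
        _ = (Fintype.card X : ℝ) * K ^ 2 := by
            rw [Finset.sum_const, nsmul_eq_mul, Finset.card_univ]
    nlinarith [mul_lt_mul_of_pos_left hM hXr]

end Pool.Agent.Lib.P47j
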