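import Pool.Agent.Lib.P47j.Defs
import Pool.Agent.Lib.P47j.Bas
import Pool.Agent.Lib.P47j.Wreg
import Pool.Agent.Lib.P47j.Tele

/-!
Module Cap (1.8h; black boxes Bas, wreg, tele). Dense models of sets of active lines.
PROOF. H j u = K 1[ln j u ∈ G] ∈ [0, K], invariant under j (ln_update). For every j, wreg with X = Pt z N, Φ = Tst j (univ ∈ Tst j: s = univ), h = H j gives φ_j; H' j = cavg φ_j (H j) ∈ [0, K], invariant under j (the tests in Tst j are
invariant under j, so cell φ_j (update u j c) = cell φ_j u). Call a cell big if its cardinality is ≥ β N^z, β = η/(K 2^M). Hb j u = H' j u if cell φ_j u is big, otherwise 0. On a big cell, as G ⊆ lns f,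
H' j u = K #{v ∈ cell : ln j v ∈ G}/|cell| ≤ K #{v ∈ cell : f (ln j v) = 0}/|cell| ≤ K (1/K + κ N^z/|cell|) ≤ 1 + K κ/β = 1 + κ K^2 2^M/η ≤ 1 + η by QR. The sum over u of H' j is the sum of H j
(cell by cell), and the small cells (at most 2^M cells) contribute at most 2^M K β N^z = η N^z. Finally Hb ≤ H' pointwise, so ∑ ∏ Hb ≤ ∑ ∏ H' ≤ ∑ ∏ H + |A| K^(|A|-1) η N^z by tele, and
∏_{j ∈ A} H j u = K^|A| 1[∀ j ∈ A, ln j u ∈ G].
-/

open scoped BigOperators

namespace Pool.Agent.Lib.P47j

namespace CapAux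

section Cells

variable {X : Type} [Fintype X] [DecidableEq X] {M : ℕ}

theorem mem_cell (φ : Fin M → Finset X) (x y : X) :
    y ∈ cell φ x ↔ ∀ i, (y ∈ φ i ↔ x ∈ φ i) := by
  simp [cell]

theorem self_mem_cell (φ : Fin M → Finset X) (x : X) : x ∈ cell φ x := by
  simp [cell]

theorem cell_eq {φ : Fin M → Finset X} {x y : X} (h : y ∈ cell φ x) : cell φ y = cell φ x := by
  ext w
  rw [mem_cell, mem_cell]
  rw [mem_cell] at h
  exact ⟨fun h1 i => (h1 i).trans (h i), fun h1 i => (h1 i).trans (h i).symm⟩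

theorem mem_cell_comm {φ : Fin M → Finset X} {x y : X} : y ∈ cell φ x ↔ x ∈ cell φ y := by
  rw [mem_cell, mem_cell]
  exact ⟨fun h i => (h i).symm, fun h i => (h i).symm⟩

theorem card_cell_pos (φ : Fin M → Finset X) (x : X) : (0 : ℝ) < ((cell φ x).card : ℝ) := by
  have : 0 < (cell φ x).card := Finset.card_pos.mpr ⟨x, self_mem_cell φ x⟩
  exact_mod_cast this

theorem sum_cavg (φ : Fin M → Finset X) (h : X → ℝ) : ∑ x, cavg φ h x = ∑ x, h x := by
  have h1 : ∀ x, cavg φ h x = ∑ y, if y ∈ cell φ x then h y / ((cell φ y).card : ℝ) else 0 := by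
    intro x
    unfold cavg
    rw [Finset.sum_div, ← Finset.sum_filter]
    have h2 : Finset.univ.filter (fun y => y ∈ cell φ x) = cell φ x := by
      ext y; simp
    rw [h2]
    apply Finset.sum_congr rfl
    intro y hy
    rw [cell_eq hy]
  calc ∑ x, cavg φ h x = ∑ x, ∑ y, (if y ∈ cell φ x then h y / ((cell φ y).card : ℝ) else 0) :=
        Finset.sum_congr rfl (fun x _ => h1 x)
    _ = ∑ y, ∑ x, (if y ∈ cell φ x then h y / ((cell φ y).card : ℝ) else 0) :=
        Finset.sum_comm
    _ = ∑ y, h y := by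
        apply Finset.sum_congr rfl
        intro y _
        rw [← Finset.sum_filter, Finset.sum_const, nsmul_eq_mul]
        have h2 : Finset.univ.filter (fun x => y ∈ cell φ x) = cell φ y := by
          ext x
          simp only [Finset.mem_filter, Finset.mem_univ, true_and]
          exact mem_cell_comm
        rw [h2]
        have h3 := card_cell_pos φ y
        field_simp

theorem cavg_nonneg (φ : Fin M → Finset X) (h : X → ℝ) (h0 : ∀ x, 0 ≤ h x) (x : X) :
    0 ≤ cavg φ h x := by
  unfold cavg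
  exact div_nonneg (Finset.sum_nonneg (fun y _ => h0 y)) (Nat.cast_nonneg _)

theorem cavg_le (φ : Fin M → Finset X) (h : X → ℝ) (K : ℝ) (h1 : ∀ x, h x ≤ K) (x : X) :
    cavg φ h x ≤ K := by
  unfold cavg
  rw [div_le_iff₀ (card_cell_pos φ x)]
  calc ∑ y ∈ cell φ x, h y ≤ ∑ _y ∈ cell φ x, K := Finset.sum_le_sum (fun y _ => h1 y)
    _ = K * ((cell φ x).card : ℝ) := by rw [Finset.sum_const, nsmul_eq_mul, mul_comm]

/-- The small cells contribute little. -/
theorem sum_small (φ : Fin M → Finset X) (g : X → ℝ) (K t : ℝ) (hK : 0 ≤ K) (ht : 0 ≤ t)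
    (h1 : ∀ x, g x ≤ K) :
    ∑ x, (if t ≤ ((cell φ x).card : ℝ) then 0 else g x) ≤ 2 ^ M * (K * t) := by
  classical
  set pat : X → (Fin M → Bool) := fun x i => decide (x ∈ φ i) with hpat
  have h2 : ∑ x, (if t ≤ ((cell φ x).card : ℝ) then 0 else g x) =
      ∑ b : Fin M → Bool, ∑ x ∈ Finset.univ.filter (fun x => pat x = b),
        (if t ≤ ((cell φ x).card : ℝ) then 0 else g x) := by
    rw [Finset.sum_fiberwise]
  rw [h2]
  have h3 : ∀ b : Fin M → Bool, ∑ x ∈ Finset.univ.filter (fun x => pat x = b),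
        (if t ≤ ((cell φ x).card : ℝ) then 0 else g x) ≤ K * t := by
    intro b
    by_cases hne : ∃ x, pat x = b ∧ ¬ t ≤ ((cell φ x).card : ℝ)
    · obtain ⟨x0, hx0, hs⟩ := hne
      have hsub : Finset.univ.filter (fun x => pat x = b) ⊆ cell φ x0 := by
        intro y hy
        rw [Finset.mem_filter] at hy
        rw [mem_cell]
        intro i
        have h5 : pat y i = pat x0 i := by rw [hy.2, hx0]
        simp only [hpat, decide_eq_decide] at h5
        exact h5
      calc ∑ x ∈ Finset.univ.filter (fun x => pat x = b),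
            (if t ≤ ((cell φ x).card : ℝ) then 0 else g x)
          ≤ ∑ _x ∈ Finset.univ.filter (fun x => pat x = b), K := by
            apply Finset.sum_le_sum
            intro x _
            split_ifs
            · exact hK
            · exact h1 x
        _ = K * ((Finset.univ.filter (fun x => pat x = b)).card : ℝ) := by
            rw [Finset.sum_const, nsmul_eq_mul, mul_comm]
        _ ≤ K * ((cell φ x0).card : ℝ) := by
            apply mul_le_mul_of_nonneg_left _ hK
            exact_mod_cast Finset.card_le_card hsub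
        _ ≤ K * t := mul_le_mul_of_nonneg_left (le_of_lt (not_le.mp hs)) hK
    · push Not at hne
      have : ∑ x ∈ Finset.univ.filter (fun x => pat x = b),
        (if t ≤ ((cell φ x).card : ℝ) then 0 else g x) = 0 := by
        apply Finset.sum_eq_zero
        intro x hx
        rw [Finset.mem_filter] at hx
        rw [if_pos (hne x hx.2)]
      rw [this]
      exact mul_nonneg hK ht
  calc ∑ b : Fin M → Bool, ∑ x ∈ Finset.univ.filter (fun x => pat x = b),
        (if t ≤ ((cell φ x).card : ℝ) then 0 else g x)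
      ≤ ∑ _b : Fin M → Bool, K * t := Finset.sum_le_sum (fun b _ => h3 b)
    _ = 2 ^ M * (K * t) := by
        rw [Finset.sum_const, Finset.card_univ, nsmul_eq_mul]
        simp

end Cells

theorem univ_mem_Tst {z N : ℕ} (j : Fin z) : (Finset.univ : Finset (Pt z N)) ∈ Tst j := by
  refine ⟨fun _ => Finset.univ, fun i _ => ⟨fun u c => ?_, fun u c => ?_⟩, ?_⟩
  · simp
  · simp
  · ext u
    simp

theorem Tst_inv {z N : ℕ} {j : Fin z} {T : Finset (Pt z N)} (hT : T ∈ Tst j) : Inv j T := by
  obtain ⟨s, hs, rfl⟩ := hT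
  intro u c
  simp only [Finset.mem_filter, Finset.mem_univ, true_and]
  constructor
  · intro h i hi
    exact ((hs i hi).2 u c).mp (h i hi)
  · intro h i hi
    exact ((hs i hi).2 u c).mpr (h i hi)

theorem cell_update {z N M : ℕ} {j : Fin z} {φ : Fin M → Finset (Pt z N)}
    (hφ : ∀ i, φ i ∈ Tst j) (u : Pt z N) (c : Fin N) :
    cell φ (Function.update u j c) = cell φ u := by
  apply cell_eq
  rw [mem_cell]
  intro i
  exact Tst_inv (hφ i) u c

end CapAux

open CapAux in
theorem cap {z N K : ℕ} [NeZero N] [NeZero K] {M : ℕ} {κ η : ℝ} (hη : 0 < η) (hη1 : η ≤ 1)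
    (hM : (K : ℝ) ^ 2 < (M : ℝ) * η ^ 2) (hκ0 : 0 ≤ κ)
    (hκ : κ * ((K : ℝ) ^ 2 * 2 ^ M) ≤ η ^ 2) {f : Ln z N → Fin K} (hf : QR M κ f)
    (G : Finset (Ln z N)) (hG : G ⊆ lns f) :
    ∃ Hb : Fin z → Pt z N → ℝ, (∀ j u, 0 ≤ Hb j u) ∧ (∀ j u, Hb j u ≤ 1 + η) ∧
      (∀ j, (K : ℝ) * ((Finset.univ.filter (fun u : Pt z N => ln j u ∈ G)).card : ℝ) -
        η * (N : ℝ) ^ z ≤ ∑ u, Hb j u) ∧
      ∀ A : Finset (Fin z), ∑ u, ∏ j ∈ A, Hb j u ≤
        (K : ℝ) ^ A.card *
          ((Finset.univ.filter (fun u : Pt z N => ∀ j ∈ A, ln j u ∈ G)).card : ℝ) +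
        A.card * (K : ℝ) ^ (A.card - 1) * (η * (N : ℝ) ^ z) := by
  classical
  have hK : (0 : ℝ) < (K : ℝ) := by exact_mod_cast Nat.pos_of_ne_zero (NeZero.ne K)
  have hN : (0 : ℝ) < (N : ℝ) ^ z := by
    have : (0 : ℝ) < (N : ℝ) := by exact_mod_cast Nat.pos_of_ne_zero (NeZero.ne N)
    positivity
  set H : Fin z → Pt z N → ℝ := fun j u => if ln j u ∈ G then (K : ℝ) else 0 with hH
  have hH0 : ∀ j u, 0 ≤ H j u := by
    intro j u
    simp only [hH]
    split_ifs
    · exact hK.le
    · exact le_refl _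
  have hH1 : ∀ j u, H j u ≤ K := by
    intro j u
    simp only [hH]
    split_ifs
    · exact le_refl _
    · exact hK.le
  have hw : ∀ j : Fin z, ∃ φ : Fin M → Finset (Pt z N), (∀ i, φ i ∈ Tst j) ∧
      ∀ T ∈ Tst j, |∑ x ∈ T, (H j x - cavg φ (H j) x)| ≤
        η * (Fintype.card (Pt z N) : ℝ) := fun j =>
    wreg (Tst j) (univ_mem_Tst j) (K : ℝ) η hK.le hη M hM (H j) (hH0 j) (hH1 j)
  choose φ hφ hφT using hw
  have hcard : (Fintype.card (Pt z N) : ℝ) = (N : ℝ) ^ z := by
    rw [card_Pt]; push_cast; rfl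
  set H' : Fin z → Pt z N → ℝ := fun j => cavg (φ j) (H j) with hH'
  have hH'0 : ∀ j u, 0 ≤ H' j u := fun j u => cavg_nonneg _ _ (hH0 j) u
  have hH'1 : ∀ j u, H' j u ≤ K := fun j u => cavg_le _ _ _ (hH1 j) u
  have hHinv : ∀ i u c, H i (Function.update u i c) = H i u := by
    intro i u c
    simp only [hH, ln_update]
  have hH'inv : ∀ i u c, H' i (Function.update u i c) = H' i u := by
    intro i u c
    simp only [hH', cavg, cell_update (hφ i)]
  set t : ℝ := η / ((K : ℝ) * 2 ^ M) * (N : ℝ) ^ z with ht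
  have ht0 : 0 < t := by positivity
  refine ⟨fun j u => if t ≤ ((cell (φ j) u).card : ℝ) then H' j u else 0, ?_, ?_, ?_, ?_⟩
  · intro j u
    dsimp only
    split_ifs
    · exact hH'0 j u
    · exact le_refl _
  · intro j u
    dsimp only
    split_ifs with hb
    · have hc : (0 : ℝ) < ((cell (φ j) u).card : ℝ) := card_cell_pos _ _
      have h1 : H' j u = (K : ℝ) * (((cell (φ j) u).filter (fun v => ln j v ∈ G)).card : ℝ) /
          ((cell (φ j) u).card : ℝ) := by
        simp only [hH', cavg, hH]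
        rw [← Finset.sum_filter, Finset.sum_const, nsmul_eq_mul, mul_comm]
      have h2 : (((cell (φ j) u).filter (fun v => ln j v ∈ G)).card : ℝ) ≤
          (((cell (φ j) u).filter (fun v => f (ln j v) = 0)).card : ℝ) := by
        have : ((cell (φ j) u).filter (fun v => ln j v ∈ G)) ⊆
            ((cell (φ j) u).filter (fun v => f (ln j v) = 0)) := by
          intro v hv
          rw [Finset.mem_filter] at hv ⊢
          exact ⟨hv.1, ((mem_lns f _).mp (hG hv.2)).2⟩
        exact_mod_cast Finset.card_le_card this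
      have h3 := (abs_le.mp (hf j (φ j) (hφ j) u)).2
      have h4 : (((cell (φ j) u).filter (fun v => ln j v ∈ G)).card : ℝ) ≤
          ((cell (φ j) u).card : ℝ) / (K : ℝ) + κ * (N : ℝ) ^ z := by linarith
      rw [h1, div_le_iff₀ hc]
      have h5 : (K : ℝ) * (κ * (N : ℝ) ^ z) ≤ η * ((cell (φ j) u).card : ℝ) := by
        have h6 : (K : ℝ) * (κ * (N : ℝ) ^ z) ≤ η * t := by
          rw [ht]
          have h7 : η * (η / ((K : ℝ) * 2 ^ M) * (N : ℝ) ^ z) =
              η ^ 2 / ((K : ℝ) * 2 ^ M) * (N : ℝ) ^ z := by ring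
          rw [h7]
          have h8 : (K : ℝ) * κ ≤ η ^ 2 / ((K : ℝ) * 2 ^ M) := by
            rw [le_div_iff₀ (by positivity)]
            calc (K : ℝ) * κ * ((K : ℝ) * 2 ^ M) = κ * ((K : ℝ) ^ 2 * 2 ^ M) := by ring
              _ ≤ η ^ 2 := hκ
          calc (K : ℝ) * (κ * (N : ℝ) ^ z) = (K : ℝ) * κ * (N : ℝ) ^ z := by ring
            _ ≤ _ := mul_le_mul_of_nonneg_right h8 hN.le
        exact le_trans h6 (mul_le_mul_of_nonneg_left hb hη.le)
      calc (K : ℝ) * (((cell (φ j) u).filter (fun v => ln j v ∈ G)).card : ℝ)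
          ≤ (K : ℝ) * (((cell (φ j) u).card : ℝ) / (K : ℝ) + κ * (N : ℝ) ^ z) :=
            mul_le_mul_of_nonneg_left h4 hK.le
        _ = ((cell (φ j) u).card : ℝ) + (K : ℝ) * (κ * (N : ℝ) ^ z) := by
            field_simp
        _ ≤ ((cell (φ j) u).card : ℝ) + η * ((cell (φ j) u).card : ℝ) := by linarith
        _ = (1 + η) * ((cell (φ j) u).card : ℝ) := by ring
    · linarith
  · intro j
    have h1 : ∑ u, H j u =
        (K : ℝ) * ((Finset.univ.filter (fun u : Pt z N => ln j u ∈ G)).card : ℝ) := by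
      simp only [hH]
      rw [← Finset.sum_filter, Finset.sum_const, nsmul_eq_mul, mul_comm]
    have h2 : ∑ u, H' j u = ∑ u, H j u := sum_cavg _ _
    have h3 := sum_small (φ j) (H' j) (K : ℝ) t hK.le ht0.le (hH'1 j)
    have h4 : ∑ u, H' j u = ∑ u, (if t ≤ ((cell (φ j) u).card : ℝ) then H' j u else 0) +
        ∑ u, (if t ≤ ((cell (φ j) u).card : ℝ) then 0 else H' j u) := by
      rw [← Finset.sum_add_distrib]
      apply Finset.sum_congr rfl
      intro u _
      split_ifs <;> simp
    have h5 : (2 : ℝ) ^ M * ((K : ℝ) * t) = η * (N : ℝ) ^ z := by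
      rw [ht]
      field_simp
    rw [← h1, ← h2, h4]
    linarith
  · intro A
    have h1 : ∑ u, ∏ j ∈ A, (if t ≤ ((cell (φ j) u).card : ℝ) then H' j u else 0) ≤
        ∑ u, ∏ j ∈ A, H' j u := by
      apply Finset.sum_le_sum
      intro u _
      apply Finset.prod_le_prod
      · intro j _
        split_ifs
        · exact hH'0 j u
        · exact le_refl _
      · intro j _
        split_ifs
        · exact le_refl _
        · exact hH'0 j u
    have h2 := tele (K : ℝ) η hK.le A H H' hHinv hH'inv hH0 hH1 hH'0 hH'1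
      (fun j _ T hT => by
        have := hφT j T hT
        rw [hcard] at this
        exact this)
    have h3 : ∑ u, ∏ j ∈ A, H j u = (K : ℝ) ^ A.card *
          ((Finset.univ.filter (fun u : Pt z N => ∀ j ∈ A, ln j u ∈ G)).card : ℝ) := by
      have h4 : ∀ u, ∏ j ∈ A, H j u = if (∀ j ∈ A, ln j u ∈ G) then (K : ℝ) ^ A.card else 0 := by
        intro u
        split_ifs with h
        · rw [← Finset.prod_const]
          apply Finset.prod_congr rfl
          intro j hj
          simp only [hH]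
          rw [if_pos (h j hj)]
        · push Not at h
          obtain ⟨j, hj, hjG⟩ := h
          apply Finset.prod_eq_zero hj
          simp only [hH]
          rw [if_neg hjG]
      rw [Finset.sum_congr rfl (fun u _ => h4 u), ← Finset.sum_filter, Finset.sum_const,
        nsmul_eq_mul, mul_comm]
    have h5 := (abs_le.mp h2).1
    rw [← h3]
    linarith

end Pool.Agent.Lib.P47j
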