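import Mathlib

/-!
Module Esym (1h; Mathlib only). A lower bound for elementary symmetric functions.
PROOF. With `s = ∑ x` one has `(R+1) e_(R+1) = s e_R - ∑_A ∑_(j ∈ A) x_j ∏_A x ≥ (s - 2 R) e_R`, so by induction
`R! e_R ≥ s^R - R (R-1) (2 z)^(R-1)`, hence `R! e_R ≥ z^R b`, b = (mean)^R - R^2 2^R/z. If b ≤ 0 the
left-hand side is ≤ 0 ≤ e_R. Otherwise (z choose R) b ≤ (z^R/R!) b ≤ e_R (Nat.choose_le_pow_div).
-/

open scoped BigOperators

namespace Pool.Agent.Lib.P47j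

namespace EsymAux

/-- elementary symmetric function -/
noncomputable def e {z : ℕ} (x : Fin z → ℝ) (R : ℕ) : ℝ :=
  ∑ A ∈ (Finset.univ : Finset (Fin z)).powersetCard R, ∏ i ∈ A, x i

theorem e_nonneg {z : ℕ} {x : Fin z → ℝ} (h0 : ∀ i, 0 ≤ x i) (R : ℕ) : 0 ≤ e x R :=
  Finset.sum_nonneg fun _ _ => Finset.prod_nonneg fun i _ => h0 i

theorem e_zero {z : ℕ} (x : Fin z → ℝ) : e x 0 = 1 := by
  simp [e]

theorem e_succ {z : ℕ} (x : Fin z → ℝ) (R : ℕ) :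
    e x R * ∑ i, x i = ((R : ℝ) + 1) * e x (R + 1) +
      ∑ A ∈ (Finset.univ : Finset (Fin z)).powersetCard R, (∏ i ∈ A, x i) * ∑ j ∈ A, x j := by
  classical
  have h1 : ((R : ℝ) + 1) * e x (R + 1) =
      ∑ B ∈ (Finset.univ : Finset (Fin z)).powersetCard (R + 1), ∑ _j ∈ B, ∏ i ∈ B, x i := by
    rw [e, Finset.mul_sum]
    refine Finset.sum_congr rfl fun B hB => ?_
    rw [Finset.sum_const, (Finset.mem_powersetCard.1 hB).2, nsmul_eq_mul]
    push_cast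
    ring
  have h2 : ∑ A ∈ (Finset.univ : Finset (Fin z)).powersetCard R,
      ∑ j ∈ Aᶜ, (∏ i ∈ A, x i) * x j =
      ∑ B ∈ (Finset.univ : Finset (Fin z)).powersetCard (R + 1), ∑ _j ∈ B, ∏ i ∈ B, x i := by
    rw [Finset.sum_sigma', Finset.sum_sigma']
    refine Finset.sum_bij' (i := fun p _ => (⟨insert p.2 p.1, p.2⟩ : (_ : Finset (Fin z)) × Fin z))
      (j := fun p _ => (⟨p.1.erase p.2, p.2⟩ : (_ : Finset (Fin z)) × Fin z)) ?_ ?_ ?_ ?_ ?_
    · rintro ⟨A, j⟩ hp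
      rw [Finset.mem_sigma, Finset.mem_powersetCard] at hp
      have hj : j ∉ A := Finset.mem_compl.1 hp.2
      rw [Finset.mem_sigma, Finset.mem_powersetCard]
      refine ⟨⟨Finset.subset_univ _, ?_⟩, Finset.mem_insert_self _ _⟩
      rw [Finset.card_insert_of_notMem hj, hp.1.2]
    · rintro ⟨B, j⟩ hp
      rw [Finset.mem_sigma, Finset.mem_powersetCard] at hp
      rw [Finset.mem_sigma, Finset.mem_powersetCard]
      refine ⟨⟨Finset.subset_univ _, ?_⟩, Finset.mem_compl.2 (Finset.notMem_erase _ _)⟩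
      rw [Finset.card_erase_of_mem hp.2, hp.1.2]
      rfl
    · rintro ⟨A, j⟩ hp
      rw [Finset.mem_sigma] at hp
      have hj : j ∉ A := Finset.mem_compl.1 hp.2
      simp only [Finset.erase_insert hj]
    · rintro ⟨B, j⟩ hp
      rw [Finset.mem_sigma] at hp
      simp only [Finset.insert_erase hp.2]
    · rintro ⟨A, j⟩ hp
      rw [Finset.mem_sigma] at hp
      have hj : j ∉ A := Finset.mem_compl.1 hp.2
      simp only [Finset.prod_insert hj]
      ring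
  rw [h1, ← h2, e, Finset.sum_mul, ← Finset.sum_add_distrib]
  refine Finset.sum_congr rfl fun A _ => ?_
  rw [← Finset.mul_sum, ← mul_add, Finset.sum_compl_add_sum]

theorem e_step {z : ℕ} {x : Fin z → ℝ} (h0 : ∀ i, 0 ≤ x i) (h2 : ∀ i, x i ≤ 2) (R : ℕ) :
    (∑ i, x i - 2 * R) * e x R ≤ ((R : ℝ) + 1) * e x (R + 1) := by
  have h1 := e_succ x R
  have h3 : ∑ A ∈ (Finset.univ : Finset (Fin z)).powersetCard R, (∏ i ∈ A, x i) * ∑ j ∈ A, x j ≤
      2 * R * e x R := by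
    rw [e, Finset.mul_sum]
    refine Finset.sum_le_sum fun A hA => ?_
    have h4 : ∑ j ∈ A, x j ≤ 2 * R := by
      calc ∑ j ∈ A, x j ≤ ∑ _j ∈ A, (2 : ℝ) := Finset.sum_le_sum fun j _ => h2 j
        _ = 2 * R := by
          rw [Finset.sum_const, (Finset.mem_powersetCard.1 hA).2, nsmul_eq_mul, mul_comm]
    rw [mul_comm (2 * (R : ℝ))]
    exact mul_le_mul_of_nonneg_left h4 (Finset.prod_nonneg fun i _ => h0 i)
  linarith

theorem fact_e {z : ℕ} {x : Fin z → ℝ} (h0 : ∀ i, 0 ≤ x i) (h2 : ∀ i, x i ≤ 2) (R : ℕ) :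
    (∑ i, x i) ^ (R + 1) - (R + 1) * R * (2 * z) ^ R ≤ ((R + 1).factorial : ℝ) * e x (R + 1) := by
  have hs : 0 ≤ ∑ i, x i := Finset.sum_nonneg fun i _ => h0 i
  have hs2 : ∑ i, x i ≤ 2 * z := by
    calc ∑ i, x i ≤ ∑ _i : Fin z, (2 : ℝ) := Finset.sum_le_sum fun i _ => h2 i
      _ = 2 * z := by simp [mul_comm]
  induction R with
  | zero =>
    have h1 := e_step h0 h2 0
    rw [e_zero] at h1
    simp at h1 ⊢
    exact h1
  | succ R ih =>
    have h1 := e_step h0 h2 (R + 1)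
    have h3 := e_nonneg h0 (R + 1)
    have h4 := e_nonneg h0 (R + 1 + 1)
    have hf : (0 : ℝ) ≤ ((R + 1).factorial : ℝ) := Nat.cast_nonneg _
    have hR : (0 : ℝ) ≤ R := Nat.cast_nonneg _
    set s : ℝ := ∑ i, x i with hsd
    have h5 : s ^ (R + 1) ≤ (2 * (z : ℝ)) ^ (R + 1) := pow_le_pow_left₀ hs hs2 _
    have hz : (0 : ℝ) ≤ (2 * (z : ℝ)) ^ R := by positivity
    have hz' : (0 : ℝ) ≤ (2 * (z : ℝ)) ^ (R + 1) := by positivity
    rcases le_or_gt (2 * ((R : ℝ) + 1)) s with h6 | h6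
    · have h7 : (((R + 1 + 1).factorial : ℕ) : ℝ) * e x (R + 1 + 1) =
          ((R + 1).factorial : ℝ) * ((((R + 1 : ℕ) : ℝ) + 1) * e x (R + 1 + 1)) := by
        rw [Nat.factorial_succ (R + 1)]
        push_cast
        ring
      rw [h7]
      have h8 : (s ^ (R + 1) - (R + 1) * R * (2 * z) ^ R) * (s - 2 * (R + 1)) ≤
          ((R + 1).factorial : ℝ) * ((((R + 1 : ℕ) : ℝ) + 1) * e x (R + 1 + 1)) := by
        calc (s ^ (R + 1) - (R + 1) * R * (2 * z) ^ R) * (s - 2 * (R + 1))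
            ≤ (((R + 1).factorial : ℝ) * e x (R + 1)) * (s - 2 * (R + 1)) :=
              mul_le_mul_of_nonneg_right ih (by linarith)
          _ = ((R + 1).factorial : ℝ) * ((s - 2 * ((R + 1 : ℕ) : ℝ)) * e x (R + 1)) := by
              push_cast
              ring
          _ ≤ _ := mul_le_mul_of_nonneg_left h1 hf
      refine le_trans ?_ h8
      have e1 : s ^ (R + 1 + 1) = s ^ (R + 1) * s := pow_succ _ _
      have e2 : (2 * (z : ℝ)) ^ (R + 1) = (2 * (z : ℝ)) ^ R * (2 * z) := pow_succ _ _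
      push_cast
      have h9 : (R + 1) * R * (2 * (z : ℝ)) ^ R * s ≤ (R + 1) * R * (2 * (z : ℝ)) ^ R * (2 * z) :=
        mul_le_mul_of_nonneg_left hs2 (by positivity)
      have h10 : 2 * ((R : ℝ) + 1) * s ^ (R + 1) ≤ 2 * ((R : ℝ) + 1) * (2 * (z : ℝ)) ^ (R + 1) :=
        mul_le_mul_of_nonneg_left h5 (by positivity)
      have h11 : 0 ≤ ((R : ℝ) + 1) * R * (2 * (z : ℝ)) ^ R * (2 * (R + 1)) := by positivity
      rw [e1]
      have e3 : (R + 1) * R * (2 * (z : ℝ)) ^ R * (2 * z) = (R + 1) * R * (2 * (z : ℝ)) ^ (R + 1) := by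
        rw [e2]
        ring
      rw [e3] at h9
      nlinarith [h9, h10, h11]
    · have h7 : s ^ (R + 1 + 1) ≤ 2 * ((R : ℝ) + 1) * (2 * (z : ℝ)) ^ (R + 1) := by
        rw [pow_succ s (R + 1), mul_comm (s ^ (R + 1)) s]
        exact mul_le_mul h6.le h5 (pow_nonneg hs _) (by linarith)
      have h8 : 0 ≤ (((R + 1 + 1).factorial : ℕ) : ℝ) * e x (R + 1 + 1) :=
        mul_nonneg (Nat.cast_nonneg _) h4
      refine le_trans ?_ h8
      push_cast
      have h9 : 2 * ((R : ℝ) + 1) * (2 * (z : ℝ)) ^ (R + 1) ≤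
          ((R : ℝ) + 1 + 1) * (R + 1) * (2 * (z : ℝ)) ^ (R + 1) := by
        refine mul_le_mul_of_nonneg_right ?_ hz'
        nlinarith
      linarith

end EsymAux

open EsymAux

theorem esym (z R : ℕ) (hz : 1 ≤ z) (x : Fin z → ℝ) (h0 : ∀ i, 0 ≤ x i) (h2 : ∀ i, x i ≤ 2) :
    (z.choose R : ℝ) * (((∑ i, x i) / z) ^ R - (R : ℝ) ^ 2 * 2 ^ R / z) ≤
      ∑ A ∈ (Finset.univ : Finset (Fin z)).powersetCard R, ∏ i ∈ A, x i := by
  change _ ≤ e x R
  have hz0 : (0 : ℝ) < z := by exact_mod_cast hz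
  rcases R with _ | R
  · rw [e_zero]
    simp
  set b : ℝ := ((∑ i, x i) / z) ^ (R + 1) - (((R + 1 : ℕ) : ℝ)) ^ 2 * 2 ^ (R + 1) / z with hb
  have hR : (0 : ℝ) ≤ R := Nat.cast_nonneg _
  have h1 : (z : ℝ) ^ (R + 1) * b ≤ ((R + 1).factorial : ℝ) * e x (R + 1) := by
    refine le_trans ?_ (fact_e h0 h2 R)
    have h3 : (z : ℝ) ^ (R + 1) * b = (∑ i, x i) ^ (R + 1) -
        ((R : ℝ) + 1) ^ 2 * 2 * (2 * (z : ℝ)) ^ R := by
      rw [hb, mul_sub, div_pow, mul_div_cancel₀ _ (pow_ne_zero _ hz0.ne'), mul_pow, pow_succ (z : ℝ) R,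
        pow_succ (2 : ℝ) R]
      push_cast
      field_simp
    rw [h3]
    have h4 : (0 : ℝ) ≤ (2 * (z : ℝ)) ^ R := by positivity
    have h5 : ((R : ℝ) + 1) * R * (2 * (z : ℝ)) ^ R ≤ ((R : ℝ) + 1) ^ 2 * 2 * (2 * (z : ℝ)) ^ R := by
      refine mul_le_mul_of_nonneg_right ?_ h4
      nlinarith
    linarith
  have he := e_nonneg h0 (R + 1)
  have hc : (0 : ℝ) ≤ (z.choose (R + 1) : ℝ) := Nat.cast_nonneg _
  rcases le_or_gt b 0 with h3 | h3
  · exact (mul_nonpos_of_nonneg_of_nonpos hc h3).trans he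
  · have hf : (0 : ℝ) < ((R + 1).factorial : ℝ) := by exact_mod_cast Nat.factorial_pos _
    have h4 : (z.choose (R + 1) : ℝ) ≤ (z : ℝ) ^ (R + 1) / ((R + 1).factorial : ℝ) :=
      Nat.choose_le_pow_div (α := ℝ) (R + 1) z
    calc (z.choose (R + 1) : ℝ) * b ≤ (z : ℝ) ^ (R + 1) / ((R + 1).factorial : ℝ) * b :=
          mul_le_mul_of_nonneg_right h4 h3.le
      _ = ((z : ℝ) ^ (R + 1) * b) / ((R + 1).factorial : ℝ) := by ring
      _ ≤ e x (R + 1) := by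
          rw [div_le_iff₀ hf, mul_comm]
          linarith

end Pool.Agent.Lib.P47j
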