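import Pool.Agent.Lib.P47j.Defs
import Pool.Agent.Lib.P47j.Bas
import Pool.Agent.Lib.P47j.Cap
import Pool.Agent.Lib.P47j.Esym

/-!
Module Low (1h; black boxes Bas, cap, esym). Lower bound for the number of the points on R lines of G.
PROOF. Hb from cap. For |A| = R: K^R #{..} ≥ ∑_u ∏_A Hb - R K^(R-1) η N^z, and there are (z choose R) such A. ∑_A ∏_A Hb j u = e_R (Hb · u) ≥ (z choose R) (hb u ^ R - R^2 2^R/z), hb u = (∑_j Hb j u)/z (esym, Hb ≤ 1 + η ≤ 2), and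
∑_u hb u ^ R ≥ N^z (avg)^R with avg = (∑_u hb u)/N^z (Jensen: inner_le.. of Mathlib: Real.pow_arith_mean_le_arith_mean_pow), avg ≥ 0 and
avg ≥ (∑_j (K #{u : ln j u ∈ G} - η N^z))/(z N^z) = K N |G|/(z N^z) - η (sum_inc). R K^(R-1) η ≤ R K^R η.
-/

open scoped BigOperators

namespace Pool.Agent.Lib.P47j

namespace LowAux

theorem jensen {X : Type} [Fintype X] [Nonempty X] (R : ℕ) (h : X → ℝ) (h0 : ∀ u, 0 ≤ h u) :
    (Fintype.card X : ℝ) * ((∑ u, h u) / (Fintype.card X : ℝ)) ^ R ≤ ∑ u, h u ^ R := by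
  have hc : (0 : ℝ) < (Fintype.card X : ℝ) := by exact_mod_cast Fintype.card_pos
  have hj := Real.pow_arith_mean_le_arith_mean_pow (Finset.univ : Finset X)
    (fun _ => 1 / (Fintype.card X : ℝ)) h (fun _ _ => by positivity)
    (by
      rw [Finset.sum_const, Finset.card_univ, nsmul_eq_mul]
      field_simp) (fun i _ => h0 i) R
  rw [← Finset.mul_sum, ← Finset.mul_sum] at hj
  have h1 : (∑ u, h u) / (Fintype.card X : ℝ) = 1 / (Fintype.card X : ℝ) * ∑ u, h u := by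
    ring
  rw [h1]
  calc (Fintype.card X : ℝ) * (1 / (Fintype.card X : ℝ) * ∑ u, h u) ^ R
      ≤ (Fintype.card X : ℝ) * (1 / (Fintype.card X : ℝ) * ∑ u, h u ^ R) := by
        exact mul_le_mul_of_nonneg_left hj hc.le
    _ = ∑ u, h u ^ R := by
        field_simp

end LowAux

theorem low {z N K : ℕ} [NeZero N] [NeZero K] (R : ℕ) (hz : 1 ≤ z) {M : ℕ} {κ η : ℝ}
    (hη : 0 < η) (hη1 : η ≤ 1) (hM : (K : ℝ) ^ 2 < (M : ℝ) * η ^ 2) (hκ0 : 0 ≤ κ)
    (hκ : κ * ((K : ℝ) ^ 2 * 2 ^ M) ≤ η ^ 2) {f : Ln z N → Fin K} (hf : QR M κ f)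
    (G : Finset (Ln z N)) (hG : G ⊆ lns f) :
    (z.choose R : ℝ) * (N : ℝ) ^ z *
        ((max 0 ((G.card : ℝ) / lam z N K - η)) ^ R - (R : ℝ) ^ 2 * 2 ^ R / z -
          R * (K : ℝ) ^ R * η) ≤
      (K : ℝ) ^ R * ∑ A ∈ (Finset.univ : Finset (Fin z)).powersetCard R,
        ((Finset.univ.filter (fun u : Pt z N => ∀ j ∈ A, ln j u ∈ G)).card : ℝ) := by
  obtain ⟨Hb, h0, h1, hs, hp⟩ := cap hη hη1 hM hκ0 hκ hf G hG
  have hN : (0 : ℝ) < (N : ℝ) := by exact_mod_cast Nat.pos_of_ne_zero (NeZero.ne N)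
  have hK : (1 : ℝ) ≤ (K : ℝ) := by exact_mod_cast Nat.one_le_iff_ne_zero.2 (NeZero.ne K)
  have hz0 : (0 : ℝ) < (z : ℝ) := by exact_mod_cast hz
  have hNz : (0 : ℝ) < (N : ℝ) ^ z := pow_pos hN z
  have hcard : (Fintype.card (Pt z N) : ℝ) = (N : ℝ) ^ z := by
    rw [card_Pt]; push_cast; rfl
  set hb : Pt z N → ℝ := fun u => (∑ j, Hb j u) / z with hhb
  have hb0 : ∀ u, 0 ≤ hb u := fun u =>
    div_nonneg (Finset.sum_nonneg (fun j _ => h0 j u)) hz0.le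
  -- the symmetric functions
  have e1 : ∀ u, (z.choose R : ℝ) * (hb u ^ R - (R : ℝ) ^ 2 * 2 ^ R / z) ≤
      ∑ A ∈ (Finset.univ : Finset (Fin z)).powersetCard R, ∏ j ∈ A, Hb j u := fun u =>
    esym z R hz (fun j => Hb j u) (fun j => h0 j u) (fun j => by linarith [h1 j u])
  have e2 : (z.choose R : ℝ) * ((∑ u, hb u ^ R) - (N : ℝ) ^ z * ((R : ℝ) ^ 2 * 2 ^ R / z)) ≤
      ∑ A ∈ (Finset.univ : Finset (Fin z)).powersetCard R, ∑ u, ∏ j ∈ A, Hb j u := by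
    rw [Finset.sum_comm]
    calc (z.choose R : ℝ) * ((∑ u, hb u ^ R) - (N : ℝ) ^ z * ((R : ℝ) ^ 2 * 2 ^ R / z))
        = ∑ u : Pt z N, (z.choose R : ℝ) * (hb u ^ R - (R : ℝ) ^ 2 * 2 ^ R / z) := by
          rw [← Finset.mul_sum, Finset.sum_sub_distrib, Finset.sum_const, Finset.card_univ,
            nsmul_eq_mul, hcard]
      _ ≤ _ := Finset.sum_le_sum (fun u _ => e1 u)
  -- the products
  have e3 : ∑ A ∈ (Finset.univ : Finset (Fin z)).powersetCard R, ∑ u, ∏ j ∈ A, Hb j u ≤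
      (K : ℝ) ^ R * ∑ A ∈ (Finset.univ : Finset (Fin z)).powersetCard R,
        ((Finset.univ.filter (fun u : Pt z N => ∀ j ∈ A, ln j u ∈ G)).card : ℝ) +
      (z.choose R : ℝ) * (R * (K : ℝ) ^ R * (η * (N : ℝ) ^ z)) := by
    rw [Finset.mul_sum]
    have hc : ((Finset.univ : Finset (Fin z)).powersetCard R).card = z.choose R := by
      rw [Finset.card_powersetCard, Finset.card_univ, Fintype.card_fin]
    have hh : (z.choose R : ℝ) * (R * (K : ℝ) ^ R * (η * (N : ℝ) ^ z)) =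
        ∑ A ∈ (Finset.univ : Finset (Fin z)).powersetCard R,
          (R * (K : ℝ) ^ R * (η * (N : ℝ) ^ z)) := by
      rw [Finset.sum_const, hc, nsmul_eq_mul]
    rw [hh, ← Finset.sum_add_distrib]
    refine Finset.sum_le_sum (fun A hA => ?_)
    have hAc : A.card = R := (Finset.mem_powersetCard.1 hA).2
    have h2 := hp A
    rw [hAc] at h2
    refine h2.trans ?_
    have h3 : (K : ℝ) ^ (R - 1) ≤ (K : ℝ) ^ R := pow_le_pow_right₀ hK (Nat.sub_le R 1)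
    have h4 : (R : ℝ) * (K : ℝ) ^ (R - 1) * (η * (N : ℝ) ^ z) ≤
        (R : ℝ) * (K : ℝ) ^ R * (η * (N : ℝ) ^ z) := by
      have h5 : (0 : ℝ) ≤ η * (N : ℝ) ^ z := by positivity
      exact mul_le_mul_of_nonneg_right (mul_le_mul_of_nonneg_left h3 (Nat.cast_nonneg R)) h5
    linarith
  -- Jensen
  have e4 : (N : ℝ) ^ z * ((∑ u, hb u) / (N : ℝ) ^ z) ^ R ≤ ∑ u, hb u ^ R := by
    haveI : Nonempty (Pt z N) := ⟨fun _ => 0⟩
    have := LowAux.jensen R hb hb0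
    rwa [hcard] at this
  -- the mean
  have e5 : (G.card : ℝ) / lam z N K - η ≤ (∑ u, hb u) / (N : ℝ) ^ z := by
    have s1 : ∑ u, hb u = (∑ j, ∑ u, Hb j u) / z := by
      rw [Finset.sum_comm, hhb, ← Finset.sum_div]
    have s2 : ∑ j : Fin z, ((K : ℝ) *
        ((Finset.univ.filter (fun u : Pt z N => ln j u ∈ G)).card : ℝ) - η * (N : ℝ) ^ z) ≤
        ∑ j, ∑ u, Hb j u := Finset.sum_le_sum (fun j _ => hs j)
    have s3 : ∑ j : Fin z, ((K : ℝ) *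
        ((Finset.univ.filter (fun u : Pt z N => ln j u ∈ G)).card : ℝ) - η * (N : ℝ) ^ z) =
        (K : ℝ) * ((N : ℝ) * G.card) - z * (η * (N : ℝ) ^ z) := by
      rw [Finset.sum_sub_distrib, ← Finset.mul_sum, Finset.sum_const, Finset.card_univ,
        Fintype.card_fin, nsmul_eq_mul]
      have := sum_inc f G hG
      have h' : ∑ j : Fin z, ((Finset.univ.filter (fun u : Pt z N => ln j u ∈ G)).card : ℝ) =
          (N : ℝ) * G.card := by exact_mod_cast this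
      rw [h']
    rw [s3] at s2
    have s4 : (G.card : ℝ) / lam z N K = ((K : ℝ) * ((N : ℝ) * G.card)) / (z * (N : ℝ) ^ z) := by
      have hz' : (N : ℝ) ^ z = (N : ℝ) ^ (z - 1) * N := by
        rw [← pow_succ, Nat.sub_add_cancel hz]
      have hN1 : (0 : ℝ) < (N : ℝ) ^ (z - 1) := pow_pos hN _
      have hK0 : (0 : ℝ) < (K : ℝ) := by linarith
      unfold lam
      rw [hz']
      field_simp
    rw [s4, s1, div_div, sub_le_iff_le_add, div_le_iff₀ (by positivity)]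
    have s5 : ((∑ j, ∑ u, Hb j u) / ((z : ℝ) * (N : ℝ) ^ z) + η) * ((z : ℝ) * (N : ℝ) ^ z) =
        (∑ j, ∑ u, Hb j u) + η * ((z : ℝ) * (N : ℝ) ^ z) := by
      field_simp
    rw [s5]
    linarith
  have e6 : (max 0 ((G.card : ℝ) / lam z N K - η)) ^ R ≤ ((∑ u, hb u) / (N : ℝ) ^ z) ^ R := by
    refine pow_le_pow_left₀ (le_max_left _ _) (max_le ?_ e5) R
    exact div_nonneg (Finset.sum_nonneg (fun u _ => hb0 u)) hNz.le
  have e7 : (N : ℝ) ^ z * (max 0 ((G.card : ℝ) / lam z N K - η)) ^ R ≤ ∑ u, hb u ^ R :=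
    (mul_le_mul_of_nonneg_left e6 hNz.le).trans e4
  have e8 : (z.choose R : ℝ) * ((N : ℝ) ^ z * (max 0 ((G.card : ℝ) / lam z N K - η)) ^ R -
      (N : ℝ) ^ z * ((R : ℝ) ^ 2 * 2 ^ R / z)) ≤
      (z.choose R : ℝ) * ((∑ u, hb u ^ R) - (N : ℝ) ^ z * ((R : ℝ) ^ 2 * 2 ^ R / z)) :=
    mul_le_mul_of_nonneg_left (by linarith) (Nat.cast_nonneg _)
  have e9 := e8.trans (e2.trans e3)
  have e10 : (z.choose R : ℝ) * (N : ℝ) ^ z *
        ((max 0 ((G.card : ℝ) / lam z N K - η)) ^ R - (R : ℝ) ^ 2 * 2 ^ R / z -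
          R * (K : ℝ) ^ R * η) =
      (z.choose R : ℝ) * ((N : ℝ) ^ z * (max 0 ((G.card : ℝ) / lam z N K - η)) ^ R -
      (N : ℝ) ^ z * ((R : ℝ) ^ 2 * 2 ^ R / z)) -
      (z.choose R : ℝ) * (R * (K : ℝ) ^ R * (η * (N : ℝ) ^ z)) := by ring
  rw [e10]
  linarith

end Pool.Agent.Lib.P47j
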