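import Pool.Agent.Lib.P47j.Defs
import Pool.Agent.Lib.P47j.Bas
import Pool.Agent.Lib.P47j.Tele

/-!
Module Upp (0.8h; black boxes Bas, tele). The number of the points on given numbers of active lines.
PROOF. tele with H j u = K 1[f (ln j u) = 0], H' = 1, η = K κ, where |∑_{u ∈ T} (H j u - 1)| = |K #{u ∈ T : f (ln j u) = 0} - |T|| ≤ K κ N^z for T ∈ Tst j: if T is nonempty take u ∈ T and φ i = T for all
i : Fin M (M ≥ 1): cell φ u = T. H is invariant by ln_update, values in [0, K], 1 ≤ K. ∏_{j ∈ A} H j u = K^|A| 1[A ⊆ act f u], ∑_u 1 = N^z. |A| K^(|A|-1) K κ N^z = |A| K^|A| κ N^z (A nonempty; A = ∅ is trivial).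
-/

open scoped BigOperators

namespace Pool.Agent.Lib.P47j

namespace UppAux

theorem cell_const {X : Type} [Fintype X] [DecidableEq X] {M : ℕ} (hM : 1 ≤ M) (T : Finset X)
    {x : X} (hx : x ∈ T) : cell (fun _ : Fin M => T) x = T := by
  ext y
  simp only [cell, Finset.mem_filter, Finset.mem_univ, true_and, hx, iff_true]
  exact ⟨fun h => h ⟨0, hM⟩, fun h _ => h⟩

/-- The weight of a point in the direction `j`. -/
noncomputable def wt {z N K : ℕ} [NeZero N] [NeZero K] (f : Ln z N → Fin K) (j : Fin z)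
    (u : Pt z N) : ℝ := if f (ln j u) = 0 then (K : ℝ) else 0

theorem prod_wt {z N K : ℕ} [NeZero N] [NeZero K] (f : Ln z N → Fin K) (A : Finset (Fin z))
    (u : Pt z N) : ∏ j ∈ A, wt f j u = if A ⊆ act f u then (K : ℝ) ^ A.card else 0 := by
  split_ifs with h
  · rw [← Finset.prod_const]
    refine Finset.prod_congr rfl (fun j hj => ?_)
    have h1 := (mem_act f u j).1 (h hj)
    simp [wt, h1]
  · obtain ⟨j, hj, hj'⟩ := Finset.not_subset.1 h
    refine Finset.prod_eq_zero hj ?_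
    have h1 : f (ln j u) ≠ 0 := fun h2 => hj' ((mem_act f u j).2 h2)
    simp [wt, h1]

theorem sum_wt {z N K : ℕ} [NeZero N] [NeZero K] (f : Ln z N → Fin K) (j : Fin z)
    (T : Finset (Pt z N)) : ∑ u ∈ T, (wt f j u - 1) =
      (K : ℝ) * (((T.filter (fun v => f (ln j v) = 0)).card : ℝ) - (T.card : ℝ) / (K : ℝ)) := by
  have hK : (K : ℝ) ≠ 0 := Nat.cast_ne_zero.2 (NeZero.ne K)
  rw [Finset.sum_sub_distrib]
  have h1 : ∑ u ∈ T, wt f j u = (K : ℝ) * ((T.filter (fun v => f (ln j v) = 0)).card : ℝ) := by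
    simp only [wt]
    rw [← Finset.sum_filter, Finset.sum_const, nsmul_eq_mul, mul_comm]
  rw [h1]
  simp only [Finset.sum_const, nsmul_eq_mul, mul_one]
  rw [mul_sub, mul_div_cancel₀ _ hK]

end UppAux

open UppAux in
theorem upp {z N K : ℕ} [NeZero N] [NeZero K] {M : ℕ} (hM : 1 ≤ M) {κ : ℝ} (hκ : 0 ≤ κ)
    {f : Ln z N → Fin K} (hf : QR M κ f) (A : Finset (Fin z)) :
    |(K : ℝ) ^ A.card * ((Finset.univ.filter (fun u : Pt z N => A ⊆ act f u)).card : ℝ) -
      (N : ℝ) ^ z| ≤ A.card * (K : ℝ) ^ A.card * (κ * (N : ℝ) ^ z) := by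
  have hK0 : (0 : ℝ) ≤ (K : ℝ) := Nat.cast_nonneg K
  have hK1 : (1 : ℝ) ≤ (K : ℝ) := by
    exact_mod_cast Nat.one_le_iff_ne_zero.2 (NeZero.ne K)
  have hN0 : (0 : ℝ) ≤ (N : ℝ) ^ z := by positivity
  have key := tele (z := z) (N := N) (K : ℝ) ((K : ℝ) * κ) hK0 A (wt f) (fun _ _ => 1)
    (fun i u c => by simp only [wt]; rw [ln_update]) (fun _ _ _ => rfl)
    (fun i u => by simp only [wt]; split_ifs <;> simp)
    (fun i u => by simp only [wt]; split_ifs <;> simp)
    (fun _ _ => zero_le_one) (fun _ _ => hK1)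
    (fun j _ T hT => by
      rw [sum_wt]
      rcases T.eq_empty_or_nonempty with hE | ⟨u, hu⟩
      · subst hE
        simp only [Finset.filter_empty, Finset.card_empty, Nat.cast_zero, zero_div, sub_zero,
          mul_zero, abs_zero]
        positivity
      · have h1 := hf j (fun _ => T) (fun _ => hT) u
        rw [cell_const hM T hu] at h1
        rw [abs_mul, abs_of_nonneg hK0, mul_assoc]
        exact mul_le_mul_of_nonneg_left h1 hK0)
  have e1 : ∑ u : Pt z N, ∏ i ∈ A, wt f i u =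
      (K : ℝ) ^ A.card * ((Finset.univ.filter (fun u : Pt z N => A ⊆ act f u)).card : ℝ) := by
    simp only [prod_wt]
    rw [← Finset.sum_filter, Finset.sum_const, nsmul_eq_mul, mul_comm]
  have e2 : ∑ u : Pt z N, ∏ _i ∈ A, (1 : ℝ) = (N : ℝ) ^ z := by
    simp only [Finset.prod_const_one, Finset.sum_const, nsmul_eq_mul, mul_one, Finset.card_univ]
    rw [card_Pt]
    push_cast
    rfl
  rw [e1, e2] at key
  refine key.trans (le_of_eq ?_)
  rcases Nat.eq_zero_or_pos A.card with h0 | h0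
  · rw [h0]; simp
  · obtain ⟨m, hm⟩ : ∃ m, A.card = m + 1 := ⟨A.card - 1, by omega⟩
    rw [hm]
    simp only [Nat.add_sub_cancel]
    ring

end Pool.Agent.Lib.P47j
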