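import Pool.Agent.Lib.P47j.Defs
import Pool.Agent.Lib.P47j.Bas
import Pool.Agent.Lib.P47j.Upp
import Pool.Agent.Lib.P47j.Low

/-!
Module Dens: points on exactly R active lines.
PROOF. Constants: z0 ≥ 1 with R^2 2^R/z0 ≤ ε/4 and z0 ≥ R; given z, K0 ≥ 1 with 2 z/K0 ≤ ε/4; given K, η ∈ (0, ε] with R K^R η + R 2^R η ≤ ε/4; M > K^2/η^2, M ≥ 1; κ > 0 with κ K^2 2^M ≤ η^2, (R+1) K^(R+1) κ ≤ ε, (K κ ≤ ε follows).
Write Λ = lam z N K, μ = mu z K R; (z choose R) N^z/K^R = μ N^z.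
(lines) upp for A = {j}: |K #{u : f (ln j u) = 0} - N^z| ≤ K κ N^z; sum over j, sum_inc with G = lns f (ln j u ∈ lns f iff f (ln j u) = 0): |K N |lns f| - z N^z| ≤ z K κ N^z, i.e. ||lns f|/Λ - 1| ≤ K κ ≤ ε.
(good) #good ≤ ∑_{|A| = R} #{u : A ⊆ act f u} ≤ (z choose R) K^(-R) (1 + R K^R κ) N^z ≤ (1 + ε) μ N^z.
(lower) For u let a = |act f u|. If all.. : for G ⊆ lns f, γ = |G|/Λ ≤ 1 + ε ≤ 2: ∑_{|A| = R} #{u : ∀ j ∈ A, ln j u ∈ G} ≤ #{u ∈ good : ∀ j ∈ act f u, ln j u ∈ G} + (R+1) ∑_{|A| = R+1} #{u : A ⊆ act f u}: pointwise, the set A(u) = {j : ln j u ∈ G}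
is contained in act f u, and (|A(u)| choose R) ≤ 1[..] + (R+1) (a choose (R+1)): if a ≤ R - 1 the left side is 0; if a = R it is 1 iff A(u) = act f u; if a ≥ R+1, (a choose R) ≤ (R+1) (a choose (R+1)) (Nat.succ_mul_choose_eq or
choose_succ_right_eq: (R+1) (a choose (R+1)) = (a - R) (a choose R)). And (R+1) (z choose (R+1)) = (z - R)(z choose R) ≤ z (z choose R), so by upp the last sum is at most z (z choose R) K^(-R-1) (1 + ε) N^z ≤ 2 (z/K) μ N^z ≤ (ε/4) μ N^z. By low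
the left side is ≥ μ N^z ((max 0 (γ - η))^R - ε/4 - R K^R η), and (max 0 (γ - η))^R ≥ γ^R - R 2^R η (0 ≤ γ ≤ 2; if γ ≥ η: γ^R - (γ-η)^R ≤ R η 2^(R-1); otherwise γ^R ≤ η). Total error ≤ ε.
-/

open scoped BigOperators

namespace Pool.Agent.Lib.P47j

namespace DensAux

theorem pow_diff (n : ℕ) (a b : ℝ) (hb : 0 ≤ b) (hba : b ≤ a) (ha : a ≤ 2) :
    a ^ n - b ^ n ≤ n * 2 ^ n * (a - b) := by
  induction n with
  | zero => simp
  | succ n ih =>
    have h1 : a ^ (n + 1) - b ^ (n + 1) = a * (a ^ n - b ^ n) + b ^ n * (a - b) := by ring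
    have h2 : b ^ n ≤ 2 ^ n := pow_le_pow_left₀ hb (hba.trans ha) n
    have ha0 : 0 ≤ a := hb.trans hba
    have hd : 0 ≤ a - b := sub_nonneg.2 hba
    have h4 : 0 ≤ (n : ℝ) * 2 ^ n * (a - b) := by positivity
    have h3 : a * (a ^ n - b ^ n) ≤ 2 * ((n : ℝ) * 2 ^ n * (a - b)) := by
      calc a * (a ^ n - b ^ n) ≤ a * ((n : ℝ) * 2 ^ n * (a - b)) :=
            mul_le_mul_of_nonneg_left ih ha0
        _ ≤ 2 * ((n : ℝ) * 2 ^ n * (a - b)) := mul_le_mul_of_nonneg_right ha h4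
    have h5 : b ^ n * (a - b) ≤ 2 ^ n * (a - b) := mul_le_mul_of_nonneg_right h2 hd
    have h6 : (0 : ℝ) ≤ 2 ^ n * (a - b) := by positivity
    rw [h1]
    push_cast
    have h7 : ((n : ℝ) + 1) * 2 ^ (n + 1) * (a - b) =
      2 * ((n : ℝ) * 2 ^ n * (a - b)) + 2 * (2 ^ n * (a - b)) := by ring
    rw [h7]
    linarith

theorem pow_max (R : ℕ) (γ η : ℝ) (hγ : 0 ≤ γ) (hγ2 : γ ≤ 2) (hη : 0 ≤ η) :
    γ ^ R - R * 2 ^ R * η ≤ (max 0 (γ - η)) ^ R := by
  have hb : (0 : ℝ) ≤ max 0 (γ - η) := le_max_left _ _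
  have hba : max 0 (γ - η) ≤ γ := max_le hγ (by linarith)
  have h := pow_diff R γ (max 0 (γ - η)) hb hba hγ2
  have h2 : γ - max 0 (γ - η) ≤ η := by
    have := le_max_right 0 (γ - η)
    linarith
  have h3 : (R : ℝ) * 2 ^ R * (γ - max 0 (γ - η)) ≤ R * 2 ^ R * η :=
    mul_le_mul_of_nonneg_left h2 (by positivity)
  linarith

variable {z N K : ℕ} [NeZero N] [NeZero K]

theorem sum_choose (S : Pt z N → Finset (Fin z)) (R : ℕ) :
    ∑ A ∈ (Finset.univ : Finset (Fin z)).powersetCard R,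
      (Finset.univ.filter (fun u : Pt z N => A ⊆ S u)).card = ∑ u, (S u).card.choose R := by
  simp_rw [Finset.card_filter]
  rw [Finset.sum_comm]
  refine Finset.sum_congr rfl (fun u _ => ?_)
  rw [← Finset.card_filter, ← Finset.card_powersetCard]
  congr 1
  ext A
  simp only [Finset.mem_filter, Finset.mem_powersetCard, Finset.subset_univ, true_and]
  tauto

theorem choose_le (S T : Finset (Fin z)) (hST : S ⊆ T) (R : ℕ) :
    S.card.choose R ≤ (if T.card = R ∧ T ⊆ S then 1 else 0) +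
      (R + 1) * T.card.choose (R + 1) := by
  have hle : S.card ≤ T.card := Finset.card_le_card hST
  rcases lt_trichotomy T.card R with h | h | h
  · rw [Nat.choose_eq_zero_of_lt (hle.trans_lt h)]
    exact Nat.zero_le _
  · by_cases hTS : T ⊆ S
    · have : S = T := Finset.Subset.antisymm hST hTS
      subst this
      rw [if_pos ⟨h, hTS⟩, h, Nat.choose_self]
      exact Nat.le_add_right _ _
    · have hlt : S.card < T.card :=
        Finset.card_lt_card ⟨hST, hTS⟩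
      rw [Nat.choose_eq_zero_of_lt (by omega)]
      exact Nat.zero_le _
  · have h1 : S.card.choose R ≤ T.card.choose R := Nat.choose_le_choose R hle
    have h2 := Nat.choose_succ_right_eq T.card R
    have h3 : T.card.choose R * 1 ≤ T.card.choose R * (T.card - R) :=
      Nat.mul_le_mul_left _ (by omega)
    have h4 : (R + 1) * T.card.choose (R + 1) = T.card.choose (R + 1) * (R + 1) := Nat.mul_comm _ _
    omega

end DensAux

open DensAux

theorem dens (R : ℕ) (hR : 1 ≤ R) (ε : ℝ) (hε : 0 < ε) (hε1 : ε ≤ 1) :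
    ∃ z0 : ℕ, ∀ z ≥ z0, ∃ K0 : ℕ, ∀ (K : ℕ) [NeZero K], K0 ≤ K → ∃ (M : ℕ) (κ : ℝ), 0 < κ ∧
      ∀ (N : ℕ) [NeZero N] (f : Ln z N → Fin K), QR M κ f →
        ((lns f).card : ℝ) ≤ (1 + ε) * lam z N K ∧ (1 - ε) * lam z N K ≤ ((lns f).card : ℝ) ∧
        ((good R f).card : ℝ) ≤ (1 + ε) * (mu z K R * (N : ℝ) ^ z) ∧
        ∀ G ⊆ lns f, mu z K R * (N : ℝ) ^ z * (((G.card : ℝ) / lam z N K) ^ R - ε) ≤
          (((good R f).filter (fun u => ∀ j ∈ act f u, ln j u ∈ G)).card : ℝ) := by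
  obtain ⟨n0, hn0⟩ := exists_nat_ge (4 * ((R : ℝ) ^ 2 * 2 ^ R) / ε)
  refine ⟨n0 + 1, fun z hz => ?_⟩
  have hz1 : 1 ≤ z := by omega
  have hzpos : (0 : ℝ) < z := by exact_mod_cast hz1
  have hzε : (R : ℝ) ^ 2 * 2 ^ R / z ≤ ε / 4 := by
    have h1 : (n0 : ℝ) ≤ z := by exact_mod_cast (show n0 ≤ z by omega)
    have h2 : 4 * ((R : ℝ) ^ 2 * 2 ^ R) ≤ z * ε := by
      have := (div_le_iff₀ hε).1 (hn0.trans h1)
      linarith
    rw [div_le_iff₀ hzpos]
    linarith
  obtain ⟨k0, hk0⟩ := exists_nat_ge (8 * (z : ℝ) / ε)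
  refine ⟨k0 + 1, fun K _ hK => ?_⟩
  have hKpos : (0 : ℝ) < K := by exact_mod_cast (show 0 < K by omega)
  have hK1 : (1 : ℝ) ≤ K := by exact_mod_cast (show 1 ≤ K by omega)
  have hKε : 2 * (z : ℝ) / K ≤ ε / 4 := by
    have h1 : (k0 : ℝ) ≤ K := by exact_mod_cast (show k0 ≤ K by omega)
    have h2 : 8 * (z : ℝ) ≤ K * ε := by
      have := (div_le_iff₀ hε).1 (hk0.trans h1)
      linarith
    rw [div_le_iff₀ hKpos]
    linarith
  have hRpos : (0 : ℝ) < R := by exact_mod_cast hR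
  have hR1 : (1 : ℝ) ≤ R := by exact_mod_cast hR
  have hKR : (1 : ℝ) ≤ (K : ℝ) ^ R := one_le_pow₀ hK1
  have hKR1 : (1 : ℝ) ≤ (K : ℝ) ^ (R + 1) := one_le_pow₀ hK1
  set D : ℝ := (R : ℝ) * (K : ℝ) ^ R + R * 2 ^ R with hD
  have hD1 : 1 ≤ D := by
    have h1 : (1 : ℝ) ≤ (R : ℝ) * (K : ℝ) ^ R := by nlinarith
    have h2 : (0 : ℝ) ≤ (R : ℝ) * 2 ^ R := by positivity
    linarith
  have hDpos : 0 < D := by linarith
  obtain ⟨η, hηdef⟩ : ∃ η : ℝ, η = ε / (4 * D) := ⟨_, rfl⟩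
  have hη : 0 < η := by rw [hηdef]; positivity
  have hηD : D * η = ε / 4 := by
    rw [hηdef]; field_simp
  have hηε : η ≤ ε := by
    have : 1 * η ≤ D * η := mul_le_mul_of_nonneg_right hD1 hη.le
    linarith
  have hη1 : η ≤ 1 := hηε.trans hε1
  obtain ⟨m0, hm0⟩ := exists_nat_gt ((K : ℝ) ^ 2 / η ^ 2)
  have hM : (K : ℝ) ^ 2 < ((m0 + 1 : ℕ) : ℝ) * η ^ 2 := by
    have h1 : (K : ℝ) ^ 2 / η ^ 2 < ((m0 + 1 : ℕ) : ℝ) := by
      push_cast; linarith
    exact (div_lt_iff₀ (by positivity)).1 h1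
  set M : ℕ := m0 + 1 with hMdef
  have hM1 : 1 ≤ M := by omega
  obtain ⟨κ, hκdef⟩ : ∃ κ : ℝ, κ = min (η ^ 2 / ((K : ℝ) ^ 2 * 2 ^ M))
    (ε / (((R : ℝ) + 1) * (K : ℝ) ^ (R + 1))) := ⟨_, rfl⟩
  have hκ : 0 < κ := by
    rw [hκdef]; exact lt_min (by positivity) (by positivity)
  have hκ1 : κ * ((K : ℝ) ^ 2 * 2 ^ M) ≤ η ^ 2 := by
    rw [← le_div_iff₀ (by positivity), hκdef]
    exact min_le_left _ _
  have hκ2 : κ * (((R : ℝ) + 1) * (K : ℝ) ^ (R + 1)) ≤ ε := by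
    rw [← le_div_iff₀ (by positivity), hκdef]
    exact min_le_right _ _
  refine ⟨M, κ, hκ, fun N _ f hf => ?_⟩
  have hN1 : 1 ≤ N := Nat.one_le_iff_ne_zero.2 (NeZero.ne N)
  have hNpos : (0 : ℝ) < N := by exact_mod_cast hN1
  have hNz : (0 : ℝ) < (N : ℝ) ^ z := by positivity
  have hpow : (N : ℝ) ^ (z - 1) * N = (N : ℝ) ^ z := by
    rw [← pow_succ, Nat.sub_add_cancel hz1]
  have hlam : (K : ℝ) * N * lam z N K = z * (N : ℝ) ^ z := by
    rw [lam, ← hpow]; field_simp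
  have hlampos : 0 < lam z N K := by rw [lam]; positivity
  have hKκ : (K : ℝ) * κ ≤ ε := by
    refine le_trans ?_ hκ2
    have h1 : (K : ℝ) ≤ ((R : ℝ) + 1) * (K : ℝ) ^ (R + 1) := by
      have h2 : (K : ℝ) ≤ (K : ℝ) ^ (R + 1) := by
        calc (K : ℝ) = (K : ℝ) ^ 1 := (pow_one _).symm
          _ ≤ (K : ℝ) ^ (R + 1) := pow_le_pow_right₀ hK1 (by omega)
      nlinarith
    rw [mul_comm]
    exact mul_le_mul_of_nonneg_left h1 hκ.le
  -- lines
  have hlines : |((lns f).card : ℝ) - lam z N K| ≤ ε * lam z N K := by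
    have hj : ∀ j : Fin z, |(K : ℝ) * ((Finset.univ.filter
        (fun u : Pt z N => ln j u ∈ lns f)).card : ℝ) - (N : ℝ) ^ z| ≤ K * κ * (N : ℝ) ^ z := by
      intro j
      have h := upp hM1 hκ.le hf ({j} : Finset (Fin z))
      have hset : (Finset.univ.filter (fun u : Pt z N => ({j} : Finset (Fin z)) ⊆ act f u)) =
          Finset.univ.filter (fun u : Pt z N => ln j u ∈ lns f) := by
        ext u
        simp only [Finset.mem_filter, Finset.mem_univ, true_and, Finset.singleton_subset_iff,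
          mem_act, ln_mem_lns]
      rw [hset, Finset.card_singleton] at h
      simp only [pow_one, Nat.cast_one, one_mul] at h
      linarith [h]
    have hs : |∑ j : Fin z, ((K : ℝ) * ((Finset.univ.filter
        (fun u : Pt z N => ln j u ∈ lns f)).card : ℝ) - (N : ℝ) ^ z)| ≤
        ∑ j : Fin z, (K : ℝ) * κ * (N : ℝ) ^ z :=
      (Finset.abs_sum_le_sum_abs _ _).trans (Finset.sum_le_sum (fun j _ => hj j))
    have hinc := sum_inc f (lns f) (Finset.Subset.refl _)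
    have hinc' : ∑ j : Fin z, (((Finset.univ.filter
        (fun u : Pt z N => ln j u ∈ lns f)).card : ℕ) : ℝ) = N * (lns f).card := by
      exact_mod_cast hinc
    rw [Finset.sum_sub_distrib, ← Finset.mul_sum, hinc', Finset.sum_const, Finset.sum_const,
      Finset.card_univ, Fintype.card_fin, nsmul_eq_mul, nsmul_eq_mul, ← hlam] at hs
    have h1 : (K : ℝ) * (N * ((lns f).card : ℝ)) - K * N * lam z N K =
        (K * N) * (((lns f).card : ℝ) - lam z N K) := by ring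
    have h2 : (z : ℝ) * (K * κ * (N : ℝ) ^ z) = (K * N) * ((K * κ) * lam z N K) := by
      calc (z : ℝ) * (K * κ * (N : ℝ) ^ z) = (K * κ) * (z * (N : ℝ) ^ z) := by ring
        _ = (K * κ) * (K * N * lam z N K) := by rw [hlam]
        _ = _ := by ring
    rw [h1, h2, abs_mul, abs_of_pos (by positivity : (0 : ℝ) < K * N)] at hs
    have h3 := le_of_mul_le_mul_left hs (by positivity : (0 : ℝ) < K * N)
    exact h3.trans (mul_le_mul_of_nonneg_right hKκ hlampos.le)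
  have hl1 : ((lns f).card : ℝ) ≤ (1 + ε) * lam z N K := by
    have := (abs_le.1 hlines).2
    linarith
  have hl2 : (1 - ε) * lam z N K ≤ ((lns f).card : ℝ) := by
    have := (abs_le.1 hlines).1
    linarith
  -- sums over sets A
  have hupp : ∀ A : Finset (Fin z), A.card ≤ R + 1 →
      (K : ℝ) ^ A.card * ((Finset.univ.filter (fun u : Pt z N => A ⊆ act f u)).card : ℝ) ≤
        (1 + ε) * (N : ℝ) ^ z := by
    intro A hA
    have h := (abs_le.1 (upp hM1 hκ.le hf A)).2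
    have h1 : (A.card : ℝ) * (K : ℝ) ^ A.card * κ ≤ ε := by
      have h2 : (A.card : ℝ) ≤ (R : ℝ) + 1 := by exact_mod_cast hA
      have h3 : (K : ℝ) ^ A.card ≤ (K : ℝ) ^ (R + 1) := pow_le_pow_right₀ hK1 hA
      have h4 : (A.card : ℝ) * (K : ℝ) ^ A.card ≤ ((R : ℝ) + 1) * (K : ℝ) ^ (R + 1) :=
        mul_le_mul h2 h3 (by positivity) (by positivity)
      calc (A.card : ℝ) * (K : ℝ) ^ A.card * κ ≤ (((R : ℝ) + 1) * (K : ℝ) ^ (R + 1)) * κ :=
            mul_le_mul_of_nonneg_right h4 hκ.le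
        _ = κ * (((R : ℝ) + 1) * (K : ℝ) ^ (R + 1)) := mul_comm _ _
        _ ≤ ε := hκ2
    have h5 : (A.card : ℝ) * (K : ℝ) ^ A.card * (κ * (N : ℝ) ^ z) ≤ ε * (N : ℝ) ^ z := by
      calc (A.card : ℝ) * (K : ℝ) ^ A.card * (κ * (N : ℝ) ^ z)
          = ((A.card : ℝ) * (K : ℝ) ^ A.card * κ) * (N : ℝ) ^ z := by ring
        _ ≤ ε * (N : ℝ) ^ z := mul_le_mul_of_nonneg_right h1 hNz.le
    linarith
  have hsum : ∀ r : ℕ, r ≤ R + 1 →
      ((∑ u : Pt z N, (act f u).card.choose r : ℕ) : ℝ) ≤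
        (z.choose r : ℝ) / (K : ℝ) ^ r * ((1 + ε) * (N : ℝ) ^ z) := by
    intro r hr
    rw [← sum_choose (fun u : Pt z N => act f u) r]
    push_cast
    have h1 : ∀ A ∈ (Finset.univ : Finset (Fin z)).powersetCard r,
        ((Finset.univ.filter (fun u : Pt z N => A ⊆ act f u)).card : ℝ) ≤
          ((1 + ε) * (N : ℝ) ^ z) / (K : ℝ) ^ r := by
      intro A hA
      have hc : A.card = r := (Finset.mem_powersetCard.1 hA).2
      have h := hupp A (by omega)
      rw [hc] at h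
      rw [le_div_iff₀ (by positivity), mul_comm]
      exact h
    refine (Finset.sum_le_sum h1).trans ?_
    rw [Finset.sum_const, Finset.card_powersetCard, Finset.card_univ, Fintype.card_fin,
      nsmul_eq_mul]
    apply le_of_eq
    ring
  -- good
  have hgood : ((good R f).card : ℝ) ≤ (1 + ε) * (mu z K R * (N : ℝ) ^ z) := by
    have h1 : (good R f).card ≤ ∑ u : Pt z N, (act f u).card.choose R := by
      rw [good, Finset.card_filter]
      refine Finset.sum_le_sum (fun u _ => ?_)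
      split_ifs with h
      · rw [h, Nat.choose_self]
      · exact Nat.zero_le _
    have h2 := hsum R (by omega)
    have h3 : ((good R f).card : ℝ) ≤ ((∑ u : Pt z N, (act f u).card.choose R : ℕ) : ℝ) := by
      exact_mod_cast h1
    refine (h3.trans h2).trans (le_of_eq ?_)
    rw [mu]; ring
  refine ⟨hl1, hl2, hgood, fun G hG => ?_⟩
  set γ : ℝ := (G.card : ℝ) / lam z N K with hγdef
  have hγ0 : 0 ≤ γ := by positivity
  have hγ2 : γ ≤ 2 := by
    rw [hγdef, div_le_iff₀ hlampos]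
    have h1 : (G.card : ℝ) ≤ ((lns f).card : ℝ) := by exact_mod_cast Finset.card_le_card hG
    nlinarith
  have hlow := low R hz1 hη hη1 hM hκ.le hκ1 hf G hG
  rw [← hγdef] at hlow
  -- the sets of directions with lines in G
  have hsets : ∀ A : Finset (Fin z),
      (Finset.univ.filter (fun u : Pt z N => ∀ j ∈ A, ln j u ∈ G)) =
      Finset.univ.filter (fun u : Pt z N => A ⊆ Finset.univ.filter (fun j => ln j u ∈ G)) := by
    intro A
    ext u
    simp only [Finset.mem_filter, Finset.mem_univ, true_and, Finset.subset_iff]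
  have hleft : ∑ A ∈ (Finset.univ : Finset (Fin z)).powersetCard R,
        ((Finset.univ.filter (fun u : Pt z N => ∀ j ∈ A, ln j u ∈ G)).card : ℝ) =
      ((∑ u : Pt z N, (Finset.univ.filter (fun j : Fin z => ln j u ∈ G)).card.choose R : ℕ) :
        ℝ) := by
    rw [← sum_choose (fun u : Pt z N => Finset.univ.filter (fun j : Fin z => ln j u ∈ G)) R]
    push_cast
    refine Finset.sum_congr rfl (fun A _ => ?_)
    rw [hsets A]
  have hpt : ∑ u : Pt z N, (Finset.univ.filter (fun j : Fin z => ln j u ∈ G)).card.choose R ≤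
      ((good R f).filter (fun u => ∀ j ∈ act f u, ln j u ∈ G)).card +
        (R + 1) * ∑ u : Pt z N, (act f u).card.choose (R + 1) := by
    rw [good, Finset.filter_filter, Finset.card_filter, Finset.mul_sum,
      ← Finset.sum_add_distrib]
    refine Finset.sum_le_sum (fun u _ => ?_)
    have hsub : (Finset.univ.filter (fun j : Fin z => ln j u ∈ G)) ⊆ act f u := by
      intro j hj
      have h1 : ln j u ∈ lns f := hG (Finset.mem_filter.1 hj).2
      rw [mem_act]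
      exact (ln_mem_lns f j u).1 h1
    have h := choose_le _ _ hsub R
    refine h.trans (le_of_eq ?_)
    congr 1
    have hiff : ((act f u).card = R ∧ act f u ⊆ Finset.univ.filter (fun j : Fin z => ln j u ∈ G))
        ↔ ((act f u).card = R ∧ ∀ j ∈ act f u, ln j u ∈ G) := by
      simp only [Finset.subset_iff, Finset.mem_filter, Finset.mem_univ, true_and]
    by_cases hh : ((act f u).card = R ∧ ∀ j ∈ act f u, ln j u ∈ G)
    · rw [if_pos (hiff.2 hh), if_pos hh]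
    · rw [if_neg (fun h' => hh (hiff.1 h')), if_neg hh]
  have hptR : ((∑ u : Pt z N,
      (Finset.univ.filter (fun j : Fin z => ln j u ∈ G)).card.choose R : ℕ) : ℝ) ≤
      (((good R f).filter (fun u => ∀ j ∈ act f u, ln j u ∈ G)).card : ℝ) +
        ((R : ℝ) + 1) * ((∑ u : Pt z N, (act f u).card.choose (R + 1) : ℕ) : ℝ) := by
    exact_mod_cast hpt
  -- the points on more than R active lines
  have hmany : ((R : ℝ) + 1) * ((∑ u : Pt z N, (act f u).card.choose (R + 1) : ℕ) : ℝ) ≤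
      ε / 4 * (mu z K R * (N : ℝ) ^ z) := by
    have h1 := hsum (R + 1) le_rfl
    have h2 : (z.choose (R + 1) : ℝ) * ((R : ℝ) + 1) ≤ z.choose R * z := by
      have h3 := Nat.choose_succ_right_eq z R
      have h4 : z.choose (R + 1) * (R + 1) ≤ z.choose R * z := by
        rw [h3]; exact Nat.mul_le_mul_left _ (Nat.sub_le _ _)
      exact_mod_cast h4
    have h5 : (0 : ℝ) ≤ (1 + ε) * (N : ℝ) ^ z / (K : ℝ) ^ (R + 1) := by positivity
    calc ((R : ℝ) + 1) * ((∑ u : Pt z N, (act f u).card.choose (R + 1) : ℕ) : ℝ)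
        ≤ ((R : ℝ) + 1) * ((z.choose (R + 1) : ℝ) / (K : ℝ) ^ (R + 1) *
          ((1 + ε) * (N : ℝ) ^ z)) := mul_le_mul_of_nonneg_left h1 (by positivity)
      _ = ((z.choose (R + 1) : ℝ) * ((R : ℝ) + 1)) *
          ((1 + ε) * (N : ℝ) ^ z / (K : ℝ) ^ (R + 1)) := by ring
      _ ≤ (z.choose R * z) * ((1 + ε) * (N : ℝ) ^ z / (K : ℝ) ^ (R + 1)) :=
          mul_le_mul_of_nonneg_right h2 h5
      _ = ((1 + ε) * z / K) * (mu z K R * (N : ℝ) ^ z) := by
          rw [mu, pow_succ]; field_simp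
      _ ≤ ε / 4 * (mu z K R * (N : ℝ) ^ z) := by
          apply mul_le_mul_of_nonneg_right _ (by rw [mu]; positivity)
          refine le_trans ?_ hKε
          apply div_le_div_of_nonneg_right _ hKpos.le
          nlinarith
  -- the left side
  have hL : mu z K R * (N : ℝ) ^ z * (γ ^ R - ε / 4 - ε / 4) ≤
      ((∑ u : Pt z N, (Finset.univ.filter (fun j : Fin z => ln j u ∈ G)).card.choose R : ℕ) :
        ℝ) := by
    rw [hleft] at hlow
    have hKRpos : (0 : ℝ) < (K : ℝ) ^ R := by positivity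
    have h1 := pow_max R γ η hγ0 hγ2 hη.le
    have h2 : γ ^ R - ε / 4 - ε / 4 ≤ (max 0 (γ - η)) ^ R - (R : ℝ) ^ 2 * 2 ^ R / z -
          R * (K : ℝ) ^ R * η := by
      have h3 : D * η = R * (K : ℝ) ^ R * η + R * 2 ^ R * η := by rw [hD]; ring
      linarith
    have h4 : (z.choose R : ℝ) * (N : ℝ) ^ z * (γ ^ R - ε / 4 - ε / 4) ≤
        (z.choose R : ℝ) * (N : ℝ) ^ z * ((max 0 (γ - η)) ^ R - (R : ℝ) ^ 2 * 2 ^ R / z -
          R * (K : ℝ) ^ R * η) := mul_le_mul_of_nonneg_left h2 (by positivity)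
    have h5 := h4.trans hlow
    have h6 : mu z K R * (N : ℝ) ^ z * (γ ^ R - ε / 4 - ε / 4) =
        ((z.choose R : ℝ) * (N : ℝ) ^ z * (γ ^ R - ε / 4 - ε / 4)) / (K : ℝ) ^ R := by
      rw [mu]; ring
    rw [h6, div_le_iff₀ hKRpos, mul_comm _ ((K : ℝ) ^ R)]
    exact h5
  have hmu : 0 ≤ mu z K R * (N : ℝ) ^ z := by rw [mu]; positivity
  have h7 : mu z K R * (N : ℝ) ^ z * (γ ^ R - ε) ≤
      mu z K R * (N : ℝ) ^ z * (γ ^ R - ε / 4 - ε / 4) - ε / 4 * (mu z K R * (N : ℝ) ^ z) := by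
    nlinarith
  linarith

end Pool.Agent.Lib.P47j
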