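import Pool.Agent.Lib.P47j.Defs
import Pool.Agent.Lib.P47j.Bas
import Pool.Agent.Lib.P47j.Dens

/-!
Module Labl (1h; black boxes Bas, dens). Uncovered positions in R copies.
PROOF. dens with ε = δ (also take z0 ≥ 1). Fix N, f, W. For a : ZMod R let W_a = {l : (l, a) ∈ W}, G_a = {l ∈ lns f : (l, a) ∉ W}, γ_a = |G_a|/Λ ≥ 0. |G_a| ≥ |lns f| - |W_a|, ∑_a |W_a| = |W| ≤ (1 + 2 δ) Λ, so (Λ > 0)
∑_a γ_a ≥ R (1 - δ) - (1 + 2 δ), mean γ ≥ 1 - δ - (1 + 2 δ)/R ≥ (1 - 1/R) - 2 δ =: y ≥ 0 (R ≥ 2, δ ≤ 1/4). ∑_a γ_a^R ≥ R (mean γ)^R ≥ R y^R ≥ R ((1 - 1/R)^R - R (2 δ)). The number in question is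
∑_a #{u ∈ good : ∀ j ∈ act f u, ln j u ∈ G_a} ≥ μ N^z ∑_a (γ_a^R - δ) ≥ R μ N^z ((1 - 1/R)^R - 2 R δ - δ) (for u ∈ good, j ∈ act f u: ln j u ∈ lns f, so ln j u ∈ G_a iff (ln j u, a) ∉ W). card (ZMod R) = R.
-/

open scoped BigOperators

namespace Pool.Agent.Lib.P47j

namespace LablAux

theorem pow_diff {x y : ℝ} (hy : 0 ≤ y) (hxy : y ≤ x) (hx : x ≤ 1) (n : ℕ) :
    x ^ n - y ^ n ≤ n * (x - y) := by
  induction n with
  | zero => simp
  | succ n ih =>
    have h1 : x ^ (n + 1) - y ^ (n + 1) = x ^ n * (x - y) + y * (x ^ n - y ^ n) := by ring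
    have hx0 : 0 ≤ x := hy.trans hxy
    have h2 : x ^ n ≤ 1 := pow_le_one₀ hx0 hx
    have h3 : x ^ n * (x - y) ≤ 1 * (x - y) :=
      mul_le_mul_of_nonneg_right h2 (sub_nonneg.2 hxy)
    have h4 : y * (x ^ n - y ^ n) ≤ 1 * (x ^ n - y ^ n) :=
      mul_le_mul_of_nonneg_right (hxy.trans hx) (sub_nonneg.2 (pow_le_pow_left₀ hy hxy n))
    push_cast
    rw [h1]
    linarith

theorem sum_pow_ge (R : ℕ) [NeZero R] (g : ZMod R → ℝ) (hg : ∀ a, 0 ≤ g a) {y : ℝ} (hy : 0 ≤ y)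
    (hs : (R : ℝ) * y ≤ ∑ a, g a) (n : ℕ) : (R : ℝ) * y ^ n ≤ ∑ a, g a ^ n := by
  have hR : (0 : ℝ) < R := by exact_mod_cast Nat.pos_of_ne_zero (NeZero.ne R)
  have hc : (Finset.univ : Finset (ZMod R)).card = R := by
    rw [Finset.card_univ, ZMod.card]
  have h1 := Real.pow_arith_mean_le_arith_mean_pow (Finset.univ : Finset (ZMod R))
    (fun _ => 1 / (R : ℝ)) g (fun _ _ => by positivity)
    (by rw [Finset.sum_const, hc, nsmul_eq_mul, mul_one_div_cancel hR.ne']) (fun a _ => hg a) n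
  rw [← Finset.mul_sum, ← Finset.mul_sum] at h1
  have h2 : y ≤ 1 / (R : ℝ) * ∑ a, g a := by
    rw [one_div, inv_mul_eq_div, le_div_iff₀ hR, mul_comm]
    exact hs
  have h3 := (pow_le_pow_left₀ hy h2 n).trans h1
  rw [one_div, inv_mul_eq_div, le_div_iff₀ hR, mul_comm] at h3
  exact h3

end LablAux

open LablAux

theorem labl (R : ℕ) [NeZero R] (hR : 2 ≤ R) (δ : ℝ) (hδ : 0 < δ) (hδ1 : δ ≤ 1 / 4) :
    ∃ z0 : ℕ, 1 ≤ z0 ∧ ∀ z ≥ z0, ∃ K0 : ℕ, ∀ (K : ℕ) [NeZero K], K0 ≤ K →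
      ∃ (M : ℕ) (κ : ℝ), 0 < κ ∧
      ∀ (N : ℕ) [NeZero N] (f : Ln z N → Fin K), QR M κ f →
        ((lns f).card : ℝ) ≤ (1 + δ) * lam z N K ∧
        ((good R f).card : ℝ) ≤ (1 + δ) * (mu z K R * (N : ℝ) ^ z) ∧
        ∀ W : Finset (Ln z N × ZMod R), (W.card : ℝ) ≤ (1 + 2 * δ) * lam z N K →
          R * (mu z K R * (N : ℝ) ^ z) * ((1 - 1 / (R : ℝ)) ^ R - 3 * R * δ) ≤
            ((unW f W).card : ℝ) := by
  obtain ⟨z0, hz0⟩ := dens R (by omega) δ hδ (by linarith)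
  refine ⟨max z0 1, le_max_right _ _, fun z hz => ?_⟩
  obtain ⟨K0, hK0⟩ := hz0 z ((le_max_left _ _).trans hz)
  have hz1 : 1 ≤ z := (le_max_right _ _).trans hz
  refine ⟨K0, fun K _ hK => ?_⟩
  obtain ⟨M, κ, hκ, hd⟩ := hK0 K hK
  refine ⟨M, κ, hκ, fun N _ f hQ => ?_⟩
  obtain ⟨h1, h2, h3, h4⟩ := hd N f hQ
  refine ⟨h1, h3, fun W hW => ?_⟩
  classical
  have hR0 : (0 : ℝ) < R := by exact_mod_cast Nat.pos_of_ne_zero (NeZero.ne R)
  have hR2 : (2 : ℝ) ≤ R := by exact_mod_cast hR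
  have hN0 : (0 : ℝ) < N := by exact_mod_cast Nat.pos_of_ne_zero (NeZero.ne N)
  have hKp : (0 : ℝ) < K := by exact_mod_cast Nat.pos_of_ne_zero (NeZero.ne K)
  have hzp : (0 : ℝ) < z := by exact_mod_cast hz1
  have hL : 0 < lam z N K := by
    unfold lam
    positivity
  have hmu : 0 ≤ mu z K R * (N : ℝ) ^ z := by
    unfold mu
    positivity
  set G : ZMod R → Finset (Ln z N) := fun a => (lns f).filter (fun l => (l, a) ∉ W) with hG
  set Wa : ZMod R → Finset (Ln z N) := fun a => Finset.univ.filter (fun l => (l, a) ∈ W) with hWa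
  have hcard : (Finset.univ : Finset (ZMod R)).card = R := by
    rw [Finset.card_univ, ZMod.card]
  have hWsum : ∑ a, (Wa a).card = W.card := by
    rw [Finset.card_eq_sum_card_fiberwise (s := W) (t := Finset.univ) (f := Prod.snd)
      (fun _ _ => Finset.mem_coe.2 (Finset.mem_univ _))]
    refine Finset.sum_congr rfl fun a _ => ?_
    refine Finset.card_bij (fun l _ => (l, a)) ?_ ?_ ?_
    · intro l hl
      rw [hWa, Finset.mem_filter] at hl
      exact Finset.mem_filter.2 ⟨hl.2, rfl⟩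
    · intro l _ l' _ hll
      exact (Prod.mk.inj hll).1
    · rintro ⟨l, b⟩ hb
      rw [Finset.mem_filter] at hb
      obtain ⟨hb1, hb2⟩ := hb
      simp only at hb2
      subst hb2
      exact ⟨l, by rw [hWa]; exact Finset.mem_filter.2 ⟨Finset.mem_univ _, hb1⟩, rfl⟩
  have hGW : ∀ a, ((lns f).card : ℝ) - ((Wa a).card : ℝ) ≤ ((G a).card : ℝ) := by
    intro a
    have h5 : (lns f).card ≤ (G a).card + (Wa a).card := by
      have h6 : lns f ⊆ G a ∪ Wa a := by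
        intro l hl
        rw [Finset.mem_union]
        by_cases h7 : (l, a) ∈ W
        · right
          rw [hWa]
          exact Finset.mem_filter.2 ⟨Finset.mem_univ _, h7⟩
        · left
          rw [hG]
          exact Finset.mem_filter.2 ⟨hl, h7⟩
      exact (Finset.card_le_card h6).trans (Finset.card_union_le _ _)
    have h6 : ((lns f).card : ℝ) ≤ (G a).card + (Wa a).card := by exact_mod_cast h5
    linarith
  set γ : ZMod R → ℝ := fun a => ((G a).card : ℝ) / lam z N K with hγ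
  have hγ0 : ∀ a, 0 ≤ γ a := fun a => div_nonneg (Nat.cast_nonneg _) hL.le
  set x : ℝ := 1 - 1 / (R : ℝ) with hx
  have hiR : 1 / (R : ℝ) ≤ 1 / 2 := one_div_le_one_div_of_le (by norm_num) hR2
  have hiR0 : 0 < 1 / (R : ℝ) := by positivity
  have hy0 : 0 ≤ x - 2 * δ := by
    rw [hx]
    linarith
  have hsum : (R : ℝ) * (x - 2 * δ) ≤ ∑ a, γ a := by
    have h5 : ∑ a, γ a = (∑ a, ((G a).card : ℝ)) / lam z N K := by
      rw [hγ, Finset.sum_div]
    have h6 : (R : ℝ) * ((lns f).card : ℝ) - (W.card : ℝ) ≤ ∑ a, ((G a).card : ℝ) := by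
      have h7 : ∑ a : ZMod R, (((lns f).card : ℝ) - ((Wa a).card : ℝ)) ≤
          ∑ a, ((G a).card : ℝ) := Finset.sum_le_sum fun a _ => hGW a
      rw [Finset.sum_sub_distrib, Finset.sum_const, hcard, nsmul_eq_mul] at h7
      have h8 : (∑ a, ((Wa a).card : ℝ)) = W.card := by exact_mod_cast hWsum
      rwa [h8] at h7
    have hRi : (R : ℝ) * (1 / (R : ℝ)) = 1 := mul_one_div_cancel hR0.ne'
    rw [h5, le_div_iff₀ hL]
    have h9 : (R : ℝ) * ((1 - δ) * lam z N K) ≤ R * ((lns f).card : ℝ) :=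
      mul_le_mul_of_nonneg_left h2 hR0.le
    have h10 : (R : ℝ) * (x - 2 * δ) * lam z N K =
        (R : ℝ) * lam z N K - (R * (1 / (R : ℝ))) * lam z N K - 2 * δ * R * lam z N K := by
      rw [hx]
      ring
    rw [h10, hRi]
    have h11 : 2 * δ * lam z N K ≤ R * (δ * lam z N K) := by
      have h12 : 0 ≤ δ * lam z N K := by positivity
      nlinarith
    nlinarith
  have hpow := sum_pow_ge R γ hγ0 hy0 hsum R
  have hpd := pow_diff hy0 (show x - 2 * δ ≤ x by linarith) (show x ≤ 1 by rw [hx]; linarith) R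
  have hunW : (unW f W).card =
      ∑ a, ((good R f).filter (fun u => ∀ j ∈ act f u, ln j u ∈ G a)).card := by
    rw [Finset.card_eq_sum_card_fiberwise (s := unW f W) (t := Finset.univ) (f := Prod.fst)
      (fun _ _ => Finset.mem_coe.2 (Finset.mem_univ _))]
    refine Finset.sum_congr rfl fun a _ => ?_
    symm
    refine Finset.card_bij (fun u _ => (a, u)) ?_ ?_ ?_
    · intro u hu
      rw [Finset.mem_filter] at hu
      refine Finset.mem_filter.2 ⟨?_, rfl⟩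
      unfold unW
      refine Finset.mem_filter.2 ⟨Finset.mem_univ _, hu.1, fun j hj => ?_⟩
      have h5 := hu.2 j hj
      rw [hG, Finset.mem_filter] at h5
      exact h5.2
    · intro u _ v _ huv
      exact (Prod.mk.inj huv).2
    · rintro ⟨b, u⟩ hb
      rw [Finset.mem_filter] at hb
      obtain ⟨hb1, hb2⟩ := hb
      simp only at hb2
      subst hb2
      unfold unW at hb1
      rw [Finset.mem_filter] at hb1
      refine ⟨u, Finset.mem_filter.2 ⟨hb1.2.1, fun j hj => ?_⟩, rfl⟩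
      rw [hG, Finset.mem_filter]
      exact ⟨(ln_mem_lns f j u).2 ((mem_act f u j).1 hj), hb1.2.2 j hj⟩
  have hlow : ∑ a, (mu z K R * (N : ℝ) ^ z * (γ a ^ R - δ)) ≤ ((unW f W).card : ℝ) := by
    rw [hunW]
    push_cast
    exact Finset.sum_le_sum fun a _ => h4 (G a) (Finset.filter_subset _ _)
  refine le_trans ?_ hlow
  rw [← Finset.mul_sum, Finset.sum_sub_distrib, Finset.sum_const, hcard, nsmul_eq_mul]
  have h5 : (R : ℝ) * (x ^ R - 3 * R * δ) ≤ ∑ a, γ a ^ R - R * δ := by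
    have h6 : (R : ℝ) * (x ^ R - R * (2 * δ)) ≤ R * (x - 2 * δ) ^ R := by
      refine mul_le_mul_of_nonneg_left ?_ hR0.le
      have h7 : (R : ℝ) * (x - (x - 2 * δ)) = R * (2 * δ) := by ring
      rw [h7] at hpd
      linarith
    have h8 : (R : ℝ) * δ ≤ R * (R * δ) := by
      have h9 : 0 ≤ R * δ := by positivity
      nlinarith
    nlinarith
  calc (R : ℝ) * (mu z K R * (N : ℝ) ^ z) * (x ^ R - 3 * R * δ)
      = mu z K R * (N : ℝ) ^ z * (R * (x ^ R - 3 * R * δ)) := by ring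
    _ ≤ _ := mul_le_mul_of_nonneg_left h5 hmu

end Pool.Agent.Lib.P47j
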