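import Mathlib

/-!
Module Lng (1h; Mathlib only). Numerics for the long chains.
PROOF. x ≥ 1, k ≤ N0 z x, and N0 z x ≥ k > g ≥ 4 z^3 N0 gives x ≥ 4 z^2. Fourth powers: (8 z Δ)^(4k) (2 z)^(4 N0 z x) ≤ ((16 z^2 Δ)^(4 N0 z))^x ≤ N^x (8 z Δ ≥ 1, k ≤ N0 z x; 16 z^2 Δ = (8 z Δ)(2 z)), so (8 z Δ)^(4k) z^(4x) ≤ N^x; (9 k^2)^(2x) ≤ N^(2x),
so 81^x k^(4x) ≤ N^(2x). (8 Rr)^4 = 4096 Rr^4 ≤ 4096 N^2/81 ≤ 51 N^2. Altogether [8 Rr (8 z Δ)^k (k z)^x N^(z-1)]^4 81^x ≤ 51 N^2 N^(3x) N^(4(z-1)) ≤ 81^x N^(4x), since 4 (z-1) + 2 ≤ 4 z^2 ≤ x. Take fourth roots (Nat.pow_le_pow_left_iff / pow_le_pow_iff_left).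
-/

open scoped BigOperators

namespace Pool.Agent.Lib.P47j

theorem lng (z Δ N0 N g Rr k x : ℕ) (hz : 1 ≤ z) (hΔ : 1 ≤ Δ) (hN0 : 1 ≤ N0)
    (h1 : 9 * Rr ^ 2 ≤ N) (h2 : (16 * z ^ 2 * Δ) ^ (4 * N0 * z) ≤ N) (h3 : 4 * z ^ 3 * N0 ≤ g)
    (hgk : g < k) (hk : k ≤ Rr) (hx : x = (k + N0 * z - 1) / (N0 * z)) :
    8 * Rr * ((8 * z * Δ) ^ k * (k * z) ^ x * N ^ (z - 1)) ≤ N ^ x := by
  have hc : 1 ≤ N0 * z := Nat.mul_pos hN0 hz
  have hkx : k ≤ N0 * z * x := by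
    have h := Nat.lt_mul_div_succ (k + N0 * z - 1) (show 0 < N0 * z from hc)
    rw [← hx, mul_add, mul_one] at h
    omega
  have hx4 : 4 * z ^ 2 < x := by
    by_contra hcon
    have h5 : N0 * z * x ≤ N0 * z * (4 * z ^ 2) := Nat.mul_le_mul_left _ (not_lt.1 hcon)
    have h6 : N0 * z * (4 * z ^ 2) = 4 * z ^ 3 * N0 := by ring
    omega
  have hzz : z ≤ z ^ 2 := by nlinarith
  have hN : 1 ≤ N := le_trans (Nat.one_le_pow _ _ (by positivity)) h2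
  have hk2 : 9 * k ^ 2 ≤ N := le_trans (Nat.mul_le_mul_left 9 (Nat.pow_le_pow_left hk 2)) h1
  -- the three estimates
  have e1 : (8 * z * Δ) ^ (4 * k) * z ^ (4 * x) ≤ N ^ x := by
    have a1 : (8 * z * Δ) ^ (4 * k) ≤ (8 * z * Δ) ^ (4 * N0 * z * x) :=
      Nat.pow_le_pow_right (by positivity) (by
        calc 4 * k ≤ 4 * (N0 * z * x) := Nat.mul_le_mul_left 4 hkx
          _ = 4 * N0 * z * x := by ring)
    have a2 : z ^ (4 * x) ≤ (2 * z) ^ (4 * N0 * z * x) :=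
      le_trans (Nat.pow_le_pow_left (by omega) _) (Nat.pow_le_pow_right (by positivity) (by
        calc 4 * x = 4 * x * 1 := (mul_one _).symm
          _ ≤ 4 * x * (N0 * z) := Nat.mul_le_mul_left _ hc
          _ = 4 * N0 * z * x := by ring))
    calc (8 * z * Δ) ^ (4 * k) * z ^ (4 * x)
        ≤ (8 * z * Δ) ^ (4 * N0 * z * x) * (2 * z) ^ (4 * N0 * z * x) := Nat.mul_le_mul a1 a2
      _ = ((16 * z ^ 2 * Δ) ^ (4 * N0 * z)) ^ x := by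
          rw [← mul_pow, ← pow_mul]
          congr 1
          ring
      _ ≤ N ^ x := Nat.pow_le_pow_left h2 x
  have e2 : 81 ^ x * k ^ (4 * x) ≤ N ^ (2 * x) := by
    calc 81 ^ x * k ^ (4 * x) = (9 * k ^ 2) ^ (2 * x) := by
          rw [mul_pow, pow_mul 9 2 x, ← pow_mul k 2 (2 * x),
            show 2 * (2 * x) = 4 * x by ring]
          norm_num
      _ ≤ N ^ (2 * x) := Nat.pow_le_pow_left hk2 _
  have e3 : 81 * (8 * Rr) ^ 4 ≤ 4096 * N ^ 2 := by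
    calc 81 * (8 * Rr) ^ 4 = 4096 * (9 * Rr ^ 2) ^ 2 := by ring
      _ ≤ 4096 * N ^ 2 := Nat.mul_le_mul_left _ (Nat.pow_le_pow_left h1 2)
  have e4 : (4096 : ℕ) ≤ 81 * 81 ^ x := by
    have h7 : 1 ≤ x := by omega
    calc (4096 : ℕ) ≤ 81 * 81 ^ 1 := by norm_num
      _ ≤ 81 * 81 ^ x := Nat.mul_le_mul_left _ (Nat.pow_le_pow_right (by norm_num) h7)
  have e5 : N ^ (3 * x + 2 + 4 * (z - 1)) ≤ N ^ (4 * x) :=
    Nat.pow_le_pow_right hN (by omega)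
  rw [← Nat.pow_le_pow_iff_left (n := 4) (by norm_num)]
  refine Nat.le_of_mul_le_mul_left (c := 81 * 81 ^ x) ?_ (by positivity)
  calc 81 * 81 ^ x * (8 * Rr * ((8 * z * Δ) ^ k * (k * z) ^ x * N ^ (z - 1))) ^ 4
      = (81 * (8 * Rr) ^ 4) * ((8 * z * Δ) ^ (4 * k) * z ^ (4 * x)) * (81 ^ x * k ^ (4 * x)) *
          N ^ (4 * (z - 1)) := by
        rw [mul_pow (8 * Rr), mul_pow _ (N ^ (z - 1)), mul_pow ((8 * z * Δ) ^ k), ← pow_mul,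
          ← pow_mul, ← pow_mul, mul_pow k z, mul_comm k 4, mul_comm x 4, mul_comm (z - 1) 4]
        ring
    _ ≤ (4096 * N ^ 2) * N ^ x * N ^ (2 * x) * N ^ (4 * (z - 1)) :=
        Nat.mul_le_mul_right _ (Nat.mul_le_mul (Nat.mul_le_mul e3 e1) e2)
    _ = 4096 * N ^ (3 * x + 2 + 4 * (z - 1)) := by
        rw [mul_assoc 4096, mul_assoc 4096, mul_assoc 4096, ← pow_add, ← pow_add, ← pow_add]
        congr 2
        ring
    _ ≤ (81 * 81 ^ x) * N ^ (4 * x) := Nat.mul_le_mul e4 e5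
    _ = 81 * 81 ^ x * (N ^ x) ^ 4 := by rw [← pow_mul, mul_comm x 4]

end Pool.Agent.Lib.P47j
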