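import Mathlib

/-!
Module Chern (1h; Mathlib only; see RG/LAMgf.lean and DiscAux in P47k/Disc.lean for similar computations). Chernoff bounds by counting.
PROOF. p = |P|/|X| ≤ q. ∑_{e : Fin m → X} exp (λ #{t : e t ∈ P}) = (∑_x exp (λ 1[x ∈ P]))^m = (|X| (1 + p (exp λ - 1)))^m ≤ |X|^m exp (m p (exp λ - 1)) (Fintype.sum_pow).
(chernL) with -λ, λ = s/(m q): 1 - exp (-λ) ≥ λ - λ^2/2, so the number is at most |X|^m exp (λ (m p - s) - m p (λ - λ^2/2)) ≤ |X|^m exp (m q λ^2/2 - λ s) = |X|^m exp (- s^2/(2 m q)). If m = 0 both sides are trivial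
(division by 0 gives exp 0 = 1).
(chernU) λ = s/(2 m q) ≤ 1: exp λ - 1 ≤ λ + λ^2, so at most |X|^m exp (m q λ^2 - λ s) = |X|^m exp (- s^2/(4 m q)).
-/

open scoped BigOperators

namespace Pool.Agent.Lib.P47j

namespace ChernAux

/-- The moment generating function of the number of hits. -/
lemma mgf {X : Type} [Fintype X] [DecidableEq X] (P : Finset X) (m : ℕ) (l : ℝ) :
    ∑ e : Fin m → X, Real.exp (l * ((Finset.univ.filter (fun t => e t ∈ P)).card : ℝ)) =
      ((Fintype.card X : ℝ) + (P.card : ℝ) * (Real.exp l - 1)) ^ m := by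
  have h1 : ∀ e : Fin m → X,
      Real.exp (l * ((Finset.univ.filter (fun t => e t ∈ P)).card : ℝ)) =
        ∏ t, (if e t ∈ P then Real.exp l else 1) := by
    intro e
    rw [Finset.prod_ite, Finset.prod_const, Finset.prod_const_one, mul_one, ← Real.exp_nat_mul]
    congr 1
    ring
  simp_rw [h1]
  rw [← Fintype.sum_pow (fun x : X => if x ∈ P then Real.exp l else 1) m]
  congr 1
  have h2 : ∀ x : X, (if x ∈ P then Real.exp l else 1) =
      1 + (if x ∈ P then (Real.exp l - 1) else 0) := by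
    intro x
    split_ifs <;> ring
  simp_rw [h2]
  rw [Finset.sum_add_distrib]
  simp
  ring

lemma mgf_le {X : Type} [Fintype X] [DecidableEq X] [Nonempty X] (P : Finset X) (m : ℕ)
    (l w : ℝ) (hw : Real.exp l - 1 ≤ w) :
    ∑ e : Fin m → X, Real.exp (l * ((Finset.univ.filter (fun t => e t ∈ P)).card : ℝ)) ≤
      Real.exp ((m : ℝ) * ((P.card : ℝ) / Fintype.card X) * w) * (Fintype.card X : ℝ) ^ m := by
  rw [mgf]
  have hX : (0 : ℝ) < Fintype.card X := by exact_mod_cast Fintype.card_pos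
  have hPX : (P.card : ℝ) ≤ Fintype.card X := by exact_mod_cast Finset.card_le_univ P
  have hP0 : (0 : ℝ) ≤ P.card := Nat.cast_nonneg _
  have h0 : 0 ≤ (Fintype.card X : ℝ) + (P.card : ℝ) * (Real.exp l - 1) := by
    have he := Real.exp_pos l
    nlinarith
  have hp0 : 0 ≤ (P.card : ℝ) / Fintype.card X := div_nonneg hP0 hX.le
  have h1 : (Fintype.card X : ℝ) + (P.card : ℝ) * (Real.exp l - 1) ≤
      Real.exp ((P.card : ℝ) / Fintype.card X * w) * Fintype.card X := by
    have h2 : (P.card : ℝ) / Fintype.card X * w + 1 ≤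
        Real.exp ((P.card : ℝ) / Fintype.card X * w) := Real.add_one_le_exp _
    have h3 : (P.card : ℝ) / Fintype.card X * (Real.exp l - 1) ≤
        (P.card : ℝ) / Fintype.card X * w := mul_le_mul_of_nonneg_left hw hp0
    have h4 : (Fintype.card X : ℝ) + (P.card : ℝ) * (Real.exp l - 1) =
        ((P.card : ℝ) / Fintype.card X * (Real.exp l - 1) + 1) * Fintype.card X := by
      field_simp
      ring
    rw [h4]
    exact mul_le_mul_of_nonneg_right (by linarith) hX.le
  calc ((Fintype.card X : ℝ) + (P.card : ℝ) * (Real.exp l - 1)) ^ m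
      ≤ (Real.exp ((P.card : ℝ) / Fintype.card X * w) * Fintype.card X) ^ m :=
        pow_le_pow_left₀ h0 h1 m
    _ = Real.exp ((m : ℝ) * ((P.card : ℝ) / Fintype.card X) * w) *
          (Fintype.card X : ℝ) ^ m := by
        rw [mul_pow, ← Real.exp_nat_mul, ← mul_assoc]

/-- Markov: counting by an exponential weight. -/
lemma count_le {X : Type} [Fintype X] [DecidableEq X] (P : Finset X) (m : ℕ)
    (Q : (Fin m → X) → Prop) (l a : ℝ)
    (hQ : ∀ e, Q e → a ≤ l * ((Finset.univ.filter (fun t => e t ∈ P)).card : ℝ)) :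
    (Nat.card {e : Fin m → X // Q e} : ℝ) ≤
      Real.exp (-a) *
        ∑ e : Fin m → X, Real.exp (l * ((Finset.univ.filter (fun t => e t ∈ P)).card : ℝ)) := by
  classical
  rw [Nat.card_eq_fintype_card, Fintype.card_subtype, Finset.mul_sum]
  have h1 : ((Finset.univ.filter (fun e : Fin m → X => Q e)).card : ℝ) =
      ∑ e ∈ Finset.univ.filter (fun e : Fin m → X => Q e), (1 : ℝ) := by simp
  rw [h1]
  calc ∑ e ∈ Finset.univ.filter (fun e : Fin m → X => Q e), (1 : ℝ)
      ≤ ∑ e ∈ Finset.univ.filter (fun e : Fin m → X => Q e),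
          Real.exp (-a) * Real.exp (l * ((Finset.univ.filter (fun t => e t ∈ P)).card : ℝ)) := by
        refine Finset.sum_le_sum fun e he => ?_
        rw [← Real.exp_add]
        have h2 := hQ e (Finset.mem_filter.mp he).2
        exact Real.one_le_exp (by linarith)
    _ ≤ _ := by
        refine Finset.sum_le_sum_of_subset_of_nonneg (Finset.filter_subset _ _) ?_
        intro e _ _
        positivity

lemma exp_neg_le {x : ℝ} (hx : 0 ≤ x) : Real.exp (-x) - 1 ≤ -x + x ^ 2 / 2 := by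
  have h1 := Real.quadratic_le_exp_of_nonneg hx
  have h2 : 0 < 1 + x + x ^ 2 / 2 := by positivity
  have h3 : Real.exp (-x) ≤ (1 + x + x ^ 2 / 2)⁻¹ := by
    rw [Real.exp_neg]
    exact inv_anti₀ h2 h1
  have h4 : (1 + x + x ^ 2 / 2)⁻¹ ≤ 1 - x + x ^ 2 / 2 := by
    rw [inv_le_iff_one_le_mul₀ h2]
    nlinarith [sq_nonneg (x ^ 2)]
  linarith

lemma exp_le {x : ℝ} (hx : 0 ≤ x) (hx1 : x ≤ 1) : Real.exp x - 1 ≤ x + x ^ 2 := by
  have h := Real.abs_exp_sub_one_sub_id_le (x := x) (by rw [abs_of_nonneg hx]; exact hx1)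
  have h2 := le_abs_self (Real.exp x - 1 - x)
  linarith

end ChernAux

open ChernAux

theorem chernL {X : Type} [Fintype X] [DecidableEq X] [Nonempty X] (P : Finset X) (m : ℕ)
    (q s : ℝ) (hq0 : 0 < q) (hq : (P.card : ℝ) ≤ q * Fintype.card X) (hs : 0 ≤ s) :
    (Nat.card {e : Fin m → X // ((Finset.univ.filter (fun t => e t ∈ P)).card : ℝ) ≤
        (m : ℝ) * ((P.card : ℝ) / Fintype.card X) - s} : ℝ) ≤
      Real.exp (-(s ^ 2 / (2 * (m * q)))) * (Fintype.card X : ℝ) ^ m := by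
  have hX : (0 : ℝ) < Fintype.card X := by exact_mod_cast Fintype.card_pos
  have hp : (P.card : ℝ) / Fintype.card X ≤ q := by rwa [div_le_iff₀ hX]
  have hp0 : 0 ≤ (P.card : ℝ) / Fintype.card X := div_nonneg (Nat.cast_nonneg _) hX.le
  have hm0 : (0 : ℝ) ≤ m := Nat.cast_nonneg _
  set p : ℝ := (P.card : ℝ) / Fintype.card X with hpdef
  set l : ℝ := s / (m * q) with hl
  have hl0 : 0 ≤ l := div_nonneg hs (mul_nonneg hm0 hq0.le)
  have h1 := count_le P m (fun e => ((Finset.univ.filter (fun t => e t ∈ P)).card : ℝ) ≤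
        (m : ℝ) * p - s) (-l) (-l * ((m : ℝ) * p - s)) (by
      intro e he
      have : l * ((Finset.univ.filter (fun t => e t ∈ P)).card : ℝ) ≤ l * ((m : ℝ) * p - s) :=
        mul_le_mul_of_nonneg_left he hl0
      linarith)
  have h2 := mgf_le P m (-l) (-l + l ^ 2 / 2) (exp_neg_le hl0)
  rw [← hpdef] at h2
  refine h1.trans ?_
  refine (mul_le_mul_of_nonneg_left h2 (Real.exp_pos _).le).trans ?_
  rw [← mul_assoc, ← Real.exp_add]
  refine mul_le_mul_of_nonneg_right (Real.exp_le_exp.mpr ?_) (by positivity)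
  have h3 : -(s ^ 2 / (2 * (m * q))) = -(l * s) + m * q * l ^ 2 / 2 := by
    rcases Nat.eq_zero_or_pos m with h0 | h0
    · subst h0
      simp [hl]
    · have : (0 : ℝ) < m := by exact_mod_cast h0
      rw [hl]
      field_simp
      ring
  rw [h3]
  have h4 : (m : ℝ) * p * l ^ 2 ≤ m * q * l ^ 2 :=
    mul_le_mul_of_nonneg_right (mul_le_mul_of_nonneg_left hp hm0) (sq_nonneg l)
  nlinarith

theorem chernU {X : Type} [Fintype X] [DecidableEq X] [Nonempty X] (P : Finset X) (m : ℕ)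
    (q s : ℝ) (hq0 : 0 < q) (hq : (P.card : ℝ) ≤ q * Fintype.card X) (hs : 0 ≤ s)
    (hs2 : s ≤ 2 * (m * q)) :
    (Nat.card {e : Fin m → X // (m : ℝ) * ((P.card : ℝ) / Fintype.card X) + s ≤
        ((Finset.univ.filter (fun t => e t ∈ P)).card : ℝ)} : ℝ) ≤
      Real.exp (-(s ^ 2 / (4 * (m * q)))) * (Fintype.card X : ℝ) ^ m := by
  have hX : (0 : ℝ) < Fintype.card X := by exact_mod_cast Fintype.card_pos
  have hp : (P.card : ℝ) / Fintype.card X ≤ q := by rwa [div_le_iff₀ hX]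
  have hp0 : 0 ≤ (P.card : ℝ) / Fintype.card X := div_nonneg (Nat.cast_nonneg _) hX.le
  have hm0 : (0 : ℝ) ≤ m := Nat.cast_nonneg _
  set p : ℝ := (P.card : ℝ) / Fintype.card X with hpdef
  set l : ℝ := s / (2 * (m * q)) with hl
  have hmq : 0 ≤ 2 * ((m : ℝ) * q) := by positivity
  have hl0 : 0 ≤ l := div_nonneg hs hmq
  have hl1 : l ≤ 1 := div_le_one_of_le₀ hs2 hmq
  have h1 := count_le P m (fun e => (m : ℝ) * p + s ≤
        ((Finset.univ.filter (fun t => e t ∈ P)).card : ℝ)) l (l * ((m : ℝ) * p + s)) (by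
      intro e he
      exact mul_le_mul_of_nonneg_left he hl0)
  have h2 := mgf_le P m l (l + l ^ 2) (exp_le hl0 hl1)
  rw [← hpdef] at h2
  refine h1.trans ?_
  refine (mul_le_mul_of_nonneg_left h2 (Real.exp_pos _).le).trans ?_
  rw [← mul_assoc, ← Real.exp_add]
  refine mul_le_mul_of_nonneg_right (Real.exp_le_exp.mpr ?_) (by positivity)
  have h3 : -(s ^ 2 / (4 * (m * q))) = -(l * s) + m * q * l ^ 2 := by
    rcases Nat.eq_zero_or_pos m with h0 | h0
    · subst h0
      simp [hl]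
    · have : (0 : ℝ) < m := by exact_mod_cast h0
      rw [hl]
      field_simp
      ring
  rw [h3]
  have h4 : (m : ℝ) * p * l ^ 2 ≤ m * q * l ^ 2 :=
    mul_le_mul_of_nonneg_right (mul_le_mul_of_nonneg_left hp hm0) (sq_nonneg l)
  nlinarith

end Pool.Agent.Lib.P47j
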