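import Pool.Agent.Lib.P47j.Defs
import Pool.Agent.Lib.P47j.Bas
import Pool.Agent.Lib.P47j.Chern

/-!
Module Snd (1.5h; black boxes Bas, chernL, chernU). Soundness of random slots.
PROOF. Λ = lam z N K ≥ 1, μ = mu z K R > 0, X = ZMod R × Pt z N, |X| = R N^z. unW f W = unW f (W ∩ (lns f ×ˢ univ)) (for u ∈ good, j ∈ act f u the line ln j u is in lns f), and the cardinality does not increase, so it
suffices to consider the at most 2^(R |lns f|) sets W ⊆ lns f ×ˢ univ. For such W: P = unW f W, |P| ≤ R |good| ≤ 2 μ |X| =: q |X| (q = 2 μ), m |P|/|X| ≥ m μ ρ = ρ D1 Λ; with s = δ D1 Λ, chernL: the number of the e with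
#{t : e t ∈ P} < (ρ - δ) D1 Λ is at most exp (- s^2/(4 m μ)) |X|^m = exp (- δ^2 D1 Λ/4) |X|^m ≤ exp (- 16 R Λ) |X|^m. Sum over W: 2^(R |lns f|) ≤ 2^(2 R Λ) ≤ exp (2 R Λ), so at most exp (- 14 R Λ) ≤ exp (-14) ≤ 1/16.
(Real exponents: 2^(n : ℕ) = exp (n log 2), n ≤ 2 R Λ, log 2 ≤ 1.) Upper tail: P = {p : p.2 ∈ good}, |P| = R |good| ≤ (1 + δ) μ |X| ≤ q |X|, m |P|/|X| + s ≤ (1 + 2 δ) D1 Λ, s ≤ 2 m q = 4 D1 Λ: chernU gives at most
exp (- δ^2 D1 Λ/8) ≤ exp (- 8 R Λ) ≤ exp (-8) ≤ 1/16.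
-/

open scoped BigOperators

namespace Pool.Agent.Lib.P47j

namespace SndAux

theorem exp_neg8 : Real.exp (-8) ≤ 1 / 16 := by
  have h4 : (5 : ℝ) ≤ Real.exp 4 := by
    have := Real.add_one_le_exp (4 : ℝ)
    linarith
  have h8 : Real.exp 8 = Real.exp 4 * Real.exp 4 := by
    rw [← Real.exp_add]
    norm_num
  have h16 : (16 : ℝ) ≤ Real.exp 8 := by
    rw [h8]
    nlinarith
  rw [Real.exp_neg, one_div]
  exact inv_anti₀ (by norm_num) h16

theorem exp_le16 {x : ℝ} (hx : x ≤ -8) : Real.exp x ≤ 1 / 16 :=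
  (Real.exp_le_exp.2 hx).trans exp_neg8

theorem two_pow_le (n : ℕ) (x : ℝ) (h : (n : ℝ) ≤ x) : (2 : ℝ) ^ n ≤ Real.exp x := by
  have h2 : (2 : ℝ) ≤ Real.exp 1 := by
    have := Real.add_one_le_exp (1 : ℝ)
    linarith
  calc (2 : ℝ) ^ n ≤ (Real.exp 1) ^ n := pow_le_pow_left₀ (by norm_num) h2 n
    _ = Real.exp n := by rw [← Real.exp_nat_mul, mul_one]
    _ ≤ Real.exp x := Real.exp_le_exp.2 h

section

variable {z N K R : ℕ} [NeZero N] [NeZero K] [NeZero R]

theorem unW_inter (f : Ln z N → Fin K) (W : Finset (Ln z N × ZMod R)) :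
    unW f W = unW f (W ∩ (lns f ×ˢ (Finset.univ : Finset (ZMod R)))) := by
  ext p
  simp only [unW, Finset.mem_filter, Finset.mem_univ, true_and, Finset.mem_inter,
    Finset.mem_product, and_true, not_and]
  constructor
  · rintro ⟨h1, h2⟩
    exact ⟨h1, fun j hj h => absurd h (h2 j hj)⟩
  · rintro ⟨h1, h2⟩
    refine ⟨h1, fun j hj h => h2 j hj h ?_⟩
    exact (ln_mem_lns f j p.2).2 ((mem_act f p.2 j).1 hj)

theorem card_unW_le (f : Ln z N → Fin K) (W : Finset (Ln z N × ZMod R)) :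
    (unW f W).card ≤ R * (good R f).card := by
  have h : unW f W ⊆ (Finset.univ : Finset (ZMod R)) ×ˢ good R f := by
    intro p hp
    simp only [unW, Finset.mem_filter, Finset.mem_univ, true_and] at hp
    simp only [Finset.mem_product, Finset.mem_univ, true_and]
    exact hp.1
  refine (Finset.card_le_card h).trans ?_
  rw [Finset.card_product, Finset.card_univ, ZMod.card]

theorem card_goodP (f : Ln z N → Fin K) :
    (Finset.univ.filter (fun p : ZMod R × Pt z N => p.2 ∈ good R f)).card =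
      R * (good R f).card := by
  have h : Finset.univ.filter (fun p : ZMod R × Pt z N => p.2 ∈ good R f) =
      (Finset.univ : Finset (ZMod R)) ×ˢ good R f := by
    ext p
    simp
  rw [h, Finset.card_product, Finset.card_univ, ZMod.card]

theorem card_X : (Fintype.card (ZMod R × Pt z N) : ℝ) = (R : ℝ) * (N : ℝ) ^ z := by
  rw [Fintype.card_prod, ZMod.card, card_Pt]
  push_cast
  ring

end

theorem ncard_eq {α : Type} [Fintype α] (p : α → Prop) [DecidablePred p] :
    Nat.card {e // p e} = (Finset.univ.filter p).card := by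
  rw [Nat.card_eq_fintype_card, Fintype.card_subtype]

end SndAux

open SndAux in
theorem snd {z N K R : ℕ} [NeZero N] [NeZero K] [NeZero R] (f : Ln z N → Fin K) (δ ρ D1 : ℝ)
    (m : ℕ) (hδ : 0 < δ) (hδ1 : δ ≤ 1 / 4) (hμ : 0 < mu z K R) (hΛ : 1 ≤ lam z N K)
    (hL : ((lns f).card : ℝ) ≤ (1 + δ) * lam z N K)
    (hg : ((good R f).card : ℝ) ≤ (1 + δ) * (mu z K R * (N : ℝ) ^ z))
    (hm : (m : ℝ) * mu z K R = D1 * lam z N K) (hD1 : 64 * (R : ℝ) ≤ δ ^ 2 * D1)
    (hW : ∀ W : Finset (Ln z N × ZMod R), (W.card : ℝ) ≤ (1 + 2 * δ) * lam z N K →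
      R * (mu z K R * (N : ℝ) ^ z) * ρ ≤ ((unW f W).card : ℝ)) :
    8 * (Nat.card {e : Fin m → ZMod R × Pt z N //
        ¬ ((∀ W : Finset (Ln z N × ZMod R), (W.card : ℝ) ≤ (1 + 2 * δ) * lam z N K →
          (ρ - δ) * (D1 * lam z N K) ≤
            ((Finset.univ.filter (fun t => e t ∈ unW f W)).card : ℝ)) ∧
        ((Finset.univ.filter (fun t => (e t).2 ∈ good R f)).card : ℝ) ≤
          (1 + 2 * δ) * (D1 * lam z N K))} : ℝ) ≤
      (Fintype.card (Fin m → ZMod R × Pt z N) : ℝ) := by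
  classical
  have hR1 : (1 : ℝ) ≤ R := by
    have := NeZero.pos R
    exact_mod_cast this
  have hN1 : (1 : ℝ) ≤ N := by
    have := NeZero.pos N
    exact_mod_cast this
  set Λ : ℝ := lam z N K with hΛd
  set μ : ℝ := mu z K R with hμd
  have hΛ0 : 0 < Λ := by linarith
  have hNz : (0 : ℝ) < (N : ℝ) ^ z := by positivity
  have hX : (Fintype.card (ZMod R × Pt z N) : ℝ) = (R : ℝ) * (N : ℝ) ^ z := card_X
  have hX0 : (0 : ℝ) < Fintype.card (ZMod R × Pt z N) := by rw [hX]; positivity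
  have hδ2 : 0 < δ ^ 2 := by positivity
  have hD : 0 < D1 := by
    by_contra h
    push_neg at h
    have : δ ^ 2 * D1 ≤ 0 := mul_nonpos_of_nonneg_of_nonpos hδ2.le h
    linarith
  have hDΛ : 0 < D1 * Λ := mul_pos hD hΛ0
  set s : ℝ := δ * (D1 * Λ) with hs
  have hs0 : 0 ≤ s := by positivity
  set q : ℝ := 2 * μ with hq
  have hq0 : 0 < q := by positivity
  have hmq : (m : ℝ) * q = 2 * (D1 * Λ) := by rw [hq, ← hm]; ring
  have hgood2 : ((R * (good R f).card : ℕ) : ℝ) ≤ (1 + δ) * μ * Fintype.card (ZMod R × Pt z N) := by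
    rw [hX]
    push_cast
    calc (R : ℝ) * (good R f).card ≤ R * ((1 + δ) * (μ * (N : ℝ) ^ z)) := by gcongr
      _ = (1 + δ) * μ * (R * (N : ℝ) ^ z) := by ring
  have hgoodq : ((R * (good R f).card : ℕ) : ℝ) ≤ q * Fintype.card (ZMod R × Pt z N) := by
    refine hgood2.trans ?_
    rw [hq]
    gcongr
    linarith
  -- exponents
  have hexp : 64 * (R : ℝ) * Λ ≤ δ ^ 2 * D1 * Λ := mul_le_mul_of_nonneg_right hD1 hΛ0.le
  have hRΛ : 1 ≤ (R : ℝ) * Λ := by nlinarith
  have e1 : s ^ 2 / (2 * ((m : ℝ) * q)) = δ ^ 2 * D1 * Λ / 4 := by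
    rw [hmq, hs]
    field_simp
    try ring
  have e2 : s ^ 2 / (4 * ((m : ℝ) * q)) = δ ^ 2 * D1 * Λ / 8 := by
    rw [hmq, hs]
    field_simp
    try ring
  set S : Finset (Finset (Ln z N × ZMod R)) :=
    ((lns f ×ˢ (Finset.univ : Finset (ZMod R))).powerset).filter
      (fun W => (W.card : ℝ) ≤ (1 + 2 * δ) * Λ) with hS
  let AL : Finset (Ln z N × ZMod R) → Finset (Fin m → ZMod R × Pt z N) := fun W =>
    Finset.univ.filter (fun e => ((Finset.univ.filter (fun t => e t ∈ unW f W)).card : ℝ) ≤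
      (m : ℝ) * (((unW f W).card : ℝ) / Fintype.card (ZMod R × Pt z N)) - s)
  let PG : Finset (ZMod R × Pt z N) := Finset.univ.filter (fun p => p.2 ∈ good R f)
  let AU : Finset (Fin m → ZMod R × Pt z N) :=
    Finset.univ.filter (fun e => (m : ℝ) * ((PG.card : ℝ) / Fintype.card (ZMod R × Pt z N)) + s ≤
      ((Finset.univ.filter (fun t => e t ∈ PG)).card : ℝ))
  have hsub : Finset.univ.filter (fun e : Fin m → ZMod R × Pt z N =>
        ¬ ((∀ W : Finset (Ln z N × ZMod R), (W.card : ℝ) ≤ (1 + 2 * δ) * Λ →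
          (ρ - δ) * (D1 * Λ) ≤
            ((Finset.univ.filter (fun t => e t ∈ unW f W)).card : ℝ)) ∧
        ((Finset.univ.filter (fun t => (e t).2 ∈ good R f)).card : ℝ) ≤
          (1 + 2 * δ) * (D1 * Λ))) ⊆ S.biUnion AL ∪ AU := by
    intro e he
    rw [Finset.mem_filter] at he
    have he2 := he.2
    rw [not_and_or] at he2
    rw [Finset.mem_union]
    rcases he2 with h | h
    · left
      push_neg at h
      obtain ⟨W, hWc, hlt⟩ := h
      rw [Finset.mem_biUnion]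
      set W0 := W ∩ (lns f ×ˢ (Finset.univ : Finset (ZMod R))) with hW0
      have hW0c : (W0.card : ℝ) ≤ (1 + 2 * δ) * Λ := by
        refine le_trans ?_ hWc
        exact_mod_cast Finset.card_le_card Finset.inter_subset_left
      refine ⟨W0, ?_, ?_⟩
      · rw [hS, Finset.mem_filter, Finset.mem_powerset]
        exact ⟨Finset.inter_subset_right, hW0c⟩
      · simp only [AL]
        rw [Finset.mem_filter]
        refine ⟨Finset.mem_univ _, ?_⟩
        rw [unW_inter f W, ← hW0] at hlt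
        have h3 := hW W0 hW0c
        have h4 : μ * ρ ≤ ((unW f W0).card : ℝ) / Fintype.card (ZMod R × Pt z N) := by
          rw [le_div_iff₀ hX0, hX]
          calc μ * ρ * (R * (N : ℝ) ^ z) = R * (μ * (N : ℝ) ^ z) * ρ := by ring
            _ ≤ _ := h3
        have h5 : (m : ℝ) * (μ * ρ) ≤
            (m : ℝ) * (((unW f W0).card : ℝ) / Fintype.card (ZMod R × Pt z N)) :=
          mul_le_mul_of_nonneg_left h4 (Nat.cast_nonneg _)
        have h6 : (m : ℝ) * (μ * ρ) = ρ * (D1 * Λ) := by rw [← hm]; ring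
        have h7 : (ρ - δ) * (D1 * Λ) = ρ * (D1 * Λ) - s := by rw [hs]; ring
        linarith
    · right
      push_neg at h
      simp only [AU]
      rw [Finset.mem_filter]
      refine ⟨Finset.mem_univ _, ?_⟩
      have h1 : (Finset.univ.filter (fun t => e t ∈ PG)) =
          Finset.univ.filter (fun t => (e t).2 ∈ good R f) := by
        ext t
        simp [PG]
      rw [h1]
      have h2 : (PG.card : ℝ) / Fintype.card (ZMod R × Pt z N) ≤ (1 + δ) * μ := by
        rw [div_le_iff₀ hX0]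
        have : PG.card = R * (good R f).card := card_goodP f
        rw [this]
        exact hgood2
      have h3 : (m : ℝ) * ((PG.card : ℝ) / Fintype.card (ZMod R × Pt z N)) ≤
          (m : ℝ) * ((1 + δ) * μ) := mul_le_mul_of_nonneg_left h2 (Nat.cast_nonneg _)
      have h4 : (m : ℝ) * ((1 + δ) * μ) = (1 + δ) * (D1 * Λ) := by rw [← hm]; ring
      have h5 : (1 + 2 * δ) * (D1 * Λ) = (1 + δ) * (D1 * Λ) + s := by rw [hs]; ring
      linarith
  have hpow : (Fintype.card (Fin m → ZMod R × Pt z N) : ℝ) =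
      (Fintype.card (ZMod R × Pt z N) : ℝ) ^ m := by
    rw [Fintype.card_fun, Fintype.card_fin]
    push_cast
    rfl
  set T : ℝ := (Fintype.card (ZMod R × Pt z N) : ℝ) ^ m with hT
  have hT0 : 0 ≤ T := by positivity
  have hAL : ∀ W ∈ S, ((AL W).card : ℝ) ≤ Real.exp (-(16 * (R * Λ))) * T := by
    intro W _
    have h1 : ((unW f W).card : ℝ) ≤ q * Fintype.card (ZMod R × Pt z N) := by
      refine le_trans ?_ hgoodq
      exact_mod_cast card_unW_le f W
    have h2 := chernL (unW f W) m q s hq0 h1 hs0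
    rw [ncard_eq, e1] at h2
    refine le_trans h2 ?_
    gcongr
    linarith
  have hAU : (AU.card : ℝ) ≤ Real.exp (-(8 * (R * Λ))) * T := by
    have h1 : (PG.card : ℝ) ≤ q * Fintype.card (ZMod R × Pt z N) := by
      have : PG.card = R * (good R f).card := card_goodP f
      rw [this]
      exact hgoodq
    have h2 := chernU PG m q s hq0 h1 hs0 (by
      rw [hmq, hs]
      nlinarith)
    rw [ncard_eq, e2] at h2
    refine le_trans h2 ?_
    gcongr
    linarith
  have hScard : (S.card : ℝ) ≤ Real.exp (2 * (R * Λ)) := by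
    have h1 : S.card ≤ 2 ^ ((lns f).card * R) := by
      refine (Finset.card_filter_le _ _).trans ?_
      rw [Finset.card_powerset, Finset.card_product, Finset.card_univ, ZMod.card]
    have h2 : (((lns f).card * R : ℕ) : ℝ) ≤ 2 * (R * Λ) := by
      push_cast
      have : ((lns f).card : ℝ) ≤ 2 * Λ := by nlinarith
      nlinarith
    calc (S.card : ℝ) ≤ ((2 ^ ((lns f).card * R) : ℕ) : ℝ) := by exact_mod_cast h1
      _ = (2 : ℝ) ^ ((lns f).card * R) := by push_cast; rfl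
      _ ≤ _ := two_pow_le _ _ h2
  rw [ncard_eq, hpow]
  have hc1 := Finset.card_le_card hsub
  have hc2 := Finset.card_union_le (S.biUnion AL) AU
  have hc3 : (S.biUnion AL).card ≤ ∑ W ∈ S, (AL W).card := Finset.card_biUnion_le
  have hc4 : ((S.biUnion AL).card : ℝ) ≤ Real.exp (2 * (R * Λ)) * (Real.exp (-(16 * (R * Λ))) * T) := by
    calc ((S.biUnion AL).card : ℝ) ≤ ((∑ W ∈ S, (AL W).card : ℕ) : ℝ) := by exact_mod_cast hc3
      _ = ∑ W ∈ S, ((AL W).card : ℝ) := by push_cast; rfl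
      _ ≤ ∑ W ∈ S, Real.exp (-(16 * (R * Λ))) * T := Finset.sum_le_sum hAL
      _ = (S.card : ℝ) * (Real.exp (-(16 * (R * Λ))) * T) := by rw [Finset.sum_const, nsmul_eq_mul]
      _ ≤ _ := by gcongr
  have hc5 : Real.exp (2 * (R * Λ)) * (Real.exp (-(16 * (R * Λ))) * T) ≤ 1 / 16 * T := by
    rw [← mul_assoc, ← Real.exp_add]
    gcongr
    exact exp_le16 (by linarith)
  have hc6 : Real.exp (-(8 * (R * Λ))) * T ≤ 1 / 16 * T := by
    gcongr
    exact exp_le16 (by linarith)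
  have hc7 : ((Finset.univ.filter (fun e : Fin m → ZMod R × Pt z N =>
        ¬ ((∀ W : Finset (Ln z N × ZMod R), (W.card : ℝ) ≤ (1 + 2 * δ) * Λ →
          (ρ - δ) * (D1 * Λ) ≤
            ((Finset.univ.filter (fun t => e t ∈ unW f W)).card : ℝ)) ∧
        ((Finset.univ.filter (fun t => (e t).2 ∈ good R f)).card : ℝ) ≤
          (1 + 2 * δ) * (D1 * Λ)))).card : ℝ) ≤ ((S.biUnion AL).card : ℝ) + (AU.card : ℝ) := by
    exact_mod_cast hc1.trans hc2
  linarith

end Pool.Agent.Lib.P47j
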