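import Pool.Agent.Lib.P47j.Defs
import Pool.Agent.Lib.P47j.Bas
import Pool.Agent.Lib.P47j.Labl
import Pool.Agent.Lib.P47j.Colr
import Pool.Agent.Lib.P47j.Snd
import Pool.Agent.Lib.P47j.Pair
import Pool.Agent.Lib.P47j.ChCnt
import Pool.Agent.Lib.P47j.Lng
import Pool.Agent.Lib.P47j.Avg
import Pool.Agent.Lib.P47j.Del

/-!
Module SelJ. Existence of the slots: a quasirandom colouring of the lines of a large grid and a
family of slots with the soundness of random slots, few pairs of slots on common lines, no short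
chains with a cycle and no long chains with many cycles.
-/

open scoped BigOperators

namespace Pool.Agent.Lib.P47j

namespace SelJAux

/-- Sums over the slots of a function of the positions. -/
theorem sum_pos {z N m R : ℕ} [NeZero R] (F : (Fin m → Pt z N) → ℝ) :
    ∑ e : Fin m → ZMod R × Pt z N, F (fun t => (e t).2) =
      (R : ℝ) ^ m * ∑ u : Fin m → Pt z N, F u := by
  classical
  have h1 : ∑ e : Fin m → ZMod R × Pt z N, F (fun t => (e t).2) =
      ∑ p : (Fin m → ZMod R) × (Fin m → Pt z N), F p.2 := by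
    refine Fintype.sum_equiv (Equiv.arrowProdEquivProdArrow (Fin m) (fun _ => ZMod R)
      (fun _ => Pt z N)) _ _ ?_
    intro e
    rfl
  rw [h1, Fintype.sum_prod_type]
  simp only []
  rw [Finset.sum_const, Finset.card_univ, Fintype.card_fun, Fintype.card_fin, ZMod.card,
    nsmul_eq_mul]
  push_cast
  rfl

theorem card_slots (z N m R : ℕ) [NeZero R] :
    (Fintype.card (Fin m → ZMod R × Pt z N) : ℝ) = (R : ℝ) ^ m * (N : ℝ) ^ (z * m) := by
  rw [Fintype.card_fun, Fintype.card_fin, Fintype.card_prod, ZMod.card, Fintype.card_fun,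
    Fintype.card_fin, Fintype.card_fin]
  push_cast
  rw [mul_pow, ← pow_mul]

/-- The number of the chains. -/
theorem ch_one (z N Δ k x : ℕ) [NeZero N] (hz : 1 ≤ z) (hk : 1 ≤ k) :
    (∑ u : Fin (Δ * N ^ (z - 1)) → Pt z N, nch u k x) * N ^ x ≤
      (8 * z * Δ) ^ k * (k * z) ^ x * N ^ (z - 1) * N ^ (z * (Δ * N ^ (z - 1))) := by
  have hN : 0 < N := Nat.pos_of_ne_zero (NeZero.ne N)
  have h := chCnt z N (Δ * N ^ (z - 1)) k x hz hk
  obtain ⟨l, rfl⟩ : ∃ l, k = l + 1 := ⟨k - 1, by omega⟩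
  rw [Nat.add_sub_cancel] at h
  have hpos : 0 < N ^ ((z - 1) * l) := Nat.pow_pos hN
  refine Nat.le_of_mul_le_mul_left (c := N ^ ((z - 1) * l)) ?_ hpos
  calc N ^ ((z - 1) * l) *
        ((∑ u : Fin (Δ * N ^ (z - 1)) → Pt z N, nch u (l + 1) x) * N ^ x)
      = (∑ u : Fin (Δ * N ^ (z - 1)) → Pt z N, nch u (l + 1) x) *
          N ^ ((z - 1) * l + x) := by
        rw [pow_add]; ring
    _ ≤ (8 * z * (Δ * N ^ (z - 1))) ^ (l + 1) * ((l + 1) * z) ^ x *
          N ^ (z * (Δ * N ^ (z - 1))) := h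
    _ = N ^ ((z - 1) * l) * ((8 * z * Δ) ^ (l + 1) * ((l + 1) * z) ^ x * N ^ (z - 1) *
          N ^ (z * (Δ * N ^ (z - 1)))) := by
        have h1 : (8 * z * (Δ * N ^ (z - 1))) ^ (l + 1) =
            (8 * z * Δ) ^ (l + 1) * (N ^ ((z - 1) * l) * N ^ (z - 1)) := by
          rw [← mul_assoc (8 * z) Δ, mul_pow, ← pow_mul, ← pow_add]
          congr 2
        rw [h1]
        ring

theorem nch_zero {z N m : ℕ} [NeZero N] (u : Fin m → Pt z N) : nch u 0 1 = 0 := by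
  unfold nch
  rw [Nat.card_eq_zero]
  left
  refine ⟨?_⟩
  rintro ⟨c, hc⟩
  have h := hc.cnt
  have h2 : (Finset.univ.filter (fun i : Fin 0 => (c.2.2.2 i).isSome)).card = 0 := by
    rw [Finset.card_eq_zero]
    ext i
    exact i.elim0
  omega

theorem no_ch {z N m k x : ℕ} [NeZero N] (u : Fin m → Pt z N) (h : nch u k x = 0)
    (τ : Fin k → Fin m) (par : Fin k → Fin k) (dir : Fin k → Fin z)
    (o : Fin k → Option (Fin k × Fin z)) : ¬ ChOK u k x τ par dir o := by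
  intro hc
  unfold nch at h
  rw [Nat.card_eq_zero] at h
  rcases h with h | h
  · exact h.elim ⟨(τ, par, dir, o), hc⟩
  · exact absurd h (not_infinite_iff_finite.2 inferInstance)

/-- The short chains with one mark. -/
theorem ch_short (z N Δ g : ℕ) [NeZero N] (hz : 1 ≤ z) (hΔ : 1 ≤ Δ) (ε1 : ℝ)
    (h : ((8 * z * Δ : ℕ) : ℝ) ^ g * (g : ℝ) ^ 2 * z ≤ ε1 * N) :
    ∑ u : Fin (Δ * N ^ (z - 1)) → Pt z N, ∑ k ∈ Finset.range (g + 1), (nch u k 1 : ℝ) ≤
      ε1 * (N : ℝ) ^ (z - 1) * (N : ℝ) ^ (z * (Δ * N ^ (z - 1))) := by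
  have hN : (0 : ℝ) < (N : ℝ) := by exact_mod_cast Nat.pos_of_ne_zero (NeZero.ne N)
  rw [Finset.sum_comm, Finset.sum_range_succ']
  have h0 : ∑ u : Fin (Δ * N ^ (z - 1)) → Pt z N, (nch u 0 1 : ℝ) = 0 := by
    apply Finset.sum_eq_zero
    intro u _
    rw [nch_zero]
    norm_num
  rw [h0, add_zero]
  set T : ℝ := (N : ℝ) ^ (z - 1) * (N : ℝ) ^ (z * (Δ * N ^ (z - 1))) with hT
  have hT0 : 0 ≤ T := by positivity
  have h8 : (1 : ℝ) ≤ ((8 * z * Δ : ℕ) : ℝ) := by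
    exact_mod_cast Nat.mul_pos (Nat.mul_pos (by norm_num) hz) hΔ
  have h1 : ∀ k ∈ Finset.range g,
      (∑ u : Fin (Δ * N ^ (z - 1)) → Pt z N, (nch u (k + 1) 1 : ℝ)) * N ≤
        ((8 * z * Δ : ℕ) : ℝ) ^ g * (g * z) * T := by
    intro k hk
    rw [Finset.mem_range] at hk
    have h2 := ch_one z N Δ (k + 1) 1 hz (by omega)
    rw [pow_one, pow_one] at h2
    have h3 : ((∑ u : Fin (Δ * N ^ (z - 1)) → Pt z N, (nch u (k + 1) 1 : ℝ)) * N) ≤
        ((8 * z * Δ : ℕ) : ℝ) ^ (k + 1) * (((k + 1 : ℕ) : ℝ) * z) * T := by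
      have h4 : (((∑ u : Fin (Δ * N ^ (z - 1)) → Pt z N, nch u (k + 1) 1) * N : ℕ) : ℝ) ≤
          (((8 * z * Δ) ^ (k + 1) * ((k + 1) * z) * N ^ (z - 1) *
            N ^ (z * (Δ * N ^ (z - 1))) : ℕ) : ℝ) := by
        exact_mod_cast h2
      rw [Nat.cast_mul, Nat.cast_sum] at h4
      refine h4.trans (le_of_eq ?_)
      rw [hT]
      push_cast
      ring
    refine h3.trans ?_
    apply mul_le_mul_of_nonneg_right _ hT0
    have h5 : ((8 * z * Δ : ℕ) : ℝ) ^ (k + 1) ≤ ((8 * z * Δ : ℕ) : ℝ) ^ g :=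
      pow_le_pow_right₀ h8 (by omega)
    have h6 : ((k + 1 : ℕ) : ℝ) * z ≤ (g : ℝ) * z := by
      apply mul_le_mul_of_nonneg_right _ (by positivity)
      exact_mod_cast (by omega : k + 1 ≤ g)
    exact mul_le_mul h5 h6 (by positivity) (by positivity)
  have h2 : (∑ k ∈ Finset.range g,
      ∑ u : Fin (Δ * N ^ (z - 1)) → Pt z N, (nch u (k + 1) 1 : ℝ)) * N ≤ ε1 * T * N := by
    rw [Finset.sum_mul]
    refine (Finset.sum_le_sum h1).trans ?_
    rw [Finset.sum_const, Finset.card_range, nsmul_eq_mul]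
    calc (g : ℝ) * (((8 * z * Δ : ℕ) : ℝ) ^ g * (g * z) * T)
        = (((8 * z * Δ : ℕ) : ℝ) ^ g * (g : ℝ) ^ 2 * z) * T := by ring
      _ ≤ (ε1 * N) * T := mul_le_mul_of_nonneg_right h hT0
      _ = ε1 * T * N := by ring
  have h3 := le_of_mul_le_mul_right h2 hN
  rw [hT] at h3
  linarith [h3]

/-- The long chains with many marks. -/
theorem ch_long (z N Δ g Rr N0 : ℕ) [NeZero N] (hz : 1 ≤ z) (hΔ : 1 ≤ Δ) (hN0 : 1 ≤ N0)
    (h1 : 9 * Rr ^ 2 ≤ N) (h2 : (16 * z ^ 2 * Δ) ^ (4 * N0 * z) ≤ N)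
    (h3 : 4 * z ^ 3 * N0 ≤ g) :
    8 * ∑ u : Fin (Δ * N ^ (z - 1)) → Pt z N, ∑ k ∈ Finset.Ioc g Rr,
        (nch u k ((k + N0 * z - 1) / (N0 * z)) : ℝ) ≤
      (N : ℝ) ^ (z * (Δ * N ^ (z - 1))) := by
  have hN : 0 < N := Nat.pos_of_ne_zero (NeZero.ne N)
  rw [Finset.sum_comm]
  rcases Nat.eq_zero_or_pos Rr with hR | hR
  · subst hR
    have he : Finset.Ioc g 0 = ∅ := by
      rw [Finset.Ioc_eq_empty]; omega
    rw [he, Finset.sum_empty, mul_zero]
    positivity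
  set T : ℕ := N ^ (z * (Δ * N ^ (z - 1))) with hT
  have h4 : ∀ k ∈ Finset.Ioc g Rr, 8 * Rr *
      ∑ u : Fin (Δ * N ^ (z - 1)) → Pt z N, nch u k ((k + N0 * z - 1) / (N0 * z)) ≤ T := by
    intro k hk
    rw [Finset.mem_Ioc] at hk
    set x := (k + N0 * z - 1) / (N0 * z) with hx
    have h5 := ch_one z N Δ k x hz (by omega)
    have h6 := lng z Δ N0 N g Rr k x hz hΔ hN0 h1 h2 h3 hk.1 hk.2 hx
    have hpos : 0 < N ^ x := Nat.pow_pos hN
    refine Nat.le_of_mul_le_mul_right (c := N ^ x) ?_ hpos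
    calc 8 * Rr * (∑ u : Fin (Δ * N ^ (z - 1)) → Pt z N, nch u k x) * N ^ x
        = 8 * Rr * ((∑ u : Fin (Δ * N ^ (z - 1)) → Pt z N, nch u k x) * N ^ x) := by ring
      _ ≤ 8 * Rr * ((8 * z * Δ) ^ k * (k * z) ^ x * N ^ (z - 1) * T) :=
          Nat.mul_le_mul_left _ h5
      _ = (8 * Rr * ((8 * z * Δ) ^ k * (k * z) ^ x * N ^ (z - 1))) * T := by ring
      _ ≤ N ^ x * T := Nat.mul_le_mul_right _ h6
      _ = T * N ^ x := by ring
  have h5 : 8 * Rr * ∑ k ∈ Finset.Ioc g Rr,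
      ∑ u : Fin (Δ * N ^ (z - 1)) → Pt z N, nch u k ((k + N0 * z - 1) / (N0 * z)) ≤
        Rr * T := by
    rw [Finset.mul_sum]
    refine (Finset.sum_le_sum h4).trans ?_
    rw [Finset.sum_const, Nat.card_Ioc, smul_eq_mul]
    exact Nat.mul_le_mul_right _ (by omega)
  have h6 : 8 * ∑ k ∈ Finset.Ioc g Rr,
      ∑ u : Fin (Δ * N ^ (z - 1)) → Pt z N, nch u k ((k + N0 * z - 1) / (N0 * z)) ≤ T := by
    refine Nat.le_of_mul_le_mul_left (c := Rr) ?_ hR
    calc _ = 8 * Rr * ∑ k ∈ Finset.Ioc g Rr,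
      ∑ u : Fin (Δ * N ^ (z - 1)) → Pt z N, nch u k ((k + N0 * z - 1) / (N0 * z)) := by ring
      _ ≤ _ := h5
  have h7 : ((8 * ∑ k ∈ Finset.Ioc g Rr,
      ∑ u : Fin (Δ * N ^ (z - 1)) → Pt z N,
        nch u k ((k + N0 * z - 1) / (N0 * z)) : ℕ) : ℝ) ≤ (T : ℝ) := by
    exact_mod_cast h6
  rw [hT] at h7
  push_cast at h7
  exact h7

theorem chOK_comp {z N m M1 k x : ℕ} [NeZero N] (u : Fin m → Pt z N) (ι : Fin M1 → Fin m)
    (hι : Function.Injective ι) {τ : Fin k → Fin M1} {par : Fin k → Fin k}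
    {dir : Fin k → Fin z} {o : Fin k → Option (Fin k × Fin z)}
    (h : ChOK (fun t => u (ι t)) k x τ par dir o) : ChOK u k x (fun i => ι (τ i)) par dir o where
  inj := hι.comp h.inj
  mono := h.mono
  lt := h.lt
  line := h.line
  extra := h.extra
  cnt := h.cnt

end SelJAux

open SelJAux in
theorem selJ (R : ℕ) [NeZero R] (hR : 2 ≤ R) (δ : ℝ) (hδ : 0 < δ) (hδ1 : δ ≤ 1 / 4) :
    ∃ (z K Δ B : ℕ) (_ : NeZero K) (D1 ε1 : ℝ), 2 ≤ z ∧ 1 ≤ Δ ∧ 64 * (R : ℝ) ≤ δ ^ 2 * D1 ∧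
      0 < ε1 ∧ ∃ N1 : ℕ, ∀ (N : ℕ) [NeZero N], N1 ≤ N → ∀ g Rr N0 : ℕ, 1 ≤ g → 1 ≤ N0 →
      9 * Rr ^ 2 ≤ N → (16 * z ^ 2 * Δ) ^ (4 * N0 * z) ≤ N → 4 * z ^ 3 * N0 ≤ g →
      ((8 * z * Δ : ℕ) : ℝ) ^ g * (g : ℝ) ^ 2 * z ≤ ε1 * N →
      ∃ (f : Ln z N → Fin K) (M1 : ℕ) (pos : Fin M1 → ZMod R × Pt z N),
        1 ≤ lam z N K ∧ M1 ≤ Δ * N ^ (z - 1) ∧
        ((lns f).card : ℝ) ≤ (1 + δ) * lam z N K ∧
        (M1 : ℝ) ≤ (1 + 2 * δ) * (D1 * lam z N K) ∧
        (∀ t, (pos t).2 ∈ good R f) ∧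
        (∀ W : Finset (Ln z N × ZMod R), (W.card : ℝ) ≤ (1 + 2 * δ) * lam z N K →
          ((1 - 1 / (R : ℝ)) ^ R - 5 * R * δ) * (D1 * lam z N K) ≤
            ((Finset.univ.filter (fun t => pos t ∈ unW f W)).card : ℝ)) ∧
        (∀ t t', (pos t).1 = (pos t').1 → (pos t).2 ≠ (pos t').2 → ∀ j,
          ln j (pos t).2 = ln j (pos t').2 → f (ln j (pos t).2) = 0) ∧
        (∀ t, (Finset.univ.filter (fun t' => t' ≠ t ∧
          ∃ j, ln j (pos t).2 = ln j (pos t').2)).card ≤ B) ∧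
        (∀ k ≤ g, ∀ (τ : Fin k → Fin M1) (par : Fin k → Fin k) (dir : Fin k → Fin z)
          (o : Fin k → Option (Fin k × Fin z)), ¬ ChOK (fun t => (pos t).2) k 1 τ par dir o) ∧
        ∀ k, g < k → k ≤ Rr → ∀ (τ : Fin k → Fin M1) (par : Fin k → Fin k)
          (dir : Fin k → Fin z) (o : Fin k → Option (Fin k × Fin z)),
          ¬ ChOK (fun t => (pos t).2) k ((k + N0 * z - 1) / (N0 * z)) τ par dir o := by
  classical
  obtain ⟨z0, hz0, hlabl⟩ := labl R hR δ hδ hδ1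
  obtain ⟨z, hz⟩ : ∃ z, z = max z0 (max R 2) := ⟨_, rfl⟩
  have hzz0 : z0 ≤ z := by rw [hz]; exact le_max_left _ _
  have hzR : R ≤ z := by rw [hz]; exact le_trans (le_max_left _ _) (le_max_right _ _)
  have hz2 : 2 ≤ z := by rw [hz]; exact le_trans (le_max_right _ _) (le_max_right _ _)
  clear hz
  obtain ⟨K0, hK0⟩ := hlabl z hzz0
  have hRpos : (0 : ℝ) < (R : ℝ) := by exact_mod_cast Nat.pos_of_ne_zero (NeZero.ne R)
  have hR2 : (2 : ℝ) ≤ (R : ℝ) := by exact_mod_cast hR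
  have hzpos : (0 : ℝ) < (z : ℝ) := by
    have : 0 < z := by omega
    exact_mod_cast this
  obtain ⟨D, hD⟩ : ∃ D : ℕ, D = ⌈64 * (R : ℝ) / δ ^ 2⌉₊ := ⟨_, rfl⟩
  have hDge : 64 * (R : ℝ) / δ ^ 2 ≤ (D : ℝ) := by rw [hD]; exact Nat.le_ceil _
  have hDpos : 0 < D := by rw [hD]; exact Nat.ceil_pos.2 (by positivity)
  have hch : 1 ≤ z.choose R := Nat.choose_pos hzR
  have hchR : (1 : ℝ) ≤ (z.choose R : ℝ) := by exact_mod_cast hch
  have hDR : (0 : ℝ) < (D : ℝ) := by exact_mod_cast hDpos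
  obtain ⟨D1, hD1⟩ : ∃ D1 : ℝ, D1 = (D : ℝ) * (z.choose R : ℝ) := ⟨_, rfl⟩
  have hD1pos : 0 < D1 := by rw [hD1]; positivity
  have hD1ge : 64 * (R : ℝ) ≤ δ ^ 2 * D1 := by
    have h1 : 64 * (R : ℝ) ≤ δ ^ 2 * (D : ℝ) := by
      rw [div_le_iff₀ (by positivity)] at hDge
      linarith
    have h2 : (D : ℝ) ≤ D1 := by
      rw [hD1]; nlinarith
    have h3 : δ ^ 2 * (D : ℝ) ≤ δ ^ 2 * D1 := mul_le_mul_of_nonneg_left h2 (by positivity)
    linarith
  obtain ⟨K, hK⟩ : ∃ K : ℕ, K = max K0 (max 1 ⌈24 * D1 * (z : ℝ) ^ 2 / (R * δ)⌉₊) := ⟨_, rfl⟩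
  have hKK0 : K0 ≤ K := by rw [hK]; exact le_max_left _ _
  have hK1 : 1 ≤ K := by rw [hK]; exact le_trans (le_max_left _ _) (le_max_right _ _)
  have hKge : 24 * D1 * (z : ℝ) ^ 2 / (R * δ) ≤ (K : ℝ) := by
    refine (Nat.le_ceil _).trans ?_
    rw [hK]
    exact_mod_cast le_trans (le_max_right _ _) (le_max_right _ _)
  clear hK
  haveI hNK : NeZero K := ⟨by omega⟩
  have hKpos : (0 : ℝ) < (K : ℝ) := by exact_mod_cast hK1
  obtain ⟨M, κ, hκ, hlab⟩ := hK0 K hKK0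
  obtain ⟨N2, hN2⟩ := colr z K M hz2 κ hκ
  have hμdef : mu z K R = (z.choose R : ℝ) / (K : ℝ) ^ R := rfl
  have hμ : 0 < mu z K R := by rw [hμdef]; positivity
  obtain ⟨Δ, hΔ⟩ : ∃ Δ : ℕ, Δ = D * z * K ^ (R - 1) := ⟨_, rfl⟩
  have hΔ1 : 1 ≤ Δ := by
    rw [hΔ]; exact Nat.mul_pos (Nat.mul_pos hDpos (by omega)) (Nat.pow_pos hK1)
  have hΔpos : (0 : ℝ) < (Δ : ℝ) := by exact_mod_cast hΔ1
  have hΔμ : (Δ : ℝ) * mu z K R = D1 * z / K := by
    rw [hμdef, hΔ, hD1]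
    push_cast
    have hRR : (K : ℝ) ^ R = (K : ℝ) ^ (R - 1) * K := by
      rw [← pow_succ]; congr 1; omega
    rw [hRR]
    field_simp
  obtain ⟨B, hB⟩ : ∃ B : ℕ, B = max 1 ⌈24 * (Δ : ℝ) * z / (δ * mu z K R)⌉₊ := ⟨_, rfl⟩
  have hB1 : 1 ≤ B := by rw [hB]; exact le_max_left _ _
  have hBge : 24 * (Δ : ℝ) * z / (δ * mu z K R) ≤ (B : ℝ) := by
    refine (Nat.le_ceil _).trans ?_
    rw [hB]
    exact_mod_cast le_max_right _ _
  have hBpos : (0 : ℝ) < (B : ℝ) := by exact_mod_cast hB1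
  clear hB
  refine ⟨z, K, Δ, B, hNK, D1, δ * Δ * mu z K R / 24, hz2, hΔ1, hD1ge, by positivity,
    max N2 K, ?_⟩
  intro N _ hN g Rr N0 hg hN0 h9 h16 h4 h8
  have hNN2 : N2 ≤ N := le_trans (le_max_left _ _) hN
  have hNK' : K ≤ N := le_trans (le_max_right _ _) hN
  have hNpos : (0 : ℝ) < (N : ℝ) := by exact_mod_cast Nat.pos_of_ne_zero (NeZero.ne N)
  have hN1 : 1 ≤ N := Nat.pos_of_ne_zero (NeZero.ne N)
  have hz1 : 1 ≤ z := by omega
  obtain ⟨Λ, hΛdef⟩ : ∃ Λ : ℝ, Λ = lam z N K := ⟨_, rfl⟩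
  have hΛe : Λ = (z : ℝ) * (N : ℝ) ^ (z - 1) / (K : ℝ) := by rw [hΛdef]; rfl
  have hΛ1 : 1 ≤ Λ := by
    rw [hΛe, le_div_iff₀ hKpos, one_mul]
    have h1 : (K : ℝ) ≤ (N : ℝ) := by exact_mod_cast hNK'
    have h2 : (N : ℝ) ≤ (N : ℝ) ^ (z - 1) := by
      calc (N : ℝ) = (N : ℝ) ^ 1 := (pow_one _).symm
        _ ≤ (N : ℝ) ^ (z - 1) := pow_le_pow_right₀ (by exact_mod_cast hN1) (by omega)
    have h3 : (1 : ℝ) ≤ (z : ℝ) := by exact_mod_cast hz1
    have h4 : (N : ℝ) ^ (z - 1) ≤ (z : ℝ) * (N : ℝ) ^ (z - 1) := by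
      nlinarith [pow_pos hNpos (z - 1)]
    linarith
  have hΛpos : 0 < Λ := by linarith
  obtain ⟨m, hm⟩ : ∃ m : ℕ, m = Δ * N ^ (z - 1) := ⟨_, rfl⟩
  have hmR : (m : ℝ) = (Δ : ℝ) * (N : ℝ) ^ (z - 1) := by rw [hm]; push_cast; rfl
  have hmμ : (m : ℝ) * mu z K R = D1 * Λ := by
    calc (m : ℝ) * mu z K R = ((Δ : ℝ) * mu z K R) * (N : ℝ) ^ (z - 1) := by rw [hmR]; ring
      _ = D1 * z / K * (N : ℝ) ^ (z - 1) := by rw [hΔμ]
      _ = D1 * Λ := by rw [hΛe]; ring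
  obtain ⟨S, hS⟩ : ∃ S : ℝ, S = δ / 3 * (D1 * Λ) := ⟨_, rfl⟩
  have hSpos : 0 < S := by rw [hS]; positivity
  haveI : Nonempty (Ln z N → Fin K) := ⟨fun _ => 0⟩
  haveI : Nonempty (Fin m → ZMod R × Pt z N) := ⟨fun _ => (0, fun _ => 0)⟩
  have hcB := card_slots z N m R
  -- the weights
  let w : Fin 4 → (Ln z N → Fin K) → (Fin m → ZMod R × Pt z N) → ℝ :=
    ![fun f e => (nbI f e : ℝ) / S, fun _ e => (nbD e : ℝ) / (B * S),
      fun _ e => (∑ k ∈ Finset.range (g + 1), (nch (fun t => (e t).2) k 1 : ℝ)) / S,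
      fun _ e => ∑ k ∈ Finset.Ioc g Rr,
        (nch (fun t => (e t).2) k ((k + N0 * z - 1) / (N0 * z)) : ℝ)]
  obtain ⟨f, e, hf, hfe, hw⟩ := avg4 (A := Ln z N → Fin K) (B := Fin m → ZMod R × Pt z N)
    (fun f => QR M κ f)
    (fun f e => (∀ W : Finset (Ln z N × ZMod R), (W.card : ℝ) ≤ (1 + 2 * δ) * lam z N K →
          (((1 - 1 / (R : ℝ)) ^ R - 3 * R * δ) - δ) * (D1 * lam z N K) ≤
            ((Finset.univ.filter (fun t => e t ∈ unW f W)).card : ℝ)) ∧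
        ((Finset.univ.filter (fun t => (e t).2 ∈ good R f)).card : ℝ) ≤
          (1 + 2 * δ) * (D1 * lam z N K)) w
    (by
      refine (hN2 N hNN2).trans (le_of_eq ?_)
      rw [Fintype.card_fun, Fintype.card_fin]
      push_cast
      rfl)
    (by
      intro f hf
      obtain ⟨hl1, hl2, hl3⟩ := hlab N f hf
      exact snd f δ ((1 - 1 / (R : ℝ)) ^ R - 3 * R * δ) D1 m hδ hδ1 hμ
        (by rw [← hΛdef]; exact hΛ1) hl1 hl2 (by rw [← hΛdef]; exact hmμ) hD1ge hl3)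
    (by
      intro i f e
      fin_cases i
      · show 0 ≤ (nbI f e : ℝ) / S
        positivity
      · show 0 ≤ (nbD e : ℝ) / (B * S)
        positivity
      · show 0 ≤ (∑ k ∈ Finset.range (g + 1), (nch (fun t => (e t).2) k 1 : ℝ)) / S
        positivity
      · show 0 ≤ ∑ k ∈ Finset.Ioc g Rr,
          (nch (fun t => (e t).2) k ((k + N0 * z - 1) / (N0 * z)) : ℝ)
        positivity)
    (by
      intro i
      fin_cases i
      · show 8 * ∑ f : Ln z N → Fin K, ∑ e : Fin m → ZMod R × Pt z N,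
          (nbI f e : ℝ) / S ≤ _
        have h1 := sum_nbI z N K R m hz1
        simp only [← Finset.sum_div]
        rw [← mul_div_assoc, div_le_iff₀ hSpos]
        set T := (Fintype.card (Ln z N → Fin K) : ℝ) *
          (Fintype.card (Fin m → ZMod R × Pt z N) : ℝ) with hT
        have hT0 : 0 ≤ T := by positivity
        have h2 : 8 * ((m : ℝ) ^ 2 * (z / (R * (N : ℝ) ^ (z - 1))) * mu z K R ^ 2) ≤ S := by
          have h3 : (m : ℝ) ^ 2 * (z / (R * (N : ℝ) ^ (z - 1))) * mu z K R ^ 2 =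
              (D1 * Λ) * (D1 * (z : ℝ) ^ 2 / (R * K)) := by
            calc (m : ℝ) ^ 2 * (z / (R * (N : ℝ) ^ (z - 1))) * mu z K R ^ 2
                = ((m : ℝ) * mu z K R) ^ 2 * (z / (R * (N : ℝ) ^ (z - 1))) := by ring
              _ = (D1 * Λ) * (D1 * Λ * (z / (R * (N : ℝ) ^ (z - 1)))) := by
                  rw [hmμ]; ring
              _ = _ := by
                  congr 1
                  rw [hΛe]
                  field_simp
          rw [h3, hS]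
          have h4 : 8 * (D1 * (z : ℝ) ^ 2 / (R * K)) ≤ δ / 3 := by
            rw [div_le_iff₀ (by positivity)] at hKge
            rw [← mul_div_assoc, div_le_iff₀ (by positivity)]
            nlinarith
          nlinarith [mul_le_mul_of_nonneg_left h4 (mul_pos hD1pos hΛpos).le]
        calc 8 * ∑ f : Ln z N → Fin K, ∑ e : Fin m → ZMod R × Pt z N, (nbI f e : ℝ)
            ≤ 8 * ((m : ℝ) ^ 2 * (z / (R * (N : ℝ) ^ (z - 1))) * mu z K R ^ 2 * T) :=
              mul_le_mul_of_nonneg_left h1 (by norm_num)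
          _ = (8 * ((m : ℝ) ^ 2 * (z / (R * (N : ℝ) ^ (z - 1))) * mu z K R ^ 2)) * T := by ring
          _ ≤ S * T := mul_le_mul_of_nonneg_right h2 hT0
          _ = T * S := mul_comm _ _
      · show 8 * ∑ f : Ln z N → Fin K, ∑ e : Fin m → ZMod R × Pt z N,
          (nbD e : ℝ) / (B * S) ≤ _
        have h1 := sum_nbD z N R m hz1
        simp only [← Finset.sum_div]
        rw [Finset.sum_const, Finset.card_univ, nsmul_eq_mul]
        set Bc := (Fintype.card (Fin m → ZMod R × Pt z N) : ℝ) with hBc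
        set Ac := (Fintype.card (Ln z N → Fin K) : ℝ) with hAc
        have hAc0 : 0 ≤ Ac := by positivity
        have hBc0 : 0 ≤ Bc := by positivity
        have h2 : 8 * ((m : ℝ) ^ 2 * (z / (N : ℝ) ^ (z - 1))) ≤ B * S := by
          have h3 : (m : ℝ) ^ 2 * (z / (N : ℝ) ^ (z - 1)) = m * (Δ * z) := by
            rw [hmR]
            field_simp
          rw [h3, hS, ← hmμ]
          rw [div_le_iff₀ (by positivity)] at hBge
          have hm0 : (0 : ℝ) ≤ (m : ℝ) := by positivity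
          have h4 := mul_le_mul_of_nonneg_left hBge hm0
          nlinarith
        rw [← mul_div_assoc, div_le_iff₀ (by positivity)]
        calc 8 * (Ac * ∑ e : Fin m → ZMod R × Pt z N, (nbD e : ℝ))
            ≤ 8 * (Ac * ((m : ℝ) ^ 2 * (z / (N : ℝ) ^ (z - 1)) * Bc)) := by
              apply mul_le_mul_of_nonneg_left _ (by norm_num)
              exact mul_le_mul_of_nonneg_left h1 hAc0
          _ = Ac * Bc * (8 * ((m : ℝ) ^ 2 * (z / (N : ℝ) ^ (z - 1)))) := by ring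
          _ ≤ Ac * Bc * (B * S) := mul_le_mul_of_nonneg_left h2 (mul_nonneg hAc0 hBc0)
      · show 8 * ∑ f : Ln z N → Fin K, ∑ e : Fin m → ZMod R × Pt z N,
          (∑ k ∈ Finset.range (g + 1), (nch (fun t => (e t).2) k 1 : ℝ)) / S ≤ _
        have h1 := ch_short z N Δ g hz1 hΔ1 _ h8
        have h2 := sum_pos (z := z) (N := N) (m := m) (R := R)
          (fun u => ∑ k ∈ Finset.range (g + 1), (nch u k 1 : ℝ))
        simp only [← Finset.sum_div]
        rw [h2, Finset.sum_const, Finset.card_univ, nsmul_eq_mul, hcB]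
        rw [← hm] at h1
        set Ac := (Fintype.card (Ln z N → Fin K) : ℝ) with hAc
        have hAc0 : 0 ≤ Ac := by positivity
        have hRm : (0 : ℝ) ≤ (R : ℝ) ^ m := by positivity
        rw [← mul_div_assoc, div_le_iff₀ hSpos]
        have h3 : 8 * (δ * Δ * mu z K R / 24 * (N : ℝ) ^ (z - 1)) = S := by
          rw [hS, ← hmμ, hmR]
          ring
        calc 8 * (Ac * ((R : ℝ) ^ m * ∑ u : Fin m → Pt z N,
              ∑ k ∈ Finset.range (g + 1), (nch u k 1 : ℝ)))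
            ≤ 8 * (Ac * ((R : ℝ) ^ m * (δ * Δ * mu z K R / 24 * (N : ℝ) ^ (z - 1) *
                (N : ℝ) ^ (z * m)))) := by
              apply mul_le_mul_of_nonneg_left _ (by norm_num)
              apply mul_le_mul_of_nonneg_left _ hAc0
              exact mul_le_mul_of_nonneg_left h1 hRm
          _ = Ac * ((R : ℝ) ^ m * (N : ℝ) ^ (z * m)) *
                (8 * (δ * Δ * mu z K R / 24 * (N : ℝ) ^ (z - 1))) := by ring
          _ = Ac * ((R : ℝ) ^ m * (N : ℝ) ^ (z * m)) * S := by rw [h3]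
      · show 8 * ∑ f : Ln z N → Fin K, ∑ e : Fin m → ZMod R × Pt z N,
          ∑ k ∈ Finset.Ioc g Rr,
            (nch (fun t => (e t).2) k ((k + N0 * z - 1) / (N0 * z)) : ℝ) ≤ _
        have h1 := ch_long z N Δ g Rr N0 hz1 hΔ1 hN0 h9 h16 h4
        have h2 := sum_pos (z := z) (N := N) (m := m) (R := R)
          (fun u => ∑ k ∈ Finset.Ioc g Rr, (nch u k ((k + N0 * z - 1) / (N0 * z)) : ℝ))
        rw [h2, Finset.sum_const, Finset.card_univ, nsmul_eq_mul, hcB]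
        rw [← hm] at h1
        set Ac := (Fintype.card (Ln z N → Fin K) : ℝ) with hAc
        have hAc0 : 0 ≤ Ac := by positivity
        have hRm : (0 : ℝ) ≤ (R : ℝ) ^ m := by positivity
        calc 8 * (Ac * ((R : ℝ) ^ m * ∑ u : Fin m → Pt z N,
              ∑ k ∈ Finset.Ioc g Rr, (nch u k ((k + N0 * z - 1) / (N0 * z)) : ℝ)))
            = Ac * ((R : ℝ) ^ m * (8 * ∑ u : Fin m → Pt z N,
              ∑ k ∈ Finset.Ioc g Rr, (nch u k ((k + N0 * z - 1) / (N0 * z)) : ℝ))) := by ring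
          _ ≤ Ac * ((R : ℝ) ^ m * (N : ℝ) ^ (z * m)) := by
              apply mul_le_mul_of_nonneg_left _ hAc0
              exact mul_le_mul_of_nonneg_left h1 hRm)
  obtain ⟨hl1, hl2, hl3⟩ := hlab N f hf
  obtain ⟨hQ1, hQ2⟩ := hfe
  have w0 : (nbI f e : ℝ) / S < 1 := hw 0
  have w1 : (nbD e : ℝ) / (B * S) < 1 := hw 1
  have w2 : (∑ k ∈ Finset.range (g + 1), (nch (fun t => (e t).2) k 1 : ℝ)) / S < 1 := hw 2
  have w3 : ∑ k ∈ Finset.Ioc g Rr,
        (nch (fun t => (e t).2) k ((k + N0 * z - 1) / (N0 * z)) : ℝ) < 1 := hw 3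
  rw [div_lt_one hSpos] at w0 w2
  rw [div_lt_one (by positivity)] at w1
  have w1' : (nbD e : ℝ) / B ≤ S := by
    rw [div_le_iff₀ hBpos]; linarith
  obtain ⟨M1, ι, hι, hgood, hpair, hdeg, hshort, hcount⟩ := del f e g B hB1
  refine ⟨f, M1, fun t => e (ι t), ?_, ?_, hl1, ?_, hgood, ?_, hpair, hdeg, hshort, ?_⟩
  · rw [← hΛdef]; exact hΛ1
  · have h1 := Fintype.card_le_of_injective ι hι
    rw [Fintype.card_fin, Fintype.card_fin] at h1
    rw [← hm]; exact h1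
  · refine le_trans ?_ hQ2
    have h1 : (Finset.univ.image ι).card = M1 := by
      rw [Finset.card_image_of_injective _ hι, Finset.card_univ, Fintype.card_fin]
    have h2 : (Finset.univ.image ι).card ≤
        (Finset.univ.filter (fun t => (e t).2 ∈ good R f)).card := by
      apply Finset.card_le_card
      intro t ht
      rw [Finset.mem_image] at ht
      obtain ⟨s, _, rfl⟩ := ht
      rw [Finset.mem_filter]
      exact ⟨Finset.mem_univ _, hgood s⟩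
    rw [h1] at h2
    exact_mod_cast h2
  · intro W hW
    have h1 := hQ1 W hW
    have h2 := hcount (unW f W) (by
      intro p hp
      unfold unW at hp
      rw [Finset.mem_filter] at hp
      exact hp.2.1)
    rw [← hΛdef] at h1 ⊢
    have h3 : ((1 - 1 / (R : ℝ)) ^ R - 5 * R * δ) * (D1 * Λ) ≤
        (((1 - 1 / (R : ℝ)) ^ R - 3 * R * δ) - δ) * (D1 * Λ) - S - S - S := by
      rw [hS]
      have h4 : 0 < D1 * Λ := by positivity
      have h5 : (0 : ℝ) ≤ 2 * (R - 1) * δ * (D1 * Λ) := by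
        have : (0 : ℝ) ≤ (R : ℝ) - 1 := by linarith
        positivity
      nlinarith
    linarith
  · intro k hgk hkR τ par dir o hc
    have hk : k ∈ Finset.Ioc g Rr := Finset.mem_Ioc.2 ⟨hgk, hkR⟩
    have h1 : (nch (fun t => (e t).2) k ((k + N0 * z - 1) / (N0 * z)) : ℝ) < 1 := by
      refine lt_of_le_of_lt ?_ w3
      exact Finset.single_le_sum
        (f := fun k => (nch (fun t => (e t).2) k ((k + N0 * z - 1) / (N0 * z)) : ℝ))
        (fun i _ => by positivity) hk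
    have h2 : nch (fun t => (e t).2) k ((k + N0 * z - 1) / (N0 * z)) = 0 := by
      have h3 : nch (fun t => (e t).2) k ((k + N0 * z - 1) / (N0 * z)) < 1 := by
        exact_mod_cast h1
      omega
    exact no_ch _ h2 _ _ _ _ (chOK_comp (fun t => (e t).2) ι hι hc)

end Pool.Agent.Lib.P47j
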