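import Pool.Agent.Lib.P47j.Defs
import Pool.Agent.Lib.P47j.Bas
import Pool.Agent.Lib.P47j.EdgJ
import Pool.Agent.Lib.P47j.NoCh

/-!
Module SysJ (2h; black box Bas; grJ of NoCh). The system of sets.
PROOF. u t = (pos t).2, a t = (pos t).1, ρ = (1 - 1/R)^R ∈ [1/4, 1]: (1 - 1/R)^(R/2) ≥ 1 - (R/2)/R = 1/2 (Bernoulli with the real exponent R/2 ≥ 1: one_add_mul_self_le_rpow_one_add), square it.
card_near: j ↦ (ln j (u t), a t) is a bijection from act f (u t) to nearJ f pos t (ln_mem_lns, ln_dir). Symmetric differences: card (symmDiff A B) = |A| + |B| - 2 |A ∩ B|; |cvJ pos t| = z, |fvJ w| = z - 1, |fpJ p| = z - 2; sets of different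
copies are disjoint: 2z, 2z - 1, 2z - 2 ≥ 2 (z ≥ 2), 2 z ≥ 4. Same copy: the intersection has z - d, z - 1 - d, z - 2 - d elements, d = number of the (remaining) coordinates in which the points differ: 2 d, 1 + 2 d, 2 + 2 d. d_near: d = 0. d_far in the same
copy: d = 0 would give w.1 = ln j (u t) with j = w.1.1.1 (w.1 ∈ lns f has v j = 0), so w ∈ nearJ. d_pl: d = 0 for plJ. d_ne: if a t = a t' and u t = u t' for t ≠ t', take two different j ∈ act f (u t) (R ≥ 2): the four edges (t, j), (t', j) touch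
four vertices (two slots, two lines), contradicting Girth g, 4 ≤ g. d_dj: a t = a t', d = 1 with the differing coordinate j: ln j (u t) = ln j (u t'), by hin it is active, so (ln j (u t), a t) ∈ nearJ t ∩ nearJ t', not disjoint; so d ≥ 2.
loc: B, R0 with B ≤ ε R0, R R0 ≤ g. If nearJ t, nearJ t' are not disjoint then ln j (u t) = ln j (u t') for some j (ln_dir): hdeg. Forest: let C ≠ ∅, |C| ≤ R0, H = all edges (t, j), t ∈ C, |H| = R |C| ≤ g; Girth: |H| < |verts H| = |C| + |L|, L = lnt, and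
|H| = ∑_{l ∈ L} c_l, c_l = number of t ∈ C with l through u t. So ∑_{l ∈ L} (c_l - 1) < |C|. For w = (l, a), c_w = #{t ∈ C : w ∈ nearJ t} and ∑_a c_(l,a) = c_l, so ∑_a (c_(l,a) - 1) ≤ c_l - 1 (natural subtraction; if c_l = 0 both are 0, otherwise drop one a with
c_(l,a) ≥ 1).
unc: W = the image of A in Ln × ZMod R, |W| ≤ |A| ≤ |lns f| + |P| ≤ (1 + 2 δ) Λ (hP: |P| = R N^(z-2) ≤ δ Λ), pos t ∈ unW f W iff Disjoint (nearJ f pos t) A. unc = #/M1 with # ≥ (ρ - 5 R δ) D1 Λ and M1 ≤ (1 + 2 δ) D1 Λ; if ρ - ε ≤ 0 use unc ≥ 0, otherwise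
(ρ - 5 R δ) ≥ (ρ - ε)(1 + 2 δ) since ε ≥ 7 R δ. small: |V| + |P| ≤ (1 + 2 δ) Λ ≤ 2 Λ; M1 ≥ (ρ - 5 R δ) D1 Λ ≥ D1 Λ/8 (W = ∅, 5 R δ ≤ 1/8) and 16 ≤ ε D1.
-/

open scoped BigOperators

namespace Pool.Agent.Lib.P47j

/-- The set of the point `(a, u)`. -/
def cvJ {z N R : ℕ} [NeZero N] [NeZero R] {T : Type} (pos : T → ZMod R × Pt z N) (t : T) :
    Finset (ZMod R × Fin z × Fin N) :=
  Finset.univ.image (fun i => ((pos t).1, i, (pos t).2 i))

/-- The set of an active line in a copy. -/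
def fvJ {z N K R : ℕ} [NeZero N] [NeZero K] [NeZero R] (f : Ln z N → Fin K)
    (w : {l : Ln z N // l ∈ lns f} × ZMod R) : Finset (ZMod R × Fin z × Fin N) :=
  (Finset.univ.erase w.1.1.1).image (fun i => (w.2, i, w.1.1.2 i))

/-- The names of the planes with the directions `i0`, `i1`, in all copies. -/
abbrev PlJ (z N R : ℕ) [NeZero N] (i0 i1 : Fin z) : Type :=
  ZMod R × {v : Pt z N // v i0 = 0 ∧ v i1 = 0}

/-- The set of a plane in a copy. -/
def fpJ {z N R : ℕ} [NeZero N] [NeZero R] (i0 i1 : Fin z) (p : PlJ z N R i0 i1) :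
    Finset (ZMod R × Fin z × Fin N) :=
  ((Finset.univ.erase i0).erase i1).image (fun i => (p.1, i, p.2.1 i))

/-- The plane through the point `(a, u)`. -/
def plJ {z N R : ℕ} [NeZero N] [NeZero R] {T : Type} (i0 i1 : Fin z)
    (pos : T → ZMod R × Pt z N) (t : T) : PlJ z N R i0 i1 :=
  ((pos t).1, ⟨Function.update (Function.update (pos t).2 i0 0) i1 0, by
    refine ⟨?_, by simp⟩
    by_cases h : i0 = i1
    · subst h; simp
    · rw [Function.update_of_ne h, Function.update_self]⟩)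

namespace SysJAux

section Sets

variable {z N R : ℕ}

/-- The graph of a point over a set of coordinates. -/
def gr (a : ZMod R) (S : Finset (Fin z)) (u : Pt z N) : Finset (ZMod R × Fin z × Fin N) :=
  S.image (fun i => (a, i, u i))

theorem mem_gr (a : ZMod R) (S : Finset (Fin z)) (u : Pt z N) (p : ZMod R × Fin z × Fin N) :
    p ∈ gr a S u ↔ p.1 = a ∧ p.2.1 ∈ S ∧ p.2.2 = u p.2.1 := by
  unfold gr
  rw [Finset.mem_image]
  constructor
  · rintro ⟨i, hi, rfl⟩
    exact ⟨rfl, hi, rfl⟩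
  · rintro ⟨h1, h2, h3⟩
    refine ⟨p.2.1, h2, ?_⟩
    rw [← h1, ← h3]

theorem card_gr (a : ZMod R) (S : Finset (Fin z)) (u : Pt z N) : (gr a S u).card = S.card := by
  unfold gr
  refine Finset.card_image_of_injective _ (fun i j h => ?_)
  exact congrArg (fun p : ZMod R × Fin z × Fin N => p.2.1) h

theorem symm_add {α : Type} [DecidableEq α] (A B : Finset α) :
    (symmDiff A B).card + 2 * (A ∩ B).card = A.card + B.card := by
  have h1 : symmDiff A B = (A \ B) ∪ (B \ A) := rfl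
  have h2 : Disjoint (A \ B) (B \ A) := by
    rw [Finset.disjoint_left]
    intro x hx hx'
    exact (Finset.mem_sdiff.1 hx').2 (Finset.mem_sdiff.1 hx).1
  have h3 := Finset.card_sdiff_add_card_inter A B
  have h4 := Finset.card_sdiff_add_card_inter B A
  rw [Finset.inter_comm B A] at h4
  rw [h1, Finset.card_union_of_disjoint h2]
  omega

theorem symm_same (a : ZMod R) (S : Finset (Fin z)) (u v : Pt z N) :
    (symmDiff (gr a Finset.univ u) (gr a S v)).card + S.card =
      z + 2 * (S.filter (fun i => u i ≠ v i)).card := by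
  have h1 := symm_add (gr a Finset.univ u) (gr a S v)
  have h2 : gr a Finset.univ u ∩ gr a S v = gr a (S.filter (fun i => u i = v i)) u := by
    ext p
    rw [Finset.mem_inter, mem_gr, mem_gr, mem_gr, Finset.mem_filter]
    constructor
    · rintro ⟨⟨h1, _, h3⟩, ⟨_, h5, h6⟩⟩
      exact ⟨h1, ⟨h5, h3.symm.trans h6⟩, h3⟩
    · rintro ⟨h1, ⟨h2, h3⟩, h4⟩
      exact ⟨⟨h1, Finset.mem_univ _, h4⟩, ⟨h1, h2, h4.trans h3⟩⟩
  have h3 := Finset.card_filter_add_card_filter_not (s := S) (fun i => u i = v i)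
  rw [h2, card_gr, card_gr, card_gr, Finset.card_univ, Fintype.card_fin] at h1
  simp only [ne_eq]
  omega

theorem symm_ne {a a' : ZMod R} (h : a ≠ a') (S : Finset (Fin z)) (u v : Pt z N) :
    (symmDiff (gr a Finset.univ u) (gr a' S v)).card = z + S.card := by
  have h1 := symm_add (gr a Finset.univ u) (gr a' S v)
  have h2 : gr a Finset.univ u ∩ gr a' S v = ∅ := by
    ext p
    rw [Finset.mem_inter, mem_gr, mem_gr]
    constructor
    · rintro ⟨⟨h1, _, _⟩, ⟨h4, _, _⟩⟩
      exact absurd (h1.symm.trans h4) h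
    · intro hp
      exact absurd hp (Finset.notMem_empty p)
  rw [h2, card_gr, card_gr, Finset.card_univ, Fintype.card_fin, Finset.card_empty] at h1
  omega

end Sets

section Near

variable {z N K R M1 : ℕ} [NeZero N] [NeZero K] [NeZero R]

theorem cvJ_eq {T : Type} (pos : T → ZMod R × Pt z N) (t : T) :
    cvJ pos t = gr (pos t).1 Finset.univ (pos t).2 := rfl

theorem fvJ_eq (f : Ln z N → Fin K) (w : {l : Ln z N // l ∈ lns f} × ZMod R) :
    fvJ f w = gr w.2 (Finset.univ.erase w.1.1.1) w.1.1.2 := rfl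

theorem fpJ_eq (i0 i1 : Fin z) (p : PlJ z N R i0 i1) :
    fpJ i0 i1 p = gr p.1 ((Finset.univ.erase i0).erase i1) p.2.1 := rfl

theorem mem_nearJ (f : Ln z N → Fin K) {T : Type} (pos : T → ZMod R × Pt z N) (t : T)
    (w : {l : Ln z N // l ∈ lns f} × ZMod R) :
    w ∈ nearJ f pos t ↔ w.2 = (pos t).1 ∧ ∃ j, w.1.1 = ln j (pos t).2 := by
  unfold nearJ
  simp

theorem card_er1 (j : Fin z) : (Finset.univ.erase j).card + 1 = z := by
  have := Finset.card_erase_add_one (Finset.mem_univ j)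
  rwa [Finset.card_univ, Fintype.card_fin] at this

theorem card_er2 {i0 i1 : Fin z} (h : i0 ≠ i1) :
    ((Finset.univ.erase i0).erase i1).card + 2 = z := by
  have h1 := card_er1 i0
  have h2 := Finset.card_erase_add_one (s := Finset.univ.erase i0) (a := i1)
    (Finset.mem_erase.2 ⟨h.symm, Finset.mem_univ _⟩)
  omega

theorem card_nearJ (f : Ln z N → Fin K) {T : Type} (pos : T → ZMod R × Pt z N) (t : T)
    (h : (pos t).2 ∈ good R f) : (nearJ f pos t).card = R := by
  have hb : (act f (pos t).2).card = (nearJ f pos t).card := by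
    refine Finset.card_bij (fun j hj => ((⟨ln j (pos t).2,
      (ln_mem_lns f j _).2 ((mem_act f _ j).1 hj)⟩ : {l : Ln z N // l ∈ lns f}), (pos t).1))
      ?_ ?_ ?_
    · intro j hj
      rw [mem_nearJ]
      exact ⟨rfl, j, rfl⟩
    · intro j hj j' hj' he
      have h1 := congrArg (fun w : {l : Ln z N // l ∈ lns f} × ZMod R => w.1.1) he
      exact ln_dir h1
    · rintro ⟨⟨l, hl⟩, b⟩ hw
      rw [mem_nearJ] at hw
      obtain ⟨h1, j, h2⟩ := hw
      simp only at h1 h2
      subst h2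
      have hj : j ∈ act f (pos t).2 := (mem_act f _ j).2 ((ln_mem_lns f j _).1 hl)
      exact ⟨j, hj, by rw [h1]⟩
  rw [← hb]
  exact (mem_good f _).1 h

theorem d_near (hz : 2 ≤ z) (f : Ln z N → Fin K) {T : Type} (pos : T → ZMod R × Pt z N) (t : T)
    (w : {l : Ln z N // l ∈ lns f} × ZMod R) (hw : w ∈ nearJ f pos t) :
    (symmDiff (cvJ pos t) (fvJ f w)).card = 1 := by
  obtain ⟨h1, j, h2⟩ := (mem_nearJ f pos t w).1 hw
  rw [cvJ_eq, fvJ_eq, h1]
  have h3 := symm_same (pos t).1 (Finset.univ.erase w.1.1.1) (pos t).2 w.1.1.2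
  have h4 := card_er1 (z := z) w.1.1.1
  have h5 : (Finset.univ.erase w.1.1.1).filter (fun i => (pos t).2 i ≠ w.1.1.2 i) = ∅ := by
    rw [Finset.filter_eq_empty_iff]
    intro i hi
    rw [h2] at hi ⊢
    have hij : i ≠ j := (Finset.mem_erase.1 hi).1
    simp [ln, Function.update_of_ne hij]
  rw [h5, Finset.card_empty] at h3
  omega

theorem d_far (hz : 2 ≤ z) (f : Ln z N → Fin K) {T : Type} (pos : T → ZMod R × Pt z N) (t : T)
    (w : {l : Ln z N // l ∈ lns f} × ZMod R) (hw : w ∉ nearJ f pos t) :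
    2 ≤ (symmDiff (cvJ pos t) (fvJ f w)).card := by
  rw [cvJ_eq, fvJ_eq]
  have h4 := card_er1 (z := z) w.1.1.1
  by_cases ha : (pos t).1 = w.2
  · rw [ha]
    have h3 := symm_same w.2 (Finset.univ.erase w.1.1.1) (pos t).2 w.1.1.2
    have h5 : 0 < ((Finset.univ.erase w.1.1.1).filter
        (fun i => (pos t).2 i ≠ w.1.1.2 i)).card := by
      rw [Finset.card_pos]
      by_contra hne
      rw [Finset.not_nonempty_iff_eq_empty, Finset.filter_eq_empty_iff] at hne
      apply hw
      rw [mem_nearJ]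
      refine ⟨ha.symm, w.1.1.1, ?_⟩
      have hv : w.1.1.2 w.1.1.1 = 0 := ((mem_lns f _).1 w.1.2).1
      refine Prod.ext rfl ?_
      funext i
      by_cases hi : i = w.1.1.1
      · subst hi
        simp [ln, hv]
      · have := hne (Finset.mem_erase.2 ⟨hi, Finset.mem_univ i⟩)
        simp only [ne_eq, not_not] at this
        simp [ln, Function.update_of_ne hi, this]
    omega
  · have h3 := symm_ne ha (Finset.univ.erase w.1.1.1) (pos t).2 w.1.1.2
    omega

theorem d_fp (hz : 2 ≤ z) {i0 i1 : Fin z} (h01 : i0 ≠ i1) {T : Type}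
    (pos : T → ZMod R × Pt z N) (t : T) (p : PlJ z N R i0 i1) :
    2 ≤ (symmDiff (cvJ pos t) (fpJ i0 i1 p)).card := by
  rw [cvJ_eq, fpJ_eq]
  have h4 := card_er2 (z := z) h01
  by_cases ha : (pos t).1 = p.1
  · rw [ha]
    have h3 := symm_same p.1 ((Finset.univ.erase i0).erase i1) (pos t).2 p.2.1
    omega
  · have h3 := symm_ne ha ((Finset.univ.erase i0).erase i1) (pos t).2 p.2.1
    omega

theorem d_pl {i0 i1 : Fin z} (h01 : i0 ≠ i1) {T : Type}
    (pos : T → ZMod R × Pt z N) (t : T) :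
    (symmDiff (cvJ pos t) (fpJ i0 i1 (plJ i0 i1 pos t))).card = 2 := by
  rw [cvJ_eq, fpJ_eq]
  have h4 := card_er2 (z := z) h01
  have h3 := symm_same (pos t).1 ((Finset.univ.erase i0).erase i1) (pos t).2
    (plJ i0 i1 pos t).2.1
  have h5 : ((Finset.univ.erase i0).erase i1).filter
      (fun i => (pos t).2 i ≠ (plJ i0 i1 pos t).2.1 i) = ∅ := by
    rw [Finset.filter_eq_empty_iff]
    intro i hi
    have hi1 : i ≠ i1 := (Finset.mem_erase.1 hi).1
    have hi0 : i ≠ i0 := (Finset.mem_erase.1 (Finset.mem_erase.1 hi).2).1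
    simp [plJ, Function.update_of_ne hi1, Function.update_of_ne hi0]
  rw [h5, Finset.card_empty] at h3
  have h6 : (plJ i0 i1 pos t).1 = (pos t).1 := rfl
  rw [h6]
  omega

/-- Two slots at the same position contradict the girth. -/
theorem no_same (hR : 2 ≤ R) (f : Ln z N → Fin K) (pos : Fin M1 → ZMod R × Pt z N) {g : ℕ}
    (hg4 : 4 ≤ g) (hpos : ∀ t, (pos t).2 ∈ good R f)
    (hgir : (grJ f (fun t => (pos t).2)).Girth g) {t t' : Fin M1} (htt : t ≠ t')
    (hu : (pos t).2 = (pos t').2) : False := by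
  have hc : (act f (pos t).2).card = R := (mem_good f _).1 (hpos t)
  have h1 : 1 < (act f (pos t).2).card := by omega
  obtain ⟨j1, hj1, j2, hj2, hjj⟩ := Finset.one_lt_card.1 h1
  have hj1' : j1 ∈ act f (pos t').2 := hu ▸ hj1
  have hj2' : j2 ∈ act f (pos t').2 := hu ▸ hj2
  let E := {e : Fin M1 × Fin z // e.2 ∈ act f ((fun t => (pos t).2) e.1)}
  let e1 : E := ⟨(t, j1), hj1⟩
  let e2 : E := ⟨(t, j2), hj2⟩
  let e3 : E := ⟨(t', j1), hj1'⟩
  let e4 : E := ⟨(t', j2), hj2'⟩
  have n12 : e1 ≠ e2 := fun h => hjj (congrArg (fun e : E => e.1.2) h)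
  have n13 : e1 ≠ e3 := fun h => htt (congrArg (fun e : E => e.1.1) h)
  have n14 : e1 ≠ e4 := fun h => htt (congrArg (fun e : E => e.1.1) h)
  have n23 : e2 ≠ e3 := fun h => htt (congrArg (fun e : E => e.1.1) h)
  have n24 : e2 ≠ e4 := fun h => htt (congrArg (fun e : E => e.1.1) h)
  have n34 : e3 ≠ e4 := fun h => hjj (congrArg (fun e : E => e.1.2) h)
  have hcard : ({e1, e2, e3, e4} : Finset E).card = 4 := by
    rw [Finset.card_insert_of_notMem, Finset.card_insert_of_notMem,
      Finset.card_insert_of_notMem, Finset.card_singleton]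
    · simpa using n34
    · simp [n23, n24]
    · simp [n12, n13, n14]
  have h2 := hgir ({e1, e2, e3, e4} : Finset E) ⟨e1, by simp⟩ (by rw [hcard]; exact hg4)
  rw [hcard] at h2
  have h3 : (grJ f (fun t => (pos t).2)).verts ({e1, e2, e3, e4} : Finset E) ⊆
      {Sum.inl t, Sum.inl t', Sum.inr (ln j1 (pos t).2), Sum.inr (ln j2 (pos t).2)} := by
    intro x hx
    unfold Pool.Agent.Lib.P325L.Gr.verts at hx
    rw [Finset.mem_union, Finset.mem_image, Finset.mem_image] at hx
    simp only [Finset.mem_insert, Finset.mem_singleton] at hx ⊢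
    rcases hx with ⟨e, he, rfl⟩ | ⟨e, he, rfl⟩
    · rcases he with rfl | rfl | rfl | rfl
      · left; rfl
      · left; rfl
      · right; left; rfl
      · right; left; rfl
    · rcases he with rfl | rfl | rfl | rfl
      · right; right; left; rfl
      · right; right; right; rfl
      · right; right; left
        show Sum.inr (ln j1 (pos t').2) = Sum.inr (ln j1 (pos t).2)
        rw [hu]
      · right; right; right
        show Sum.inr (ln j2 (pos t').2) = Sum.inr (ln j2 (pos t).2)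
        rw [hu]
  have h4 := Finset.card_le_card h3
  have h5 : ({Sum.inl t, Sum.inl t', Sum.inr (ln j1 (pos t).2), Sum.inr (ln j2 (pos t).2)} :
      Finset (Fin M1 ⊕ Ln z N)).card ≤ 4 := Finset.card_le_four
  omega

theorem d_pts {pos : Fin M1 → ZMod R × Pt z N} {t t' : Fin M1}
    (ha : (pos t).1 = (pos t').1) :
    (symmDiff (cvJ pos t) (cvJ pos t')).card =
      2 * (Finset.univ.filter (fun i => (pos t).2 i ≠ (pos t').2 i)).card := by
  rw [cvJ_eq, cvJ_eq, ha]
  have h3 := symm_same (pos t').1 (Finset.univ) (pos t).2 (pos t').2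
  rw [Finset.card_univ, Fintype.card_fin] at h3
  omega

theorem d_pts_ne {pos : Fin M1 → ZMod R × Pt z N} {t t' : Fin M1}
    (ha : (pos t).1 ≠ (pos t').1) :
    (symmDiff (cvJ pos t) (cvJ pos t')).card = z + z := by
  rw [cvJ_eq, cvJ_eq]
  have h3 := symm_ne ha (Finset.univ) (pos t).2 (pos t').2
  rwa [Finset.card_univ, Fintype.card_fin] at h3

theorem diff_pos {u v : Pt z N} (h : u ≠ v) :
    0 < (Finset.univ.filter (fun i => u i ≠ v i)).card := by
  rw [Finset.card_pos]
  obtain ⟨i, hi⟩ := Function.ne_iff.1 h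
  exact ⟨i, Finset.mem_filter.2 ⟨Finset.mem_univ _, hi⟩⟩

theorem not_disj (f : Ln z N → Fin K) {T : Type} (pos : T → ZMod R × Pt z N) {t t' : T}
    (h : ¬ Disjoint (nearJ f pos t) (nearJ f pos t')) : ∃ j, ln j (pos t).2 = ln j (pos t').2 := by
  rw [Finset.not_disjoint_iff] at h
  obtain ⟨w, h1, h2⟩ := h
  obtain ⟨_, j, h3⟩ := (mem_nearJ f pos t w).1 h1
  obtain ⟨_, j', h4⟩ := (mem_nearJ f pos t' w).1 h2
  have h5 : ln j (pos t).2 = ln j' (pos t').2 := h3.symm.trans h4
  have h6 := ln_dir h5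
  subst h6
  exact ⟨j, h5⟩

theorem forest (hR : 2 ≤ R) (f : Ln z N → Fin K) (pos : Fin M1 → ZMod R × Pt z N) {g R0 : ℕ}
    (hRg : R * R0 ≤ g) (hpos : ∀ t, (pos t).2 ∈ good R f)
    (hgir : (grJ f (fun t => (pos t).2)).Girth g) (C : Finset (Fin M1)) (hC : C.Nonempty)
    (hCR : C.card ≤ R0) (c : {l : Ln z N // l ∈ lns f} × ZMod R → ℕ)
    (hc : ∀ w, c w = (C.filter (fun t => w ∈ nearJ f pos t)).card) :
    ∑ w, (c w - 1) < C.card := by
  classical
  -- the sum of all `c w`
  have hsum : ∑ w, c w = R * C.card := by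
    have e1 : ∑ w, c w = ∑ w : {l : Ln z N // l ∈ lns f} × ZMod R,
        ∑ t ∈ C, (if w ∈ nearJ f pos t then 1 else 0) := by
      refine Finset.sum_congr rfl fun w _ => ?_
      rw [hc, Finset.card_filter]
    rw [e1, Finset.sum_comm]
    have e2 : ∀ t ∈ C, ∑ w : {l : Ln z N // l ∈ lns f} × ZMod R,
        (if w ∈ nearJ f pos t then 1 else 0) = R := by
      intro t _
      rw [← Finset.card_filter]
      have : Finset.univ.filter (fun w => w ∈ nearJ f pos t) = nearJ f pos t := by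
        ext w; simp
      rw [this]
      exact card_nearJ f pos t (hpos t)
    rw [Finset.sum_congr rfl e2, Finset.sum_const, smul_eq_mul, mul_comm]
  set U : Finset ({l : Ln z N // l ∈ lns f} × ZMod R) := Finset.univ.filter (fun w => 1 ≤ c w)
    with hU
  have hsplit : ∑ w, (c w - 1) + U.card = ∑ w, c w := by
    rw [hU, Finset.card_filter, ← Finset.sum_add_distrib]
    refine Finset.sum_congr rfl fun w _ => ?_
    by_cases h : 1 ≤ c w
    · rw [if_pos h]; omega
    · rw [if_neg h]; omega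
  -- the edges
  let E := {e : Fin M1 × Fin z // e.2 ∈ act f ((fun t => (pos t).2) e.1)}
  set H : Finset E := Finset.univ.filter (fun e => e.1.1 ∈ C) with hH
  have hHcard : H.card = R * C.card := by
    have e1 : H.card = (C.sigma (fun t => act f (pos t).2)).card := by
      refine Finset.card_bij (fun e _ => (⟨e.1.1, e.1.2⟩ : Σ _ : Fin M1, Fin z)) ?_ ?_ ?_
      · intro e he
        rw [Finset.mem_sigma]
        exact ⟨(Finset.mem_filter.1 he).2, e.2⟩
      · intro e _ e' _ h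
        have h1 := congrArg (fun s : Σ _ : Fin M1, Fin z => s.1) h
        have h2 := congrArg (fun s : Σ _ : Fin M1, Fin z => s.2) h
        exact Subtype.ext (Prod.ext h1 h2)
      · rintro ⟨t, j⟩ h
        rw [Finset.mem_sigma] at h
        exact ⟨⟨(t, j), h.2⟩, Finset.mem_filter.2 ⟨Finset.mem_univ _, h.1⟩, rfl⟩
    rw [e1, Finset.card_sigma]
    have e2 : ∀ t ∈ C, (act f (pos t).2).card = R := fun t _ => (mem_good f _).1 (hpos t)
    rw [Finset.sum_congr rfl e2, Finset.sum_const, smul_eq_mul, mul_comm]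
  have hHg : H.card ≤ g := by
    rw [hHcard]
    exact (Nat.mul_le_mul_left R hCR).trans hRg
  have hHne : H.Nonempty := by
    rw [← Finset.card_pos, hHcard]
    exact Nat.mul_pos (by omega) (Finset.card_pos.2 hC)
  have hg := hgir H hHne hHg
  -- the lines
  set L : Finset (Ln z N) := H.image (fun e => ln e.1.2 (pos e.1.1).2) with hL
  have hverts : ((grJ f (fun t => (pos t).2)).verts H).card ≤ C.card + L.card := by
    unfold Pool.Agent.Lib.P325L.Gr.verts
    refine (Finset.card_union_le _ _).trans (Nat.add_le_add ?_ ?_)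
    · have : H.image (grJ f (fun t => (pos t).2)).src ⊆ C.image Sum.inl := by
        intro x hx
        obtain ⟨e, he, rfl⟩ := Finset.mem_image.1 hx
        exact Finset.mem_image.2 ⟨e.1.1, (Finset.mem_filter.1 he).2, rfl⟩
      exact (Finset.card_le_card this).trans Finset.card_image_le
    · have : H.image (grJ f (fun t => (pos t).2)).tgt ⊆ L.image Sum.inr := by
        intro x hx
        obtain ⟨e, he, rfl⟩ := Finset.mem_image.1 hx
        exact Finset.mem_image.2 ⟨_, Finset.mem_image.2 ⟨e, he, rfl⟩, rfl⟩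
      exact (Finset.card_le_card this).trans Finset.card_image_le
  have hLU : L.card ≤ U.card := by
    have : L ⊆ U.image (fun w => w.1.1) := by
      intro l hl
      obtain ⟨e, he, rfl⟩ := Finset.mem_image.1 hl
      have hj : f (ln e.1.2 (pos e.1.1).2) = 0 := (mem_act f _ _).1 e.2
      refine Finset.mem_image.2 ⟨(⟨ln e.1.2 (pos e.1.1).2, (ln_mem_lns f _ _).2 hj⟩,
        (pos e.1.1).1), ?_, rfl⟩
      rw [hU, Finset.mem_filter]
      refine ⟨Finset.mem_univ _, ?_⟩
      rw [hc]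
      refine Finset.card_pos.2 ⟨e.1.1, ?_⟩
      rw [Finset.mem_filter, mem_nearJ]
      exact ⟨(Finset.mem_filter.1 he).2, rfl, e.1.2, rfl⟩
    exact (Finset.card_le_card this).trans Finset.card_image_le
  omega

theorem rho_le_one (hR : 2 ≤ R) : (1 - 1 / (R : ℝ)) ^ R ≤ 1 := by
  have hR0 : (2 : ℝ) ≤ R := by exact_mod_cast hR
  have h1 : 1 / (R : ℝ) ≤ 1 := by
    rw [div_le_one (by linarith)]
    linarith
  have h2 : 0 ≤ 1 / (R : ℝ) := by positivity
  exact pow_le_one₀ (by linarith) (by linarith)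

theorem rho_ge (hR : 2 ≤ R) : 1 / 4 ≤ (1 - 1 / (R : ℝ)) ^ R := by
  have hR0 : (2 : ℝ) ≤ R := by exact_mod_cast hR
  have hRp : (0 : ℝ) < R := by linarith
  have h1 : 1 / (R : ℝ) ≤ 1 := by
    rw [div_le_one (by linarith)]
    linarith
  have hb := one_add_mul_self_le_rpow_one_add (s := -(1 / (R : ℝ))) (by linarith)
    (p := (R : ℝ) / 2) (by linarith)
  have e1 : 1 + (R : ℝ) / 2 * -(1 / (R : ℝ)) = 1 / 2 := by
    field_simp
    norm_num
  rw [e1] at hb
  have e2 : (1 : ℝ) + -(1 / (R : ℝ)) = 1 - 1 / R := by ring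
  rw [e2] at hb
  have hnn : (0 : ℝ) ≤ 1 - 1 / R := by linarith
  have e3 : (1 - 1 / (R : ℝ)) ^ R = ((1 - 1 / (R : ℝ)) ^ ((R : ℝ) / 2)) ^ 2 := by
    rw [← Real.rpow_natCast, ← Real.rpow_natCast, ← Real.rpow_mul hnn]
    congr 1
    push_cast
    ring
  rw [e3]
  nlinarith

/-- The uncovered slots. -/
theorem cnt_unc (f : Ln z N → Fin K) (pos : Fin M1 → ZMod R × Pt z N)
    (A : Finset ({l : Ln z N // l ∈ lns f} × ZMod R)) (t : Fin M1)
    (h : pos t ∈ unW f (A.image (fun w => (w.1.1, w.2)))) : Disjoint (nearJ f pos t) A := by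
  rw [Finset.disjoint_left]
  intro w hw hA
  obtain ⟨h1, j, h2⟩ := (mem_nearJ f pos t w).1 hw
  unfold unW at h
  rw [Finset.mem_filter] at h
  have h3 : f (ln j (pos t).2) = 0 := by
    rw [← ln_mem_lns, ← h2]
    exact w.1.2
  refine h.2.2 j ((mem_act f _ j).2 h3) ?_
  rw [Finset.mem_image]
  exact ⟨w, hA, by rw [h1, h2]⟩

end Near

end SysJAux

open SysJAux

theorem sysJ {z N K R M1 : ℕ} [NeZero N] [NeZero K] [NeZero R] (hR : 2 ≤ R) (hz : 2 ≤ z)
    (i0 i1 : Fin z) (h01 : i0 ≠ i1) (f : Ln z N → Fin K) (pos : Fin M1 → ZMod R × Pt z N)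
    (δ ε D1 : ℝ) (hδ : 0 < δ) (hδε : 7 * R * δ ≤ ε) (hδ8 : 40 * R * δ ≤ 1) (hε : ε ≤ 1)
    (hD1 : 16 ≤ ε * D1) (g B R0 : ℕ) (hg4 : 4 ≤ g) (hBR : (B : ℝ) ≤ ε * R0) (hRg : R * R0 ≤ g)
    (hΛ : 1 ≤ lam z N K) (hV : ((lns f).card : ℝ) ≤ (1 + δ) * lam z N K)
    (hP : (Fintype.card (PlJ z N R i0 i1) : ℝ) ≤ δ * lam z N K)
    (hM : (M1 : ℝ) ≤ (1 + 2 * δ) * (D1 * lam z N K)) (hpos : ∀ t, (pos t).2 ∈ good R f)
    (hW : ∀ W : Finset (Ln z N × ZMod R), (W.card : ℝ) ≤ (1 + 2 * δ) * lam z N K →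
      ((1 - 1 / (R : ℝ)) ^ R - 5 * R * δ) * (D1 * lam z N K) ≤
        ((Finset.univ.filter (fun t => pos t ∈ unW f W)).card : ℝ))
    (hin : ∀ t t', (pos t).1 = (pos t').1 → (pos t).2 ≠ (pos t').2 → ∀ j,
      ln j (pos t).2 = ln j (pos t').2 → f (ln j (pos t).2) = 0)
    (hdeg : ∀ t, (Finset.univ.filter (fun t' => t' ≠ t ∧
      ∃ j, ln j (pos t).2 = ln j (pos t').2)).card ≤ B)
    (hgir : (grJ f (fun t => (pos t).2)).Girth g) :
    Sys R ε ((1 - 1 / (R : ℝ)) ^ R) (nearJ f pos) (fvJ f) (fpJ i0 i1) (cvJ pos)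
      (plJ i0 i1 pos) := by
  classical
  have hRr : (2 : ℝ) ≤ R := by exact_mod_cast hR
  have hρ1 := rho_le_one (R := R) hR
  have hρ4 := rho_ge (R := R) hR
  have hΛ0 : 0 < lam z N K := by linarith
  have hD10 : 0 < D1 := by
    by_contra hcon
    have hε0 : 0 < ε := lt_of_lt_of_le (by positivity) hδε
    have : ε * D1 ≤ 0 := mul_nonpos_of_nonneg_of_nonpos hε0.le (not_lt.1 hcon)
    linarith
  have hDΛ : 0 < D1 * lam z N K := mul_pos hD10 hΛ0
  have hVP : ((Fintype.card {l : Ln z N // l ∈ lns f} : ℕ) : ℝ) +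
      ((Fintype.card (PlJ z N R i0 i1) : ℕ) : ℝ) ≤ (1 + 2 * δ) * lam z N K := by
    rw [Fintype.card_coe]
    linarith
  have hδR : 2 * δ ≤ R * δ := mul_le_mul_of_nonneg_right hRr hδ.le
  refine
    { card_near := fun t => card_nearJ f pos t (hpos t)
      d_near := fun t w hw => d_near hz f pos t w hw
      d_far := fun t w hw => d_far hz f pos t w hw
      d_fp := fun t p => d_fp hz h01 pos t p
      d_pl := fun t => d_pl h01 pos t
      d_ne := fun t t' htt => ?_
      d_dj := fun t t' htt hdj => ?_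
      loc := ⟨B, R0, hBR, fun t => ?_, fun C hC hCR => ?_⟩
      unc := fun A hA => ?_
      small := ?_ }
  · by_cases ha : (pos t).1 = (pos t').1
    · rw [d_pts ha]
      have hu : (pos t).2 ≠ (pos t').2 := fun hu => no_same hR f pos hg4 hpos hgir htt hu
      have := diff_pos hu
      omega
    · rw [d_pts_ne ha]
      omega
  · by_cases ha : (pos t).1 = (pos t').1
    · rw [d_pts ha]
      have hu : (pos t).2 ≠ (pos t').2 := fun hu => no_same hR f pos hg4 hpos hgir htt hu
      have h1 := diff_pos hu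
      by_contra hcon
      have h2 : (Finset.univ.filter (fun i => (pos t).2 i ≠ (pos t').2 i)).card = 1 := by omega
      obtain ⟨j, hj⟩ := Finset.card_eq_one.1 h2
      have h3 : ln j (pos t).2 = ln j (pos t').2 := by
        rw [ln_eq_iff]
        intro i hij
        by_contra hne
        have : i ∈ Finset.univ.filter (fun i => (pos t).2 i ≠ (pos t').2 i) :=
          Finset.mem_filter.2 ⟨Finset.mem_univ _, hne⟩
        rw [hj, Finset.mem_singleton] at this
        exact hij this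
      have h4 := hin t t' ha hu j h3
      have h5 : ln j (pos t).2 ∈ lns f := (ln_mem_lns f j _).2 h4
      refine (Finset.disjoint_left.1 hdj) (a := (⟨ln j (pos t).2, h5⟩, (pos t).1)) ?_ ?_
      · rw [mem_nearJ]
        exact ⟨rfl, j, rfl⟩
      · rw [mem_nearJ]
        exact ⟨ha, j, h3⟩
    · rw [d_pts_ne ha]
      omega
  · refine le_trans ?_ (hdeg t)
    rw [← Set.ncard_coe_finset]
    refine Set.ncard_le_ncard ?_ (Finset.finite_toSet _)
    rintro t' ⟨h1, h2⟩
    rw [Finset.coe_filter]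
    exact ⟨Finset.mem_univ _, h1, not_disj f pos h2⟩
  · refine forest hR f pos hRg hpos hgir C hC hCR _ (fun w => ?_)
    refine congrArg Finset.card ?_
    ext t
    simp only [Finset.mem_filter]
  · have hAr : (A.card : ℝ) ≤ (1 + 2 * δ) * lam z N K := by
      have : (A.card : ℝ) ≤ ((Fintype.card {l : Ln z N // l ∈ lns f} : ℕ) : ℝ) +
          ((Fintype.card (PlJ z N R i0 i1) : ℕ) : ℝ) := by exact_mod_cast hA
      linarith
    have hWc : (((A.image (fun w => (w.1.1, w.2))).card : ℕ) : ℝ) ≤ (1 + 2 * δ) * lam z N K := by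
      have : (((A.image (fun w => (w.1.1, w.2))).card : ℕ) : ℝ) ≤ A.card := by
        exact_mod_cast Finset.card_image_le
      linarith
    have h1 := hW _ hWc
    set cnt : ℝ := ((Finset.univ.filter
      (fun t => pos t ∈ unW f (A.image (fun w => (w.1.1, w.2))))).card : ℝ) with hcnt
    have h2 : cnt ≤ ∑ t : Fin M1, (if Disjoint (nearJ f pos t) A then (1 : ℝ) else 0) := by
      rw [hcnt, Finset.card_filter]
      push_cast
      refine Finset.sum_le_sum fun t _ => ?_
      by_cases h : pos t ∈ unW f (A.image (fun w => (w.1.1, w.2)))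
      · rw [if_pos h, if_pos (cnt_unc f pos A t h)]
      · rw [if_neg h]
        split_ifs <;> norm_num
    have hsum0 : 0 ≤ ∑ t : Fin M1, (if Disjoint (nearJ f pos t) A then (1 : ℝ) else 0) :=
      Finset.sum_nonneg fun t _ => by split_ifs <;> norm_num
    have hunc : Pool.Agent.Lib.P47c.unc (nearJ f pos) A =
        (∑ t : Fin M1, (if Disjoint (nearJ f pos t) A then (1 : ℝ) else 0)) / (M1 : ℝ) := by
      unfold Pool.Agent.Lib.P47c.unc Pool.Agent.Lib.P325P.mean
      rw [Fintype.card_fin]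
      refine congrArg (fun x : ℝ => x / (M1 : ℝ)) ?_
      refine Finset.sum_congr rfl fun t _ => ?_
      by_cases h : Disjoint (nearJ f pos t) A
      · simp only [if_pos h]
      · simp only [if_neg h]
    rw [hunc]
    rcases le_or_gt ((1 - 1 / (R : ℝ)) ^ R - ε) 0 with hle | hgt
    · exact hle.trans (div_nonneg hsum0 (Nat.cast_nonneg _))
    · have h3 : ((1 - 1 / (R : ℝ)) ^ R - ε) * (1 + 2 * δ) ≤
          (1 - 1 / (R : ℝ)) ^ R - 5 * R * δ := by
        have h4 : ((1 - 1 / (R : ℝ)) ^ R - ε) * (2 * δ) ≤ 1 * (2 * δ) :=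
          mul_le_mul_of_nonneg_right (by linarith [lt_of_lt_of_le (by positivity : (0:ℝ) < 7 * R * δ) hδε])
            (by positivity)
        linarith
      have h5 : ((1 - 1 / (R : ℝ)) ^ R - ε) * (1 + 2 * δ) * (D1 * lam z N K) ≤ cnt :=
        (mul_le_mul_of_nonneg_right h3 hDΛ.le).trans h1
      have h6 : ((1 - 1 / (R : ℝ)) ^ R - ε) * (M1 : ℝ) ≤ cnt := by
        refine le_trans ?_ h5
        rw [mul_assoc]
        exact mul_le_mul_of_nonneg_left hM hgt.le
      have hM0 : 0 < (M1 : ℝ) := by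
        by_contra hcon
        have hM1 : (M1 : ℝ) = 0 := le_antisymm (not_lt.1 hcon) (Nat.cast_nonneg _)
        have hpos' : 0 < ((1 - 1 / (R : ℝ)) ^ R - ε) * (1 + 2 * δ) * (D1 * lam z N K) := by
          positivity
        have h7 : cnt ≤ (M1 : ℝ) := by
          rw [hcnt]
          have := Finset.card_filter_le (Finset.univ : Finset (Fin M1))
            (fun t => pos t ∈ unW f (A.image (fun w => (w.1.1, w.2))))
          rw [Finset.card_univ, Fintype.card_fin] at this
          exact_mod_cast this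
        linarith
      rw [le_div_iff₀ hM0]
      exact h6.trans h2
  · have h1 := hW ∅ (by
      rw [Finset.card_empty, Nat.cast_zero]
      positivity)
    have h2 : (((Finset.univ.filter (fun t => pos t ∈ unW f ∅)).card : ℕ) : ℝ) ≤ (M1 : ℝ) := by
      have := Finset.card_filter_le (Finset.univ : Finset (Fin M1))
        (fun t => pos t ∈ unW f ∅)
      rw [Finset.card_univ, Fintype.card_fin] at this
      exact_mod_cast this
    rw [Fintype.card_fin]
    refine hVP.trans ?_
    have hε0 : 0 < ε := lt_of_lt_of_le (by positivity) hδε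
    have h3 : 1 / 8 ≤ (1 - 1 / (R : ℝ)) ^ R - 5 * R * δ := by linarith
    have h4 : 1 / 8 * (D1 * lam z N K) ≤ (M1 : ℝ) :=
      (mul_le_mul_of_nonneg_right h3 hDΛ.le).trans (h1.trans h2)
    have h5 : ε * (1 / 8 * (D1 * lam z N K)) ≤ ε * (M1 : ℝ) :=
      mul_le_mul_of_nonneg_left h4 hε0.le
    have h6 : 16 * lam z N K ≤ ε * D1 * lam z N K :=
      mul_le_mul_of_nonneg_right hD1 hΛ0.le
    have h7 : (1 + 2 * δ) * lam z N K ≤ 2 * lam z N K :=
      mul_le_mul_of_nonneg_right (by linarith) hΛ0.le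
    have h8 : ε * (1 / 8 * (D1 * lam z N K)) = 1 / 8 * (ε * D1 * lam z N K) := by ring
    linarith

end Pool.Agent.Lib.P47j
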