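import Pool.Agent.Lib.P325L.Fam
import Pool.Agent.Lib.P325L.ExtL
import Pool.Agent.Lib.P325L.Coef
import Pool.Agent.Lib.P325L.TagEx
import Pool.Agent.Lib.P325L.CSum
import Pool.Agent.Lib.P325L.Main
import Pool.Agent.Lib.P47j.Defs
import Pool.Agent.Lib.P47j.Bas
import Pool.Agent.Lib.P47j.SelJ
import Pool.Agent.Lib.P47j.NoCh
import Pool.Agent.Lib.P47j.EdgJ
import Pool.Agent.Lib.P47j.SysJ
import Pool.Agent.Lib.P47j.NumJ

/-!
Assembly: for every number of copies there are, for all large `n`, systems of sets with local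
expectations of polynomial degree under which almost all sets are covered.
-/

open scoped BigOperators

namespace Pool.Agent.Lib.P47j

open Pool.Agent.Lib.P325h (IsLocalExpectation)
open Pool.Agent.Lib.P47c (cov)

namespace BaseJAux

/-- `(1 - 1 / R) ^ R` is at least `1 / 4`. -/
theorem rho_ge (R : ℕ) (hR : 2 ≤ R) : (1 : ℝ) / 4 ≤ (1 - 1 / (R : ℝ)) ^ R := by
  have hR2 : (2 : ℝ) ≤ R := by exact_mod_cast hR
  have hR0 : (0 : ℝ) < R := by linarith
  have h1 : (0 : ℝ) ≤ 1 - 1 / (R : ℝ) := by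
    rw [sub_nonneg, div_le_one hR0]
    linarith
  have h2 := one_add_mul_self_le_rpow_one_add (s := -(1 / (R : ℝ))) (p := (R : ℝ) / 2)
    (by linarith) (by linarith)
  have h3 : 1 + (R : ℝ) / 2 * -(1 / (R : ℝ)) = 1 / 2 := by
    field_simp
    ring
  have h4 : 1 + -(1 / (R : ℝ)) = 1 - 1 / (R : ℝ) := by ring
  rw [h3, h4] at h2
  have h5 : ((1 - 1 / (R : ℝ)) ^ ((R : ℝ) / 2)) ^ 2 = (1 - 1 / (R : ℝ)) ^ R := by
    rw [← Real.rpow_natCast ((1 - 1 / (R : ℝ)) ^ ((R : ℝ) / 2)) 2, ← Real.rpow_mul h1,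
      ← Real.rpow_natCast (1 - 1 / (R : ℝ)) R]
    congr 1
    push_cast
    ring
  rw [← h5]
  have h6 := pow_le_pow_left₀ (by norm_num : (0 : ℝ) ≤ 1 / 2) h2 2
  linarith

/-- The integer part of the `z`-th root. -/
theorem root (z n : ℕ) (hz : 1 ≤ z) : ∃ N : ℕ, N ^ z ≤ n ∧ n < (N + 1) ^ z := by
  have hex : ∃ k : ℕ, n < (k + 1) ^ z := by
    refine ⟨n, ?_⟩
    calc n < n + 1 := Nat.lt_succ_self n
      _ = (n + 1) ^ 1 := (pow_one _).symm
      _ ≤ (n + 1) ^ z := Nat.pow_le_pow_right (Nat.succ_pos n) hz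
  classical
  refine ⟨Nat.find hex, ?_, Nat.find_spec hex⟩
  rcases Nat.eq_zero_or_pos (Nat.find hex) with h0 | h0
  · rw [h0, zero_pow (by omega)]
    exact Nat.zero_le n
  · have h1 := Nat.find_min hex (m := Nat.find hex - 1) (by omega)
    rw [not_lt, Nat.sub_add_cancel h0] at h1
    exact h1

/-- The number of the planes. -/
theorem card_PlJ_le (z N R : ℕ) [NeZero N] [NeZero R] (i0 i1 : Fin z) (h01 : i0 ≠ i1) :
    Fintype.card (PlJ z N R i0 i1) ≤ R * N ^ (z - 2) := by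
  classical
  rw [Fintype.card_prod, ZMod.card]
  refine Nat.mul_le_mul_left R ?_
  rw [Fintype.card_subtype]
  have h1 : (Finset.univ.filter (fun v : Pt z N => v i0 = 0 ∧ v i1 = 0)) =
      Fintype.piFinset (fun i => if i = i0 ∨ i = i1 then ({0} : Finset (Fin N))
        else Finset.univ) := by
    ext v
    simp only [Finset.mem_filter, Finset.mem_univ, true_and, Fintype.mem_piFinset]
    constructor
    · intro h i
      by_cases hi : i = i0 ∨ i = i1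
      · rw [if_pos hi, Finset.mem_singleton]
        rcases hi with rfl | rfl
        · exact h.1
        · exact h.2
      · rw [if_neg hi]
        exact Finset.mem_univ _
    · intro h
      refine ⟨?_, ?_⟩
      · have h2 := h i0
        rw [if_pos (Or.inl rfl), Finset.mem_singleton] at h2
        exact h2
      · have h2 := h i1
        rw [if_pos (Or.inr rfl), Finset.mem_singleton] at h2
        exact h2
  rw [h1, Fintype.card_piFinset]
  have h2 : ∀ i : Fin z, (if i = i0 ∨ i = i1 then ({0} : Finset (Fin N))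
      else Finset.univ).card = if i = i0 ∨ i = i1 then 1 else N := by
    intro i
    split_ifs
    · exact Finset.card_singleton _
    · rw [Finset.card_univ, Fintype.card_fin]
  rw [Finset.prod_congr rfl fun i _ => h2 i, Finset.prod_ite, Finset.prod_const_one, one_mul,
    Finset.prod_const]
  have h3 : (Finset.univ.filter (fun i : Fin z => ¬ (i = i0 ∨ i = i1))) =
      (Finset.univ.erase i0).erase i1 := by
    ext i
    simp only [Finset.mem_filter, Finset.mem_univ, true_and, Finset.mem_erase, not_or, and_true]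
    exact and_comm
  rw [h3, Finset.card_erase_of_mem, Finset.card_erase_of_mem (Finset.mem_univ _),
    Finset.card_univ, Fintype.card_fin]
  · exact le_of_eq (by congr 1)
  · rw [Finset.mem_erase]
    exact ⟨h01.symm, Finset.mem_univ _⟩

/-- The local expectation of the labels of the slots and of the lines. -/
theorem expe {z N K R M1 : ℕ} [NeZero N] [NeZero K] [NeZero R] (hR : 2 ≤ R)
    (f : Ln z N → Fin K) (pos : Fin M1 → ZMod R × Pt z N) (hpos : ∀ t, (pos t).2 ∈ good R f)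
    (m g l0 r v0 : ℕ) (hG : (grJ f (fun t => (pos t).2)).Girth g)
    (hS : (grJ f (fun t => (pos t).2)).Sparse (2 * v0) (20 * (m + 3)))
    (d5 : v0 = 6 * (m + 3) * r) (d6 : 2 ≤ r) (d7 : 1 ≤ l0) (d8 : 2 * l0 ≤ g)
    (d9 : 24 * (m + 3) ≤ g) (s u α : ℝ) (hu0 : 0 < u) (hu1 : u < 1) (hu8 : u ^ 8 = s)
    (hα0 : 0 < α) (hα : α = u ^ 8 / (1 - u ^ 8))
    (hm0 : ∀ c : ℕ → ℝ, (∀ j, 0 ≤ c j) → (∀ j ≤ m, c j * ((m : ℝ) + 1 - j) ≤ 1) →
      ∑ j ∈ Finset.range (m + 1), c j * (u ^ 4) ^ j ≤ (u ^ 2 - u ^ 4) / α)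
    (c13 : (v0 : ℝ) * u ^ l0 ≤ 1)
    (c14 : (v0 : ℝ) * (8 * α * (R : ℝ) * (α / (u * (1 - u))) * (u ^ 4) ^ m * v0 +
        4 * (R : ℝ) ^ 2 * u ^ 2 * (α ^ 2 / (u * (1 - u)) ^ 2 + 1 / (1 - u)) * ((m : ℝ) + 1) *
          ((u ^ 4) ^ m * (v0 : ℝ) ^ 2 + v0 * u ^ g)) ≤ 1) :
    ∃ (E : ((Fin M1 ⊕ Ln z N → ZMod R) → ℝ) →ₗ[ℝ] ℝ)
      (rk : ∀ t : Fin M1, {j : Fin z // j ∈ act f (pos t).2} ≃ ZMod R),
      IsLocalExpectation r E ∧
      ∀ (t : Fin M1) (j : {j : Fin z // j ∈ act f (pos t).2}),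
        s ≤ E (fun y => if y (Sum.inr (ln j.1 (pos t).2)) =
          y (Sum.inl t) + ((pos t).1 - rk t j) then 1 else 0) := by
  classical
  have hRpos : (0 : ℝ) < R := by
    have : 0 < R := by omega
    exact_mod_cast this
  have hs1 : s < 1 := by
    rw [← hu8]
    exact pow_lt_one₀ hu0.le hu1 (by norm_num)
  have hs0 : 0 < s := by
    rw [← hu8]
    positivity
  have hrk : ∀ t : Fin M1, Nonempty ({j : Fin z // j ∈ act f (pos t).2} ≃ ZMod R) := by
    intro t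
    refine ⟨Fintype.equivOfCardEq ?_⟩
    rw [Fintype.card_coe, ZMod.card, (mem_good f _).1 (hpos t)]
  have rk : ∀ t : Fin M1, {j : Fin z // j ∈ act f (pos t).2} ≃ ZMod R := fun t => (hrk t).some
  obtain ⟨c, p, hcp⟩ := Pool.Agent.Lib.P325L.coef m
  have hQ : u ^ 4 + u ^ 8 / (1 - u ^ 8) * ∑ j ∈ Finset.range (m + 1), c j * (u ^ 4) ^ j ≤
      u ^ 2 := by
    have h1 := hm0 c hcp.nonneg hcp.le
    rw [le_div_iff₀ hα0] at h1
    rw [← hα]
    nlinarith
  obtain ⟨X, _, _, D, hD⟩ := Pool.Agent.Lib.P325L.tag_ex (ZMod R) m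
    (Fintype.card {e : Fin M1 × Fin z // e.2 ∈ act f ((fun t => (pos t).2) e.1)} + 1)
  have hcard : (Fintype.card (ZMod R) : ℝ) = R := by rw [ZMod.card]
  obtain ⟨L, L1, L2, L3, L4⟩ := Pool.Agent.Lib.P325L.fam D hD (grJ f (fun t => (pos t).2))
    (fun e => (pos e.1.1).1 - rk e.1.1 ⟨e.1.2, e.2⟩) c p
    hcp g (2 * v0) (20 * (m + 3)) r l0 v0 hG hS le_rfl d9 d6 d5 rfl d7 d8 u hu0 hu1 c13 hQ
    _ _ _ rfl rfl rfl
    (by
      rw [hcard, ← hα]
      exact Pool.Agent.Lib.P325L.MainAux.small hα0 hu0 hu1 (Nat.cast_nonneg _) (by positivity)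
        (Nat.cast_nonneg _) (by positivity) c14)
  obtain ⟨E, hE, hEL⟩ := Pool.Agent.Lib.P325L.ext_local r L L1 L2 L3
  refine ⟨E, rk, hE, fun t j => ?_⟩
  have h1 := hEL {Sum.inl t, Sum.inr (ln j.1 (pos t).2)}
    (fun y => if y (Sum.inr (ln j.1 (pos t).2)) = y (Sum.inl t) + ((pos t).1 - rk t j)
      then 1 else 0) (Finset.card_le_two.trans d6) ?_
  · have h2 := L4 ⟨(t, j.1), j.2⟩
    rw [hu8, hcard] at h2
    have h3 : L {Sum.inl t, Sum.inr (ln j.1 (pos t).2)}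
        (fun y => if y (Sum.inr (ln j.1 (pos t).2)) = y (Sum.inl t) + ((pos t).1 - rk t j)
          then 1 else 0) = (1 + s * ((R : ℝ) - 1)) / R := h2
    rw [h1, h3, le_div_iff₀ hRpos]
    nlinarith
  · intro x y hxy
    have h2 := hxy (Sum.inl t) (by simp)
    have h3 := hxy (Sum.inr (ln j.1 (pos t).2)) (by simp)
    simp only [h2, h3]

/-- The set of a point has `z` elements. -/
theorem card_cvJ {z N R : ℕ} [NeZero N] [NeZero R] {T : Type} (pos : T → ZMod R × Pt z N)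
    (t : T) : (cvJ pos t).card = z := by
  unfold cvJ
  rw [Finset.card_image_of_injective, Finset.card_univ, Fintype.card_fin]
  intro i i' h
  simp only [Prod.mk.injEq] at h
  exact h.2.1

/-- All slots are near the set of all active lines. -/
theorem unW_all {z N K R M1 : ℕ} [NeZero N] [NeZero K] [NeZero R] (f : Ln z N → Fin K)
    (pos : Fin M1 → ZMod R × Pt z N) (hpos : ∀ t, (pos t).2 ∈ good R f) :
    (Finset.univ.filter (fun t => pos t ∈ unW f (lns f ×ˢ (Finset.univ : Finset (ZMod R))))) =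
      ∅ := by
  rw [Finset.filter_eq_empty_iff]
  intro t _ ht
  unfold unW at ht
  rw [Finset.mem_filter] at ht
  have h1 := (mem_good f _).1 (hpos t)
  have h2 : (act f (pos t).2).Nonempty := by
    rw [← Finset.card_pos, h1]
    exact Nat.pos_of_ne_zero (NeZero.ne R)
  obtain ⟨j, hj⟩ := h2
  refine ht.2.2 j hj ?_
  rw [Finset.mem_product]
  refine ⟨?_, Finset.mem_univ _⟩
  rw [ln_mem_lns]
  exact (mem_act f _ j).1 hj

/-- The lower bound on the degree. -/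
theorem degr (z n N : ℕ) (e0 : ℝ) (r : ℕ) (he0 : 0 < e0) (hN : 1 ≤ N) (hn : n < (N + 1) ^ z)
    (h : (2 * (N : ℝ)) ^ e0 ≤ r) : (2 * (n : ℝ)) ^ (e0 / ((z : ℝ) + 1)) ≤ r := by
  refine le_trans ?_ h
  have hz : (0 : ℝ) < (z : ℝ) + 1 := by positivity
  have h1 : 2 * n ≤ (2 * N) ^ (z + 1) := by
    have h2 : (N + 1) ^ z ≤ (2 * N) ^ z := Nat.pow_le_pow_left (by omega) z
    calc 2 * n ≤ 2 * (2 * N) ^ z := by omega
      _ ≤ (2 * N) * (2 * N) ^ z := Nat.mul_le_mul_right _ (by omega)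
      _ = (2 * N) ^ (z + 1) := by rw [pow_succ]; ring
  have h3 : (2 * (n : ℝ)) ≤ (2 * (N : ℝ)) ^ ((z : ℝ) + 1) := by
    have h4 : (2 * (n : ℝ)) ≤ (2 * (N : ℝ)) ^ (z + 1) := by exact_mod_cast h1
    refine h4.trans (le_of_eq ?_)
    rw [← Real.rpow_natCast]
    congr 1
    push_cast
    ring
  have h5 : (2 * (n : ℝ)) ^ (e0 / ((z : ℝ) + 1)) ≤
      ((2 * (N : ℝ)) ^ ((z : ℝ) + 1)) ^ (e0 / ((z : ℝ) + 1)) :=
    Real.rpow_le_rpow (by positivity) h3 (by positivity)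
  refine h5.trans (le_of_eq ?_)
  rw [← Real.rpow_mul (by positivity)]
  congr 1
  field_simp

end BaseJAux

open BaseJAux

theorem baseJ (R : ℕ) [NeZero R] (hR : 2 ≤ R) (ε : ℝ) (hε : 0 < ε) (hε1 : ε ≤ 1) :
    ∃ (C : ℕ) (e : ℝ), 1 ≤ C ∧ 0 < e ∧ e ≤ 1 / 4 ∧ ∀ Kc : ℕ, ∃ n0 : ℕ, ∀ n ≥ n0,
      ∃ (V P D : Type) (_ : Fintype V) (_ : DecidableEq V) (_ : Fintype P) (_ : Fintype D)
        (_ : DecidableEq D) (M1 : ℕ) (near : Fin M1 → Finset (V × ZMod R))
        (fv : V × ZMod R → Finset D) (fp : P → Finset D) (cv : Fin M1 → Finset D)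
        (pl : Fin M1 → P) (r : ℕ) (E : ((V → ZMod R) → ℝ) →ₗ[ℝ] ℝ),
        0 < M1 ∧ M1 ≤ C * n ∧ Fintype.card V ≤ C * n ∧ Fintype.card P ≤ C * n ∧
        1 ≤ Fintype.card P ∧ Kc * Fintype.card P ≤ Fintype.card V ∧ (∀ t, 2 ≤ (cv t).card) ∧
        Sys R ε ((1 - 1 / (R : ℝ)) ^ R) near fv fp cv pl ∧
        (2 * (n : ℝ)) ^ e ≤ r ∧ IsLocalExpectation r E ∧ 1 - ε ≤ E (cov near) := by
  classical
  have hR2 : (2 : ℝ) ≤ R := by exact_mod_cast hR
  have hR0 : (0 : ℝ) < R := by linarith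
  obtain ⟨δ, hδdef⟩ : ∃ δ : ℝ, δ = ε / (40 * R) := ⟨_, rfl⟩
  have hδ : 0 < δ := by rw [hδdef]; positivity
  have hRδ : 40 * R * δ = ε := by
    rw [hδdef]
    field_simp
  have hδε' : δ ≤ ε := by nlinarith
  have hδ80 : δ ≤ 1 / 80 := by nlinarith
  obtain ⟨z, K, Δ, B, hNK, D1, ε1, hz, hΔ, hD1, hε1', N1, hsel⟩ :=
    selJ R hR δ hδ (by linarith)
  have hzR : (2 : ℝ) ≤ z := by exact_mod_cast hz
  have hKpos : 0 < K := Nat.pos_of_ne_zero (NeZero.ne K)
  have hKR : (0 : ℝ) < K := by exact_mod_cast hKpos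
  have hD1pos : 0 < D1 := by
    by_contra h
    rw [not_lt] at h
    have h1 : δ ^ 2 * D1 ≤ 0 := mul_nonpos_of_nonneg_of_nonpos (by positivity) h
    linarith
  have hD16 : 16 ≤ ε * D1 := by
    have h1 : δ ^ 2 ≤ ε := by nlinarith
    have h2 : δ ^ 2 * D1 ≤ ε * D1 := mul_le_mul_of_nonneg_right h1 hD1pos.le
    linarith
  obtain ⟨R0, hR0B⟩ : ∃ R0 : ℕ, (B : ℝ) ≤ ε * R0 := by
    refine ⟨⌈(B : ℝ) / ε⌉₊, ?_⟩
    have h1 : (B : ℝ) / ε ≤ (⌈(B : ℝ) / ε⌉₊ : ℝ) := Nat.le_ceil _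
    rw [div_le_iff₀ hε] at h1
    linarith
  obtain ⟨s, hs⟩ : ∃ s : ℝ, s = 1 - ε / R := ⟨_, rfl⟩
  have hεR : ε / R ≤ 1 / 2 := by
    rw [div_le_iff₀ hR0]
    linarith
  have hεR0 : 0 < ε / R := by positivity
  have hs1 : s < 1 := by rw [hs]; linarith
  have hs2 : 1 / 2 ≤ s := by rw [hs]; linarith
  have hs0 : 0 < s := by linarith
  have hRs : (R : ℝ) * (1 - s) = ε := by
    rw [hs]
    field_simp
    ring
  set u : ℝ := s ^ (1 / 8 : ℝ) with hu
  have hu0 : 0 < u := Real.rpow_pos_of_pos hs0 _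
  have hu1 : u < 1 := Real.rpow_lt_one hs0.le hs1 (by norm_num)
  have hu8 : u ^ 8 = s := by
    rw [hu, ← Real.rpow_natCast, ← Real.rpow_mul hs0.le]
    norm_num
  have h1u : 0 < 1 - u := by linarith
  have hα8 : 0 < 1 - u ^ 8 := by rw [hu8]; linarith
  obtain ⟨α, hα⟩ : ∃ α : ℝ, α = u ^ 8 / (1 - u ^ 8) := ⟨_, rfl⟩
  have hα0 : 0 < α := by
    rw [hα]
    exact div_pos (by positivity) hα8
  have hu42 : u ^ 4 < u ^ 2 := pow_lt_pow_right_of_lt_one₀ hu0 hu1 (by norm_num)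
  have hεα : 0 < (u ^ 2 - u ^ 4) / α := div_pos (by linarith) hα0
  obtain ⟨mc, hmc⟩ := Pool.Agent.Lib.P325L.csum (u ^ 4) _ (by positivity)
    (pow_lt_one₀ hu0.le hu1 (by norm_num)) hεα
  have hu1u : 0 < u * (1 - u) := mul_pos hu0 h1u
  have ha : 0 < 8 * α * (R : ℝ) * (α / (u * (1 - u))) := by positivity
  have hb : 0 < 4 * (R : ℝ) ^ 2 * u ^ 2 * (α ^ 2 / (u * (1 - u)) ^ 2 + 1 / (1 - u)) := by
    positivity
  obtain ⟨e0, he0, he04, hnum⟩ := numJ s hs2 hs1 _ _ ha hb z Δ (by omega) hΔ ε1 hε1'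
  have hz1 : (0 : ℝ) < (z : ℝ) + 1 := by positivity
  refine ⟨z + Δ + R, e0 / ((z : ℝ) + 1), by omega, by positivity, ?_, fun Kc => ?_⟩
  · rw [div_le_iff₀ hz1]
    linarith
  obtain ⟨m1, hm1⟩ : ∃ m1 : ℕ, (R : ℝ) * K / (δ * z) ≤ m1 := exists_nat_ge _
  obtain ⟨n1, hn1⟩ := hnum (mc + (R * R0 + 4) + (R + 1) + N1 + m1 + Kc * R ^ 2 * K)
  refine ⟨n1 ^ z, fun n hn => ?_⟩
  obtain ⟨N, hNn, hnN⟩ := root z n (by omega)
  have hN1 : n1 ≤ N := by
    by_contra h
    rw [not_le] at h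
    have h1 : (N + 1) ^ z ≤ n1 ^ z := Nat.pow_le_pow_left h z
    omega
  obtain ⟨m, g, l0, r, v0, d1, d2, d3, d4, d5, d6, d7, d8, d9, d10, d11, d12, d13, d14, d15,
    d16⟩ := hn1 N hN1
  rw [← hu] at d14 d15
  have hNpos : 1 ≤ N := by omega
  haveI : NeZero N := ⟨by omega⟩
  have hNR : (0 : ℝ) < N := by exact_mod_cast hNpos
  obtain ⟨f, M1, pos, hΛ, hM1, hV, hM1', hpos, hW, hin, hdeg, hsh, hlo⟩ :=
    hsel N (by omega) g (2 * v0) (20 * (m + 3)) (by omega) (by omega) d10 d11 d12 d13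
  obtain ⟨hG, hS⟩ := noCh f (fun t => (pos t).2) g (2 * v0) (20 * (m + 3)) (by omega) hsh hlo
  obtain ⟨E, rk, hE, hedge⟩ := expe hR f pos hpos m g l0 r v0 hG hS d5 d6 d7 d8 d9 s u α hu0 hu1
    hu8 hα0 hα (hmc m (by omega)) d14 d15
  have hρ := rho_ge R hR
  have hpos1 : 0 < ((1 - 1 / (R : ℝ)) ^ R - 5 * R * δ) * (D1 * lam z N K) := by
    have h1 : 0 < (1 - 1 / (R : ℝ)) ^ R - 5 * R * δ := by
      have h2 : 5 * R * δ = ε / 8 := by rw [← hRδ]; ring
      rw [h2]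
      linarith
    have h3 : 0 < lam z N K := by linarith
    positivity
  have hMpos : 0 < M1 := by
    have h1 := hW ∅ (by
      rw [Finset.card_empty, Nat.cast_zero]
      have h3 : 0 < lam z N K := by linarith
      positivity)
    have h2 : (0 : ℝ) <
        ((Finset.univ.filter (fun t => pos t ∈ unW f (∅ : Finset (Ln z N × ZMod R)))).card :
          ℝ) := lt_of_lt_of_le hpos1 h1
    have h3 : 0 < (Finset.univ.filter
        (fun t => pos t ∈ unW f (∅ : Finset (Ln z N × ZMod R)))).card := by exact_mod_cast h2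
    have h4 := Finset.card_le_univ
      (Finset.univ.filter (fun t => pos t ∈ unW f (∅ : Finset (Ln z N × ZMod R))))
    rw [Fintype.card_fin] at h4
    omega
  obtain ⟨E', hE', hcov⟩ := edgJ hMpos f pos hpos E r (by omega) hE s rk hedge
  rw [hRs] at hcov
  -- the planes
  obtain ⟨i0, hi0⟩ : ∃ i : Fin z, i = ⟨0, by omega⟩ := ⟨_, rfl⟩
  obtain ⟨i1, hi1⟩ : ∃ i : Fin z, i = ⟨1, by omega⟩ := ⟨_, rfl⟩
  have h01 : i0 ≠ i1 := by
    rw [hi0, hi1]
    intro h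
    have := congrArg Fin.val h
    simp at this
  have hPc := card_PlJ_le z N R i0 i1 h01
  have hpw : (N : ℝ) ^ (z - 1) = (N : ℝ) ^ (z - 2) * N := by
    rw [← pow_succ]
    congr 1
    omega
  have hpw0 : (0 : ℝ) < (N : ℝ) ^ (z - 2) := by positivity
  have hPcR : (Fintype.card (PlJ z N R i0 i1) : ℝ) ≤ R * (N : ℝ) ^ (z - 2) := by
    exact_mod_cast hPc
  have hlam : lam z N K = (z : ℝ) * ((N : ℝ) ^ (z - 2) * N) / K := by
    unfold lam
    rw [hpw]
  have hPδ : (Fintype.card (PlJ z N R i0 i1) : ℝ) ≤ δ * lam z N K := by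
    refine hPcR.trans ?_
    rw [hlam, ← mul_div_assoc, le_div_iff₀ hKR]
    have h1 : (R : ℝ) * K ≤ δ * z * N := by
      have h2 : (R : ℝ) * K / (δ * z) ≤ N := by
        refine hm1.trans ?_
        have : m1 ≤ N := by omega
        exact_mod_cast this
      rw [div_le_iff₀ (by positivity)] at h2
      linarith
    have h3 := mul_le_mul_of_nonneg_left h1 hpw0.le
    linarith
  have hsys := sysJ hR hz i0 i1 h01 f pos δ ε D1 hδ (by linarith) (by linarith) hε1 hD16 g B R0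
    (by omega) hR0B (by omega) hΛ hV hPδ hM1' hpos hW hin hdeg hG
  have hNz : N ^ (z - 1) ≤ n := (Nat.pow_le_pow_right hNpos (by omega)).trans hNn
  have hNz2 : N ^ (z - 2) ≤ n := (Nat.pow_le_pow_right hNpos (by omega)).trans hNn
  have hVcard : Fintype.card {l : Ln z N // l ∈ lns f} = (lns f).card := Fintype.card_coe _
  have hVlow : lam z N K < R * ((lns f).card : ℝ) := by
    by_contra hle
    rw [not_lt] at hle
    have h1 := hW (lns f ×ˢ (Finset.univ : Finset (ZMod R))) (by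
      rw [Finset.card_product, Finset.card_univ, ZMod.card]
      push_cast
      have h3 : 0 < lam z N K := by linarith
      nlinarith)
    rw [unW_all f pos hpos, Finset.card_empty, Nat.cast_zero] at h1
    linarith
  refine ⟨{l : Ln z N // l ∈ lns f}, PlJ z N R i0 i1, ZMod R × Fin z × Fin N, inferInstance,
    inferInstance, inferInstance, inferInstance, inferInstance, M1, nearJ f pos, fvJ f,
    fpJ i0 i1, cvJ pos, plJ i0 i1 pos, r, E', hMpos, ?_, ?_, ?_, ?_, ?_, ?_, hsys, ?_, hE',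
    hcov⟩
  · calc M1 ≤ Δ * N ^ (z - 1) := hM1
      _ ≤ Δ * n := Nat.mul_le_mul_left _ hNz
      _ ≤ (z + Δ + R) * n := Nat.mul_le_mul_right _ (by omega)
  · rw [hVcard]
    calc (lns f).card ≤ z * N ^ (z - 1) := card_lns_le f
      _ ≤ z * n := Nat.mul_le_mul_left _ hNz
      _ ≤ (z + Δ + R) * n := Nat.mul_le_mul_right _ (by omega)
  · calc Fintype.card (PlJ z N R i0 i1) ≤ R * N ^ (z - 2) := hPc
      _ ≤ R * n := Nat.mul_le_mul_left _ hNz2
      _ ≤ (z + Δ + R) * n := Nat.mul_le_mul_right _ (by omega)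
  · exact Fintype.card_pos_iff.2 ⟨plJ i0 i1 pos ⟨0, hMpos⟩⟩
  · rw [hVcard]
    have h1 : (Kc : ℝ) * (R * (N : ℝ) ^ (z - 2)) ≤ ((lns f).card : ℝ) := by
      have h2 : (Kc : ℝ) * R ^ 2 * K ≤ N := by
        have : Kc * R ^ 2 * K ≤ N := by omega
        exact_mod_cast this
      have h3 : (Kc : ℝ) * R ^ 2 * K ≤ z * N := by nlinarith
      have h4 : (Kc : ℝ) * R ^ 2 * K * (N : ℝ) ^ (z - 2) ≤ z * N * (N : ℝ) ^ (z - 2) :=
        mul_le_mul_of_nonneg_right h3 hpw0.le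
      rw [hlam, div_lt_iff₀ hKR] at hVlow
      have h5 : (Kc : ℝ) * R ^ 2 * K * (N : ℝ) ^ (z - 2) < R * ((lns f).card : ℝ) * K := by
        refine lt_of_le_of_lt h4 ?_
        linarith
      have h6 : (R : ℝ) * K * (Kc * (R * (N : ℝ) ^ (z - 2))) ≤
          (R : ℝ) * K * ((lns f).card : ℝ) := by
        linarith
      exact le_of_mul_le_mul_left h6 (by positivity)
    have h7 : (Kc * Fintype.card (PlJ z N R i0 i1) : ℝ) ≤ ((lns f).card : ℝ) :=
      (mul_le_mul_of_nonneg_left hPcR (Nat.cast_nonneg _)).trans h1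
    exact_mod_cast h7
  · intro t
    rw [card_cvJ]
    exact hz
  · exact degr z n N e0 r he0 hNpos hnN d16

end Pool.Agent.Lib.P47j
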