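import Mathlib

/-!
Module GeoJ (2h; Mathlib only). Clusters.
PROOF. (clusJ) ∑_{t,t'} ‖x t - x t'‖^2 = 2 |C| ∑ ‖x t - c‖^2 - 2 ‖∑ (x t - c)‖^2 (expand ‖(x t - c) - (x t' - c)‖^2).
(cluster) Let C ≠ ∅, n = |C|, c_w = #{t ∈ C : w ∈ near t}, cm = max_w c_w (attained at some w; near t ≠ ∅, so cm ≥ 1). Let Adj be the number of the ordered pairs (t, t') in C, t ≠ t', near t, near t' not disjoint. ∑_{t ≠ t'} ‖x t - x t'‖^2 ≥ 4 n (n-1) - 2 Adj, so
∑_{t ∈ C} ‖x t - c‖^2 ≥ 2 (n-1) - Adj/n. If n ≤ R0: Adj ≤ ∑_w c_w (c_w - 1) ≤ cm ∑_w (c_w - 1) ≤ cm n (natural subtraction, hfor), so Adj/n ≤ cm. If n > R0: Adj ≤ n B, Adj/n ≤ B ≤ ε R0 ≤ ε n. In both cases ∑ ≥ 2 n - 2 - cm - ε n.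
(geoJ) Every t with not 2 ≤ F t chooses a centre c(t) ∈ Z1 with ‖x t - c(t)‖^2 ≤ F t. C_c = {t : c(t) = c}; for C_c ≠ ∅ let w_c attain cm(c). A = {w_c : c ∈ Z1, C_c ≠ ∅}, |A| ≤ |Z1| ≤ k1. ∑_c cm(c) = ∑_c #{t ∈ C_c : w_c ∈ near t} ≤ #{t : near t not disjoint from A}
≤ |T| - |T| (ρ - ε). Total ≥ 2 (|T| - ∑ |C_c|) + ∑_c (2 |C_c| - 2 - cm(c) - ε |C_c|) ≥ 2 |T| - 2 k1 - ε |T| - |T| (1 - ρ + ε) ≥ |T| (1 + ρ - 4 ε).
-/

open scoped BigOperators

namespace Pool.Agent.Lib.P47j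

theorem clusJ {E T : Type} [NormedAddCommGroup E] [InnerProductSpace ℝ E] (C : Finset T)
    (x : T → E) (c : E) :
    ∑ t ∈ C, ∑ t' ∈ C, ‖x t - x t'‖ ^ 2 ≤ 2 * (C.card : ℝ) * ∑ t ∈ C, ‖x t - c‖ ^ 2 := by
  have h1 : ∀ t t', ‖x t - x t'‖ ^ 2 =
      ‖x t - c‖ ^ 2 - 2 * inner ℝ (x t - c) (x t' - c) + ‖x t' - c‖ ^ 2 := by
    intro t t'
    have h := norm_sub_sq_real (x t - c) (x t' - c)
    rw [sub_sub_sub_cancel_right] at h
    exact h
  have h2 : ∑ t ∈ C, ∑ t' ∈ C, inner ℝ (x t - c) (x t' - c) =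
      ‖∑ t ∈ C, (x t - c)‖ ^ 2 := by
    rw [← real_inner_self_eq_norm_sq, sum_inner]
    refine Finset.sum_congr rfl fun t _ => ?_
    rw [inner_sum]
  have h3 : ∑ t ∈ C, ∑ t' ∈ C, ‖x t - x t'‖ ^ 2 =
      2 * (C.card : ℝ) * ∑ t ∈ C, ‖x t - c‖ ^ 2 - 2 * ‖∑ t ∈ C, (x t - c)‖ ^ 2 := by
    rw [← h2]
    simp only [h1]
    generalize (fun t => x t - c) = y
    simp only [Finset.sum_add_distrib, Finset.sum_sub_distrib, Finset.sum_const,
      nsmul_eq_mul, ← Finset.mul_sum]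
    ring
  rw [h3]
  nlinarith [sq_nonneg ‖∑ t ∈ C, (x t - c)‖]

namespace GeoJAux

variable {E T W : Type} [NormedAddCommGroup E] [InnerProductSpace ℝ E]
    [DecidableEq T] [Fintype W] [DecidableEq W]

/-- The number of the points of `C` near `w`. -/
def cw (near : T → Finset W) (C : Finset T) (w : W) : ℕ := (C.filter (fun t => w ∈ near t)).card

/-- The neighbours of `t` in `C`. -/
def adj (near : T → Finset W) (C : Finset T) (t : T) : ℕ :=
  (C.filter (fun t' => t' ≠ t ∧ ¬ Disjoint (near t) (near t'))).card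

theorem adj_le (near : T → Finset W) (C : Finset T) {t : T} (ht : t ∈ C) :
    adj near C t ≤ ∑ w ∈ near t, (cw near C w - 1) := by
  have h1 : C.filter (fun t' => t' ≠ t ∧ ¬ Disjoint (near t) (near t')) ⊆
      (near t).biUnion (fun w => (C.filter (fun t' => w ∈ near t')).erase t) := by
    intro t' ht'
    rw [Finset.mem_filter] at ht'
    obtain ⟨h1, h2, h3⟩ := ht'
    rw [Finset.not_disjoint_iff] at h3
    obtain ⟨w, hw, hw'⟩ := h3
    rw [Finset.mem_biUnion]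
    exact ⟨w, hw, Finset.mem_erase.2 ⟨h2, Finset.mem_filter.2 ⟨h1, hw'⟩⟩⟩
  refine (Finset.card_le_card h1).trans (Finset.card_biUnion_le.trans ?_)
  refine Finset.sum_le_sum fun w hw => ?_
  rw [Finset.card_erase_of_mem (Finset.mem_filter.2 ⟨ht, hw⟩)]
  exact le_rfl

theorem sum_adj_le (near : T → Finset W) (C : Finset T) (m : ℕ)
    (hm : ∀ w, cw near C w ≤ m) :
    ∑ t ∈ C, adj near C t ≤ m * ∑ w : W, (cw near C w - 1) := by
  calc ∑ t ∈ C, adj near C t ≤ ∑ t ∈ C, ∑ w ∈ near t, (cw near C w - 1) :=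
        Finset.sum_le_sum fun t ht => adj_le near C ht
    _ = ∑ t ∈ C, ∑ w : W, (if w ∈ near t then (cw near C w - 1) else 0) := by
        refine Finset.sum_congr rfl fun t _ => ?_
        rw [← Finset.sum_filter]
        refine Finset.sum_congr ?_ fun _ _ => rfl
        ext w
        simp
    _ = ∑ w : W, ∑ t ∈ C, (if w ∈ near t then (cw near C w - 1) else 0) := Finset.sum_comm
    _ = ∑ w : W, cw near C w * (cw near C w - 1) := by
        refine Finset.sum_congr rfl fun w _ => ?_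
        rw [← Finset.sum_filter, Finset.sum_const, smul_eq_mul]
        rfl
    _ ≤ ∑ w : W, m * (cw near C w - 1) :=
        Finset.sum_le_sum fun w _ => Nat.mul_le_mul_right _ (hm w)
    _ = m * ∑ w : W, (cw near C w - 1) := (Finset.mul_sum _ _ _).symm

/-- Distances inside a cluster. -/
theorem pair_sum (x : T → E) (near : T → Finset W)
    (h2 : ∀ t t', t ≠ t' → 2 ≤ ‖x t - x t'‖ ^ 2)
    (h4 : ∀ t t', t ≠ t' → Disjoint (near t) (near t') → 4 ≤ ‖x t - x t'‖ ^ 2)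
    (C : Finset T) {t : T} (ht : t ∈ C) :
    4 * ((C.card : ℝ) - 1) - 2 * (adj near C t : ℝ) ≤ ∑ t' ∈ C, ‖x t - x t'‖ ^ 2 := by
  have h5 : ∀ t' ∈ C, 4 - 4 * (if t' = t then (1 : ℝ) else 0) -
      2 * (if t' ≠ t ∧ ¬ Disjoint (near t) (near t') then (1 : ℝ) else 0) ≤
        ‖x t - x t'‖ ^ 2 := by
    intro t' _
    by_cases h : t' = t
    · rw [if_pos h, if_neg (by tauto)]
      have := sq_nonneg ‖x t - x t'‖
      linarith
    · rw [if_neg h]
      by_cases hd : Disjoint (near t) (near t')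
      · rw [if_neg (by tauto)]
        have := h4 t t' (fun h' => h h'.symm) hd
        linarith
      · rw [if_pos ⟨h, hd⟩]
        have := h2 t t' (fun h' => h h'.symm)
        linarith
  refine le_trans (le_of_eq ?_) (Finset.sum_le_sum h5)
  rw [Finset.sum_sub_distrib, Finset.sum_sub_distrib, ← Finset.mul_sum, ← Finset.mul_sum,
    Finset.sum_const, nsmul_eq_mul, Finset.sum_ite_eq' C t, if_pos ht, Finset.sum_boole]
  unfold adj
  ring

/-- The cost of a cluster. -/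
theorem cluster [Nonempty W] (x : T → E) (near : T → Finset W) (ε : ℝ)
    (hε : 0 < ε) (B R0 : ℕ) (hne : ∀ t, (near t).Nonempty)
    (h2 : ∀ t t', t ≠ t' → 2 ≤ ‖x t - x t'‖ ^ 2)
    (h4 : ∀ t t', t ≠ t' → Disjoint (near t) (near t') → 4 ≤ ‖x t - x t'‖ ^ 2)
    (hB : (B : ℝ) ≤ ε * R0) (C : Finset T) (hdeg : ∀ t ∈ C, adj near C t ≤ B)
    (hfor : C.Nonempty → C.card ≤ R0 → ∑ w : W, (cw near C w - 1) < C.card) (c : E) :
    ∃ w : W, 2 * (C.card : ℝ) - 2 - (cw near C w : ℝ) - ε * (C.card : ℝ) ≤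
      ∑ t ∈ C, ‖x t - c‖ ^ 2 := by
  rcases C.eq_empty_or_nonempty with rfl | hC
  · obtain ⟨w⟩ := (inferInstance : Nonempty W)
    refine ⟨w, ?_⟩
    simp [cw]
  obtain ⟨w, -, hw⟩ := Finset.exists_max_image (Finset.univ : Finset W) (cw near C)
    Finset.univ_nonempty
  refine ⟨w, ?_⟩
  have hn : 0 < C.card := Finset.card_pos.2 hC
  have hn' : (0 : ℝ) < (C.card : ℝ) := by exact_mod_cast hn
  set S : ℝ := ∑ t ∈ C, ‖x t - c‖ ^ 2 with hS
  -- the bound on the number of neighbours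
  have hA : (∑ t ∈ C, (adj near C t : ℝ)) ≤ ((cw near C w : ℝ) + ε * C.card) * C.card := by
    by_cases hR : C.card ≤ R0
    · have h1 := sum_adj_le near C (cw near C w) (fun w' => hw w' (Finset.mem_univ _))
      have h3 := h1.trans (Nat.mul_le_mul_left _ (hfor hC hR).le)
      have h5 : (∑ t ∈ C, (adj near C t : ℝ)) ≤ (cw near C w : ℝ) * C.card := by
        exact_mod_cast h3
      have h6 : 0 ≤ ε * C.card * C.card := by positivity
      nlinarith
    · push Not at hR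
      have h1 : (∑ t ∈ C, (adj near C t : ℝ)) ≤ ∑ _t ∈ C, (B : ℝ) :=
        Finset.sum_le_sum fun t ht => by exact_mod_cast hdeg t ht
      rw [Finset.sum_const, nsmul_eq_mul] at h1
      have h3 : (B : ℝ) ≤ ε * C.card := by
        refine hB.trans ?_
        have : (R0 : ℝ) ≤ C.card := by exact_mod_cast hR.le
        exact mul_le_mul_of_nonneg_left this hε.le
      have h5 : (0 : ℝ) ≤ (cw near C w : ℝ) * C.card := by positivity
      have h6 : (C.card : ℝ) * B ≤ C.card * (ε * C.card) :=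
        mul_le_mul_of_nonneg_left h3 hn'.le
      nlinarith
  have h7 : ∑ t ∈ C, (4 * ((C.card : ℝ) - 1) - 2 * (adj near C t : ℝ)) ≤
      ∑ t ∈ C, ∑ t' ∈ C, ‖x t - x t'‖ ^ 2 :=
    Finset.sum_le_sum fun t ht => pair_sum x near h2 h4 C ht
  have h8 := h7.trans (clusJ C x c)
  rw [Finset.sum_sub_distrib, Finset.sum_const, nsmul_eq_mul, ← Finset.mul_sum, ← hS] at h8
  have h9 : (C.card : ℝ) * (2 * (C.card : ℝ) - 2 - (cw near C w : ℝ) - ε * (C.card : ℝ)) ≤
      C.card * S := by nlinarith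
  exact le_of_mul_le_mul_left h9 hn'

end GeoJAux

open GeoJAux in
theorem geoJ {E T W : Type} [NormedAddCommGroup E] [InnerProductSpace ℝ E] [Fintype T]
    [DecidableEq T] [Fintype W] [DecidableEq W] (x : T → E) (near : T → Finset W) (ε ρ : ℝ)
    (hε : 0 < ε) (k1 B R0 : ℕ) (hne : ∀ t, (near t).Nonempty)
    (h2 : ∀ t t', t ≠ t' → 2 ≤ ‖x t - x t'‖ ^ 2)
    (h4 : ∀ t t', t ≠ t' → Disjoint (near t) (near t') → 4 ≤ ‖x t - x t'‖ ^ 2)
    (hB : (B : ℝ) ≤ ε * R0)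
    (hdeg : ∀ t, (Finset.univ.filter (fun t' => t' ≠ t ∧ ¬ Disjoint (near t) (near t'))).card ≤ B)
    (hfor : ∀ C : Finset T, C.Nonempty → C.card ≤ R0 →
      ∑ w : W, ((C.filter (fun t => w ∈ near t)).card - 1) < C.card)
    (hunc : ∀ A : Finset W, A.card ≤ k1 → (Fintype.card T : ℝ) * (ρ - ε) ≤
      ((Finset.univ.filter (fun t => Disjoint (near t) A)).card : ℝ))
    (hk1 : (k1 : ℝ) ≤ ε * Fintype.card T) (Z1 : Finset E) (hZ1 : Z1.card ≤ k1) (F : T → ℝ)
    (hF : ∀ t, 2 ≤ F t ∨ ∃ c ∈ Z1, ‖x t - c‖ ^ 2 ≤ F t) :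
    (Fintype.card T : ℝ) * (1 + ρ - 4 * ε) ≤ ∑ t, F t := by
  classical
  rcases isEmpty_or_nonempty T with hT | hT
  · simp
  obtain ⟨t0⟩ := hT
  obtain ⟨w0, -⟩ := hne t0
  have : Nonempty W := ⟨w0⟩
  -- the chosen centres
  have hch : ∀ t, ∃ c : E, ¬ 2 ≤ F t → c ∈ Z1 ∧ ‖x t - c‖ ^ 2 ≤ F t := by
    intro t
    by_cases h : 2 ≤ F t
    · exact ⟨0, fun h' => absurd h h'⟩
    · rcases hF t with h' | ⟨c, hc, hc'⟩
      · exact absurd h' h
      · exact ⟨c, fun _ => ⟨hc, hc'⟩⟩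
  choose g hg using hch
  set T1 : Finset T := Finset.univ.filter (fun t => ¬ 2 ≤ F t) with hT1
  set Cc : E → Finset T := fun c => T1.filter (fun t => g t = c) with hCc
  have hcl : ∀ c : E, ∃ w : W, 2 * ((Cc c).card : ℝ) - 2 - (cw near (Cc c) w : ℝ) -
      ε * ((Cc c).card : ℝ) ≤ ∑ t ∈ Cc c, ‖x t - c‖ ^ 2 := by
    intro c
    refine cluster x near ε hε B R0 hne h2 h4 hB (Cc c) (fun t _ => ?_) (fun h1 h3 => hfor _ h1 h3) c
    refine le_trans (Finset.card_le_card ?_) (hdeg t)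
    intro t' ht'
    rw [Finset.mem_filter] at ht' ⊢
    exact ⟨Finset.mem_univ _, ht'.2⟩
  choose wc hwc using hcl
  set A : Finset W := Z1.image wc with hA
  have hAc : A.card ≤ k1 := Finset.card_image_le.trans hZ1
  have hmaps : ∀ t ∈ T1, g t ∈ Z1 := fun t ht => (hg t (Finset.mem_filter.1 ht).2).1
  -- the sum over the chosen clusters
  have hsum : ∀ φ : T → ℝ, ∑ c ∈ Z1, ∑ t ∈ Cc c, φ t = ∑ t ∈ T1, φ t := fun φ =>
    Finset.sum_fiberwise_of_maps_to hmaps φ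
  have hcard : ∑ c ∈ Z1, ((Cc c).card : ℝ) = T1.card := by
    have := hsum (fun _ => 1)
    simpa using this
  have hcov : ∑ c ∈ Z1, (cw near (Cc c) (wc c) : ℝ) ≤
      (Fintype.card T : ℝ) - (Fintype.card T : ℝ) * (ρ - ε) := by
    have h1 : ∑ c ∈ Z1, (cw near (Cc c) (wc c) : ℝ) =
        ∑ c ∈ Z1, ∑ t ∈ Cc c, (if wc (g t) ∈ near t then (1 : ℝ) else 0) := by
      refine Finset.sum_congr rfl fun c _ => ?_
      have h3 : ∑ t ∈ Cc c, (if wc (g t) ∈ near t then (1 : ℝ) else 0) =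
          ∑ t ∈ Cc c, (if wc c ∈ near t then (1 : ℝ) else 0) := by
        refine Finset.sum_congr rfl fun t ht => ?_
        rw [(Finset.mem_filter.1 ht).2]
      rw [h3, Finset.sum_boole]
      rfl
    rw [h1, hsum]
    have h3 : ∑ t ∈ T1, (if wc (g t) ∈ near t then (1 : ℝ) else 0) ≤
        ((Finset.univ.filter (fun t => ¬ Disjoint (near t) A)).card : ℝ) := by
      rw [Finset.sum_boole]
      have : T1.filter (fun t => wc (g t) ∈ near t) ⊆
          Finset.univ.filter (fun t => ¬ Disjoint (near t) A) := by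
        intro t ht
        rw [Finset.mem_filter] at ht ⊢
        refine ⟨Finset.mem_univ _, ?_⟩
        rw [Finset.not_disjoint_iff]
        exact ⟨_, ht.2, Finset.mem_image_of_mem _ (hmaps t ht.1)⟩
      exact_mod_cast Finset.card_le_card this
    have h5 : (Finset.univ.filter (fun t => Disjoint (near t) A)).card +
        (Finset.univ.filter (fun t => ¬ Disjoint (near t) A)).card = Fintype.card T := by
      rw [Finset.card_filter_add_card_filter_not]
      rfl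
    have h6 : ((Finset.univ.filter (fun t => Disjoint (near t) A)).card : ℝ) +
        ((Finset.univ.filter (fun t => ¬ Disjoint (near t) A)).card : ℝ) = Fintype.card T := by
      exact_mod_cast h5
    have h7 := hunc A hAc
    linarith
  -- the total
  have h10 : ∑ t ∈ T1, F t ≥ ∑ c ∈ Z1, (2 * ((Cc c).card : ℝ) - 2 - (cw near (Cc c) (wc c) : ℝ) -
      ε * ((Cc c).card : ℝ)) := by
    rw [← hsum]
    refine Finset.sum_le_sum fun c _ => (hwc c).trans ?_
    refine Finset.sum_le_sum fun t ht => ?_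
    have h1 := Finset.mem_filter.1 ht
    have h3 := (hg t (Finset.mem_filter.1 h1.1).2).2
    rwa [h1.2] at h3
  have h11 : ∑ t ∈ Finset.univ.filter (fun t => ¬ ¬ 2 ≤ F t), F t ≥
      2 * ((Fintype.card T : ℝ) - T1.card) := by
    have h1 : ((Finset.univ.filter (fun t => ¬ ¬ 2 ≤ F t)).card : ℝ) =
        (Fintype.card T : ℝ) - T1.card := by
      have : T1.card + (Finset.univ.filter (fun t => ¬ ¬ 2 ≤ F t)).card = Fintype.card T := by
        rw [hT1, Finset.card_filter_add_card_filter_not]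
        rfl
      have h' : (T1.card : ℝ) + ((Finset.univ.filter (fun t => ¬ ¬ 2 ≤ F t)).card : ℝ) =
          Fintype.card T := by exact_mod_cast this
      linarith
    rw [← h1, mul_comm, ← nsmul_eq_mul, ← Finset.sum_const]
    refine Finset.sum_le_sum fun t ht => ?_
    exact not_not.1 (Finset.mem_filter.1 ht).2
  have h12 : ∑ t, F t = ∑ t ∈ T1, F t + ∑ t ∈ Finset.univ.filter (fun t => ¬ ¬ 2 ≤ F t), F t := by
    rw [hT1, Finset.sum_filter_add_sum_filter_not]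
  rw [Finset.sum_sub_distrib, Finset.sum_sub_distrib, Finset.sum_sub_distrib, ← Finset.mul_sum,
    ← Finset.mul_sum, hcard, Finset.sum_const, nsmul_eq_mul] at h10
  have hZ : (Z1.card : ℝ) ≤ ε * Fintype.card T := le_trans (by exact_mod_cast hZ1) hk1
  have hT1le : (T1.card : ℝ) ≤ Fintype.card T := by
    exact_mod_cast Finset.card_le_univ T1
  have h13 : ε * (T1.card : ℝ) ≤ ε * Fintype.card T := mul_le_mul_of_nonneg_left hT1le hε.le
  rw [h12]
  nlinarith

end Pool.Agent.Lib.P47j
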