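import Pool.Agent.Lib.P47k.Defs

/-!
Hub instances of k-means: instances whose points have the squared distances `1` or at least `2` to
the candidate centres, and `2` to some hub.
-/

open scoped BigOperators

namespace Pool.Agent.Lib.P47j

open Pool.Agent.Lib.P47k (KInst)

variable {m M : ℕ}

/-- Hub instances, `H` is a set of candidate centres (the hubs) and `F` is a set of (names of)
points of the instance, the far points. Every point of the instance outside of `F` has squared
distance `1` or at least `2` to every candidate centre, and `2` to some hub. Every far point is a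
candidate centre, and its distance to all other candidate centres and to all other points of the
instance is at least `4 M + 4`. -/
structure IsHub (I : KInst m M) (H : Finset (Fin m)) (F : Finset (Fin M)) : Prop where
  /-- the points outside of `F` -/
  near : ∀ j ∈ I.clients, j ∉ F →
    (∀ i, ‖I.cl j - I.fac i‖ ^ 2 = 1 ∨ 2 ≤ ‖I.cl j - I.fac i‖ ^ 2) ∧
    ∃ i ∈ H, ‖I.cl j - I.fac i‖ ^ 2 = 2
  /-- the far points are points of the instance -/
  sub : F ⊆ I.clients
  /-- the far points -/
  far : ∀ j ∈ F, (∃ i, I.fac i = I.cl j) ∧
    (∀ i, I.fac i = I.cl j ∨ 4 * (M : ℝ) + 4 ≤ ‖I.cl j - I.fac i‖) ∧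
    ∀ j' ∈ I.clients, j' ≠ j → 4 * (M : ℝ) + 4 ≤ ‖I.cl j - I.cl j'‖

end Pool.Agent.Lib.P47j
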