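import Pool.Agent.Lib.P325av.Perm
import Pool.Agent.Lib.P47c.TDefs
import Pool.Agent.Lib.P47c.KI
import Pool.Agent.Lib.P47k.Defs
import Pool.Agent.Lib.P47j.Defs

/-!
Module KJI (2h; adapt P47k/KMI.lean; black boxes P325av.exists_perm, P47c.KIAux.extend_rename, P47c.KIAux.sum_tests). The instances for k-means.
PROOF. As KMI: kinst_ext, inner products of unit vectors. ‖ind A - ind B‖^2 = card (symmDiff A B): inner (ind A) (ind B) = card (A ∩ B). ‖ind A - farv u‖^2 ≥ (coordinate of u)^2 = L^2 ≥ 4, L = 4 M + 4. rename_instJ: extend_rename for both fields, Finset.map_map.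
exists_renameJ: exists_perm twice. nearest_instJ: the squared distances from the point of t to Φ (inl (inl v, c)) are 1 if (v, c) ∈ near t, otherwise ≥ 2; to Φ (inr p) ≥ 2, to Φ (inr (pl t)) = 2; to the far candidates ≥ 4; the far point of u is at distance 0 from Φ (inl (inr u, c)).
Norms are compared through their squares (all are ≥ 0). Unlike KMI all elements of S are given by hS as values of Φ. cost_instJ: Finset.sum_map, Fintype.sum_sum_type, the infimum is attained (KMIAux.iInf_eq or the same lemma again):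
1 if near t meets A, otherwise 2 (attained at pl t); ∑_t (1 + 1[Disjoint (near t) A]) = card T (1 + unc near A).
-/

open scoped BigOperators

namespace Pool.Agent.Lib.P47j

open Pool.Agent.Lib.P47c (unc)
open Pool.Agent.Lib.P47k (KInst unit)

variable {m M R : ℕ} {V U T P D : Type}

/-- The numbering of the coordinates. -/
noncomputable def oj (D U : Type) [Fintype D] [Fintype U] :
    (D ⊕ U) ≃ Fin (Fintype.card (D ⊕ U)) :=
  Fintype.equivFin _

/-- The indicator vector of a set. -/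
noncomputable def indv [Fintype D] [Fintype U] (A : Finset D) :
    EuclideanSpace ℝ (Fin (Fintype.card (D ⊕ U))) :=
  ∑ p ∈ A, unit (oj D U (Sum.inl p))

/-- The far point of `u`. -/
noncomputable def farv (D : Type) [Fintype D] [Fintype U] (M : ℕ) (u : U) :
    EuclideanSpace ℝ (Fin (Fintype.card (D ⊕ U))) :=
  (4 * (M : ℝ) + 4) • unit (oj D U (Sum.inr u))

/-- The instance: the points are the indicator vectors of the `cv t` and the far points, the
candidate centres are the indicator vectors of the `fv w` and `fp p` and the far points. -/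
noncomputable def instJ [Fintype U] [Fintype T] [Fintype D]
    (Φ : ((V ⊕ U) × ZMod R) ⊕ P ↪ Fin m) (ψ : T ⊕ U ↪ Fin M)
    (fv : V × ZMod R → Finset D) (fp : P → Finset D) (cv : T → Finset D) : KInst m M where
  N := Fintype.card (D ⊕ U)
  fac := Function.extend Φ (Sum.elim
    (fun x => Sum.elim (fun v => indv (fv (v, x.2))) (fun u => farv D M u) x.1)
    (fun p => indv (fp p))) (fun _ => 0)
  cl := Function.extend ψ (Sum.elim (fun t => indv (cv t)) (fun u => farv D M u)) (fun _ => 0)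
  clients := Finset.univ.map ψ

namespace KJIAux

theorem kinst_ext {N : ℕ} {f f' : Fin m → EuclideanSpace ℝ (Fin N)}
    {c c' : Fin M → EuclideanSpace ℝ (Fin N)} {s s' : Finset (Fin M)} (h : f = f') (h' : c = c')
    (h'' : s = s') : (⟨N, f, c, s⟩ : KInst m M) = ⟨N, f', c', s'⟩ := by
  subst h h' h''
  rfl

theorem inner_unit {N : ℕ} (p q : Fin N) :
    inner ℝ (unit p) (unit q) = if p = q then (1 : ℝ) else 0 := by
  unfold unit
  rw [EuclideanSpace.inner_single_left]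
  simp [Pi.single_apply]

theorem norm_unit {N : ℕ} (p : Fin N) : ‖unit p‖ ^ 2 = 1 := by
  rw [← real_inner_self_eq_norm_sq, inner_unit, if_pos rfl]

theorem iInf_eq {E : Type*} (Z : Finset E) (f : E → ℝ) (a : ℝ) (h1 : ∀ z ∈ Z, a ≤ f z)
    (h2 : ∃ z ∈ Z, f z = a) : (⨅ z : Z, f z.1) = a := by
  obtain ⟨z, hz, hza⟩ := h2
  have : Nonempty Z := ⟨⟨z, hz⟩⟩
  refine le_antisymm ?_ (le_ciInf fun z => h1 z.1 z.2)
  have hb : BddBelow (Set.range fun z : Z => f z.1) := by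
    refine ⟨a, ?_⟩
    rintro _ ⟨z, rfl⟩
    exact h1 z.1 z.2
  have h3 := ciInf_le hb ⟨z, hz⟩
  rwa [hza] at h3

theorem mem_centres {I : KInst m M} {S : Finset (Fin m)} {z : EuclideanSpace ℝ (Fin I.N)} :
    z ∈ I.centres S ↔ ∃ i ∈ S, I.fac i = z := by
  classical
  unfold KInst.centres
  rw [Finset.mem_image]

/-- the unit vector of a coordinate -/
noncomputable def ee [Fintype D] [Fintype U] (x : D ⊕ U) :
    EuclideanSpace ℝ (Fin (Fintype.card (D ⊕ U))) := unit (oj D U x)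

open Classical in
theorem inner_ee [Fintype D] [Fintype U] (x y : D ⊕ U) :
    inner ℝ (ee x) (ee y) = if x = y then (1 : ℝ) else 0 := by
  unfold ee
  rw [inner_unit]
  by_cases h : x = y
  · rw [if_pos h, if_pos (congrArg _ h)]
  · rw [if_neg h, if_neg fun h' => h ((oj D U).injective h')]

theorem norm_ee [Fintype D] [Fintype U] (x : D ⊕ U) : ‖ee x‖ ^ 2 = 1 := norm_unit _

theorem indv_eq [Fintype D] [Fintype U] (A : Finset D) :
    indv (U := U) A = ∑ p ∈ A, ee (Sum.inl p) := rfl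

theorem farv_eq [Fintype D] [Fintype U] (M : ℕ) (u : U) :
    farv D M u = (4 * (M : ℝ) + 4) • ee (Sum.inr u) := rfl

open Classical in
theorem inner_indv_ee [Fintype D] [Fintype U] (A : Finset D) (x : D ⊕ U) :
    inner ℝ (indv A) (ee x) = ∑ p ∈ A, if Sum.inl p = x then (1 : ℝ) else 0 := by
  rw [indv_eq, sum_inner]
  exact Finset.sum_congr rfl fun p _ => inner_ee _ _

open Classical in
theorem inner_indv_inl [Fintype D] [Fintype U] (A : Finset D) (r : D) :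
    inner ℝ (indv (U := U) A) (ee (Sum.inl r)) = if r ∈ A then (1 : ℝ) else 0 := by
  rw [inner_indv_ee]
  simp only [Sum.inl.injEq]
  rw [Finset.sum_ite_eq' A r (fun _ => (1 : ℝ))]

theorem inner_indv_inr [Fintype D] [Fintype U] (A : Finset D) (u : U) :
    inner ℝ (indv A) (ee (Sum.inr u)) = (0 : ℝ) := by
  classical
  rw [inner_indv_ee]
  exact Finset.sum_eq_zero fun p _ => if_neg Sum.inl_ne_inr

theorem inner_indv [Fintype D] [DecidableEq D] [Fintype U] (A B : Finset D) :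
    inner ℝ (indv (U := U) A) (indv B) = ((A ∩ B).card : ℝ) := by
  have h : inner ℝ (indv (U := U) A) (indv B) =
      ∑ r ∈ B, inner ℝ (indv (U := U) A) (ee (Sum.inl r)) := by
    rw [indv_eq (U := U) B, inner_sum]
  rw [h]
  have h2 : ∀ r ∈ B, inner ℝ (indv (U := U) A) (ee (Sum.inl r)) =
      if r ∈ A then (1 : ℝ) else 0 := fun r _ => by
    rw [inner_indv_inl]
    by_cases hr : r ∈ A
    · rw [if_pos hr, if_pos hr]
    · rw [if_neg hr, if_neg hr]
  rw [Finset.sum_congr rfl h2, Finset.sum_boole, Finset.filter_mem_eq_inter, Finset.inter_comm]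

theorem norm_indv [Fintype D] [Fintype U] (A : Finset D) : ‖indv (U := U) A‖ ^ 2 = A.card := by
  classical
  rw [← real_inner_self_eq_norm_sq, inner_indv, Finset.inter_self]

theorem dist_farv [Fintype D] [Fintype U] (A : Finset D) (u : U) :
    2 ≤ ‖indv A - farv D M u‖ ^ 2 := by
  rw [norm_sub_sq_real, norm_indv, farv_eq, norm_smul, mul_pow, norm_ee, inner_smul_right,
    inner_indv_inr, Real.norm_eq_abs, sq_abs]
  have h1 : (0 : ℝ) ≤ M := Nat.cast_nonneg M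
  have h2 : (0 : ℝ) ≤ A.card := Nat.cast_nonneg _
  nlinarith

/-- the candidate with a name -/
noncomputable def fJ [Fintype D] [Fintype U] (M : ℕ) (fv : V × ZMod R → Finset D)
    (fp : P → Finset D) (x : ((V ⊕ U) × ZMod R) ⊕ P) :
    EuclideanSpace ℝ (Fin (Fintype.card (D ⊕ U))) :=
  Sum.elim (fun x => Sum.elim (fun v => indv (fv (v, x.2))) (fun u => farv D M u) x.1)
    (fun p => indv (fp p)) x

/-- the point with a name -/
noncomputable def cJ [Fintype D] [Fintype U] (M : ℕ) (cv : T → Finset D) (x : T ⊕ U) :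
    EuclideanSpace ℝ (Fin (Fintype.card (D ⊕ U))) :=
  Sum.elim (fun t => indv (cv t)) (fun u => farv D M u) x

end KJIAux

open KJIAux

theorem dist_indv [Fintype D] [DecidableEq D] [Fintype U] (A B : Finset D) :
    ‖indv (U := U) A - indv B‖ ^ 2 = ((symmDiff A B).card : ℝ) := by
  rw [norm_sub_sq_real, norm_indv, norm_indv, inner_indv]
  have h1 : (symmDiff A B).card = (A \ B).card + (B \ A).card := by
    rw [symmDiff_def, Finset.sup_eq_union, Finset.card_union_of_disjoint disjoint_sdiff_sdiff]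
  have h2 : (A \ B).card + (A ∩ B).card = A.card := Finset.card_sdiff_add_card_inter A B
  have h3 : (B \ A).card + (A ∩ B).card = B.card := by
    rw [Finset.inter_comm]
    exact Finset.card_sdiff_add_card_inter B A
  rw [h1, ← h2, ← h3]
  push_cast
  ring

section
variable [Fintype U] [Fintype T] [Fintype D]
  (Φ : ((V ⊕ U) × ZMod R) ⊕ P ↪ Fin m) (ψ : T ⊕ U ↪ Fin M)
  (fv : V × ZMod R → Finset D) (fp : P → Finset D) (cv : T → Finset D)

theorem rename_instJ (g : Equiv.Perm (Fin m)) (h : Equiv.Perm (Fin M)) :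
    (instJ Φ ψ fv fp cv).rename g h =
      instJ (Φ.trans g.toEmbedding) (ψ.trans h.toEmbedding) fv fp cv := by
  refine kinst_ext ?_ ?_ ?_
  · funext i
    exact P47c.KIAux.extend_rename Φ g (fJ M fv fp) 0 i
  · funext j
    exact P47c.KIAux.extend_rename ψ h (cJ M cv) 0 j
  · change (Finset.univ.map ψ).map h.toEmbedding = Finset.univ.map (ψ.trans h.toEmbedding)
    rw [Finset.map_map]

theorem exists_renameJ (Φ' : ((V ⊕ U) × ZMod R) ⊕ P ↪ Fin m) (ψ' : T ⊕ U ↪ Fin M) :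
    ∃ (g : Equiv.Perm (Fin m)) (h : Equiv.Perm (Fin M)),
      instJ Φ' ψ' fv fp cv = (instJ Φ ψ fv fp cv).rename g h := by
  obtain ⟨g, hg⟩ := Pool.Agent.Lib.P325av.exists_perm Φ Φ' Φ.injective Φ'.injective
  obtain ⟨h, hh⟩ := Pool.Agent.Lib.P325av.exists_perm ψ ψ' ψ.injective ψ'.injective
  refine ⟨g, h, ?_⟩
  have e1 : Φ' = Φ.trans g.toEmbedding := by
    ext p
    change (Φ' p : ℕ) = g (Φ p)
    rw [hg p]
  have e2 : ψ' = ψ.trans h.toEmbedding := by
    ext p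
    change (ψ' p : ℕ) = h (ψ p)
    rw [hh p]
  rw [rename_instJ, e1, e2]

theorem clients_instJ :
    (instJ Φ ψ fv fp cv).clients.card = Fintype.card T + Fintype.card U := by
  change (Finset.univ.map ψ).card = _
  rw [Finset.card_map, Finset.card_univ, Fintype.card_sum]

theorem cl_inlJ (t : T) : (instJ Φ ψ fv fp cv).cl (ψ (Sum.inl t)) = indv (cv t) := by
  exact ψ.injective.extend_apply (cJ M cv) (fun _ => 0) (Sum.inl t)

theorem cl_inrJ (u : U) : (instJ Φ ψ fv fp cv).cl (ψ (Sum.inr u)) = farv D M u := by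
  exact ψ.injective.extend_apply (cJ M cv) (fun _ => 0) (Sum.inr u)

theorem cost_eqJ (Z : Finset (EuclideanSpace ℝ (Fin (instJ Φ ψ fv fp cv).N))) :
    (instJ Φ ψ fv fp cv).cost Z =
      ∑ t, (⨅ z : Z, ‖(instJ Φ ψ fv fp cv).cl (ψ (Sum.inl t)) - z.1‖ ^ 2) +
        ∑ u, (⨅ z : Z, ‖(instJ Φ ψ fv fp cv).cl (ψ (Sum.inr u)) - z.1‖ ^ 2) := by
  change ∑ j ∈ Finset.univ.map ψ, _ = _
  rw [Finset.sum_map, Fintype.sum_sum_type]

namespace KJIAux

theorem fac_eq (x : ((V ⊕ U) × ZMod R) ⊕ P) :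
    (instJ Φ ψ fv fp cv).fac (Φ x) = fJ M fv fp x :=
  Φ.injective.extend_apply (fJ M fv fp) (fun _ => 0) x

theorem dd_v [DecidableEq D] (t : T) (v : V) (c : ZMod R) :
    ‖(instJ Φ ψ fv fp cv).cl (ψ (Sum.inl t)) -
      (instJ Φ ψ fv fp cv).fac (Φ (Sum.inl (Sum.inl v, c)))‖ ^ 2 =
      ((symmDiff (cv t) (fv (v, c))).card : ℝ) := by
  rw [cl_inlJ, fac_eq]
  exact dist_indv (cv t) (fv (v, c))

theorem dd_p [DecidableEq D] (t : T) (p : P) :
    ‖(instJ Φ ψ fv fp cv).cl (ψ (Sum.inl t)) -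
      (instJ Φ ψ fv fp cv).fac (Φ (Sum.inr p))‖ ^ 2 =
      ((symmDiff (cv t) (fp p)).card : ℝ) := by
  rw [cl_inlJ, fac_eq]
  exact dist_indv (cv t) (fp p)

theorem dd_u (t : T) (u : U) (c : ZMod R) :
    2 ≤ ‖(instJ Φ ψ fv fp cv).cl (ψ (Sum.inl t)) -
      (instJ Φ ψ fv fp cv).fac (Φ (Sum.inl (Sum.inr u, c)))‖ ^ 2 := by
  rw [cl_inlJ, fac_eq]
  exact dist_farv (cv t) u

theorem dd_far (u : U) (c : ZMod R) :
    ‖(instJ Φ ψ fv fp cv).cl (ψ (Sum.inr u)) -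
      (instJ Φ ψ fv fp cv).fac (Φ (Sum.inl (Sum.inr u, c)))‖ ^ 2 = 0 := by
  have h : (instJ Φ ψ fv fp cv).cl (ψ (Sum.inr u)) =
      (instJ Φ ψ fv fp cv).fac (Φ (Sum.inl (Sum.inr u, c))) :=
    (cl_inrJ Φ ψ fv fp cv u).trans (fac_eq Φ ψ fv fp cv (Sum.inl (Sum.inr u, c))).symm
  rw [h, sub_self, norm_zero]
  norm_num

theorem dd_mem [Fintype V] [DecidableEq V] [Fintype P] [DecidableEq D] [NeZero R]
    {ε ρ : ℝ} {near : T → Finset (V × ZMod R)} {pl : T → P}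
    (hsys : Sys R ε ρ near fv fp cv pl) {t : T} {w : V × ZMod R} (hw : w ∈ near t) :
    ‖(instJ Φ ψ fv fp cv).cl (ψ (Sum.inl t)) -
      (instJ Φ ψ fv fp cv).fac (Φ (Sum.inl (Sum.inl w.1, w.2)))‖ ^ 2 = 1 := by
  rw [dd_v]
  have h := hsys.d_near t w hw
  rw [Prod.mk.eta, h]
  norm_num

theorem dd_pl [Fintype V] [DecidableEq V] [Fintype P] [DecidableEq D] [NeZero R]
    {ε ρ : ℝ} {near : T → Finset (V × ZMod R)} {pl : T → P}
    (hsys : Sys R ε ρ near fv fp cv pl) (t : T) :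
    ‖(instJ Φ ψ fv fp cv).cl (ψ (Sum.inl t)) -
      (instJ Φ ψ fv fp cv).fac (Φ (Sum.inr (pl t)))‖ ^ 2 = 2 := by
  rw [dd_p, hsys.d_pl t]
  norm_num

theorem dd_ge_two [Fintype V] [DecidableEq V] [Fintype P] [DecidableEq D] [NeZero R]
    {ε ρ : ℝ} {near : T → Finset (V × ZMod R)} {pl : T → P}
    (hsys : Sys R ε ρ near fv fp cv pl) (t : T) (x : ((V ⊕ U) × ZMod R) ⊕ P)
    (hx : ∀ w ∈ near t, x ≠ Sum.inl (Sum.inl w.1, w.2)) :
    2 ≤ ‖(instJ Φ ψ fv fp cv).cl (ψ (Sum.inl t)) - (instJ Φ ψ fv fp cv).fac (Φ x)‖ ^ 2 := by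
  rcases x with ⟨v | u, c⟩ | p
  · have hr : (v, c) ∉ near t := fun hr => hx _ hr rfl
    rw [dd_v]
    exact_mod_cast hsys.d_far t (v, c) hr
  · exact dd_u Φ ψ fv fp cv t u c
  · rw [dd_p]
    exact_mod_cast hsys.d_fp t p

theorem dd_ge_one [Fintype V] [DecidableEq V] [Fintype P] [DecidableEq D] [NeZero R]
    {ε ρ : ℝ} {near : T → Finset (V × ZMod R)} {pl : T → P}
    (hsys : Sys R ε ρ near fv fp cv pl) (t : T) (x : ((V ⊕ U) × ZMod R) ⊕ P) :
    1 ≤ ‖(instJ Φ ψ fv fp cv).cl (ψ (Sum.inl t)) - (instJ Φ ψ fv fp cv).fac (Φ x)‖ ^ 2 := by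
  by_cases h : ∃ w ∈ near t, x = Sum.inl (Sum.inl w.1, w.2)
  · obtain ⟨w, hw, rfl⟩ := h
    exact (dd_mem Φ ψ fv fp cv hsys hw).ge
  · exact le_trans (by norm_num)
      (dd_ge_two Φ ψ fv fp cv hsys t x fun w hw hxw => h ⟨w, hw, hxw⟩)

end KJIAux

theorem nearest_instJ [Fintype V] [DecidableEq V] [Fintype P] [DecidableEq D] [NeZero R]
    {ε ρ : ℝ} {near : T → Finset (V × ZMod R)} {pl : T → P}
    (hsys : Sys R ε ρ near fv fp cv pl) (S : Finset (Fin m)) (σ : Fin M → Fin m)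
    (hS : ∀ i ∈ S, ∃ x, Φ x = i) (hσ : ∀ j, σ j ∈ S)
    (hU : ∀ u, ∃ c, σ (ψ (Sum.inr u)) = Φ (Sum.inl (Sum.inr u, c)))
    (h1 : ∀ t, (∃ w ∈ near t, Φ (Sum.inl (Sum.inl w.1, w.2)) ∈ S) →
      ∃ w ∈ near t, σ (ψ (Sum.inl t)) = Φ (Sum.inl (Sum.inl w.1, w.2)))
    (h2 : ∀ t, (¬ ∃ w ∈ near t, Φ (Sum.inl (Sum.inl w.1, w.2)) ∈ S) →
      σ (ψ (Sum.inl t)) = Φ (Sum.inr (pl t))) :
    (instJ Φ ψ fv fp cv).Nearest S σ := by
  refine ⟨hσ, fun j hj i hi => ?_⟩
  obtain ⟨x, _, rfl⟩ := Finset.mem_map.1 (show j ∈ Finset.univ.map ψ from hj)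
  obtain ⟨y, rfl⟩ := hS i hi
  refine le_of_sq_le_sq ?_ (norm_nonneg _)
  rcases x with t | u
  · by_cases hex : ∃ w ∈ near t, Φ (Sum.inl (Sum.inl w.1, w.2)) ∈ S
    · obtain ⟨w, hw, hwσ⟩ := h1 t hex
      rw [hwσ, dd_mem Φ ψ fv fp cv hsys hw]
      exact dd_ge_one Φ ψ fv fp cv hsys t y
    · rw [h2 t hex, dd_pl Φ ψ fv fp cv hsys t]
      refine dd_ge_two Φ ψ fv fp cv hsys t y ?_
      rintro w hw rfl
      exact hex ⟨w, hw, hi⟩
  · obtain ⟨c, hc⟩ := hU u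
    rw [hc, dd_far]
    positivity

theorem cost_instJ [Fintype V] [DecidableEq V] [Fintype P] [DecidableEq D] [NeZero R]
    {ε ρ : ℝ} {near : T → Finset (V × ZMod R)} {pl : T → P}
    (hsys : Sys R ε ρ near fv fp cv pl) (S : Finset (Fin m)) (A : Finset (V × ZMod R))
    (hS : ∀ i ∈ S, ∃ x, Φ x = i)
    (hA : ∀ w : V × ZMod R, w ∈ A ↔ Φ (Sum.inl (Sum.inl w.1, w.2)) ∈ S)
    (hU : ∀ u, ∃ c, Φ (Sum.inl (Sum.inr u, c)) ∈ S) (hP : ∀ p, Φ (Sum.inr p) ∈ S) :
    (instJ Φ ψ fv fp cv).cost ((instJ Φ ψ fv fp cv).centres S) =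
      (Fintype.card T : ℝ) * (1 + unc near A) := by
  classical
  rw [cost_eqJ]
  have h2 : ∑ u, (⨅ z : (instJ Φ ψ fv fp cv).centres S,
      ‖(instJ Φ ψ fv fp cv).cl (ψ (Sum.inr u)) - z.1‖ ^ 2) = 0 := by
    refine Finset.sum_eq_zero fun u _ => ?_
    refine iInf_eq _ (fun z => ‖(instJ Φ ψ fv fp cv).cl (ψ (Sum.inr u)) - z‖ ^ 2) 0
      (fun z _ => by positivity) ?_
    obtain ⟨c, hc⟩ := hU u
    exact ⟨_, mem_centres.2 ⟨_, hc, rfl⟩, dd_far Φ ψ fv fp cv u c⟩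
  rw [h2, add_zero]
  have hmem : ∀ t, ¬ Disjoint (near t) A → (⨅ z : (instJ Φ ψ fv fp cv).centres S,
      ‖(instJ Φ ψ fv fp cv).cl (ψ (Sum.inl t)) - z.1‖ ^ 2) = 1 := by
    intro t hd
    refine iInf_eq _ (fun z => ‖(instJ Φ ψ fv fp cv).cl (ψ (Sum.inl t)) - z‖ ^ 2) 1 ?_ ?_
    · intro z hz
      obtain ⟨i, hi, rfl⟩ := mem_centres.1 hz
      obtain ⟨y, rfl⟩ := hS i hi
      exact dd_ge_one Φ ψ fv fp cv hsys t y
    · obtain ⟨w, hw, hwA⟩ := Finset.not_disjoint_iff.1 hd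
      exact ⟨_, mem_centres.2 ⟨_, (hA w).1 hwA, rfl⟩, dd_mem Φ ψ fv fp cv hsys hw⟩
  have hdis : ∀ t, Disjoint (near t) A → (⨅ z : (instJ Φ ψ fv fp cv).centres S,
      ‖(instJ Φ ψ fv fp cv).cl (ψ (Sum.inl t)) - z.1‖ ^ 2) = 2 := by
    intro t hd
    refine iInf_eq _ (fun z => ‖(instJ Φ ψ fv fp cv).cl (ψ (Sum.inl t)) - z‖ ^ 2) 2 ?_ ?_
    · intro z hz
      obtain ⟨i, hi, rfl⟩ := mem_centres.1 hz
      obtain ⟨y, rfl⟩ := hS i hi
      refine dd_ge_two Φ ψ fv fp cv hsys t y ?_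
      rintro w hw rfl
      exact Finset.disjoint_left.1 hd hw ((hA w).2 hi)
    · exact ⟨_, mem_centres.2 ⟨_, hP (pl t), rfl⟩, dd_pl Φ ψ fv fp cv hsys t⟩
  have key := P47c.KIAux.sum_tests near A
    (fun t => 2 * (⨅ z : (instJ Φ ψ fv fp cv).centres S,
      ‖(instJ Φ ψ fv fp cv).cl (ψ (Sum.inl t)) - z.1‖ ^ 2) - 1)
    (fun t => ⟨fun hd => by rw [hdis t hd]; norm_num, fun hd => by rw [hmem t hd]; norm_num⟩)
  rw [Finset.sum_sub_distrib, ← Finset.mul_sum, Finset.sum_const, Finset.card_univ,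
    nsmul_eq_mul, mul_one] at key
  linarith

end

end Pool.Agent.Lib.P47j
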