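import Pool.Agent.Lib.P47j.Hub
import Pool.Agent.Lib.P47j.KJI

/-!
Module HubI (1h; black boxes KJI). The instances are hub instances.
PROOF. L = 4 M + 4. The points of the instance are ψ x. For t: to Φ (inl (inl v, c)): card (symmDiff (cv t) (fv (v, c))) = 1 if (v, c) ∈ near t, otherwise ≥ 2 (dist_indv, d_near, d_far); to Φ (inr p): ≥ 2 (d_fp), to Φ (inr (pl t)): 2 (d_pl); to farv u: ≥ L^2 ≥ 2
(coordinate of u); a candidate that is not a value of Φ is 0, and ‖indv (cv t)‖^2 = card (cv t) ≥ 2 (dist_indv with the empty set, indv ∅ = 0). Far points: farv u = fac (Φ (inl (inr u, 0))) (Function.Injective.extend_apply); the coordinate of u of farv u is L and of all vectors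
indv A, farv u' (u' ≠ u), 0 it is 0, and |v_i| ≤ ‖v‖. H.card, F.card: injectivity of Φ, ψ.
-/

open scoped BigOperators

namespace Pool.Agent.Lib.P47j

open Pool.Agent.Lib.P47k (KInst unit)

namespace HubIAux

variable {D U : Type} [Fintype D] [Fintype U]

theorem le_of_inner (M : ℕ) (u : U) (v : EuclideanSpace ℝ (Fin (Fintype.card (D ⊕ U))))
    (hv : inner ℝ v (KJIAux.ee (D := D) (Sum.inr u)) = (0 : ℝ)) :
    4 * (M : ℝ) + 4 ≤ ‖farv D M u - v‖ := by
  have h1 : inner ℝ (farv D M u - v) (KJIAux.ee (D := D) (Sum.inr u)) = 4 * (M : ℝ) + 4 := by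
    rw [inner_sub_left, hv, KJIAux.farv_eq, real_inner_smul_left, real_inner_self_eq_norm_sq,
      KJIAux.norm_ee]
    ring
  have h2 : ‖KJIAux.ee (D := D) (Sum.inr u)‖ = 1 := by
    have h3 := KJIAux.norm_ee (D := D) (Sum.inr u)
    have h4 : ‖KJIAux.ee (D := D) (Sum.inr u)‖ ^ 2 = 1 ^ 2 := by rw [h3]; norm_num
    exact (sq_eq_sq₀ (norm_nonneg _) zero_le_one).1 h4
  calc 4 * (M : ℝ) + 4 = inner ℝ (farv D M u - v) (KJIAux.ee (D := D) (Sum.inr u)) := h1.symm
    _ ≤ ‖farv D M u - v‖ * ‖KJIAux.ee (D := D) (Sum.inr u)‖ := real_inner_le_norm _ _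
    _ = ‖farv D M u - v‖ := by rw [h2, mul_one]

theorem le_indv (M : ℕ) (u : U) (A : Finset D) :
    4 * (M : ℝ) + 4 ≤ ‖farv D M u - indv A‖ :=
  le_of_inner M u _ (KJIAux.inner_indv_inr A u)

theorem le_zero (M : ℕ) (u : U) : 4 * (M : ℝ) + 4 ≤ ‖farv D M u - 0‖ :=
  le_of_inner M u _ (inner_zero_left _)

theorem le_farv (M : ℕ) {u u' : U} (h : u' ≠ u) :
    4 * (M : ℝ) + 4 ≤ ‖farv D M u - farv D M u'‖ := by
  classical
  refine le_of_inner M u _ ?_
  rw [KJIAux.farv_eq, real_inner_smul_left, KJIAux.inner_ee, if_neg, mul_zero]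
  exact fun h' => h (Sum.inr_injective h')

end HubIAux

theorem isHub_instJ {m M R : ℕ} [NeZero R] {V U T P D : Type} [Fintype V] [DecidableEq V]
    [Fintype U] [Fintype T] [Fintype P] [Fintype D] [DecidableEq D]
    (Φ : ((V ⊕ U) × ZMod R) ⊕ P ↪ Fin m) (ψ : T ⊕ U ↪ Fin M)
    (fv : V × ZMod R → Finset D) (fp : P → Finset D) (cv : T → Finset D) {ε ρ : ℝ}
    {near : T → Finset (V × ZMod R)} {pl : T → P} (hsys : Sys R ε ρ near fv fp cv pl)
    (hcv : ∀ t, 2 ≤ (cv t).card) :
    IsHub (instJ Φ ψ fv fp cv) (Finset.univ.image (fun p => Φ (Sum.inr p)))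
      (Finset.univ.image (fun u => ψ (Sum.inr u))) := by
  classical
  have hfac0 : ∀ i, (¬ ∃ y, Φ y = i) → (instJ Φ ψ fv fp cv).fac i = 0 := by
    intro i hi
    exact Function.extend_apply' (KJIAux.fJ M fv fp) (fun _ => 0) i hi
  refine ⟨?_, ?_, ?_⟩
  · intro j hj hjF
    obtain ⟨x, -, rfl⟩ := Finset.mem_map.1 (show j ∈ Finset.univ.map ψ from hj)
    rcases x with t | u
    · refine ⟨fun i => ?_, Φ (Sum.inr (pl t)), Finset.mem_image_of_mem _ (Finset.mem_univ _),
        KJIAux.dd_pl Φ ψ fv fp cv hsys t⟩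
      by_cases hi : ∃ y, Φ y = i
      · obtain ⟨y, rfl⟩ := hi
        by_cases h : ∃ w ∈ near t, y = Sum.inl (Sum.inl w.1, w.2)
        · obtain ⟨w, hw, rfl⟩ := h
          exact Or.inl (KJIAux.dd_mem Φ ψ fv fp cv hsys hw)
        · exact Or.inr (KJIAux.dd_ge_two Φ ψ fv fp cv hsys t y fun w hw hyw => h ⟨w, hw, hyw⟩)
      · right
        rw [hfac0 i hi, sub_zero, cl_inlJ]
        have h1 := KJIAux.norm_indv (U := U) (cv t)
        have h2 : (2 : ℝ) ≤ ((cv t).card : ℝ) := by exact_mod_cast hcv t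
        exact h2.trans h1.ge
    · exact absurd (Finset.mem_image_of_mem (fun u => ψ (Sum.inr u)) (Finset.mem_univ u)) hjF
  · intro j hj
    obtain ⟨u, -, rfl⟩ := Finset.mem_image.1 hj
    exact Finset.mem_map_of_mem ψ (Finset.mem_univ _)
  · intro j hj
    obtain ⟨u, -, rfl⟩ := Finset.mem_image.1 hj
    have hcl : (instJ Φ ψ fv fp cv).cl (ψ (Sum.inr u)) = farv D M u := cl_inrJ Φ ψ fv fp cv u
    refine ⟨⟨Φ (Sum.inl (Sum.inr u, 0)), ?_⟩, fun i => ?_, fun j' hj' hne => ?_⟩
    · exact (KJIAux.fac_eq Φ ψ fv fp cv (Sum.inl (Sum.inr u, 0))).trans hcl.symm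
    · by_cases hi : ∃ y, Φ y = i
      · obtain ⟨y, rfl⟩ := hi
        have hf := KJIAux.fac_eq Φ ψ fv fp cv y
        rcases y with ⟨v | u', c⟩ | p
        · right
          exact (HubIAux.le_indv M u (fv (v, c))).trans_eq (by rw [hcl, hf]; rfl)
        · by_cases huu : u' = u
          · left
            subst huu
            exact hf.trans hcl.symm
          · right
            exact (HubIAux.le_farv (D := D) M huu).trans_eq (by rw [hcl, hf]; rfl)
        · right
          exact (HubIAux.le_indv M u (fp p)).trans_eq (by rw [hcl, hf]; rfl)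
      · right
        exact (HubIAux.le_zero (D := D) M u).trans_eq (by rw [hcl, hfac0 i hi]; rfl)
    · obtain ⟨x, -, rfl⟩ := Finset.mem_map.1 (show j' ∈ Finset.univ.map ψ from hj')
      rcases x with t | u'
      · have hf := cl_inlJ Φ ψ fv fp cv t
        exact (HubIAux.le_indv M u (cv t)).trans_eq (by rw [hcl, hf]; rfl)
      · have hf := cl_inrJ Φ ψ fv fp cv u'
        have huu : u' ≠ u := fun h => hne (by rw [h])
        exact (HubIAux.le_farv (D := D) M huu).trans_eq (by rw [hcl, hf]; rfl)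

theorem card_hubs {m M R : ℕ} {V U T P : Type} [Fintype U] [Fintype P]
    (Φ : ((V ⊕ U) × ZMod R) ⊕ P ↪ Fin m) (ψ : T ⊕ U ↪ Fin M) :
    (Finset.univ.image (fun p => Φ (Sum.inr p))).card = Fintype.card P ∧
      (Finset.univ.image (fun u => ψ (Sum.inr u))).card = Fintype.card U := by
  constructor
  · exact (Finset.card_image_of_injective _ (Φ.injective.comp Sum.inr_injective)).trans
      Finset.card_univ
  · exact (Finset.card_image_of_injective _ (ψ.injective.comp Sum.inr_injective)).trans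
      Finset.card_univ

end Pool.Agent.Lib.P47j
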