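import Pool.Agent.Lib.P47j.GeoJ
import Pool.Agent.Lib.P47j.KJI

/-!
Module KJG. The lower bound for the cost of arbitrary centres.
PROOF. L = 4 M + 4, M ≥ card T + card U. If for some u all z ∈ Z have ‖farv u - z‖ ≥ L/2, the term of u is at least L^2/4 = 4 (M+1)^2 ≥ 2 card T ≥ card T (1 + ρ - 4 ε). Otherwise choose z_u ∈ Z with ‖farv u - z_u‖ < L/2, z_u ≠ z_u' for u ≠ u'.
Z1 = Z without the z_u has at most card V + card P elements. For t let F t be the infimum, attained at z ∈ Z; if z = z_u then ‖x_t - z‖ ≥ ‖x_t - farv u‖ - L/2 ≥ L/2 ≥ 2, so F t ≥ 4. Otherwise z ∈ Z1. geoJ with x t = indv (cv t) and k1 = card V + card P.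
-/

open scoped BigOperators

namespace Pool.Agent.Lib.P47j

open Pool.Agent.Lib.P47c (unc)
open Pool.Agent.Lib.P47k (KInst unit)

namespace KJGAux

open Pool.Agent.Lib.P325P (mean)

theorem unit_apply {N : ℕ} (p i : Fin N) : (unit p) i = if i = p then 1 else 0 := by
  unfold unit
  simp

theorem coord_le {N : ℕ} (v : EuclideanSpace ℝ (Fin N)) (i : Fin N) : |v i| ≤ ‖v‖ := by
  have := PiLp.norm_apply_le v i
  simpa using this

theorem inf_nonneg {N : ℕ} (Z : Finset (EuclideanSpace ℝ (Fin N))) (a : EuclideanSpace ℝ (Fin N)) :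
    0 ≤ ⨅ z : Z, ‖a - z.1‖ ^ 2 := Real.iInf_nonneg fun _ => sq_nonneg _

theorem inf_attained {N : ℕ} (Z : Finset (EuclideanSpace ℝ (Fin N))) (hZ : Z.Nonempty)
    (a : EuclideanSpace ℝ (Fin N)) : ∃ z ∈ Z, ‖a - z‖ ^ 2 = ⨅ z : Z, ‖a - z.1‖ ^ 2 := by
  have : Nonempty Z := hZ.to_subtype
  obtain ⟨z, hz⟩ := exists_eq_ciInf_of_finite (f := fun z : Z => ‖a - z.1‖ ^ 2)
  exact ⟨z.1, z.2, hz⟩

variable {V U T P D : Type} [Fintype U] [Fintype D]

theorem indv_inr (A : Finset D) (u : U) : (indv A) (oj D U (Sum.inr u)) = 0 := by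
  unfold indv
  rw [WithLp.ofLp_sum, Finset.sum_apply]
  refine Finset.sum_eq_zero fun p _ => ?_
  rw [unit_apply]
  simp

theorem farv_self (M : ℕ) (u : U) :
    (farv D M u) (oj D U (Sum.inr u)) = 4 * (M : ℝ) + 4 := by
  unfold farv
  rw [PiLp.smul_apply, unit_apply]
  simp

theorem farv_ne (M : ℕ) (u u' : U) (h : u ≠ u') : (farv D M u') (oj D U (Sum.inr u)) = 0 := by
  unfold farv
  rw [PiLp.smul_apply, unit_apply]
  simp [h]

theorem unc_eq {W' R' T' : Type} [Fintype T'] [Nonempty T'] [DecidableEq (W' × R')]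
    (near : T' → Finset (W' × R')) (A : Finset (W' × R')) :
    (Fintype.card T' : ℝ) * unc near A =
      ((Finset.univ.filter (fun t => Disjoint (near t) A)).card : ℝ) := by
  unfold unc mean
  rw [Finset.card_filter]
  push_cast
  have h0 : (Fintype.card T' : ℝ) ≠ 0 := by
    have : 0 < Fintype.card T' := Fintype.card_pos
    exact_mod_cast this.ne'
  rw [mul_div_cancel₀ _ h0]
  refine Finset.sum_congr rfl fun t _ => ?_
  by_cases h : Disjoint (near t) A
  · rw [if_pos h, if_pos h]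
  · rw [if_neg h, if_neg h]

theorem core {M R : ℕ} [NeZero R] [Fintype V] [DecidableEq V] [Fintype T] [Nonempty T] [Fintype P]
    [DecidableEq D] (hM : Fintype.card T + Fintype.card U ≤ M)
    (fv : V × ZMod R → Finset D) (fp : P → Finset D) (cv : T → Finset D) {ε ρ : ℝ}
    (hε : 0 < ε) (hρ : ρ ≤ 1) {near : T → Finset (V × ZMod R)} {pl : T → P}
    (hsys : Sys R ε ρ near fv fp cv pl)
    (Z : Finset (EuclideanSpace ℝ (Fin (Fintype.card (D ⊕ U))))) (hZ : Z.Nonempty)
    (hZc : Z.card ≤ Fintype.card V + Fintype.card U + Fintype.card P) :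
    (Fintype.card T : ℝ) * (1 + ρ - 4 * ε) ≤
      ∑ t, (⨅ z : Z, ‖indv (cv t) - z.1‖ ^ 2) +
        ∑ u : U, (⨅ z : Z, ‖farv D M u - z.1‖ ^ 2) := by
  classical
  set L : ℝ := 4 * (M : ℝ) + 4 with hL
  have hM0 : (0 : ℝ) ≤ M := Nat.cast_nonneg _
  have hL4 : 4 ≤ L := by rw [hL]; linarith
  have hT0 : (0 : ℝ) ≤ ∑ t, (⨅ z : Z, ‖indv (U := U) (cv t) - z.1‖ ^ 2) :=
    Finset.sum_nonneg fun t _ => inf_nonneg Z _
  have hU0 : (0 : ℝ) ≤ ∑ u : U, (⨅ z : Z, ‖farv D M u - z.1‖ ^ 2) :=
    Finset.sum_nonneg fun t _ => inf_nonneg Z _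
  have hTM : (Fintype.card T : ℝ) ≤ M := by exact_mod_cast (by omega : Fintype.card T ≤ M)
  have hTn : (0 : ℝ) ≤ Fintype.card T := Nat.cast_nonneg _
  by_cases hA : ∃ u : U, ∀ z ∈ Z, L / 2 ≤ ‖farv D M u - z‖
  · obtain ⟨u, hu⟩ := hA
    obtain ⟨z, hz, hzi⟩ := inf_attained Z hZ (farv D M u)
    have h1 : (L / 2) ^ 2 ≤ ⨅ z : Z, ‖farv D M u - z.1‖ ^ 2 := by
      rw [← hzi]
      exact pow_le_pow_left₀ (by linarith) (hu z hz) 2
    have h2 : (⨅ z : Z, ‖farv D M u - z.1‖ ^ 2) ≤ ∑ u : U, (⨅ z : Z, ‖farv D M u - z.1‖ ^ 2) :=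
      Finset.single_le_sum (f := fun u : U => ⨅ z : Z, ‖farv D M u - z.1‖ ^ 2)
        (fun u _ => inf_nonneg Z _) (Finset.mem_univ u)
    have h3 : (Fintype.card T : ℝ) * (1 + ρ - 4 * ε) ≤ (Fintype.card T : ℝ) * 2 :=
      mul_le_mul_of_nonneg_left (by linarith) hTn
    have h4 : (L / 2) ^ 2 = 4 * (M + 1) ^ 2 := by rw [hL]; ring
    nlinarith
  · push Not at hA
    choose zu hzu hzu2 using hA
    have hinj : Function.Injective zu := by
      intro u u' h
      by_contra hne
      have h1 : ‖farv D M u - farv D M u'‖ < L := by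
        calc ‖farv D M u - farv D M u'‖ = ‖(farv D M u - zu u) - (farv D M u' - zu u')‖ := by
              rw [h]; congr 1; abel
          _ ≤ ‖farv D M u - zu u‖ + ‖farv D M u' - zu u'‖ := norm_sub_le _ _
          _ < L / 2 + L / 2 := add_lt_add (hzu2 u) (hzu2 u')
          _ = L := by ring
      have h2 := coord_le (farv D M u - farv D M u') (oj D U (Sum.inr u))
      rw [PiLp.sub_apply, farv_self, farv_ne M u u' hne, sub_zero, ← hL] at h2
      have h3 : L ≤ |L| := le_abs_self L
      linarith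
    set Z1 : Finset (EuclideanSpace ℝ (Fin (Fintype.card (D ⊕ U)))) :=
      Z \ Finset.univ.image zu with hZ1
    have hZ1c : Z1.card ≤ Fintype.card V + Fintype.card P := by
      have h1 : (Finset.univ.image zu).card = Fintype.card U :=
        Finset.card_image_of_injective _ hinj
      have h2 : Finset.univ.image zu ⊆ Z := by
        intro z hz
        obtain ⟨u, -, rfl⟩ := Finset.mem_image.1 hz
        exact hzu u
      have h3 : Z1.card + (Finset.univ.image zu).card = Z.card := by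
        rw [hZ1]
        convert Finset.card_sdiff_add_card_eq_card h2
      rw [h1] at h3
      omega
    obtain ⟨B, R0, hB, hdeg, hfor⟩ := hsys.loc
    have hgeo := geoJ (fun t => indv (U := U) (cv t)) near ε ρ hε
      (Fintype.card V + Fintype.card P) B R0
      (by
        intro t
        rw [← Finset.card_pos, hsys.card_near t]
        exact Nat.pos_of_ne_zero (NeZero.ne R))
      (by
        intro t t' h
        rw [dist_indv]
        exact_mod_cast hsys.d_ne t t' h)
      (by
        intro t t' h h'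
        rw [dist_indv]
        exact_mod_cast hsys.d_dj t t' h h')
      hB
      (by
        intro t
        refine le_trans (le_of_eq ?_) (hdeg t)
        rw [Set.ncard_eq_toFinset_card']
        congr 1
        ext t'
        simp)
      (by
        intro C hC hC'
        refine lt_of_le_of_lt (le_of_eq ?_) (hfor C hC hC')
        refine Finset.sum_congr rfl fun w _ => ?_
        congr!)
      (by
        intro A hA
        have h1 := mul_le_mul_of_nonneg_left (hsys.unc A hA) hTn
        rw [unc_eq] at h1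
        exact h1)
      (by
        push_cast
        exact hsys.small)
      Z1 hZ1c
      (fun t => ⨅ z : Z, ‖indv (U := U) (cv t) - z.1‖ ^ 2)
      (by
        intro t
        obtain ⟨z, hz, hzi⟩ := inf_attained Z hZ (indv (U := U) (cv t))
        by_cases hzu' : z ∈ Finset.univ.image zu
        · left
          obtain ⟨u, -, rfl⟩ := Finset.mem_image.1 hzu'
          have h1 := coord_le (indv (U := U) (cv t) - farv D M u) (oj D U (Sum.inr u))
          rw [PiLp.sub_apply, indv_inr, farv_self, zero_sub, abs_neg, ← hL] at h1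
          have h2 : L ≤ |L| := le_abs_self L
          have h3 : ‖indv (U := U) (cv t) - farv D M u‖ ≤
              ‖indv (U := U) (cv t) - zu u‖ + ‖farv D M u - zu u‖ := by
            calc ‖indv (U := U) (cv t) - farv D M u‖ =
                ‖(indv (U := U) (cv t) - zu u) - (farv D M u - zu u)‖ := by congr 1; abel
              _ ≤ _ := norm_sub_le _ _
          have h4 := hzu2 u
          have h5 : 2 ≤ ‖indv (U := U) (cv t) - zu u‖ := by linarith
          show 2 ≤ ⨅ z : Z, ‖indv (U := U) (cv t) - z.1‖ ^ 2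
          rw [← hzi]
          nlinarith
        · right
          refine ⟨z, Finset.mem_sdiff.2 ⟨hz, hzu'⟩, ?_⟩
          show _ ≤ ⨅ z : Z, ‖indv (U := U) (cv t) - z.1‖ ^ 2
          rw [← hzi])
    linarith

end KJGAux

theorem opt_geJ {m M R : ℕ} [NeZero R] {V U T P D : Type} [Fintype V] [DecidableEq V]
    [Fintype U] [Fintype T] [Nonempty T] [Fintype P] [Fintype D] [DecidableEq D]
    (Φ : ((V ⊕ U) × ZMod R) ⊕ P ↪ Fin m) (ψ : T ⊕ U ↪ Fin M)
    (fv : V × ZMod R → Finset D) (fp : P → Finset D) (cv : T → Finset D) {ε ρ : ℝ}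
    (hε : 0 < ε) (hρ : ρ ≤ 1) {near : T → Finset (V × ZMod R)} {pl : T → P}
    (hsys : Sys R ε ρ near fv fp cv pl) (hk : 1 ≤ Fintype.card V + Fintype.card U + Fintype.card P) :
    (Fintype.card T : ℝ) * (1 + ρ - 4 * ε) ≤
      (instJ Φ ψ fv fp cv).opt (Fintype.card V + Fintype.card U + Fintype.card P) := by
  have hM : Fintype.card T + Fintype.card U ≤ M := by
    have h := Fintype.card_le_of_embedding ψ
    rwa [Fintype.card_sum, Fintype.card_fin] at h
  have : Nonempty {Z : Finset (EuclideanSpace ℝ (Fin (instJ Φ ψ fv fp cv).N)) //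
      Z.Nonempty ∧ Z.card ≤ Fintype.card V + Fintype.card U + Fintype.card P} :=
    ⟨⟨{0}, ⟨0, Finset.mem_singleton_self _⟩, by rw [Finset.card_singleton]; omega⟩⟩
  unfold KInst.opt
  refine le_ciInf fun Z => ?_
  rw [cost_eqJ]
  simp only [cl_inlJ, cl_inrJ]
  exact KJGAux.core hM fv fp cv hε hρ hsys Z.1 Z.2.1 Z.2.2

end Pool.Agent.Lib.P47j
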