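import Pool.Agent.Lib.P47c.KL2
import Pool.Agent.Lib.P47j.KJI

/-!
Module SolJ (1.8h; adapt KL2Aux in P47c/KL2.lean and KMLAux in P47k/KML.lean; black boxes KJI, P47c.KL2Aux.exists_ext, pickq, pickq_spec). Solutions and assignments with planes.
PROOF. exists_PhiJ: as KL2Aux.exists_Phi, with Φ (inl (x, c)) = fac (inl (β x, c)), Φ (inr p) = fac (inr p). solJ: one centre for every copy (v, κ) with the label X (v, κ), and all planes. asgJ: the client of (t, κs) goes to the first covering copy if there is one, otherwise to the plane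
pl t; the client of a copy p goes to the centre of p. mem_solJ as mem_sol. nearest_solJ, cost_solJ: nearest_instJ and cost_instJ with A = {(v, c) : X (v, z v) = c}; unc near A = 1 - cov near (fun v => X (v, z v)) by P47c.unc_graph (see cost_solM in P47k/KML.lean).
-/

open scoped BigOperators

namespace Pool.Agent.Lib.P47j

open Pool.Agent.Lib.P47c (cov unc)
open Pool.Agent.Lib.P47c.KL2Aux (pickq pickq_spec)

/-- The bijection and the embeddings given by a choice of copies. -/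
theorem exists_PhiJ {V K U P : Type} [Fintype V] [Fintype K] [Fintype U] {R m M M1 Q : ℕ}
    (fac : ((V × K) × ZMod R) ⊕ P ↪ Fin m) (sup : Fin M1 → Fin (Q + 1) → V)
    (cln : (Fin M1 × (Fin (Q + 1) → K)) ⊕ (V × K) ≃ Fin M)
    (hc : Fintype.card V + Fintype.card U = Fintype.card (V × K)) (z : V → K) :
    ∃ (β : V ⊕ U ≃ V × K) (Φ : ((V ⊕ U) × ZMod R) ⊕ P ↪ Fin m) (ψ : Fin M1 ⊕ U ↪ Fin M),
      (∀ v, β (Sum.inl v) = (v, z v)) ∧ (∀ x c, Φ (Sum.inl (x, c)) = fac (Sum.inl (β x, c))) ∧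
      (∀ p, Φ (Sum.inr p) = fac (Sum.inr p)) ∧
      (∀ t, ψ (Sum.inl t) = cln (Sum.inl (t, fun q => z (sup t q)))) ∧
      ∀ u, ψ (Sum.inr u) = cln (Sum.inr (β (Sum.inr u))) := by
  obtain ⟨β, hβ⟩ := Pool.Agent.Lib.P47c.KL2Aux.exists_ext (U := U) (fun v : V => (v, z v))
    (fun v v' h => (Prod.ext_iff.1 h).1) hc
  refine ⟨β, ((Equiv.sumCongr (Equiv.prodCongr β (Equiv.refl (ZMod R)))
      (Equiv.refl P)).toEmbedding).trans fac,
    ⟨Sum.elim (fun t => cln (Sum.inl (t, fun q => z (sup t q))))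
      (fun u => cln (Sum.inr (β (Sum.inr u)))), ?_⟩, hβ, fun x c => rfl, fun p => rfl,
    fun t => rfl, fun u => rfl⟩
  rintro (t | u) (t' | u') h
  · have h1 := Sum.inl_injective (cln.injective h)
    exact congrArg Sum.inl (Prod.ext_iff.1 h1).1
  · exact absurd (cln.injective h) Sum.inl_ne_inr
  · exact absurd (cln.injective h) Sum.inr_ne_inl
  · have h1 := Sum.inr_injective (β.injective (Sum.inr_injective (cln.injective h)))
    rw [h1]

/-- The solution given by a labeling of the copies. -/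
noncomputable def solJ {Y Ω P : Type} [Fintype Y] [Fintype P] {m : ℕ} (fac : (Y × Ω) ⊕ P ↪ Fin m)
    (g : Equiv.Perm (Fin m)) (X : Y → Ω) : Finset (Fin m) :=
  Finset.univ.image (fun y : Y ⊕ P => g (fac (Sum.map (fun v => (v, X v)) id y)))

theorem solJ_card {Y Ω P : Type} [Fintype Y] [Fintype P] {m : ℕ} (fac : (Y × Ω) ⊕ P ↪ Fin m)
    (g : Equiv.Perm (Fin m)) (X : Y → Ω) :
    (solJ fac g X).card ≤ Fintype.card Y + Fintype.card P := by
  unfold solJ
  refine Finset.card_image_le.trans ?_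
  rw [Finset.card_univ, Fintype.card_sum]

theorem solJ_nonempty {Y Ω P : Type} [Fintype Y] [Nonempty Y] [Fintype P] {m : ℕ}
    (fac : (Y × Ω) ⊕ P ↪ Fin m) (g : Equiv.Perm (Fin m)) (X : Y → Ω) :
    (solJ fac g X).Nonempty := by
  unfold solJ
  exact Finset.Nonempty.image Finset.univ_nonempty _

namespace SolJAux

theorem mem_inl {Y Ω P : Type} [Fintype Y] [Fintype P] {m : ℕ}
    (fac : (Y × Ω) ⊕ P ↪ Fin m) (g : Equiv.Perm (Fin m)) (X : Y → Ω) (y : Y) :
    g (fac (Sum.inl (y, X y))) ∈ solJ fac g X :=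
  Finset.mem_image_of_mem (fun y : Y ⊕ P => g (fac (Sum.map (fun v => (v, X v)) id y)))
    (Finset.mem_univ (Sum.inl y))

theorem mem_inr {Y Ω P : Type} [Fintype Y] [Fintype P] {m : ℕ}
    (fac : (Y × Ω) ⊕ P ↪ Fin m) (g : Equiv.Perm (Fin m)) (X : Y → Ω) (p : P) :
    g (fac (Sum.inr p)) ∈ solJ fac g X :=
  Finset.mem_image_of_mem (fun y : Y ⊕ P => g (fac (Sum.map (fun v => (v, X v)) id y)))
    (Finset.mem_univ (Sum.inr p))

theorem of_mem_inl {Y Ω P : Type} [Fintype Y] [Fintype P] {m : ℕ}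
    (fac : (Y × Ω) ⊕ P ↪ Fin m) (g : Equiv.Perm (Fin m)) (X : Y → Ω) (y : Y) (c : Ω)
    (h : g (fac (Sum.inl (y, c))) ∈ solJ fac g X) : X y = c := by
  unfold solJ at h
  obtain ⟨x, _, hx⟩ := Finset.mem_image.1 h
  have h2 := fac.injective (g.injective hx)
  rcases x with x | x
  · have h3 : (x, X x) = (y, c) := Sum.inl_injective h2
    have h4 : x = y := (Prod.ext_iff.1 h3).1
    have h5 : X x = c := (Prod.ext_iff.1 h3).2
    rw [← h4]
    exact h5
  · exact absurd h2 Sum.inr_ne_inl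

end SolJAux

open SolJAux

/-- The centre to which the client `j` is assigned. -/
noncomputable def asgJ {V K Ω P : Type} {m M1 Q M : ℕ} (fac : ((V × K) × Ω) ⊕ P ↪ Fin m)
    (near : Fin M1 → Finset (V × Ω)) (pl : Fin M1 → P) (sup : Fin M1 → Fin (Q + 1) → V)
    (cln : (Fin M1 × (Fin (Q + 1) → K)) ⊕ (V × K) ≃ Fin M) (g : Equiv.Perm (Fin m))
    (h : Equiv.Perm (Fin M)) (X : V × K → Ω) (j : Fin M) : Fin m := by
  classical
  exact g (fac (Sum.elim (fun t => if ∃ q, (sup t.1 q, X (sup t.1 q, t.2 q)) ∈ near t.1 then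
      Sum.inl ((sup t.1 (pickq (near t.1) (sup t.1) t.2 X),
        t.2 (pickq (near t.1) (sup t.1) t.2 X)),
        X (sup t.1 (pickq (near t.1) (sup t.1) t.2 X), t.2 (pickq (near t.1) (sup t.1) t.2 X)))
    else Sum.inr (pl t.1)) (fun p => Sum.inl (p, X p)) (cln.symm (h.symm j))))

namespace SolJAux

theorem asgJ_eq_pos {V K Ω P : Type} {m M1 Q M : ℕ} (fac : ((V × K) × Ω) ⊕ P ↪ Fin m)
    (near : Fin M1 → Finset (V × Ω)) (pl : Fin M1 → P) (sup : Fin M1 → Fin (Q + 1) → V)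
    (cln : (Fin M1 × (Fin (Q + 1) → K)) ⊕ (V × K) ≃ Fin M) (g : Equiv.Perm (Fin m))
    (h : Equiv.Perm (Fin M)) (X : V × K → Ω) (j : Fin M) (t : Fin M1) (κ : Fin (Q + 1) → K)
    (hj : cln.symm (h.symm j) = Sum.inl (t, κ))
    (hq : ∃ q, (sup t q, X (sup t q, κ q)) ∈ near t) :
    asgJ fac near pl sup cln g h X j = g (fac (Sum.inl ((sup t (pickq (near t) (sup t) κ X),
      κ (pickq (near t) (sup t) κ X)),
      X (sup t (pickq (near t) (sup t) κ X), κ (pickq (near t) (sup t) κ X))))) := by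
  classical
  unfold asgJ
  rw [hj]
  show g (fac (if ∃ q, (sup t q, X (sup t q, κ q)) ∈ near t then _ else _)) = _
  rw [if_pos hq]

theorem asgJ_eq_neg {V K Ω P : Type} {m M1 Q M : ℕ} (fac : ((V × K) × Ω) ⊕ P ↪ Fin m)
    (near : Fin M1 → Finset (V × Ω)) (pl : Fin M1 → P) (sup : Fin M1 → Fin (Q + 1) → V)
    (cln : (Fin M1 × (Fin (Q + 1) → K)) ⊕ (V × K) ≃ Fin M) (g : Equiv.Perm (Fin m))
    (h : Equiv.Perm (Fin M)) (X : V × K → Ω) (j : Fin M) (t : Fin M1) (κ : Fin (Q + 1) → K)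
    (hj : cln.symm (h.symm j) = Sum.inl (t, κ))
    (hq : ¬ ∃ q, (sup t q, X (sup t q, κ q)) ∈ near t) :
    asgJ fac near pl sup cln g h X j = g (fac (Sum.inr (pl t))) := by
  classical
  unfold asgJ
  rw [hj]
  show g (fac (if ∃ q, (sup t q, X (sup t q, κ q)) ∈ near t then _ else _)) = _
  rw [if_neg hq]

theorem asgJ_eq_inr {V K Ω P : Type} {m M1 Q M : ℕ} (fac : ((V × K) × Ω) ⊕ P ↪ Fin m)
    (near : Fin M1 → Finset (V × Ω)) (pl : Fin M1 → P) (sup : Fin M1 → Fin (Q + 1) → V)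
    (cln : (Fin M1 × (Fin (Q + 1) → K)) ⊕ (V × K) ≃ Fin M) (g : Equiv.Perm (Fin m))
    (h : Equiv.Perm (Fin M)) (X : V × K → Ω) (j : Fin M) (p : V × K)
    (hj : cln.symm (h.symm j) = Sum.inr p) :
    asgJ fac near pl sup cln g h X j = g (fac (Sum.inl (p, X p))) := by
  unfold asgJ
  rw [hj]
  rfl

end SolJAux

theorem asgJ_mem {V K Ω P : Type} [Fintype V] [Fintype K] [Fintype P] {m M1 Q M : ℕ}
    (fac : ((V × K) × Ω) ⊕ P ↪ Fin m)
    (near : Fin M1 → Finset (V × Ω)) (pl : Fin M1 → P) (sup : Fin M1 → Fin (Q + 1) → V)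
    (cln : (Fin M1 × (Fin (Q + 1) → K)) ⊕ (V × K) ≃ Fin M) (g : Equiv.Perm (Fin m))
    (h : Equiv.Perm (Fin M)) (X : V × K → Ω) (j : Fin M) :
    asgJ fac near pl sup cln g h X j ∈ solJ fac g X := by
  rcases hj : cln.symm (h.symm j) with ⟨t, κ⟩ | p
  · by_cases hq : ∃ q, (sup t q, X (sup t q, κ q)) ∈ near t
    · rw [asgJ_eq_pos fac near pl sup cln g h X j t κ hj hq]
      exact mem_inl fac g X _
    · rw [asgJ_eq_neg fac near pl sup cln g h X j t κ hj hq]
      exact mem_inr fac g X _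
  · rw [asgJ_eq_inr fac near pl sup cln g h X j p hj]
    exact mem_inl fac g X _

section
variable {V K U P D : Type} [Fintype V] [DecidableEq V] [Fintype K] [Fintype U] [Fintype P]
  [Fintype D] [DecidableEq D] {R m M M1 Q : ℕ} [NeZero R]
  (fac : ((V × K) × ZMod R) ⊕ P ↪ Fin m) (near : Fin M1 → Finset (V × ZMod R))
  (fv : V × ZMod R → Finset D) (fp : P → Finset D) (cv : Fin M1 → Finset D) (pl : Fin M1 → P)
  (sup : Fin M1 → Fin (Q + 1) → V) (cln : (Fin M1 × (Fin (Q + 1) → K)) ⊕ (V × K) ≃ Fin M)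
  (z : V → K) (β : V ⊕ U ≃ V × K) (Φ : ((V ⊕ U) × ZMod R) ⊕ P ↪ Fin m)
  (ψ : Fin M1 ⊕ U ↪ Fin M)
  (hβ : ∀ v, β (Sum.inl v) = (v, z v))
  (hΦl : ∀ x c, Φ (Sum.inl (x, c)) = fac (Sum.inl (β x, c)))
  (hΦr : ∀ p, Φ (Sum.inr p) = fac (Sum.inr p))
  (hψl : ∀ t, ψ (Sum.inl t) = cln (Sum.inl (t, fun q => z (sup t q))))
  (hψr : ∀ u, ψ (Sum.inr u) = cln (Sum.inr (β (Sum.inr u))))
  (g : Equiv.Perm (Fin m)) (h : Equiv.Perm (Fin M)) (X : V × K → ZMod R)

namespace SolJAux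

omit [Fintype V] [DecidableEq V] [Fintype K] [Fintype U] [Fintype P] [NeZero R] in
include hΦl in
theorem trans_inl (x : V ⊕ U) (c : ZMod R) :
    (Φ.trans g.toEmbedding) (Sum.inl (x, c)) = g (fac (Sum.inl (β x, c))) := by
  show g (Φ (Sum.inl (x, c))) = g (fac (Sum.inl (β x, c)))
  rw [hΦl]

omit [Fintype V] [DecidableEq V] [Fintype K] [Fintype U] [Fintype P] [NeZero R] in
include hΦr in
theorem trans_inr (p : P) :
    (Φ.trans g.toEmbedding) (Sum.inr p) = g (fac (Sum.inr p)) := by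
  show g (Φ (Sum.inr p)) = g (fac (Sum.inr p))
  rw [hΦr]

omit [DecidableEq V] [Fintype U] [NeZero R] in
include hΦl in
theorem mem_solJ_inl (x : V ⊕ U) (c : ZMod R) :
    (Φ.trans g.toEmbedding) (Sum.inl (x, c)) ∈ solJ fac g X ↔ X (β x) = c := by
  rw [trans_inl fac β Φ hΦl g]
  constructor
  · intro h1
    exact of_mem_inl fac g X _ _ h1
  · intro h1
    rw [← h1]
    exact mem_inl fac g X _

omit [DecidableEq V] [Fintype U] [NeZero R] in
include hΦl hΦr in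
theorem mem_rangeJ (i : Fin m) (hi : i ∈ solJ fac g X) :
    ∃ p, (Φ.trans g.toEmbedding) p = i := by
  unfold solJ at hi
  obtain ⟨y, _, rfl⟩ := Finset.mem_image.1 hi
  rcases y with y | p
  · refine ⟨Sum.inl (β.symm y, X y), ?_⟩
    rw [trans_inl fac β Φ hΦl g, Equiv.apply_symm_apply]
    rfl
  · refine ⟨Sum.inr p, ?_⟩
    rw [trans_inr fac Φ hΦr g]
    rfl

omit [Fintype V] [DecidableEq V] [Fintype K] [Fintype U] [Fintype P] [NeZero R] in
include hψl in
theorem symm_inl (t : Fin M1) :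
    cln.symm (h.symm ((ψ.trans h.toEmbedding) (Sum.inl t))) =
      Sum.inl (t, fun q => z (sup t q)) := by
  show cln.symm (h.symm (h (ψ (Sum.inl t)))) = _
  rw [Equiv.symm_apply_apply, hψl, Equiv.symm_apply_apply]

omit [Fintype V] [DecidableEq V] [Fintype K] [Fintype U] [Fintype P] [NeZero R] in
include hψr in
theorem symm_inr (u : U) :
    cln.symm (h.symm ((ψ.trans h.toEmbedding) (Sum.inr u))) = Sum.inr (β (Sum.inr u)) := by
  show cln.symm (h.symm (h (ψ (Sum.inr u)))) = _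
  rw [Equiv.symm_apply_apply, hψr, Equiv.symm_apply_apply]

end SolJAux

include hβ hΦl hΦr hψl hψr in
theorem nearest_solJ {ε ρ : ℝ} (hsys : Sys R ε ρ near fv fp cv pl)
    (hsup : ∀ t, ∀ p ∈ near t, ∃ q, sup t q = p.1) :
    (instJ (Φ.trans g.toEmbedding) (ψ.trans h.toEmbedding) fv fp cv).Nearest
      (solJ fac g X) (asgJ fac near pl sup cln g h X) := by
  refine nearest_instJ _ _ fv fp cv hsys _ _
    (fun i hi => mem_rangeJ fac β Φ hΦl hΦr g X i hi)
    (fun j => asgJ_mem fac near pl sup cln g h X j) (fun u => ?_) (fun t ht => ?_)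
    (fun t ht => ?_)
  · refine ⟨X (β (Sum.inr u)), ?_⟩
    rw [asgJ_eq_inr fac near pl sup cln g h X _ _ (symm_inr cln β ψ hψr h u),
      trans_inl fac β Φ hΦl g]
  · obtain ⟨p, hp, hpS⟩ := ht
    rw [mem_solJ_inl fac β Φ hΦl g X, hβ] at hpS
    obtain ⟨q, hq⟩ := hsup t p hp
    have h1 : ∃ q, (sup t q, X (sup t q, (fun q => z (sup t q)) q)) ∈ near t := by
      refine ⟨q, ?_⟩
      dsimp only
      rw [hq, hpS]
      exact hp
    have h2 := pickq_spec (near t) (sup t) (fun q => z (sup t q)) X h1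
    refine ⟨_, h2, ?_⟩
    rw [asgJ_eq_pos fac near pl sup cln g h X _ t _ (symm_inl sup cln z ψ hψl h t) h1,
      trans_inl fac β Φ hΦl g, hβ]
  · have h1 : ¬ ∃ q, (sup t q, X (sup t q, (fun q => z (sup t q)) q)) ∈ near t := by
      rintro ⟨q, hq⟩
      apply ht
      refine ⟨_, hq, ?_⟩
      rw [mem_solJ_inl fac β Φ hΦl g X, hβ]
    rw [asgJ_eq_neg fac near pl sup cln g h X _ t _ (symm_inl sup cln z ψ hψl h t) h1,
      trans_inr fac Φ hΦr g]

include hβ hΦl hΦr in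
theorem cost_solJ {ε ρ : ℝ} (hsys : Sys R ε ρ near fv fp cv pl) (hM1 : 0 < M1)
    (ψ' : Fin M1 ⊕ U ↪ Fin M) :
    (instJ (Φ.trans g.toEmbedding) ψ' fv fp cv).cost
      ((instJ (Φ.trans g.toEmbedding) ψ' fv fp cv).centres (solJ fac g X)) =
      (M1 : ℝ) * (2 - cov near (fun v => X (v, z v))) := by
  classical
  let A : Finset (V × ZMod R) := Finset.univ.filter (fun p => X (p.1, z p.1) = p.2)
  have hA : ∀ w : V × ZMod R, w ∈ A ↔
      (Φ.trans g.toEmbedding) (Sum.inl (Sum.inl w.1, w.2)) ∈ solJ fac g X := by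
    intro p
    rw [mem_solJ_inl fac β Φ hΦl g X, hβ]
    simp [A]
  have hU : ∀ u : U, ∃ c, (Φ.trans g.toEmbedding) (Sum.inl (Sum.inr u, c)) ∈ solJ fac g X := by
    intro u
    exact ⟨X (β (Sum.inr u)), (mem_solJ_inl fac β Φ hΦl g X _ _).2 rfl⟩
  have hP : ∀ p : P, (Φ.trans g.toEmbedding) (Sum.inr p) ∈ solJ fac g X := by
    intro p
    rw [trans_inr fac Φ hΦr g]
    exact mem_inr fac g X p
  rw [cost_instJ (Φ.trans g.toEmbedding) ψ' fv fp cv hsys (solJ fac g X) A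
    (fun i hi => mem_rangeJ fac β Φ hΦl hΦr g X i hi) hA hU hP]
  have : Nonempty (Fin M1) := ⟨⟨0, hM1⟩⟩
  rw [Pool.Agent.Lib.P47c.unc_graph near (fun v => X (v, z v)) A (by intro p; simp [A])]
  rw [Fintype.card_fin]
  ring

end

end Pool.Agent.Lib.P47j
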