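import Pool.Agent.Lib.P325av.Perm
import Pool.Agent.Lib.P47c.EsCov
import Pool.Agent.Lib.P47k.LiftK
import Pool.Agent.Lib.P47j.BaseJ
import Pool.Agent.Lib.P47j.KJG
import Pool.Agent.Lib.P47j.SolJ
import Pool.Agent.Lib.P47j.Hub
import Pool.Agent.Lib.P47j.HubI

/-!
Module KJL (2h; adapt P47k/KML.lean; black boxes baseJ, liftK, opt_geJ, SolJ, KJI, es_cov, P325av.dbl). The theorem.
PROOF. (1 - 1/R)^R → 1/e (Real.tendsto_one_add_div_rpow_exp / tendsto_one_add_div_pow_exp (-1)), so there is R ≥ 2 with ρ = (1 - 1/R)^R, 1 + ρ > α; ρ ≤ 1. ξ = ((1 + ρ)/α - 1)/3 ∈ (0, 1/3), s = 1 - ξ/2.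
ε = min (min (α ξ/8) ((1 - √s)/2)) 1. baseJ R ε: C0, e, n0. liftK R C 2.. with C = 4 C0 R.. (any C with C0 ≤ C and all cardinalities below), Q = R, n0' = max n0 1, s, s1 = 1 - ε, e.
For m ≥ m0: n, C n n^5 R ≤ m, hcert. baseJ n: V, P, D, M1, near, ... Let K = Fin (n^5), cU = |V| n^5 - |V|, U = Fin cU, kk = |V| n^5 + |P| centres. |V| + cU = |V × K|. With C ≥ 4 C0: M1 + cU ≤ C0 n + C0 n n^5 ≤ m; kk ≤ 2 C0 n n^5 ≤ m; the number of the candidates
|V| n^5 R + |P| ≤ 2 C0 n n^5 R ≤ m: an embedding fac exists. M = card (Fin M1 × (Fin (R+1) → K) ⊕ V × K) ≤ m^(R+3) as in kLow. Continue as in KML: the cost of the solution of X is M1 (2 - cov), opt ≥ M1 (1 + ρ - 4 ε) ≥ α M1 (1 + 2 ξ) (1 + ρ = α (1 + 3 ξ), 4 ε ≤ α ξ/2);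
Cert: affine function 2 - (w y + w0)/M1 = cov at pt, on Feas ≤ 2 - (1 + 2 ξ) ≤ s. V nonempty: near t has R ≥ 1 elements and M1 > 0.
NEW (16:00Z): the instance is a hub instance (isHub_instJ, card_hubs of HubI; baseJ gives card (cv t) ≥ 2), H = the planes, F = the far points: F.card + Kc H.card = cU + Kc |P| ≤ cU + |V| ≤ kk = |V| n^5 + |P|. baseJ is applied with Kc after C, e are fixed (n0 depends on Kc), liftK after that, so m0 depends on Kc.
-/

open scoped BigOperators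

namespace Pool.Agent.Lib.P47j

open Pool.Agent.Lib.P47k (KInst liftK)
open Pool.Agent.Lib.P47c (cov unc Cert es_cov)

namespace KJLAux

/-- `(1 - 1/R)^R` is close to `1/e` -/
theorem exists_R (α : ℝ) (hα : α < 1 + 1 / Real.exp 1) :
    ∃ R : ℕ, 2 ≤ R ∧ α < 1 + (1 - 1 / (R : ℝ)) ^ R := by
  have h1 : Filter.Tendsto (fun x : ℕ => (1 + -1 / (x : ℝ)) ^ x) Filter.atTop
      (nhds (Real.exp (-1))) := Real.tendsto_one_add_div_pow_exp (-1)
  have h2 : α - 1 < Real.exp (-1) := by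
    rw [Real.exp_neg, ← one_div]
    linarith
  have h3 := (h1.eventually (lt_mem_nhds h2)).and (Filter.eventually_ge_atTop 2)
  obtain ⟨R, hR, hR2⟩ := h3.exists
  refine ⟨R, hR2, ?_⟩
  have h4 : (1 + -1 / (R : ℝ)) = 1 - 1 / (R : ℝ) := by ring
  rw [h4] at hR
  linarith

/-- the cardinalities -/
theorem nat_bounds {C0 n N5 R v p M1 cU m : ℕ} (hC : 1 ≤ C0) (hn : 1 ≤ n) (h5 : 1 ≤ N5)
    (hR : 2 ≤ R) (hm : 4 * C0 * n * N5 * R ≤ m) (hv : v ≤ C0 * n) (hp : p ≤ C0 * n)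
    (hM : M1 ≤ C0 * n) (hcU : cU ≤ v * N5) :
    M1 + cU ≤ m ∧ M1 ≤ m ∧ v * N5 + p ≤ m ∧ v * N5 * R + p ≤ m ∧ 2 ≤ m ∧ N5 ≤ m := by
  have hx1 : 1 ≤ C0 * n := Nat.mul_pos hC hn
  obtain ⟨x, hx⟩ : ∃ x, x = C0 * n := ⟨_, rfl⟩
  rw [← hx] at hv hp hM hx1
  have hm' : 4 * (x * N5 * R) ≤ m := by
    rw [hx]
    calc 4 * (C0 * n * N5 * R) = 4 * C0 * n * N5 * R := by ring
      _ ≤ m := hm
  have e1 : x * N5 ≤ x * N5 * R := Nat.le_mul_of_pos_right _ (by omega)
  have e2 : x ≤ x * N5 := Nat.le_mul_of_pos_right _ h5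
  have e3 : v * N5 ≤ x * N5 := Nat.mul_le_mul_right _ hv
  have e4 : v * N5 * R ≤ x * N5 * R := Nat.mul_le_mul_right _ e3
  have e5 : N5 ≤ x * N5 := Nat.le_mul_of_pos_left _ hx1
  omega

end KJLAux

open KJLAux

open Pool.Agent.Lib.P47c.KL2Aux in
theorem kjLow (α : ℝ) (hα1 : 1 ≤ α) (hα : α < 1 + 1 / Real.exp 1) :
    ∃ (Q : ℕ) (a : ℝ), 0 < a ∧ ∀ Kc : ℕ, ∃ m0 : ℕ, ∀ m ≥ m0,
      ∃ (M k : ℕ) (I : KInst m M) (H : Finset (Fin m)) (F : Finset (Fin M)),
      M ≤ m ^ Q ∧ k ≤ m ∧ I.clients.card ≤ m ∧ IsHub I H F ∧ 1 ≤ H.card ∧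
      F.card + Kc * H.card ≤ k ∧
      ∀ (Y : Type) [AddCommGroup Y] [Module ℝ Y] (R d : ℕ)
        (A : Fin R → Y →ₗ[ℝ] (Fin d → ℝ)) (C : Fin R → Set (Fin d → ℝ))
        (pt : Finset (Fin m) → (Fin M → Fin m) → Y),
        (R : ℝ) ≤ Real.exp ((m : ℝ) ^ a) → (d : ℝ) ≤ (m : ℝ) ^ a → (∀ i, Convex ℝ (C i)) →
        (∀ S σ, S.Nonempty → S.card ≤ k → (∀ j, σ j ∈ S) → ∀ i, A i (pt S σ) ∈ C i) →
        (Nat.card {g : Equiv.Perm (Fin m) × Equiv.Perm (Fin M) //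
          (I.rename g.1 g.2).ApproxBy {y | ∀ i, A i y ∈ C i} pt k α} : ℝ) ≤
          Real.exp (-(m : ℝ) ^ a) * (m.factorial * M.factorial) := by
  classical
  have hα0 : 0 < α := by linarith
  obtain ⟨R, hR2, hαR⟩ := exists_R α hα
  have hRz : NeZero R := ⟨by omega⟩
  obtain ⟨ρ, hρ⟩ : ∃ ρ : ℝ, ρ = (1 - 1 / (R : ℝ)) ^ R := ⟨_, rfl⟩
  rw [← hρ] at hαR
  have hRr : (2 : ℝ) ≤ R := by exact_mod_cast hR2
  have hρ1 : ρ ≤ 1 := by
    rw [hρ]
    apply pow_le_one₀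
    · rw [sub_nonneg, div_le_one (by linarith)]
      linarith
    · have : (0 : ℝ) ≤ 1 / (R : ℝ) := by positivity
      linarith
  obtain ⟨ξ, hξ⟩ : ∃ ξ : ℝ, ξ = ((1 + ρ) / α - 1) / 3 := ⟨_, rfl⟩
  have hξ0 : 0 < ξ := by
    rw [hξ]
    have : 1 < (1 + ρ) / α := by
      rw [one_lt_div hα0]
      exact hαR
    linarith
  have hξ1 : ξ ≤ 1 / 3 := by
    rw [hξ]
    have h1 : (1 + ρ) / α ≤ 2 := by
      rw [div_le_iff₀ hα0]
      linarith
    linarith
  have hαξ : α * (1 + 3 * ξ) = 1 + ρ := by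
    rw [hξ]
    field_simp
    ring
  obtain ⟨s, hs⟩ : ∃ s : ℝ, s = 1 - ξ / 2 := ⟨_, rfl⟩
  have hs0 : 0 < s := by linarith
  have hs1 : s < 1 := by linarith
  have hsq : Real.sqrt s < 1 := by
    rw [Real.sqrt_lt' one_pos]
    linarith
  obtain ⟨ε, hε⟩ : ∃ ε : ℝ, ε = min (min (α * ξ / 8) ((1 - Real.sqrt s) / 2)) 1 := ⟨_, rfl⟩
  have hε0 : 0 < ε := by
    rw [hε]
    refine lt_min (lt_min ?_ ?_) one_pos
    · positivity
    · linarith
  have hε1 : ε ≤ α * ξ / 8 := by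
    rw [hε]
    exact (min_le_left _ _).trans (min_le_left _ _)
  have hε2 : ε ≤ (1 - Real.sqrt s) / 2 := by
    rw [hε]
    exact (min_le_left _ _).trans (min_le_right _ _)
  have hε3 : ε ≤ 1 := by
    rw [hε]
    exact min_le_right _ _
  obtain ⟨C0, e, hC1, he, he4, hbase⟩ := baseJ R hR2 ε hε0 hε3
  refine ⟨R + 3, e / 18, by positivity, fun Kc => ?_⟩
  obtain ⟨n0, hbase'⟩ := hbase Kc
  have hC4 : 1 ≤ 4 * C0 := by omega
  obtain ⟨m0, hlift⟩ := liftK R (4 * C0) R n0 hC4 s (1 - ε) e hs0 hs1 (by linarith) he he4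
  refine ⟨m0, fun m hm => ?_⟩
  obtain ⟨n, hn0, hn1, hnm, hcert⟩ := hlift m hm
  obtain ⟨V, P, D, iV, iDV, iP, iD, iDD, M1, near, fv, fp, cv, pl, r, E, hM0, hM1, hVc, hPc, hP1,
    hKc, hcv, hsys, hr, hE, hcov⟩ := hbase' n hn0
  rw [← hρ] at hsys
  have hMz : NeZero M1 := ⟨by omega⟩
  have hTne : Nonempty (Fin M1) := ⟨0⟩
  have hVne : Nonempty V := by
    have h1 : 0 < (near 0).card := by
      rw [hsys.card_near]
      omega
    obtain ⟨w, _⟩ := Finset.card_pos.1 h1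
    exact ⟨w.1⟩
  have hV1 : 1 ≤ Fintype.card V := Fintype.card_pos
  have hn5 : 1 ≤ n ^ 5 := Nat.one_le_pow _ _ hn1
  have hle : Fintype.card V ≤ Fintype.card V * n ^ 5 := Nat.le_mul_of_pos_right _ hn5
  obtain ⟨cU, hcU⟩ : ∃ cU : ℕ, cU = Fintype.card V * n ^ 5 - Fintype.card V := ⟨_, rfl⟩
  have hcU' : Fintype.card V + cU = Fintype.card V * n ^ 5 := by omega
  have hcardU : Fintype.card V + Fintype.card (Fin cU) =
      Fintype.card (V × Fin (n ^ 5)) := by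
    rw [Fintype.card_prod, Fintype.card_fin, Fintype.card_fin, hcU']
  obtain ⟨hMm, hM1m, hkm, hcand, hm2, hn5m⟩ := nat_bounds (C0 := C0) (n := n) (N5 := n ^ 5)
    (R := R) (v := Fintype.card V) (p := Fintype.card P) (M1 := M1) (cU := cU) (m := m) hC1 hn1
    hn5 hR2 hnm hVc hPc hM1 (by omega)
  have hfac : Nonempty (((V × Fin (n ^ 5)) × ZMod R) ⊕ P ↪ Fin m) := by
    apply Function.Embedding.nonempty_of_card_le
    rw [Fintype.card_sum, Fintype.card_prod, Fintype.card_prod, Fintype.card_fin,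
      Fintype.card_fin, ZMod.card]
    exact hcand
  obtain ⟨fac⟩ := hfac
  have hsupE : ∀ t : Fin M1, ∃ f : Fin (R + 1) → V, ∀ p ∈ near t, ∃ q, f q = p.1 := by
    intro t
    obtain ⟨f, hf⟩ := exists_sup ((near t).image Prod.fst) R
      (Finset.card_image_le.trans (hsys.card_near t).le)
    exact ⟨f, fun p hp => hf p.1 (Finset.mem_image_of_mem _ hp)⟩
  choose sup hsup using hsupE
  obtain ⟨M, hMdef⟩ : ∃ M, M = Fintype.card ((Fin M1 × (Fin (R + 1) → Fin (n ^ 5))) ⊕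
    (V × Fin (n ^ 5))) := ⟨_, rfl⟩
  have cln : (Fin M1 × (Fin (R + 1) → Fin (n ^ 5))) ⊕ (V × Fin (n ^ 5)) ≃ Fin M :=
    Fintype.equivFinOfCardEq hMdef.symm
  have hMle : M ≤ m ^ (R + 3) := by
    rw [hMdef, Fintype.card_sum, Fintype.card_prod, Fintype.card_prod, Fintype.card_fin,
      Fintype.card_fun, Fintype.card_fin, Fintype.card_fin]
    have g1 : M1 * (n ^ 5) ^ (R + 1) ≤ m ^ (R + 2) := by
      rw [pow_succ m (R + 1), mul_comm (m ^ (R + 1))]
      exact Nat.mul_le_mul hM1m (Nat.pow_le_pow_left hn5m _)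
    have g2 : m ≤ m ^ (R + 2) := Nat.le_self_pow (by omega) m
    have g3 : 2 * m ^ (R + 2) ≤ m ^ (R + 3) := by
      rw [pow_succ m (R + 2), mul_comm]
      exact Nat.mul_le_mul_left _ hm2
    omega
  choose β Φ ψ hβ hΦl hΦr hψl hψr using fun z : V → Fin (n ^ 5) =>
    exists_PhiJ (U := Fin cU) fac sup cln hcardU z
  let z0 : V → Fin (n ^ 5) := fun _ => ⟨0, hn5⟩
  have hM1r : (0 : ℝ) < M1 := by exact_mod_cast hM0
  obtain ⟨kk, hkk⟩ : ∃ kk : ℕ, kk = Fintype.card V * n ^ 5 + Fintype.card P := ⟨_, rfl⟩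
  have hkk' : Fintype.card V + Fintype.card (Fin cU) + Fintype.card P = kk := by
    rw [Fintype.card_fin, hcU', hkk]
  obtain ⟨hHc, hFc⟩ := card_hubs (Φ z0) (ψ z0)
  refine ⟨M, kk, instJ (Φ z0) (ψ z0) fv fp cv, _, _, hMle, hkk ▸ hkm, ?_,
    isHub_instJ (Φ z0) (ψ z0) fv fp cv hsys hcv, ?_, ?_, ?_⟩
  · rw [clients_instJ, Fintype.card_fin, Fintype.card_fin]
    exact hMm
  · rw [hHc]
    exact hP1
  · rw [hHc, hFc, Fintype.card_fin]
    omega
  intro Y _ _ R' d A C pt hR hd hconv hpt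
  have hGc : (Fintype.card (Equiv.Perm (Fin m) × Equiv.Perm (Fin M)) : ℝ) =
      (m.factorial : ℝ) * (M.factorial : ℝ) := by
    rw [Fintype.card_prod, Fintype.card_perm, Fintype.card_perm, Fintype.card_fin,
      Fintype.card_fin]
    push_cast
    rfl
  have hP : ∀ z : V → Fin (n ^ 5), ∃ h : Equiv.Perm (Fin m) × Equiv.Perm (Fin M),
      ∀ g : Equiv.Perm (Fin m) × Equiv.Perm (Fin M),
      (((instJ (Φ z) (ψ z) fv fp cv).rename g.1 g.2).ApproxBy
        {y | ∀ j, A j y ∈ C j} pt kk α) ↔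
      (((instJ (Φ z0) (ψ z0) fv fp cv).rename (g * h).1 (g * h).2).ApproxBy
        {y | ∀ j, A j y ∈ C j} pt kk α) := by
    intro z
    obtain ⟨h, h', hh⟩ := exists_renameJ (Φ z0) (ψ z0) fv fp cv (Φ z) (ψ z)
    refine ⟨(h, h'), fun g => ?_⟩
    rw [hh, rename_instJ, rename_instJ, rename_instJ]
    rfl
  have hmain : ∀ g : Equiv.Perm (Fin m) × Equiv.Perm (Fin M),
      (Nat.card {z : V → Fin (n ^ 5) //
      ((instJ (Φ z) (ψ z) fv fp cv).rename g.1 g.2).ApproxBy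
        {y | ∀ j, A j y ∈ C j} pt kk α} : ℝ) ≤
      Real.exp (-(m : ℝ) ^ (e / 18)) * Fintype.card (V → Fin (n ^ 5)) := by
    intro g
    have : Nonempty (V × Fin (n ^ 5)) := ⟨(hVne.some, ⟨0, hn5⟩)⟩
    have hSc : ∀ X : V × Fin (n ^ 5) → ZMod R,
        (solJ fac g.1 X).card ≤ kk := by
      intro X
      refine le_trans (solJ_card fac g.1 X) ?_
      rw [Fintype.card_prod, Fintype.card_fin, hkk]
    have hcn : ∀ y, 0 ≤ cov near y := by
      intro y
      unfold cov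
      apply Pool.Agent.Lib.P325P.mean_nonneg
      intro j
      split_ifs <;> norm_num
    have hVC : Fintype.card V ≤ 4 * C0 * n := by
      have h1 : 4 * C0 * n = 4 * (C0 * n) := by ring
      omega
    have h1 := hcert V hVC (cov near) hcn
      (fun T hT y => es_cov near R (fun j => (hsys.card_near j).le) T hT y) r E hE hr hcov Y R' d
      A C (fun X => pt (solJ fac g.1 X) (asgJ fac near pl sup cln g.1 g.2 X)) hR hd
      hconv (fun X j => hpt _ _ (solJ_nonempty fac g.1 X) (hSc X)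
        (fun i => asgJ_mem fac near pl sup cln g.1 g.2 X i) j)
    refine le_trans ?_ h1
    have h2 : ∀ z : V → Fin (n ^ 5),
        ((instJ (Φ z) (ψ z) fv fp cv).rename g.1 g.2).ApproxBy
        {y | ∀ j, A j y ∈ C j} pt kk α →
        Cert {y | ∀ j, A j y ∈ C j}
          (fun X => pt (solJ fac g.1 X) (asgJ fac near pl sup cln g.1 g.2 X))
          (fun X => cov near (fun i => X (i, z i))) s := by
      intro z hz
      rw [rename_instJ] at hz
      obtain ⟨w, w0, hw, hopt⟩ := hz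
      have hserv : ∀ X : V × Fin (n ^ 5) → ZMod R,
          w (pt (solJ fac g.1 X) (asgJ fac near pl sup cln g.1 g.2 X)) + w0 =
          (M1 : ℝ) * (2 - cov near (fun v => X (v, z v))) := by
        intro X
        rw [hw (solJ fac g.1 X) (asgJ fac near pl sup cln g.1 g.2 X)
          (solJ_nonempty fac g.1 X) (hSc X)
          (nearest_solJ fac near fv fp cv pl sup cln z (β z) (Φ z) (ψ z) (hβ z) (hΦl z) (hΦr z)
            (hψl z) (hψr z) g.1 g.2 X hsys hsup),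
          cost_solJ fac near fv fp cv pl z (β z) (Φ z) (hβ z) (hΦl z) (hΦr z) g.1 X hsys hM0]
      have hmed : (M1 : ℝ) * (1 + ρ - 4 * ε) ≤
          (instJ ((Φ z).trans g.1.toEmbedding) ((ψ z).trans g.2.toEmbedding) fv fp cv).opt
            kk := by
        have h3 := opt_geJ ((Φ z).trans g.1.toEmbedding) ((ψ z).trans g.2.toEmbedding) fv fp cv
          hε0 hρ1 hsys (by omega)
        rw [hkk', Fintype.card_fin] at h3
        exact h3
      have hlow : ∀ y ∈ {y | ∀ j, A j y ∈ C j}, (M1 : ℝ) * (1 + 2 * ξ) ≤ w y + w0 := by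
        intro y hy
        refine le_trans ?_ (hopt y hy)
        rw [le_div_iff₀ hα0]
        refine le_trans ?_ hmed
        rw [mul_assoc]
        apply mul_le_mul_of_nonneg_left _ hM1r.le
        nlinarith
      refine ⟨(-(1 / (M1 : ℝ))) • w, 2 - w0 / M1, ?_, ?_⟩
      · intro X
        have h3 := hserv X
        have h4 : w (pt (solJ fac g.1 X) (asgJ fac near pl sup cln g.1 g.2 X)) =
          (M1 : ℝ) * (2 - cov near (fun v => X (v, z v))) - w0 := by linarith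
        rw [LinearMap.smul_apply, smul_eq_mul, h4]
        field_simp
        ring
      · intro y hy
        have h3 := hlow y hy
        rw [LinearMap.smul_apply, smul_eq_mul, hs]
        have h5 : -(1 / (M1 : ℝ)) * w y + (2 - w0 / M1) =
            (2 * M1 - (w y + w0)) / M1 := by
          field_simp
          ring
        rw [h5, div_le_iff₀ (by positivity)]
        nlinarith
    have h3 : Nat.card {z : V → Fin (n ^ 5) //
        ((instJ (Φ z) (ψ z) fv fp cv).rename g.1 g.2).ApproxBy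
        {y | ∀ j, A j y ∈ C j} pt kk α} ≤
        Nat.card {z : V → Fin (n ^ 5) // Cert {y | ∀ j, A j y ∈ C j}
          (fun X => pt (solJ fac g.1 X) (asgJ fac near pl sup cln g.1 g.2 X))
          (fun X => cov near (fun i => X (i, z i))) s} := by
      apply Nat.card_le_card_of_injective (fun z => ⟨z.1, h2 z.1 z.2⟩)
      intro z z' h
      exact Subtype.ext (congrArg (fun u => u.1) h)
    exact_mod_cast h3
  have hZne : Nonempty (V → Fin (n ^ 5)) := ⟨z0⟩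
  have key := Pool.Agent.Lib.P325av.dbl (G := Equiv.Perm (Fin m) × Equiv.Perm (Fin M))
    (Zt := V → Fin (n ^ 5)) _
    (fun g => ((instJ (Φ z0) (ψ z0) fv fp cv).rename g.1 g.2).ApproxBy
        {y | ∀ j, A j y ∈ C j} pt kk α) hP
    (Real.exp (-(m : ℝ) ^ (e / 18))) hmain
  rw [hGc] at key
  exact key

end Pool.Agent.Lib.P47j
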