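import Mathlib

/-!
Module PipG (1.2h; Mathlib only; adapt P47k/Pip.lean, which is the case of pairs). Pipage rounding for coverage.
PROOF. As P47k.pip with F z = ∑ t, (1 - ∏_{a ∈ N t} (1 - z a)). Along z + s (e_a - e_b), a ≠ b, the term of t is affine in s unless a, b ∈ N t; then it is 1 - (1 - z a - s)(1 - z b + s) r with r = ∏ over the other elements ≥ 0, i.e. 1 - r ((1 - z a)(1 - z b) + s(..)) + r s^2 ...:
(1 - z a - s)(1 - z b + s) = (1 - z a)(1 - z b) + s ((1 - z a) - (1 - z b)) - s^2, so F is a quadratic polynomial in s with a nonnegative coefficient of s^2. Everything else as in Pip (monotone in every coordinate; for integral z the value is the number of the t with N t ∩ A ≠ ∅).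
-/

open scoped BigOperators

namespace Pool.Agent.Lib.P47j

namespace PipGAux

/-- the coverage -/
noncomputable def cov {ι T : Type} [Fintype T] (N : T → Finset ι) (z : ι → ℝ) : ℝ :=
  ∑ t, (1 - ∏ a ∈ N t, (1 - z a))

theorem cov_mono {ι T : Type} [Fintype T] (N : T → Finset ι) (z w : ι → ℝ) (hzw : ∀ a, z a ≤ w a)
    (hw : ∀ a, w a ≤ 1) : cov N z ≤ cov N w := by
  unfold cov
  refine Finset.sum_le_sum fun t _ => ?_
  have h : ∏ a ∈ N t, (1 - w a) ≤ ∏ a ∈ N t, (1 - z a) :=
    Finset.prod_le_prod (fun a _ => by linarith [hw a]) (fun a _ => by linarith [hzw a])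
  linarith

/-- the direction -/
noncomputable def dir {ι : Type} [DecidableEq ι] (a b : ι) (c : ι) : ℝ :=
  (if c = a then 1 else 0) - (if c = b then 1 else 0)

theorem term_line {ι : Type} [DecidableEq ι] (S : Finset ι) (z : ι → ℝ) (hz : ∀ a, z a ≤ 1)
    {a b : ι} (hab : a ≠ b) :
    ∃ U V : ℝ, 0 ≤ V ∧ ∀ s : ℝ, 1 - ∏ c ∈ S, (1 - (z c + s * dir a b c)) =
      (1 - ∏ c ∈ S, (1 - z c)) + U * s + V * s ^ 2 := by
  have da : dir a b a = 1 := by simp [dir, hab]
  have db : dir a b b = -1 := by simp [dir, hab.symm]
  have dc : ∀ c, c ≠ a → c ≠ b → dir a b c = 0 := fun c hc1 hc2 => by simp [dir, hc1, hc2]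
  by_cases ha : a ∈ S
  · by_cases hb : b ∈ S
    · have hb' : b ∈ S.erase a := Finset.mem_erase.2 ⟨hab.symm, hb⟩
      set r : ℝ := ∏ c ∈ (S.erase a).erase b, (1 - z c) with hr
      have hr0 : 0 ≤ r := Finset.prod_nonneg fun c _ => by linarith [hz c]
      refine ⟨-(r * ((1 - z a) - (1 - z b))), r, hr0, fun s => ?_⟩
      rw [← Finset.mul_prod_erase S _ ha, ← Finset.mul_prod_erase (S.erase a) _ hb',
        ← Finset.mul_prod_erase S (fun c => 1 - z c) ha,
        ← Finset.mul_prod_erase (S.erase a) (fun c => 1 - z c) hb']
      have e : ∏ c ∈ (S.erase a).erase b, (1 - (z c + s * dir a b c)) = r := by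
        refine Finset.prod_congr rfl fun c hc => ?_
        have h1 := Finset.ne_of_mem_erase hc
        have h2 := Finset.ne_of_mem_erase (Finset.mem_of_mem_erase hc)
        rw [dc c h2 h1]
        ring
      rw [e, da, db]
      ring
    · set r : ℝ := ∏ c ∈ S.erase a, (1 - z c) with hr
      refine ⟨r, 0, le_rfl, fun s => ?_⟩
      rw [← Finset.mul_prod_erase S _ ha, ← Finset.mul_prod_erase S (fun c => 1 - z c) ha]
      have e : ∏ c ∈ S.erase a, (1 - (z c + s * dir a b c)) = r := by
        refine Finset.prod_congr rfl fun c hc => ?_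
        have h1 := Finset.ne_of_mem_erase hc
        have h2 : c ≠ b := fun h => hb (h ▸ Finset.mem_of_mem_erase hc)
        rw [dc c h1 h2]
        ring
      rw [e, da]
      ring
  · by_cases hb : b ∈ S
    · set r : ℝ := ∏ c ∈ S.erase b, (1 - z c) with hr
      refine ⟨-r, 0, le_rfl, fun s => ?_⟩
      rw [← Finset.mul_prod_erase S _ hb, ← Finset.mul_prod_erase S (fun c => 1 - z c) hb]
      have e : ∏ c ∈ S.erase b, (1 - (z c + s * dir a b c)) = r := by
        refine Finset.prod_congr rfl fun c hc => ?_
        have h1 := Finset.ne_of_mem_erase hc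
        have h2 : c ≠ a := fun h => ha (h ▸ Finset.mem_of_mem_erase hc)
        rw [dc c h2 h1]
        ring
      rw [e, db]
      ring
    · refine ⟨0, 0, le_rfl, fun s => ?_⟩
      have e : ∏ c ∈ S, (1 - (z c + s * dir a b c)) = ∏ c ∈ S, (1 - z c) := by
        refine Finset.prod_congr rfl fun c hc => ?_
        have h1 : c ≠ a := fun h => ha (h ▸ hc)
        have h2 : c ≠ b := fun h => hb (h ▸ hc)
        rw [dc c h1 h2]
        ring
      rw [e]
      ring

theorem cov_line {ι T : Type} [DecidableEq ι] [Fintype T] (N : T → Finset ι)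
    (z : ι → ℝ) (hz : ∀ a, z a ≤ 1) {a b : ι} (hab : a ≠ b) :
    ∃ U V : ℝ, 0 ≤ V ∧ ∀ s : ℝ, cov N (fun c => z c + s * dir a b c) = cov N z + U * s + V * s ^ 2 := by
  choose U V hV h using fun t => term_line (N t) z hz hab
  refine ⟨∑ t, U t, ∑ t, V t, Finset.sum_nonneg fun t _ => hV t, fun s => ?_⟩
  unfold cov
  rw [Finset.sum_mul, Finset.sum_mul, ← Finset.sum_add_distrib, ← Finset.sum_add_distrib]
  exact Finset.sum_congr rfl fun t _ => h t s

theorem sum_dir {ι : Type} [Fintype ι] [DecidableEq ι] (a b : ι) : ∑ c, dir a b c = 0 := by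
  simp [dir, Finset.sum_sub_distrib]

end PipGAux

open PipGAux in
theorem pipG {ι T : Type} [Fintype ι] [DecidableEq ι] [Fintype T] (N : T → Finset ι) (K : ℕ)
    (z : ι → ℝ) (h0 : ∀ a, 0 ≤ z a) (h1 : ∀ a, z a ≤ 1) (hs : ∑ a, z a ≤ K) :
    ∃ A : Finset ι, A.card ≤ K ∧ ∑ t, (1 - ∏ a ∈ N t, (1 - z a)) ≤
      ((Finset.univ.filter (fun t => (N t ∩ A).Nonempty)).card : ℝ) := by
  classical
  obtain ⟨n, hn⟩ : ∃ n, (Finset.univ.filter (fun a => z a ≠ 0 ∧ z a ≠ 1)).card = n := ⟨_, rfl⟩
  induction n using Nat.strong_induction_on generalizing z with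
  | _ n ih =>
    by_cases hab : ∃ a b, a ≠ b ∧ (z a ≠ 0 ∧ z a ≠ 1) ∧ (z b ≠ 0 ∧ z b ≠ 1)
    · obtain ⟨a, b, hne, ⟨ha0, ha1⟩, ⟨hb0, hb1⟩⟩ := hab
      have pa0 : 0 < z a := lt_of_le_of_ne (h0 a) (Ne.symm ha0)
      have pa1 : z a < 1 := lt_of_le_of_ne (h1 a) ha1
      have pb0 : 0 < z b := lt_of_le_of_ne (h0 b) (Ne.symm hb0)
      have pb1 : z b < 1 := lt_of_le_of_ne (h1 b) hb1
      obtain ⟨U, V, hV, hline⟩ := cov_line N z h1 hne
      have key : ∀ s : ℝ, 0 ≤ z a + s → z a + s ≤ 1 → 0 ≤ z b - s → z b - s ≤ 1 →
          (z a + s = 0 ∨ z a + s = 1 ∨ z b - s = 0 ∨ z b - s = 1) → 0 ≤ U * s →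
          ∃ A : Finset ι, A.card ≤ K ∧ ∑ t, (1 - ∏ a ∈ N t, (1 - z a)) ≤
            ((Finset.univ.filter (fun t => (N t ∩ A).Nonempty)).card : ℝ) := by
        intro s e1 e2 e3 e4 e5 e6
        have da : dir a b a = 1 := by simp [dir, hne]
        have db : dir a b b = -1 := by simp [dir, hne.symm]
        have dc : ∀ c, c ≠ a → c ≠ b → dir a b c = 0 := fun c hc1 hc2 => by simp [dir, hc1, hc2]
        have hval : ∀ c, (c = a ∧ z c + s * dir a b c = z a + s) ∨ (c = b ∧ z c + s * dir a b c = z b - s) ∨
            (c ≠ a ∧ c ≠ b ∧ z c + s * dir a b c = z c) := by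
          intro c
          by_cases hc1 : c = a
          · left; subst hc1; exact ⟨rfl, by rw [da]; ring⟩
          · by_cases hc2 : c = b
            · right; left; subst hc2; exact ⟨rfl, by rw [db]; ring⟩
            · right; right; exact ⟨hc1, hc2, by rw [dc c hc1 hc2]; ring⟩
        have hlt : (Finset.univ.filter (fun c => z c + s * dir a b c ≠ 0 ∧ z c + s * dir a b c ≠ 1)).card < n := by
          rw [← hn]
          apply Finset.card_lt_card
          refine ⟨fun c hc => ?_, fun hsub => ?_⟩
          · simp only [Finset.mem_filter, Finset.mem_univ, true_and] at hc ⊢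
            rcases hval c with ⟨hc1, -⟩ | ⟨hc1, -⟩ | ⟨-, -, hc1⟩
            · subst hc1; exact ⟨ha0, ha1⟩
            · subst hc1; exact ⟨hb0, hb1⟩
            · rwa [hc1] at hc
          · have ma := @hsub a (by simp [ha0, ha1])
            have mb := @hsub b (by simp [hb0, hb1])
            simp only [Finset.mem_filter, Finset.mem_univ, true_and] at ma mb
            have va : z a + s * dir a b a = z a + s := by rw [da]; ring
            have vb : z b + s * dir a b b = z b - s := by rw [db]; ring
            rw [va] at ma
            rw [vb] at mb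
            rcases e5 with h | h | h | h
            · exact ma.1 h
            · exact ma.2 h
            · exact mb.1 h
            · exact mb.2 h
        obtain ⟨A, hA, hF⟩ := ih _ hlt (fun c => z c + s * dir a b c) (fun c => by
          rcases hval c with ⟨-, h⟩ | ⟨-, h⟩ | ⟨-, -, h⟩ <;> rw [h]
          · exact e1
          · exact e3
          · exact h0 c) (fun c => by
          rcases hval c with ⟨-, h⟩ | ⟨-, h⟩ | ⟨-, -, h⟩ <;> rw [h]
          · exact e2
          · exact e4
          · exact h1 c) (by
          rw [Finset.sum_add_distrib, ← Finset.mul_sum, sum_dir, mul_zero, add_zero]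
          exact hs) rfl
        refine ⟨A, hA, le_trans ?_ hF⟩
        have h := hline s
        unfold cov at h
        rw [h]
        have : 0 ≤ V * s ^ 2 := by positivity
        linarith
      rcases le_total 0 U with hU | hU
      · rcases le_total (1 - z a) (z b) with hm | hm
        · exact key (1 - z a) (by linarith) (by linarith) (by linarith) (by linarith)
            (Or.inr (Or.inl (by ring))) (mul_nonneg hU (by linarith))
        · exact key (z b) (by linarith) (by linarith) (by linarith) (by linarith)
            (Or.inr (Or.inr (Or.inl (by ring)))) (mul_nonneg hU (by linarith))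
      · rcases le_total (z a) (1 - z b) with hm | hm
        · exact key (-z a) (by linarith) (by linarith) (by linarith) (by linarith)
            (Or.inl (by ring)) (mul_nonneg_of_nonpos_of_nonpos hU (by linarith))
        · exact key (-(1 - z b)) (by linarith) (by linarith) (by linarith) (by linarith)
            (Or.inr (Or.inr (Or.inr (by ring)))) (mul_nonneg_of_nonpos_of_nonpos hU (by linarith))
    · by_cases hex : ∃ a, z a ≠ 0 ∧ z a ≠ 1
      · obtain ⟨a, ha0, ha1⟩ := hex
        have hoth : ∀ c, c ≠ a → z c = 0 ∨ z c = 1 := by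
          intro c hc
          by_contra hcon
          push Not at hcon
          exact hab ⟨c, a, hc, hcon, ha0, ha1⟩
        have pa0 : 0 < z a := lt_of_le_of_ne (h0 a) (Ne.symm ha0)
        have hsum : ∑ c, z c = z a + ((((Finset.univ.erase a).filter (fun c => z c = 1)).card : ℕ) : ℝ) := by
          rw [← Finset.add_sum_erase _ _ (Finset.mem_univ a), Finset.card_filter]
          push_cast
          congr 1
          refine Finset.sum_congr rfl fun c hc => ?_
          rcases hoth c (Finset.ne_of_mem_erase hc) with h | h <;> simp [h]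
        have hlt : ((Finset.univ.erase a).filter (fun c => z c = 1)).card < K := by
          have : ((((Finset.univ.erase a).filter (fun c => z c = 1)).card : ℕ) : ℝ) < K := by linarith
          exact_mod_cast this
        have hcard : (Finset.univ.filter (fun c => Function.update z a 1 c ≠ 0 ∧ Function.update z a 1 c ≠ 1)).card < n := by
          rw [← hn]
          apply Finset.card_lt_card
          refine ⟨fun c hc => ?_, fun hsub => ?_⟩
          · simp only [Finset.mem_filter, Finset.mem_univ, true_and] at hc ⊢
            by_cases hca : c = a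
            · subst hca; exact ⟨ha0, ha1⟩
            · rwa [Function.update_of_ne hca] at hc
          · have ma := @hsub a (by simp [ha0, ha1])
            simp at ma
        have hle : ∀ c, z c ≤ Function.update z a 1 c := by
          intro c
          by_cases hca : c = a
          · subst hca; rw [Function.update_self]; exact h1 c
          · rw [Function.update_of_ne hca]
        have hle1 : ∀ c, Function.update z a 1 c ≤ 1 := by
          intro c
          by_cases hca : c = a
          · subst hca; rw [Function.update_self]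
          · rw [Function.update_of_ne hca]; exact h1 c
        obtain ⟨A, hA, hF⟩ := ih _ hcard (Function.update z a 1) (fun c => (h0 c).trans (hle c)) hle1 (by
          have e : ∑ c, Function.update z a 1 c = 1 + ((((Finset.univ.erase a).filter (fun c => z c = 1)).card : ℕ) : ℝ) := by
            rw [← Finset.add_sum_erase _ _ (Finset.mem_univ a), Function.update_self, Finset.card_filter]
            push_cast
            congr 1
            refine Finset.sum_congr rfl fun c hc => ?_
            rw [Function.update_of_ne (Finset.ne_of_mem_erase hc)]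
            rcases hoth c (Finset.ne_of_mem_erase hc) with h | h <;> simp [h]
          rw [e]
          have : 1 + ((Finset.univ.erase a).filter (fun c => z c = 1)).card ≤ K := by omega
          exact_mod_cast this) rfl
        exact ⟨A, hA, (cov_mono N z _ hle hle1).trans hF⟩
      · have hint : ∀ c, z c = 0 ∨ z c = 1 := by
          intro c
          by_contra hcon
          push Not at hcon
          exact hex ⟨c, hcon⟩
        refine ⟨Finset.univ.filter (fun c => z c = 1), ?_, ?_⟩
        · have : (((Finset.univ.filter (fun c => z c = 1)).card : ℕ) : ℝ) ≤ K := by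
            rw [Finset.card_filter]
            push_cast
            refine le_trans (le_of_eq ?_) hs
            refine Finset.sum_congr rfl fun c _ => ?_
            rcases hint c with h | h <;> simp [h]
          exact_mod_cast this
        · rw [Finset.card_filter]
          push_cast
          refine Finset.sum_le_sum fun t _ => ?_
          by_cases hA : (N t ∩ Finset.univ.filter (fun c => z c = 1)).Nonempty
          · rw [if_pos hA]
            have h : 0 ≤ ∏ a ∈ N t, (1 - z a) := Finset.prod_nonneg fun c _ => by linarith [h1 c]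
            linarith
          · rw [if_neg hA]
            have h : ∏ a ∈ N t, (1 - z a) = 1 := by
              refine Finset.prod_eq_one fun c hc => ?_
              rcases hint c with h | h
              · rw [h, sub_zero]
              · exact absurd ⟨c, Finset.mem_inter.2 ⟨hc, Finset.mem_filter.2 ⟨Finset.mem_univ _, h⟩⟩⟩ hA
            rw [h, sub_self]

end Pool.Agent.Lib.P47j
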