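import Pool.Agent.Lib.P47k.KMU
import Pool.Agent.Lib.P47j.Hub
import Pool.Agent.Lib.P47j.PipG

/-!
The linear program for hub instances of k-means.
-/

open scoped BigOperators

namespace Pool.Agent.Lib.P47j

open Pool.Agent.Lib.P47k (KInst)

namespace UpJAux

open Pool.Agent.Lib.P47k.KMUAux

theorem conc (s : ℝ) (h0 : 0 ≤ s) (h1 : s ≤ 1) :
    (1 - 1 / Real.exp 1) * s ≤ 1 - Real.exp (-s) := by
  have h := convexOn_exp.2 (Set.mem_univ (0 : ℝ)) (Set.mem_univ (-1 : ℝ))
    (by linarith : (0 : ℝ) ≤ 1 - s) h0 (by ring)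
  simp only [smul_eq_mul, mul_zero, zero_add, mul_neg, mul_one, Real.exp_zero] at h
  rw [Real.exp_neg 1, ← one_div] at h
  linarith

theorem prod_exp {ι : Type} (S : Finset ι) (z : ι → ℝ) (h1 : ∀ a, z a ≤ 1) (s : ℝ)
    (hs : s ≤ ∑ a ∈ S, z a) : ∏ a ∈ S, (1 - z a) ≤ Real.exp (-s) := by
  calc ∏ a ∈ S, (1 - z a) ≤ ∏ a ∈ S, Real.exp (-z a) :=
        Finset.prod_le_prod (fun a _ => by linarith [h1 a])
          (fun a _ => Real.one_sub_le_exp_neg (z a))
    _ = Real.exp (∑ a ∈ S, -z a) := (Real.exp_sum S _).symm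
    _ ≤ Real.exp (-s) := by
        refine Real.exp_le_exp.2 ?_
        rw [Finset.sum_neg_distrib]
        linarith

theorem core {ι T : Type} [Fintype ι] [DecidableEq ι] [Fintype T] (N : T → Finset ι)
    (y : ι → ℝ) (hy : ∀ i, 0 ≤ y i) (x : T → ι → ℝ) (hx0 : ∀ t i, 0 ≤ x t i)
    (hx1 : ∀ t, ∑ i ∈ N t, x t i ≤ 1) (hxy : ∀ t, ∀ i ∈ N t, x t i ≤ y i) (κ h : ℕ)
    (hκ : 1 ≤ κ) (hh : h ≤ κ) (D : ℝ) (hD : 0 ≤ D) (hs : ∑ i, y i ≤ κ + D) (B : ℝ)
    (hB : 2 * (Fintype.card T : ℝ) ≤ B) :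
    ∃ A : Finset ι, A.card + h ≤ κ ∧
      ∑ t, (if (N t ∩ A).Nonempty then (1 : ℝ) else 2) ≤
        (1 + 1 / Real.exp 1 + (1 - 1 / Real.exp 1) * ((h : ℝ) / (κ : ℝ))) *
          (∑ t, (2 - ∑ i ∈ N t, x t i) + B * D) := by
  have hκ' : (1 : ℝ) ≤ κ := by exact_mod_cast hκ
  have hh' : (h : ℝ) ≤ κ := by exact_mod_cast hh
  have hh0 : (0 : ℝ) ≤ h := Nat.cast_nonneg h
  have hκ0 : (0 : ℝ) < κ := by linarith
  have hden : 0 < (κ : ℝ) + D := by linarith
  obtain ⟨t, ht⟩ : ∃ t : ℝ, t = ((κ : ℝ) - h) / (κ + D) := ⟨_, rfl⟩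
  have ht0 : 0 ≤ t := by
    rw [ht]
    exact div_nonneg (by linarith) hden.le
  have ht1 : t ≤ 1 := by
    rw [ht, div_le_one hden]
    linarith
  have ht2 : 1 - t ≤ (h : ℝ) / κ + D / κ := by
    have e : 1 - t = (h + D) / (κ + D) := by
      rw [ht]
      field_simp
      ring
    rw [e, ← add_div]
    exact div_le_div_of_nonneg_left (by linarith) hκ0 (by linarith)
  obtain ⟨e1, he1⟩ : ∃ e1 : ℝ, e1 = 1 / Real.exp 1 := ⟨_, rfl⟩
  have he0 : 0 ≤ e1 := by
    rw [he1]
    positivity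
  have he2 : e1 ≤ 1 := by
    rw [he1, div_le_one (Real.exp_pos 1)]
    exact Real.one_le_exp zero_le_one
  obtain ⟨A, hA, hcov⟩ := pipG N (κ - h) (fun i => t * min (y i) 1)
    (fun p => mul_nonneg ht0 (le_min (hy p) zero_le_one))
    (fun p => by
      have h1 : min (y p) 1 ≤ 1 := min_le_right _ _
      have h2 : 0 ≤ min (y p) 1 := le_min (hy p) zero_le_one
      nlinarith)
    (by
      have h1 : ∑ p, t * min (y p) 1 ≤ t * ∑ p, y p := by
        rw [Finset.mul_sum]
        exact Finset.sum_le_sum fun p _ => mul_le_mul_of_nonneg_left (min_le_left _ _) ht0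
      have h2 : t * ∑ p, y p ≤ t * (κ + D) := mul_le_mul_of_nonneg_left hs ht0
      have h3 : t * (κ + D) = (κ : ℝ) - h := by
        rw [ht, div_mul_cancel₀ _ hden.ne']
      rw [Nat.cast_sub hh]
      linarith)
  refine ⟨A, by omega, ?_⟩
  have hc0 : ∀ j, 0 ≤ ∑ i ∈ N j, x j i := fun j => Finset.sum_nonneg fun i _ => hx0 j i
  have hterm : ∀ j, t * ((1 - e1) * ∑ i ∈ N j, x j i) ≤
      1 - ∏ a ∈ N j, (1 - t * min (y a) 1) := by
    intro j
    have h1 : ∏ a ∈ N j, (1 - t * min (y a) 1) ≤ Real.exp (-(t * ∑ i ∈ N j, x j i)) := by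
      refine prod_exp (N j) (fun a => t * min (y a) 1) (fun p => ?_) _ ?_
      · have h1 : min (y p) 1 ≤ 1 := min_le_right _ _
        have h2 : 0 ≤ min (y p) 1 := le_min (hy p) zero_le_one
        nlinarith
      · rw [Finset.mul_sum]
        refine Finset.sum_le_sum fun i hi => mul_le_mul_of_nonneg_left ?_ ht0
        refine le_min (hxy j i hi) ?_
        exact (Finset.single_le_sum (f := fun i => x j i) (fun i _ => hx0 j i) hi).trans (hx1 j)
    have h2 := conc (t * ∑ i ∈ N j, x j i) (mul_nonneg ht0 (hc0 j)) (by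
      have := hx1 j
      have := hc0 j
      nlinarith)
    rw [← he1] at h2
    nlinarith
  have hcard : ((Finset.univ.filter (fun t' : T => (N t' ∩ A).Nonempty)).card : ℝ) =
      ∑ j, (if (N j ∩ A).Nonempty then (1 : ℝ) else 0) := by
    rw [Finset.card_filter, Nat.cast_sum]
    refine Finset.sum_congr rfl fun j _ => ?_
    split_ifs <;> simp
  have hlow : t * ((1 - e1) * ∑ j, ∑ i ∈ N j, x j i) ≤
      ∑ j, (if (N j ∩ A).Nonempty then (1 : ℝ) else 0) := by
    rw [← hcard]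
    refine le_trans ?_ hcov
    rw [Finset.mul_sum, Finset.mul_sum]
    exact Finset.sum_le_sum fun j _ => hterm j
  have hsplit : ∑ j, (if (N j ∩ A).Nonempty then (1 : ℝ) else 2) =
      2 * Fintype.card T - ∑ j, (if (N j ∩ A).Nonempty then (1 : ℝ) else 0) := by
    have : (2 : ℝ) * Fintype.card T = ∑ j : T, (2 : ℝ) := by
      rw [Finset.sum_const, nsmul_eq_mul, mul_comm, Finset.card_univ]
    rw [this, ← Finset.sum_sub_distrib]
    refine Finset.sum_congr rfl fun j _ => ?_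
    split_ifs <;> norm_num
  have hsum2 : ∑ j, (2 - ∑ i ∈ N j, x j i) = 2 * Fintype.card T - ∑ j, ∑ i ∈ N j, x j i := by
    rw [Finset.sum_sub_distrib, Finset.sum_const, nsmul_eq_mul, mul_comm, Finset.card_univ]
  have hC0 : 0 ≤ ∑ j, ∑ i ∈ N j, x j i := Finset.sum_nonneg fun j _ => hc0 j
  have hC1 : ∑ j, ∑ i ∈ N j, x j i ≤ Fintype.card T := by
    have h1 : ∑ j, ∑ i ∈ N j, x j i ≤ ∑ j : T, (1 : ℝ) := Finset.sum_le_sum fun j _ => hx1 j
    rwa [Finset.sum_const, nsmul_eq_mul, mul_one, Finset.card_univ] at h1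
  rw [hsplit, hsum2, ← he1]
  obtain ⟨C, hC⟩ : ∃ C : ℝ, C = ∑ j, ∑ i ∈ N j, x j i := ⟨_, rfl⟩
  obtain ⟨n, hn⟩ : ∃ n : ℝ, n = (Fintype.card T : ℝ) := ⟨_, rfl⟩
  obtain ⟨q, hq⟩ : ∃ q : ℝ, q = ∑ j, (if (N j ∩ A).Nonempty then (1 : ℝ) else 0) := ⟨_, rfl⟩
  rw [← hC] at hC0 hC1 hlow ⊢
  rw [← hn] at hC1 hB ⊢
  rw [← hq] at hlow ⊢
  obtain ⟨hk, hhk⟩ : ∃ hk : ℝ, hk = (h : ℝ) / κ := ⟨_, rfl⟩
  have hhk0 : 0 ≤ hk := by
    rw [hhk]
    positivity
  rw [← hhk] at ht2 ⊢
  have hDk : D / κ ≤ D := div_le_self hD hκ'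
  have hDk0 : 0 ≤ D / κ := div_nonneg hD hκ0.le
  obtain ⟨b, hb⟩ : ∃ b : ℝ, b = 1 - e1 := ⟨_, rfl⟩
  have hb0 : 0 ≤ b := by rw [hb]; linarith
  have hb1 : b ≤ 1 := by rw [hb]; linarith
  have e11 : 1 + e1 = 2 - b := by rw [hb]; ring
  rw [e11, ← hb]
  rw [← hb] at hlow
  have hn0 : 0 ≤ n := hC0.trans hC1
  -- step 1
  have g1 : 2 * n - q ≤ 2 * n - t * (b * C) := by linarith
  have hbt : b * t ≤ 1 := by nlinarith
  have g2 : 2 * n - t * (b * C) ≤ (2 * n - C) * (2 - b * t) := by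
    have : 0 ≤ (1 - b * t) * (n - C) := mul_nonneg (by linarith) (by linarith)
    nlinarith
  have h2nC : 0 ≤ 2 * n - C := by linarith
  have g3 : (2 * n - C) * (2 - b * t) ≤ (2 * n - C) * (2 - b + b * hk + b * D) := by
    refine mul_le_mul_of_nonneg_left ?_ h2nC
    have : b * (1 - t) ≤ b * (hk + D) := mul_le_mul_of_nonneg_left (by linarith) hb0
    nlinarith
  have hB0 : 0 ≤ B := by linarith
  have g4 : (2 * n - C) * (b * D) ≤ B * D := by
    have h1 : (2 * n - C) * (b * D) ≤ (2 * n - C) * (1 * D) :=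
      mul_le_mul_of_nonneg_left (mul_le_mul_of_nonneg_right hb1 hD) h2nC
    have h2 : (2 * n - C) * D ≤ B * D := mul_le_mul_of_nonneg_right (by linarith) hD
    linarith
  have hBD : 0 ≤ B * D := mul_nonneg hB0 hD
  have g5 : B * D ≤ (2 - b + b * hk) * (B * D) := by
    have : 1 ≤ 2 - b + b * hk := by
      have := mul_nonneg hb0 hhk0
      linarith
    nlinarith
  calc 2 * n - q ≤ (2 * n - C) * (2 - b + b * hk + b * D) := g1.trans (g2.trans g3)
    _ = (2 - b + b * hk) * (2 * n - C) + (2 * n - C) * (b * D) := by ring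
    _ ≤ (2 - b + b * hk) * (2 * n - C) + (2 - b + b * hk) * (B * D) := by linarith
    _ = (2 - b + b * hk) * (2 * n - C + B * D) := by ring

end UpJAux

open Pool.Agent.Lib.P47k.KMUAux UpJAux

theorem kjUp (m M k : ℕ) : ∃ (Y : Type) (_ : AddCommGroup Y) (_ : Module ℝ Y) (R : ℕ)
    (A : Fin R → Y →ₗ[ℝ] ℝ) (c : Fin R → ℝ) (pt : Finset (Fin m) → (Fin M → Fin m) → Y),
    R ≤ 2 * (m + 1) * (M + 1) ∧
    (∀ S σ, S.Nonempty → S.card ≤ k → (∀ j, σ j ∈ S) → ∀ i, A i (pt S σ) ≤ c i) ∧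
    ∀ (I : KInst m M) (H : Finset (Fin m)) (F : Finset (Fin M)), IsHub I H F → F.card < k →
      F.card + H.card ≤ k →
      I.ApproxBy {y | ∀ i, A i y ≤ c i} pt k
        (1 + 1 / Real.exp 1 +
          (1 - 1 / Real.exp 1) * ((H.card : ℝ) / ((k : ℝ) - F.card))) := by
  classical
  let e := Fintype.equivFin (JU m M)
  refine ⟨YU m M, inferInstance, inferInstance, Fintype.card (JU m M), fun j => AU m M (e.symm j),
    fun j => CU m M k (e.symm j), PU m M, card_JU m M,
    fun S σ _ hS hσ j => PU_feasible m M k S σ hS hσ (e.symm j), ?_⟩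
  intro I H F hI hFk hFHk
  refine ⟨∑ j ∈ I.clients, ∑ i, (‖I.cl j - I.fac i‖ ^ 2) • ux m M j i, 0, ?_, ?_⟩
  · intro S σ _ _ hσ
    rw [cost_nearest I S σ hσ]
    simp only [LinearMap.sum_apply, LinearMap.smul_apply, ux_apply, smul_eq_mul, PU, add_zero]
    refine Finset.sum_congr rfl fun j _ => ?_
    simp
  · intro y hy
    have hy' : ∀ j : JU m M, AU m M j y ≤ CU m M k j := by
      intro j
      have := hy (e j)
      simpa using this
    have hy0 : ∀ i, 0 ≤ y.1 i := by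
      intro i
      have := hy' (Sum.inl i)
      simp only [AU, CU, LinearMap.neg_apply, uy_apply] at this
      linarith
    have hyk : ∑ i, y.1 i ≤ k := by
      have := hy' (Sum.inr (Sum.inl ()))
      simpa only [AU, CU, LinearMap.sum_apply, uy_apply] using this
    have hx0 : ∀ j i, 0 ≤ y.2 j i := by
      intro j i
      have := hy' (Sum.inr (Sum.inr (Sum.inl (j, i))))
      simp only [AU, CU, LinearMap.neg_apply, ux_apply] at this
      linarith
    have hxy : ∀ j i, y.2 j i ≤ y.1 i := by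
      intro j i
      have := hy' (Sum.inr (Sum.inr (Sum.inr (Sum.inl (j, i)))))
      simp only [AU, CU, LinearMap.sub_apply, ux_apply, uy_apply] at this
      linarith
    have hx1 : ∀ j, ∑ i, y.2 j i = 1 := by
      intro j
      have h1 := hy' (Sum.inr (Sum.inr (Sum.inr (Sum.inr (Sum.inl j)))))
      have h2 := hy' (Sum.inr (Sum.inr (Sum.inr (Sum.inr (Sum.inr j)))))
      simp only [AU, CU, LinearMap.neg_apply, LinearMap.sum_apply, ux_apply] at h1 h2
      linarith
    obtain ⟨L, hLdef⟩ : ∃ L : ℝ, L = 4 * (M : ℝ) + 4 := ⟨_, rfl⟩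
    have hM0 : (0 : ℝ) ≤ M := Nat.cast_nonneg M
    have hL : 4 ≤ L := by linarith
    obtain ⟨κ, hκdef⟩ : ∃ κ : ℕ, κ = k - F.card := ⟨_, rfl⟩
    have hκ1 : 1 ≤ κ := by omega
    have hκh : H.card ≤ κ := by omega
    have hκ2 : (κ : ℝ) = (k : ℝ) - F.card := by
      rw [hκdef, Nat.cast_sub hFk.le]
    rw [← hκ2]
    have hexp : 0 < 1 / Real.exp 1 := by positivity
    have hexp1 : 1 / Real.exp 1 ≤ 1 := by
      rw [div_le_one (Real.exp_pos 1)]
      exact Real.one_le_exp zero_le_one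
    have hα : 0 < 1 + 1 / Real.exp 1 + (1 - 1 / Real.exp 1) * ((H.card : ℝ) / (κ : ℝ)) := by
      have h1 : 0 ≤ (1 - 1 / Real.exp 1) * ((H.card : ℝ) / (κ : ℝ)) :=
        mul_nonneg (by linarith) (by positivity)
      linarith
    -- the parts of the objective
    obtain ⟨W, hW⟩ : ∃ W : Fin M → ℝ, W = fun j => ∑ i, ‖I.cl j - I.fac i‖ ^ 2 * y.2 j i :=
      ⟨_, rfl⟩
    have hW0 : ∀ j, 0 ≤ W j := by
      intro j
      rw [hW]
      exact Finset.sum_nonneg fun i _ => mul_nonneg (by positivity) (hx0 j i)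
    have hobj : (∑ j ∈ I.clients, ∑ i, (‖I.cl j - I.fac i‖ ^ 2) • ux m M j i) y + 0 =
        ∑ j ∈ I.clients, W j := by
      rw [hW]
      simp only [LinearMap.sum_apply, LinearMap.smul_apply, ux_apply, smul_eq_mul, add_zero]
    rw [hobj, div_le_iff₀ hα, mul_comm]
    -- near and far clients
    obtain ⟨nearC, hnearC⟩ : ∃ nearC, nearC = I.clients \ F := ⟨_, rfl⟩
    have hWs : ∑ j ∈ I.clients, W j = ∑ j ∈ nearC, W j + ∑ j ∈ F, W j := by
      rw [hnearC, Finset.sum_sdiff hI.sub]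
    have hnm : ∀ t : {j // j ∈ nearC}, t.1 ∈ I.clients ∧ t.1 ∉ F := by
      rintro ⟨j, hj⟩
      rw [hnearC, Finset.mem_sdiff] at hj
      exact hj
    obtain ⟨N, hN⟩ : ∃ N : {j // j ∈ nearC} → Finset (Fin m),
      N = fun t => Finset.univ.filter (fun i => ‖I.cl t.1 - I.fac i‖ ^ 2 = 1) := ⟨_, rfl⟩
    have hNmem : ∀ t i, i ∈ N t ↔ ‖I.cl t.1 - I.fac i‖ ^ 2 = 1 := by
      intro t i
      rw [hN]
      simp
    obtain ⟨yl, hyl⟩ : ∃ yl : Fin m → ℝ,
      yl = fun i => if ∃ j ∈ F, I.fac i = I.cl j then 0 else y.1 i := ⟨_, rfl⟩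
    obtain ⟨Yf, hYf⟩ : ∃ Yf : Fin M → ℝ,
      Yf = fun j => ∑ i, if I.fac i = I.cl j then y.1 i else 0 := ⟨_, rfl⟩
    obtain ⟨D, hDdef⟩ : ∃ D : ℝ, D = ∑ r ∈ F, max 0 (1 - Yf r) := ⟨_, rfl⟩
    have hD0 : 0 ≤ D := by
      rw [hDdef]
      exact Finset.sum_nonneg fun r _ => le_max_left _ _
    have hyl0 : ∀ p, 0 ≤ yl p := by
      intro p
      rw [hyl]
      change 0 ≤ if ∃ j ∈ F, I.fac p = I.cl j then 0 else y.1 p
      split_ifs
      · exact le_rfl
      · exact hy0 p
    have hFinj : ∀ a ∈ F, ∀ b ∈ F, I.cl a = I.cl b → a = b := by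
      intro a ha b hb hab
      by_contra hne
      have h1 := (hI.far a ha).2.2 b (hI.sub hb) (fun h => hne h.symm)
      rw [hab, sub_self, norm_zero] at h1
      linarith
    have hs : ∑ i, yl i ≤ κ + D := by
      have h1 : ∑ i, yl i + ∑ r ∈ F, Yf r ≤ ∑ i, y.1 i := by
        rw [hyl, hYf, Finset.sum_comm (s := F), ← Finset.sum_add_distrib]
        refine Finset.sum_le_sum fun i _ => ?_
        by_cases h : ∃ j ∈ F, I.fac i = I.cl j
        · rw [if_pos h, zero_add]
          obtain ⟨j, hj, hij⟩ := h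
          rw [Finset.sum_eq_single j]
          · rw [if_pos hij]
          · intro b hb hbj
            refine if_neg fun h' => hbj ?_
            exact hFinj b hb j hj (h'.symm.trans hij)
          · intro h
            exact absurd hj h
        · rw [if_neg h]
          have e1 : ∑ r ∈ F, (if I.fac i = I.cl r then y.1 i else 0) = 0 := by
            refine Finset.sum_eq_zero fun r hr => if_neg fun h' => h ⟨r, hr, h'⟩
          rw [e1, add_zero]
      have h2 : (F.card : ℝ) - ∑ r ∈ F, Yf r ≤ D := by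
        have e : (F.card : ℝ) = ∑ r ∈ F, (1 : ℝ) := by
          rw [Finset.sum_const, nsmul_eq_mul, mul_one]
        rw [e, ← Finset.sum_sub_distrib, hDdef]
        exact Finset.sum_le_sum fun r _ => le_max_right _ _
      rw [hκ2]
      linarith
    have hB : 2 * (Fintype.card {j // j ∈ nearC} : ℝ) ≤ L ^ 2 := by
      have h1 : Fintype.card {j // j ∈ nearC} ≤ M := by
        rw [Fintype.card_coe]
        exact (Finset.card_le_univ _).trans_eq (Fintype.card_fin M)
      have h2 : (Fintype.card {j // j ∈ nearC} : ℝ) ≤ M := by exact_mod_cast h1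
      rw [hLdef]
      nlinarith
    have hNx1 : ∀ t : {j // j ∈ nearC}, ∑ i ∈ N t, y.2 t.1 i ≤ 1 := by
      intro t
      rw [← hx1 t.1]
      exact Finset.sum_le_sum_of_subset_of_nonneg (Finset.subset_univ _) fun i _ _ => hx0 _ i
    have hNfar : ∀ t : {j // j ∈ nearC}, ∀ i ∈ N t, ¬ ∃ j ∈ F, I.fac i = I.cl j := by
      rintro t i hi ⟨j, hj, hij⟩
      rw [hNmem, hij] at hi
      have h1 := (hI.far j hj).2.2 t.1 (hnm t).1 (fun h => (hnm t).2 (h ▸ hj))
      rw [← hLdef, norm_sub_rev] at h1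
      nlinarith
    have hNxy : ∀ t : {j // j ∈ nearC}, ∀ i ∈ N t, y.2 t.1 i ≤ yl i := by
      intro t i hi
      rw [hyl]
      change y.2 t.1 i ≤ if ∃ j ∈ F, I.fac i = I.cl j then 0 else y.1 i
      rw [if_neg (hNfar t i hi)]
      exact hxy _ i
    obtain ⟨A, hA, hcost⟩ := core N yl hyl0 (fun t i => y.2 t.1 i) (fun t i => hx0 t.1 i)
      hNx1 hNxy κ H.card hκ1 hκh D hD0 hs (L ^ 2) hB
    -- the near part
    have hWnear : ∑ t, (2 - ∑ i ∈ N t, y.2 t.1 i) ≤ ∑ j ∈ nearC, W j := by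
      rw [← Finset.sum_coe_sort nearC W]
      refine Finset.sum_le_sum fun t _ => ?_
      have e : 2 - ∑ i ∈ N t, y.2 t.1 i = ∑ i, (2 * y.2 t.1 i -
          (if ‖I.cl t.1 - I.fac i‖ ^ 2 = 1 then y.2 t.1 i else 0)) := by
        rw [Finset.sum_sub_distrib, ← Finset.mul_sum, hx1 t.1, hN, mul_one, Finset.sum_filter]
      rw [e, hW]
      refine Finset.sum_le_sum fun i _ => ?_
      have h0 := hx0 t.1 i
      by_cases h : ‖I.cl t.1 - I.fac i‖ ^ 2 = 1
      · rw [if_pos h, h]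
        linarith
      · rw [if_neg h]
        have h1 := ((hI.near t.1 (hnm t).1 (hnm t).2).1 i).resolve_left h
        have h2 := mul_le_mul_of_nonneg_right h1 h0
        linarith
    -- the far part
    have hWfar : L ^ 2 * D ≤ ∑ j ∈ F, W j := by
      rw [hDdef, Finset.mul_sum]
      refine Finset.sum_le_sum fun r hr => ?_
      rcases le_total (1 - Yf r) 0 with h | h
      · rw [max_eq_left h, mul_zero]
        exact hW0 _
      · rw [max_eq_right h]
        have h2 : 1 - Yf r ≤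
            ∑ i, (if I.fac i = I.cl r then 0 else y.2 r i) := by
          rw [← hx1 r, hYf, ← Finset.sum_sub_distrib]
          refine Finset.sum_le_sum fun i _ => ?_
          have h1 := hxy r i
          split_ifs <;> linarith
        have h3 : L ^ 2 * ∑ i, (if I.fac i = I.cl r then 0 else y.2 r i) ≤ W r := by
          rw [hW, Finset.mul_sum]
          refine Finset.sum_le_sum fun i _ => ?_
          split_ifs with hi
          · rw [mul_zero]
            exact mul_nonneg (by positivity) (hx0 _ _)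
          · have h4 := ((hI.far r hr).2.1 i).resolve_left hi
            rw [← hLdef] at h4
            exact mul_le_mul_of_nonneg_right (pow_le_pow_left₀ (by linarith) h4 2) (hx0 _ _)
        exact (mul_le_mul_of_nonneg_left h2 (sq_nonneg _)).trans h3
    -- the centres
    obtain ⟨Z, hZ⟩ : ∃ Z : Finset (EuclideanSpace ℝ (Fin I.N)),
        Z = (A ∪ H).image I.fac ∪ F.image I.cl := ⟨_, rfl⟩
    have hZk : Z.card ≤ k := by
      rw [hZ]
      have h1 := Finset.card_union_le ((A ∪ H).image I.fac) (F.image I.cl)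
      have h2 : ((A ∪ H).image I.fac).card ≤ (A ∪ H).card := Finset.card_image_le
      have h3 : (F.image I.cl).card ≤ F.card := Finset.card_image_le
      have h4 := Finset.card_union_le A H
      omega
    obtain ⟨d, hd⟩ : ∃ d : Fin M → ℝ, d = fun j => if h : j ∈ nearC then
      (if (N ⟨j, h⟩ ∩ A).Nonempty then 1 else 2) else 0 := ⟨_, rfl⟩
    have hdc : ∀ j ∈ I.clients, ∃ z ∈ Z, ‖I.cl j - z‖ ^ 2 ≤ d j := by
      intro j hj
      rw [hd]
      by_cases hjn : j ∈ nearC
      · simp only [dif_pos hjn]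
        by_cases hne : (N ⟨j, hjn⟩ ∩ A).Nonempty
        · rw [if_pos hne]
          obtain ⟨i, hi⟩ := hne
          rw [Finset.mem_inter, hNmem] at hi
          refine ⟨I.fac i, ?_, hi.1.le⟩
          rw [hZ]
          exact Finset.mem_union_left _
            (Finset.mem_image_of_mem _ (Finset.mem_union_left _ hi.2))
        · rw [if_neg hne]
          obtain ⟨i, hi, hi2⟩ := (hI.near j hj (hnm ⟨j, hjn⟩).2).2
          refine ⟨I.fac i, ?_, hi2.le⟩
          rw [hZ]
          exact Finset.mem_union_left _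
            (Finset.mem_image_of_mem _ (Finset.mem_union_right _ hi))
      · simp only [dif_neg hjn]
        have h1 : j ∈ F := by
          by_contra hcon
          refine hjn ?_
          rw [hnearC, Finset.mem_sdiff]
          exact ⟨hj, hcon⟩
        refine ⟨I.cl j, ?_, ?_⟩
        · rw [hZ]
          exact Finset.mem_union_right _ (Finset.mem_image_of_mem _ h1)
        · rw [sub_self, norm_zero]
          norm_num
    have hdsum : ∑ j ∈ I.clients, d j =
        ∑ t : {j // j ∈ nearC}, (if (N t ∩ A).Nonempty then (1 : ℝ) else 2) := by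
      have h1 : ∑ j ∈ I.clients, d j = ∑ j ∈ nearC, d j := by
        symm
        refine Finset.sum_subset ?_ ?_
        · rw [hnearC]
          exact Finset.sdiff_subset
        · intro j _ hj
          rw [hd]
          exact dif_neg hj
      rw [h1, ← Finset.sum_coe_sort nearC d]
      refine Finset.sum_congr rfl fun t _ => ?_
      rw [hd]
      exact dif_pos t.2
    have hopt : I.opt k ≤ ∑ j ∈ I.clients, d j := by
      by_cases hZne : Z.Nonempty
      · exact (opt_le I k Z hZne hZk).trans (cost_le I Z d hdc)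
      · have hce : I.clients = ∅ := by
          by_contra hcon
          obtain ⟨j, hj⟩ := Finset.nonempty_iff_ne_empty.2 hcon
          obtain ⟨z, hz, -⟩ := hdc j hj
          exact hZne ⟨z, hz⟩
        refine (opt_le I k {0} (Finset.singleton_nonempty _) ?_).trans ?_
        · rw [Finset.card_singleton]
          omega
        · unfold KInst.cost
          rw [hce, Finset.sum_empty, Finset.sum_empty]
    refine (hopt.trans (hdsum.trans_le hcost)).trans ?_
    rw [hWs]
    refine mul_le_mul_of_nonneg_left ?_ hα.le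
    linarith

end Pool.Agent.Lib.P47j
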